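import Pool.Agent.CTQ.StB

/-!
# CTQ, module CLN: clones with recoloured pairs (helper58)
-/

set_option autoImplicit false

namespace CTQ

open FirstOrder Set Pool.Agent.Helper6.Str Pool.Agent.Helper5.Multi Pool.Agent.Helper79.VC

section cln

variable {P Q R : Type} {D : CData P Q R} {s : CStr P R ℕ}

/-- the points of the clones -/
abbrev clnB (D : CData P Q R) (s : CStr P R ℕ) : Type :=
  (Fp D s) ⊕ ({v // v ∉ Fp D s} × ℕ)

/-- the labels of the clones -/
def clnL (D : CData P Q R) (s : CStr P R ℕ) : clnB D s → R :=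
  Sum.elim (fun a => s.lam a.1) fun a => s.lam a.1.1

/-- the types of the clones, `C` gives the types of the pairs in different copies -/
def clnT (D : CData P Q R) (s : CStr P R ℕ)
    (C : ({v // v ∉ Fp D s} × ℕ) → ({v // v ∉ Fp D s} × ℕ) → P) : clnB D s → clnB D s → P
  | .inl a, .inl b => s.tp a.1 b.1
  | .inl a, .inr b => s.tp a.1 b.1.1
  | .inr a, .inl b => s.tp a.1.1 b.1
  | .inr a, .inr b => if a.2 = b.2 then s.tp a.1.1 b.1.1 else
      if a.2 < b.2 then C a b else D.inv (C b a)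

/-- the clones -/
def clnN (D : CData P Q R) (s : CStr P R ℕ)
    (C : ({v // v ∉ Fp D s} × ℕ) → ({v // v ∉ Fp D s} × ℕ) → P) : CStr P R (clnB D s) where
  lam := clnL D s
  tp := clnT D s C

open Classical in
/-- the inclusion of the structure as the copy `i` -/
noncomputable def clnI (D : CData P Q R) (s : CStr P R ℕ) (i : ℕ) (a : ℕ) : clnB D s :=
  if h : a ∈ Fp D s then .inl ⟨a, h⟩ else .inr (⟨a, h⟩, i)

theorem clnI_in (i : ℕ) {a : ℕ} (h : a ∈ Fp D s) : clnI D s i a = .inl ⟨a, h⟩ := dif_pos h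

theorem clnI_out (i : ℕ) {a : ℕ} (h : a ∉ Fp D s) : clnI D s i a = .inr (⟨a, h⟩, i) := dif_neg h

theorem clnI_lam (i a : ℕ) : clnL D s (clnI D s i a) = s.lam a := by
  by_cases h : a ∈ Fp D s
  · rw [clnI_in i h]
    rfl
  · rw [clnI_out i h]
    rfl

theorem clnI_inj (i : ℕ) : Function.Injective (clnI D s i) := by
  intro a b hab
  by_cases h : a ∈ Fp D s
  · by_cases h' : b ∈ Fp D s
    · rw [clnI_in i h, clnI_in i h'] at hab
      exact congrArg Subtype.val (Sum.inl.inj hab)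
    · rw [clnI_in i h, clnI_out i h'] at hab
      exact (Sum.inl_ne_inr hab).elim
  · by_cases h' : b ∈ Fp D s
    · rw [clnI_out i h, clnI_in i h'] at hab
      exact (Sum.inr_ne_inl hab).elim
    · rw [clnI_out i h, clnI_out i h'] at hab
      exact congrArg Subtype.val (congrArg Prod.fst (Sum.inr.inj hab))

variable {C : ({v // v ∉ Fp D s} × ℕ) → ({v // v ∉ Fp D s} × ℕ) → P}

theorem clnI_tp (i a b : ℕ) : clnT D s C (clnI D s i a) (clnI D s i b) = s.tp a b := by
  by_cases h : a ∈ Fp D s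
  · by_cases h' : b ∈ Fp D s
    · rw [clnI_in i h, clnI_in i h']
      rfl
    · rw [clnI_in i h, clnI_out i h']
      rfl
  · by_cases h' : b ∈ Fp D s
    · rw [clnI_out i h, clnI_in i h']
      rfl
    · rw [clnI_out i h, clnI_out i h']
      exact if_pos rfl

/-- every point is in a copy -/
theorem clnI_ex (p : clnB D s) : ∃ i a, p = clnI D s i a := by
  rcases p with a | ⟨a, i⟩
  · exact ⟨0, a.1, (clnI_in 0 a.2).symm⟩
  · exact ⟨i, a.1, (clnI_out i a.2).symm⟩

/-- the clones have the prescribed numbers -/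
theorem clnN_isC (hs : IsC D s)
    (hC : ∀ a b, a.2 < b.2 → C a b ∈ II D (s.lam a.1.1) (s.lam b.1.1)) : IsC D (clnN D s C) := by
  have hne : ∀ (a : Fp D s) (b : {v // v ∉ Fp D s}), a.1 ≠ b.1 := fun a b h => b.2 (h ▸ a.2)
  refine ⟨?_, fun m => ?_, fun p ρ q => ?_⟩
  · rintro (a | ⟨a, i⟩) (b | ⟨b, j⟩) hab
    · exact hs.sym _ _ fun h => hab (by rw [Subtype.ext h])
    · exact hs.sym _ _ (hne a b)
    · exact hs.sym _ _ (hne b a).symm
    · show (if j = i then s.tp b.1 a.1 else if j < i then C (b, j) (a, i) else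
        D.inv (C (a, i) (b, j))) = D.inv (if i = j then s.tp a.1 b.1 else
        if i < j then C (a, i) (b, j) else D.inv (C (b, j) (a, i)))
      rcases lt_trichotomy i j with h | h | h
      · rw [if_neg (by omega), if_neg (by omega), if_neg (by omega), if_pos h]
      · subst h
        rw [if_pos rfl, if_pos rfl]
        exact hs.sym _ _ fun h => hab (by rw [Subtype.ext h])
      · rw [if_neg (by omega), if_pos h, if_neg (by omega), if_neg (by omega), D.inv_inv]
  · have h1 : (clnI D s 0 '' {x | s.lam x = m}) ⊆ {x | (clnN D s C).lam x = m} := by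
      rintro _ ⟨a, ha, rfl⟩
      show clnL D s (clnI D s 0 a) = m
      rw [clnI_lam]
      exact ha
    have h2 := encard_le_encard h1
    rw [(clnI_inj 0).encard_image, hs.cls] at h2
    by_cases h3 : D.u m = ⊤
    · rw [h3] at h2 ⊢
      exact top_le_iff.1 h2
    · refine le_antisymm ?_ h2
      rw [← hs.cls m, ← (clnI_inj (D := D) (s := s) 0).encard_image]
      refine encard_le_encard ?_
      rintro (a | ⟨a, i⟩) ha
      · exact ⟨a.1, ha, clnI_in 0 a.2⟩
      · exact (a.2 ⟨(.inl m, []), ha, h3⟩).elim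
  · obtain ⟨i, a, rfl⟩ := clnI_ex p
    have h1 : clnI D s i '' {y | y ≠ a ∧ s.tp a y = ρ ∧ D.pi (s.lam y) = q} ⊆
        {y | y ≠ clnI D s i a ∧ (clnN D s C).tp (clnI D s i a) y = ρ ∧
          D.pi ((clnN D s C).lam y) = q} := by
      rintro _ ⟨y, ⟨h2, h3, h4⟩, rfl⟩
      refine ⟨fun h => h2 (clnI_inj i h), ?_, ?_⟩
      · show clnT D s C (clnI D s i a) (clnI D s i y) = ρ
        rw [clnI_tp]
        exact h3
      · show D.pi (clnL D s (clnI D s i y)) = q
        rw [clnI_lam]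
        exact h4
    have h2 := encard_le_encard h1
    rw [(clnI_inj i).encard_image, hs.cnt] at h2
    have hlam : (clnN D s C).lam (clnI D s i a) = s.lam a := clnI_lam i a
    rw [hlam]
    by_cases h3 : D.D (s.lam a) ρ q = ⊤
    · rw [h3] at h2 ⊢
      exact top_le_iff.1 h2
    · refine le_antisymm ?_ h2
      rw [← hs.cnt a ρ q, ← (clnI_inj (D := D) (s := s) i).encard_image]
      refine encard_le_encard ?_
      have key : ∀ b, clnI D s i b ∈ {y | y ≠ clnI D s i a ∧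
          (clnN D s C).tp (clnI D s i a) y = ρ ∧ D.pi ((clnN D s C).lam y) = q} →
          clnI D s i b ∈ clnI D s i '' {y | y ≠ a ∧ s.tp a y = ρ ∧ D.pi (s.lam y) = q} := by
        rintro b ⟨h4, h5, h6⟩
        refine ⟨b, ⟨fun h => h4 (by rw [h]), ?_, ?_⟩, rfl⟩
        · rw [← h5]
          exact (clnI_tp i a b).symm
        · rw [← h6]
          exact congrArg D.pi (clnI_lam i b).symm
      rintro (b | ⟨b, j⟩) hb
      · have h4 := clnI_in (D := D) (s := s) i b.2
        rw [show (Sum.inl b : clnB D s) = clnI D s i b.1 from h4.symm] at hb ⊢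
        exact key _ hb
      · by_cases hij : j = i
        · subst hij
          rw [show (Sum.inr (b, j) : clnB D s) = clnI D s j b.1 from
            (clnI_out j b.2).symm] at hb ⊢
          exact key _ hb
        · exfalso
          obtain ⟨_, h5, h6⟩ := hb
          have h6' : D.pi (s.lam b.1) = q := h6
          by_cases ha : a ∈ Fp D s
          · rw [clnI_in i ha] at h5
            have h7 : s.tp a b.1 = ρ := h5
            refine b.2 (Fp_closed ha ⟨(hne ⟨a, ha⟩ b).symm, ?_⟩)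
            rw [h7, h6']
            exact h3
          · rw [clnI_out i ha] at h5
            have h7 : (if i = j then s.tp a b.1 else if i < j then C (⟨a, ha⟩, i) (b, j) else
              D.inv (C (b, j) (⟨a, ha⟩, i))) = ρ := h5
            rw [if_neg (Ne.symm hij)] at h7
            have h8 : ρ ∈ II D (s.lam a) (s.lam b.1) := by
              rw [← h7]
              split_ifs with h8
              · exact hC (⟨a, ha⟩, i) (b, j) h8
              · exact II_symm (hC (b, j) (⟨a, ha⟩, i) (by show j < i; omega))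
            apply h3
            rw [← h6']
            exact h8.1

end cln

/-! ### the colours -/

section col

variable {P : Type}

open Classical in
/-- the colour of the pair in the copies `i < j`; `e`, `e'`: the points are copies of `x` -/
noncomputable def clnC (ρ ρ' σ : P) (b : Bool) (e e' : Prop) (i j : ℕ) : P :=
  if e ∧ i = 0 then (if e' ∧ 3 ≤ j then ρ else ρ')
  else if e ∧ e' ∧ i = 1 ∧ 3 ≤ j then (if j % 2 = 0 then ρ' else ρ)
  else if e ∧ e' ∧ i = 2 ∧ 3 ≤ j then (if j % 2 = 1 then ρ' else ρ)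
  else if e ∧ e' ∧ 3 ≤ i ∧ i % 2 = 1 ∧ j % 2 = 0 then
    (if b = true ∧ (j - 4) / 2 ≤ 2 * ((i - 3) / 2) then ρ' else ρ)
  else σ

theorem clnC_mem {ρ ρ' σ : P} (S : Set P) (h : ρ ∈ S) (h' : ρ' ∈ S) (h'' : σ ∈ S) (b : Bool)
    (e e' : Prop) (i j : ℕ) : clnC ρ ρ' σ b e e' i j ∈ S := by
  unfold clnC
  split_ifs <;> assumption

end col

/-! ### decoding -/

section dec

variable {P R β : Type}

/-- the points of the two sorts -/
def clnS (m : R) (ρ ρ' : P) (b : Bool) (s : CStr P R β) (v : Fin 3 → β) : Set β :=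
  {y | (∀ i, y ≠ v i) ∧ s.lam y = m ∧ s.tp (v 0) y = ρ ∧ s.tp (v (if b then 1 else 2)) y = ρ'}

/-- the event which encodes a digit -/
def clnE (m : R) (ρ ρ' : P) (n : ℕ) (s : CStr P R β) (v : Fin 3 → β) : Prop :=
  ∃ a ∈ clnS m ρ ρ' false s v,
    {y | y ∈ clnS m ρ ρ' true s v ∧ y ≠ a ∧ s.tp a y = ρ'}.encard = ((n + 1 : ℕ) : ℕ∞)

theorem clnS_iso {m : R} {ρ ρ' : P} {b : Bool} {s s' : CStr P R β} {e : β ≃ β} (h : CIso s s' e)
    (v : Fin 3 → β) (y : β) :
    e y ∈ clnS m ρ ρ' b s' (e ∘ v) ↔ y ∈ clnS m ρ ρ' b s v := by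
  have h0 : (∀ i, e y ≠ (e ∘ v) i) ↔ ∀ i, y ≠ v i :=
    forall_congr' fun i => not_congr e.injective.eq_iff
  constructor
  · rintro ⟨h1, h2, h3, h4⟩
    have h5 := h0.1 h1
    refine ⟨h5, (h.1 y).symm.trans h2, ?_, ?_⟩
    · rw [← h.2 _ _ (h5 0).symm]
      exact h3
    · rw [← h.2 _ _ (h5 _).symm]
      exact h4
  · rintro ⟨h1, h2, h3, h4⟩
    refine ⟨h0.2 h1, (h.1 y).trans h2, ?_, ?_⟩
    · exact (h.2 _ _ (h1 0).symm).trans h3
    · exact (h.2 _ _ (h1 _).symm).trans h4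

theorem clnE_iso {m : R} {ρ ρ' : P} {n : ℕ} {s s' : CStr P R β} {e : β ≃ β} (h : CIso s s' e)
    (v : Fin 3 → β) (hE : clnE m ρ ρ' n s v) : clnE m ρ ρ' n s' (e ∘ v) := by
  obtain ⟨a, ha, h1⟩ := hE
  refine ⟨e a, (clnS_iso h v a).2 ha, ?_⟩
  rw [← h1]
  refine (encard_equiv e fun y => ?_).symm
  show (e y ∈ clnS m ρ ρ' true s' (e ∘ v) ∧ e y ≠ e a ∧ s'.tp (e a) (e y) = ρ') ↔
    (y ∈ clnS m ρ ρ' true s v ∧ y ≠ a ∧ s.tp a y = ρ')
  refine and_congr (clnS_iso h v y) ?_
  constructor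
  · rintro ⟨h2, h3⟩
    have h4 : y ≠ a := fun h4 => h2 (by rw [h4])
    exact ⟨h4, by rw [← h.2 _ _ h4.symm]; exact h3⟩
  · rintro ⟨h2, h3⟩
    exact ⟨fun h4 => h2 (e.injective h4), by rw [h.2 _ _ h2.symm]; exact h3⟩

theorem clnE_meas [Countable β] {N : (ℕ → Bool) → CStr P R β}
    (hlam : ∀ a m, MeasurableSet {z | (N z).lam a = m})
    (htp : ∀ a b ρ, MeasurableSet {z | (N z).tp a b = ρ}) (m : R) (ρ ρ' : P) (n : ℕ)
    (v : Fin 3 → β) : MeasurableSet {z | clnE m ρ ρ' n (N z) v} := by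
  have hS : ∀ (b : Bool) (y : β), MeasurableSet {z | y ∈ clnS m ρ ρ' b (N z) v} := by
    intro b y
    exact (MeasurableSet.const _).inter ((hlam y m).inter ((htp _ _ _).inter (htp _ _ _)))
  have h : {z | clnE m ρ ρ' n (N z) v} = ⋃ a, ({z | a ∈ clnS m ρ ρ' false (N z) v} ∩
      {z | {y | y ∈ clnS m ρ ρ' true (N z) v ∧ y ≠ a ∧ (N z).tp a y = ρ'}.encard =
        ((n + 1 : ℕ) : ℕ∞)}) := by
    ext z
    simp only [mem_iUnion, mem_inter_iff, mem_ofPred_eq, clnE]
  rw [h]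
  refine MeasurableSet.iUnion fun a => (hS false a).inter ?_
  exact measurableSet_encard_eq _
    (fun y => (hS true y).inter ((MeasurableSet.const _).inter (htp _ _ _))) _

end dec

/-! ### the colours of the copies of `x` -/

section val

variable {P : Type} {ρ ρ' σ : P}

theorem clnC_other {b : Bool} {e e' : Prop} {i j : ℕ} (h : ¬ e) :
    clnC ρ ρ' σ b e e' i j = σ := by
  unfold clnC
  rw [if_neg (fun h' => h h'.1), if_neg (fun h' => h h'.1), if_neg (fun h' => h h'.1),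
    if_neg (fun h' => h h'.1)]

theorem clnC_zero {b : Bool} {e e' : Prop} {j : ℕ} (h : e) (hne : ρ ≠ ρ') :
    clnC ρ ρ' σ b e e' 0 j = ρ ↔ e' ∧ 3 ≤ j := by
  classical
  unfold clnC
  rw [if_pos ⟨h, rfl⟩]
  split_ifs with h1
  · exact ⟨fun _ => h1, fun _ => rfl⟩
  · exact ⟨fun h2 => (hne h2.symm).elim, fun h2 => (h1 h2).elim⟩

theorem clnC_one {b : Bool} {e e' : Prop} {j : ℕ} (h : e) (h' : e') (hj : 3 ≤ j) (hne : ρ ≠ ρ') :
    clnC ρ ρ' σ b e e' 1 j = ρ' ↔ j % 2 = 0 := by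
  classical
  unfold clnC
  rw [if_neg (by omega), if_pos ⟨h, h', rfl, hj⟩]
  split_ifs with h1
  · exact ⟨fun _ => h1, fun _ => rfl⟩
  · exact ⟨fun h2 => (hne h2).elim, fun h2 => (h1 h2).elim⟩

theorem clnC_two {b : Bool} {e e' : Prop} {j : ℕ} (h : e) (h' : e') (hj : 3 ≤ j) (hne : ρ ≠ ρ') :
    clnC ρ ρ' σ b e e' 2 j = ρ' ↔ j % 2 = 1 := by
  classical
  unfold clnC
  rw [if_neg (by omega), if_neg (by omega), if_pos ⟨h, h', rfl, hj⟩]
  split_ifs with h1
  · exact ⟨fun _ => h1, fun _ => rfl⟩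
  · exact ⟨fun h2 => (hne h2).elim, fun h2 => (h1 h2).elim⟩

theorem clnC_odd {b : Bool} {e e' : Prop} {k l : ℕ} (h : e) (h' : e') (hne : ρ ≠ ρ') :
    clnC ρ ρ' σ b e e' (2 * k + 3) (2 * l + 4) = ρ' ↔ b = true ∧ l ≤ 2 * k := by
  classical
  unfold clnC
  rw [if_neg (by omega), if_neg (by omega), if_neg (by omega),
    if_pos ⟨h, h', by omega, by omega, by omega⟩, show (2 * l + 4 - 4) / 2 = l by omega,
    show (2 * k + 3 - 3) / 2 = k by omega]
  split_ifs with h1
  · exact ⟨fun _ => h1, fun _ => rfl⟩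
  · exact ⟨fun h2 => (hne h2).elim, fun h2 => (h1 h2).elim⟩

theorem clnC_even {b : Bool} {e e' : Prop} {l j : ℕ} :
    clnC ρ ρ' σ b e e' (2 * l + 4) j = σ := by
  classical
  unfold clnC
  rw [if_neg (by omega), if_neg (by omega), if_neg (by omega), if_neg (by omega)]

end val

/-- a type which depends on one digit -/
theorem cln_clopen {P : Type} {f : (ℕ → Bool) → P} (h : ∃ (k : ℕ) (g : Bool → P),
    ∀ z, f z = g (z k)) (ρ : P) : IsClopen {z | f z = ρ} := by
  obtain ⟨k, g, hg⟩ := h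
  have h1 : {z | f z = ρ} = (fun z : ℕ → Bool => z k) ⁻¹' {b | g b = ρ} := by
    ext z
    show f z = ρ ↔ g (z k) = ρ
    rw [hg]
  rw [h1]
  exact (isClopen_discrete _).preimage (continuous_apply k)

theorem thm_CLN (hFIN : St_FIN) : St_CLN := by
  classical
  intro P Q R _ _ D s x ρ ρ' hNQ hs hx hρ hρ' hne
  obtain ⟨_, hfree⟩ := hFIN P Q R ℕ D s hs hNQ
  obtain ⟨T, hT⟩ : ∃ T : R → R → P, ∀ k l, (II D k l).Nonempty → T k l ∈ II D k l := by
    refine ⟨fun k l => if h : (II D k l).Nonempty then h.choose else ρ, fun k l h => ?_⟩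
    show (if h : (II D k l).Nonempty then h.choose else ρ) ∈ II D k l
    rw [dif_pos h]
    exact h.choose_spec
  obtain ⟨σ, hσ, hσ'⟩ : ∃ σ, σ ∈ II D (s.lam x) (s.lam x) ∧ D.inv σ ≠ ρ' := by
    by_cases h : D.inv ρ' = ρ
    · exact ⟨ρ', hρ', by rw [h]; exact hne⟩
    · exact ⟨ρ, hρ, fun h' => h (by rw [← h', D.inv_inv])⟩
  obtain ⟨C, hCdef⟩ : ∃ C : (ℕ → Bool) → ({v // v ∉ Fp D s} × ℕ) → ({v // v ∉ Fp D s} × ℕ) → P,
    ∀ z a b, C z a b = if s.lam a.1.1 = s.lam x ∧ s.lam b.1.1 = s.lam x then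
      clnC ρ ρ' σ (z ((a.2 - 3) / 2)) (a.1.1 = x) (b.1.1 = x) a.2 b.2
      else T (s.lam a.1.1) (s.lam b.1.1) := ⟨_, fun _ _ _ => rfl⟩
  have hC : ∀ z a b, C z a b ∈ II D (s.lam a.1.1) (s.lam b.1.1) := by
    intro z a b
    rw [hCdef]
    split_ifs with h
    · rw [h.1, h.2]
      exact clnC_mem _ hρ hρ' hσ _ _ _ _ _
    · exact hT _ _ ((hfree a.1.1 a.1.2).2 _ (hfree b.1.1 b.1.2).1)
  obtain ⟨N, hN⟩ : ∃ N : (ℕ → Bool) → CStr P R (clnB D s), ∀ z, N z = clnN D s (C z) :=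
    ⟨_, fun _ => rfl⟩
  have hlamN : ∀ z a, (N z).lam a = clnL D s a := fun z a => by rw [hN]; rfl
  have htpN : ∀ z a b, (N z).tp a b = clnT D s (C z) a b := fun z a b => by rw [hN]; rfl
  have hinf : Infinite (clnB D s) := Infinite.of_injective
    (fun n : ℕ => (Sum.inr (⟨x, hx⟩, n) : clnB D s)) fun a b h =>
      congrArg Prod.snd (Sum.inr.inj h)
  have hdig : ∀ a b : clnB D s, ∃ (k : ℕ) (g : Bool → P), ∀ z, (N z).tp a b = g (z k) := by
    have hconst : ∀ (a b : clnB D s) (c : P), (∀ z, (N z).tp a b = c) →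
        ∃ (k : ℕ) (g : Bool → P), ∀ z, (N z).tp a b = g (z k) :=
      fun a b c h => ⟨0, fun _ => c, h⟩
    have hCd : ∀ a b : {v // v ∉ Fp D s} × ℕ, ∃ (k : ℕ) (g : Bool → P),
        ∀ z, C z a b = g (z k) := fun a b => ⟨(a.2 - 3) / 2, fun t =>
          if s.lam a.1.1 = s.lam x ∧ s.lam b.1.1 = s.lam x then
            clnC ρ ρ' σ t (a.1.1 = x) (b.1.1 = x) a.2 b.2
          else T (s.lam a.1.1) (s.lam b.1.1), fun z => hCdef z a b⟩
    rintro (a | a) (b | b)
    · exact hconst _ _ (s.tp a.1 b.1) fun z => by rw [htpN]; rfl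
    · exact hconst _ _ (s.tp a.1 b.1.1) fun z => by rw [htpN]; rfl
    · exact hconst _ _ (s.tp a.1.1 b.1) fun z => by rw [htpN]; rfl
    · have h1 : ∀ z, (N z).tp (.inr a) (.inr b) = if a.2 = b.2 then s.tp a.1.1 b.1.1 else
          if a.2 < b.2 then C z a b else D.inv (C z b a) := fun z => by rw [htpN]; rfl
      by_cases h2 : a.2 = b.2
      · exact hconst _ _ (s.tp a.1.1 b.1.1) fun z => by rw [h1, if_pos h2]
      · by_cases h3 : a.2 < b.2
        · obtain ⟨k, g, hg⟩ := hCd a b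
          exact ⟨k, g, fun z => by rw [h1, if_neg h2, if_pos h3, hg]⟩
        · obtain ⟨k, g, hg⟩ := hCd b a
          exact ⟨k, fun t => D.inv (g t), fun z => by rw [h1, if_neg h2, if_neg h3, hg]⟩
  have hlamc : ∀ a m, IsClopen {z | (N z).lam a = m} := fun a m =>
    cln_clopen ⟨0, fun _ => clnL D s a, fun z => hlamN z a⟩ m
  have htpc : ∀ a b ρ, IsClopen {z | (N z).tp a b = ρ} := fun a b ρ => cln_clopen (hdig a b) ρ
  refine perfKC N (fun z => ?_) hlamc (fun a b ρ _ => htpc a b ρ) (k := 3)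
    (fun i => Sum.inr (⟨x, hx⟩, i.val)) (clnE (s.lam x) ρ ρ')
    (fun n s s' e v h hE => clnE_iso h v hE)
    (fun n v => clnE_meas (fun a m => (hlamc a m).2.measurableSet)
      (fun a b ρ => (htpc a b ρ).2.measurableSet) _ _ _ _ _) ?_
  · rw [hN]
    exact clnN_isC hs fun a b _ => hC z a b
  intro z n
  -- the types
  obtain ⟨xx, hxx⟩ : ∃ xx : {v // v ∉ Fp D s}, xx = ⟨x, hx⟩ := ⟨_, rfl⟩
  have hxv : xx.1 = x := by rw [hxx]
  rw [← hxx]
  have ht1 : ∀ i j (v : {v // v ∉ Fp D s}), i < j → s.lam v.1 = s.lam x →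
      (N z).tp (.inr (xx, i)) (.inr (v, j)) =
        clnC ρ ρ' σ (z ((i - 3) / 2)) (xx.1 = x) (v.1 = x) i j := by
    intro i j v hij hv
    rw [htpN]
    show (if i = j then s.tp xx.1 v.1 else if i < j then C z (xx, i) (v, j) else
      D.inv (C z (v, j) (xx, i))) = _
    rw [if_neg (by omega), if_pos hij, hCdef]
    exact if_pos ⟨congrArg s.lam hxv, hv⟩
  have ht2 : ∀ i j (v : {v // v ∉ Fp D s}), j < i → s.lam v.1 = s.lam x →
      (N z).tp (.inr (xx, i)) (.inr (v, j)) =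
        D.inv (clnC ρ ρ' σ (z ((j - 3) / 2)) (v.1 = x) (xx.1 = x) j i) := by
    intro i j v hij hv
    rw [htpN]
    show (if i = j then s.tp xx.1 v.1 else if i < j then C z (xx, i) (v, j) else
      D.inv (C z (v, j) (xx, i))) = _
    rw [if_neg (by omega), if_neg (by omega), hCdef]
    exact congrArg D.inv (if_pos ⟨hv, congrArg s.lam hxv⟩)
  have ht3 : ∀ i (a : Fp D s), (N z).tp (.inr (xx, i)) (.inl a) = s.tp xx.1 a.1 :=
    fun i a => by rw [htpN]; rfl
  -- the two sorts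
  have hS : ∀ (b : Bool) (y : clnB D s), y ∈ clnS (s.lam x) ρ ρ' b (N z)
      (fun i : Fin 3 => Sum.inr (xx, i.val)) ↔
      ∃ j, 3 ≤ j ∧ j % 2 = (if b = true then 0 else 1) ∧ y = .inr (xx, j) := by
    intro b y
    constructor
    · rintro ⟨h1, h2, h3, h4⟩
      rcases y with a | ⟨v, j⟩
      · rw [ht3] at h3 h4
        exact (hne (h3.symm.trans h4)).elim
      · rw [hlamN] at h2
        have h2' : s.lam v.1 = s.lam x := h2
        have h5 : 0 < j := by
          by_contra h5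
          have h6 : j = 0 := by omega
          subst h6
          have h7 : ¬ v.1 = x := fun h7 => h1 0 (by
            rw [show v = xx from Subtype.ext (h7.trans hxv.symm)]
            rfl)
          rw [ht2 _ 0 v (by cases b <;> decide) h2', clnC_other h7] at h4
          exact hσ' h4
        have h6 := (clnC_zero hxv hne).1 ((ht1 0 j v h5 h2').symm.trans h3)
        have h7 : v = xx := Subtype.ext (h6.1.trans hxv.symm)
        subst h7
        refine ⟨j, h6.2, ?_, rfl⟩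
        cases b
        · have h8 := (ht1 2 j v (by omega) h2').symm.trans h4
          exact (clnC_two hxv hxv h6.2 hne).1 h8
        · have h8 := (ht1 1 j v (by omega) h2').symm.trans h4
          exact (clnC_one hxv hxv h6.2 hne).1 h8
    · rintro ⟨j, h1, h2, rfl⟩
      have h3 : s.lam xx.1 = s.lam x := congrArg s.lam hxv
      refine ⟨fun i h4 => ?_, (hlamN z _).trans h3, ?_, ?_⟩
      · have h5 : j = i.val := congrArg Prod.snd (Sum.inr.inj h4)
        have h6 := i.isLt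
        omega
      · exact (ht1 0 j xx (by omega) h3).trans ((clnC_zero hxv hne).2 ⟨hxv, h1⟩)
      · cases b
        · exact (ht1 2 j xx (by omega) h3).trans ((clnC_two hxv hxv h1 hne).2 h2)
        · exact (ht1 1 j xx (by omega) h3).trans ((clnC_one hxv hxv h1 hne).2 h2)
  have h3 : s.lam xx.1 = s.lam x := congrArg s.lam hxv
  have hcnt : ∀ k, {y | y ∈ clnS (s.lam x) ρ ρ' true (N z)
      (fun i : Fin 3 => Sum.inr (xx, i.val)) ∧ y ≠ .inr (xx, 2 * k + 3) ∧
      (N z).tp (.inr (xx, 2 * k + 3)) y = ρ'} =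
      {y | z k = true ∧ ∃ l ∈ Finset.Icc k (2 * k), y = .inr (xx, 2 * l + 4)} := by
    intro k
    ext y
    constructor
    · rintro ⟨h4, _, h5⟩
      obtain ⟨j, h6, h7, rfl⟩ := (hS true y).1 h4
      rw [if_pos rfl] at h7
      obtain ⟨l, rfl⟩ : ∃ l, j = 2 * l + 4 := ⟨(j - 4) / 2, by omega⟩
      by_cases h8 : l < k
      · rw [ht2 _ _ xx (by omega) h3, clnC_even] at h5
        exact (hσ' h5).elim
      · rw [ht1 _ _ xx (by omega) h3, clnC_odd hxv hxv hne,
          show (2 * k + 3 - 3) / 2 = k by omega] at h5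
        exact ⟨h5.1, l, Finset.mem_Icc.2 ⟨by omega, h5.2⟩, rfl⟩
    · rintro ⟨h4, l, h5, rfl⟩
      rw [Finset.mem_Icc] at h5
      refine ⟨(hS true _).2 ⟨_, by omega, by rw [if_pos rfl]; omega, rfl⟩, fun h6 => ?_, ?_⟩
      · have h7 : 2 * l + 4 = 2 * k + 3 := congrArg Prod.snd (Sum.inr.inj h6)
        omega
      · rw [ht1 _ _ xx (by omega) h3, clnC_odd hxv hxv hne,
          show (2 * k + 3 - 3) / 2 = k by omega]
        exact ⟨h4, h5.2⟩
  have hcard : ∀ k, z k = true → {y : clnB D s | z k = true ∧ ∃ l ∈ Finset.Icc k (2 * k),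
      y = .inr (xx, 2 * l + 4)}.encard = ((k + 1 : ℕ) : ℕ∞) := by
    intro k hk
    have h4 : {y : clnB D s | z k = true ∧ ∃ l ∈ Finset.Icc k (2 * k),
      y = .inr (xx, 2 * l + 4)} = (fun l : ℕ => (.inr (xx, 2 * l + 4) : clnB D s)) ''
        (Finset.Icc k (2 * k) : Finset ℕ) := by
      ext y
      constructor
      · rintro ⟨_, l, hl, rfl⟩
        exact ⟨l, hl, rfl⟩
      · rintro ⟨l, hl, rfl⟩
        exact ⟨hk, l, hl, rfl⟩
    rw [h4, Function.Injective.encard_image, Set.encard_coe_eq_coe_finsetCard, Nat.card_Icc]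
    · congr 1
      omega
    · intro a b hab
      have h5 : 2 * a + 4 = 2 * b + 4 := congrArg Prod.snd (Sum.inr.inj hab)
      omega
  constructor
  · intro hz
    refine ⟨.inr (xx, 2 * n + 3), (hS false _).2 ⟨_, by omega, ?_, rfl⟩, ?_⟩
    · show (2 * n + 3) % 2 = 1
      omega
    · rw [hcnt, hcard n hz]
  · rintro ⟨a, ha, h4⟩
    obtain ⟨j, h5, h6, rfl⟩ := (hS false _).1 ha
    have h6' : j % 2 = 1 := h6
    obtain ⟨k, rfl⟩ : ∃ k, j = 2 * k + 3 := ⟨(j - 3) / 2, by omega⟩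
    rw [hcnt] at h4
    by_cases hz : z k = true
    · rw [hcard k hz] at h4
      have h7 : k + 1 = n + 1 := by exact_mod_cast h4
      rw [← show k = n by omega]
      exact hz
    · exfalso
      have h7 : {y : clnB D s | z k = true ∧ ∃ l ∈ Finset.Icc k (2 * k),
          y = .inr (xx, 2 * l + 4)} = ∅ := by
        ext y
        exact ⟨fun h => (hz h.1).elim, fun h => h.elim⟩
      rw [h7, encard_empty] at h4
      have h8 : (0 : ℕ) = n + 1 := by exact_mod_cast h4
      omega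

end CTQ
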