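import Pool.Agent.CTQ.StB

/-!
# CTQ, module DCM: the decomposition of a structure into pieces (helper79)
-/

set_option autoImplicit false

namespace CTQ

open FirstOrder Set Pool.Agent.Helper6.Str Pool.Agent.Helper5.Multi Pool.Agent.Helper79.VC

variable {P Q R : Type}

/-- adjacency outside the algebraic part -/
def dcmE (D : CData P Q R) (τ : R → R → P) (s : CStr P R ℕ) (a b : ℕ) : Prop :=
  a ∉ Fp D s ∧ b ∉ Fp D s ∧ a ≠ b ∧ s.tp a b ≠ τ (s.lam a) (s.lam b)

theorem dcm_oc (hF : St_FIN) {D : CData P Q R} (hN : NoQ D) {s : CStr P R ℕ} (hs : IsC D s)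
    {x : ℕ} (hx : x ∉ Fp D s) : Oc D (s.lam x) :=
  ⟨(hF P Q R ℕ D s hs (hN s hs)).2 x hx, s, hs, x, hx, rfl⟩

theorem dcm_symm (hF : St_FIN) {D : CData P Q R} {τ : R → R → P} (hN : NoQ D)
    (hτ : IsTau D τ) {s : CStr P R ℕ} (hs : IsC D s) {a b : ℕ} (h : dcmE D τ s a b) :
    dcmE D τ s b a := by
  obtain ⟨h1, h2, h3, h4⟩ := h
  refine ⟨h2, h1, h3.symm, fun h5 => h4 ?_⟩
  have h6 := (hτ (s.lam b) (s.lam a) (dcm_oc hF hN hs h2) (dcm_oc hF hN hs h1)).2
  rw [h6, ← h5]
  exact hs.sym b a h3.symm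

theorem dcm_rsymm {α : Type} {r : α → α → Prop} (hr : ∀ a b, r a b → r b a) {a b : α}
    (h : Relation.ReflTransGen r a b) : Relation.ReflTransGen r b a := by
  induction h with
  | refl => exact Relation.ReflTransGen.refl
  | tail _ hbc ih => exact Relation.ReflTransGen.head (hr _ _ hbc) ih

/-- the classes -/
def dcmS (hF : St_FIN) {D : CData P Q R} {τ : R → R → P} (hN : NoQ D)
    (hτ : IsTau D τ) {s : CStr P R ℕ} (hs : IsC D s) : Setoid {x // x ∉ Fp D s} where
  r a b := Relation.ReflTransGen (dcmE D τ s) a.1 b.1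
  iseqv := ⟨fun _ => Relation.ReflTransGen.refl,
    fun h => dcm_rsymm (fun _ _ h1 => dcm_symm hF hN hτ hs h1) h,
    fun h h' => h.trans h'⟩

theorem dcm_encard_sum {α : Type} {A B C : Set α} (hd : Disjoint A B) (h : A ∪ B = C) :
    A.encard + B.encard = C.encard := by
  rw [← h, Set.encard_union_eq hd]

theorem thm_DCM (hF : St_FIN) : St_DCM := by
  classical
  intro P Q R D τ hN hτ s s₀ hs hs₀ e he ho
  obtain ⟨he1, he2⟩ := he
  have hlam : ∀ f : Fp D s₀, s.lam (e f).1 = s₀.lam f.1 := he1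
  have htp : ∀ f g : Fp D s₀, f ≠ g → s.tp (e f).1 (e g).1 = s₀.tp f.1 g.1 := he2
  let St := dcmS hF hN hτ hs
  let cl : {x // x ∉ Fp D s} → Quotient St := Quotient.mk St
  -- two points in different classes have the default type
  have hdef : ∀ x y : ℕ, ∀ (hx : x ∉ Fp D s) (hy : y ∉ Fp D s), cl ⟨x, hx⟩ ≠ cl ⟨y, hy⟩ →
      s.tp x y = τ (s.lam x) (s.lam y) := by
    intro x y hx hy hne
    by_contra h
    apply hne
    apply Quotient.sound
    show Relation.ReflTransGen (dcmE D τ s) x y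
    refine Relation.ReflTransGen.single ⟨hx, hy, fun h' => hne ?_, h⟩
    subst h'
    rfl
  have hII : ∀ x y : ℕ, ∀ (hx : x ∉ Fp D s) (hy : y ∉ Fp D s), cl ⟨x, hx⟩ ≠ cl ⟨y, hy⟩ →
      D.D (s.lam x) (s.tp x y) (D.pi (s.lam y)) = ⊤ := by
    intro x y hx hy hne
    rw [hdef x y hx hy hne]
    exact (hτ _ _ (dcm_oc hF hN hs hx) (dcm_oc hF hN hs hy)).1.1
  -- the elements of a class
  let el : Quotient St → Set ℕ := fun i => {x | ∃ h : x ∉ Fp D s, cl ⟨x, h⟩ = i}
  -- the points of the algebraic part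
  have hA1 : ∀ (x : ℕ), x ∉ Fp D s → ∀ (ρ : P) (q : Q),
      {f : Fp D s₀ | s.tp x (e f).1 = ρ ∧ D.pi (s₀.lam f.1) = q}.encard =
      {y | y ∈ Fp D s ∧ y ≠ x ∧ s.tp x y = ρ ∧ D.pi (s.lam y) = q}.encard := by
    intro x hx ρ q
    have hinj : Function.Injective fun f : Fp D s₀ => (e f).1 :=
      Subtype.val_injective.comp e.injective
    rw [← hinj.encard_image]
    congr 1
    ext y
    constructor
    · rintro ⟨f, ⟨h1, h2⟩, rfl⟩
      refine ⟨(e f).2, fun h3 => hx (h3 ▸ (e f).2), h1, ?_⟩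
      rw [hlam]
      exact h2
    · rintro ⟨h1, h2, h3, h4⟩
      refine ⟨e.symm ⟨y, h1⟩, ⟨?_, ?_⟩, ?_⟩
      · rw [Equiv.apply_symm_apply]
        exact h3
      · rw [← hlam, Equiv.apply_symm_apply]
        exact h4
      · show (e (e.symm ⟨y, h1⟩)).1 = y
        rw [Equiv.apply_symm_apply]
  -- indices of the points of a label
  have hidx : ∀ n : R, Nonempty
      ({y // y ∉ Fp D s ∧ s.lam y = n} ≃ {k : ℕ // (k : ℕ∞) < outC D s₀ n}) := by
    intro n
    refine nonempty_equiv_of_encard (A := {y | y ∉ Fp D s ∧ s.lam y = n})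
      (B := {k : ℕ | (k : ℕ∞) < outC D s₀ n}) (Set.to_countable _) (Set.to_countable _) ?_
    rw [encard_lt_nat, ho]
    rfl
  let p : Quotient St → Piece D τ (s₀.restr (Fp D s₀)) (outC D s₀) := fun i =>
    { el := el i
      lam := s.lam
      tp := s.tp
      fr := fun x f => s.tp x (e f).1
      ne := by
        obtain ⟨x, rfl⟩ := Quotient.exists_rep i
        exact ⟨x.1, x.2, rfl⟩
      free := fun x hx => dcm_oc hF hN hs hx.1
      sym := fun x _ y _ hxy => hs.sym x y hxy
      finF := by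
        rintro x ⟨hx, -⟩ f
        by_contra hne
        have hxe : x ≠ (e f).1 := fun h => hx (h ▸ (e f).2)
        apply hx
        refine Fp_closed (x := (e f).1) (e f).2 ⟨hxe, ?_⟩
        rw [hs.sym x (e f).1 hxe, hlam]
        exact hne
      finC := by
        rintro x ⟨hx, hxi⟩ ρ q hfin
        have h1 := hA1 x hx ρ q
        show {f : Fp D s₀ | s.tp x (e f).1 = ρ ∧ D.pi (s₀.lam f.1) = q}.encard + _ = _
        rw [h1]
        rw [← hs.cnt x ρ q]
        refine dcm_encard_sum ?_ ?_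
        · rw [Set.disjoint_left]
          rintro y ⟨h2, -⟩ ⟨⟨h3, -⟩, -⟩
          exact h3 h2
        · ext y
          constructor
          · rintro (⟨h2, h3, h4, h5⟩ | ⟨h2, h3, h4, h5⟩)
            · exact ⟨h3, h4, h5⟩
            · exact ⟨h3, h4, h5⟩
          · rintro ⟨h3, h4, h5⟩
            by_cases hy : y ∈ Fp D s
            · exact Or.inl ⟨hy, h3, h4, h5⟩
            · refine Or.inr ⟨⟨hy, ?_⟩, h3, h4, h5⟩
              by_contra hne
              apply hfin
              rw [← h4, ← h5]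
              refine hII x y hx hy fun h6 => hne ?_
              rw [← h6]
              exact hxi
      infC := by
        rintro x ⟨hx, hxi⟩ ρ q hinf
        rw [or_iff_not_imp_left]
        intro hne
        have h1 := hA1 x hx ρ q
        have hne' : {y | y ∈ Fp D s ∧ y ≠ x ∧ s.tp x y = ρ ∧ D.pi (s.lam y) = q}.encard +
            {y | y ∈ el i ∧ y ≠ x ∧ s.tp x y = ρ ∧ D.pi (s.lam y) = q}.encard ≠ ⊤ := by
          rw [← h1]
          exact hne
        have h2 := hs.cnt x ρ q
        rw [hinf] at h2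
        -- the points in other classes
        have h3 : {y | y ∉ Fp D s ∧ y ∉ el i ∧ s.tp x y = ρ ∧ D.pi (s.lam y) = q}.Infinite := by
          intro hfin
          apply hne'
          have h4 : {y | y ≠ x ∧ s.tp x y = ρ ∧ D.pi (s.lam y) = q} ⊆
              ({y | y ∈ Fp D s ∧ y ≠ x ∧ s.tp x y = ρ ∧ D.pi (s.lam y) = q} ∪
              {y | y ∈ el i ∧ y ≠ x ∧ s.tp x y = ρ ∧ D.pi (s.lam y) = q}) ∪
              {y | y ∉ Fp D s ∧ y ∉ el i ∧ s.tp x y = ρ ∧ D.pi (s.lam y) = q} := by
            rintro y ⟨h5, h6, h7⟩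
            by_cases hy : y ∈ Fp D s
            · exact Or.inl (Or.inl ⟨hy, h5, h6, h7⟩)
            · by_cases hy' : y ∈ el i
              · exact Or.inl (Or.inr ⟨hy', h5, h6, h7⟩)
              · exact Or.inr ⟨hy, hy', h6, h7⟩
          have h5 : ({y | y ∈ Fp D s ∧ y ≠ x ∧ s.tp x y = ρ ∧ D.pi (s.lam y) = q} ∪
              {y | y ∈ el i ∧ y ≠ x ∧ s.tp x y = ρ ∧ D.pi (s.lam y) = q}).Infinite := by
            intro hf
            have h6 := ((hf.union hfin).subset h4).encard_lt_top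
            rw [h2] at h6
            exact lt_irrefl _ h6
          have h6 := Set.encard_union_le
            {y | y ∈ Fp D s ∧ y ≠ x ∧ s.tp x y = ρ ∧ D.pi (s.lam y) = q}
            {y | y ∈ el i ∧ y ≠ x ∧ s.tp x y = ρ ∧ D.pi (s.lam y) = q}
          rw [h5.encard_eq] at h6
          exact top_le_iff.1 h6
        have h7 : ∀ y, y ∉ Fp D s → y ∉ el i → s.tp x y = ρ → τ (s.lam x) (s.lam y) = ρ := by
          intro y hy hy' hty
          rw [← hty]
          refine (hdef x y hx hy fun h8 => hy' ⟨hy, ?_⟩).symm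
          rw [← h8]
          exact hxi
        let g : ℕ → R × ℕ := fun y =>
          if h : y ∉ Fp D s then (s.lam y, ((hidx (s.lam y)).some ⟨y, h, rfl⟩).1) else (s.lam y, 0)
        have hg : ∀ y (h : y ∉ Fp D s),
            g y = (s.lam y, ((hidx (s.lam y)).some ⟨y, h, rfl⟩).1) := fun y h => dif_pos h
        have hginj : Set.InjOn g
            {y | y ∉ Fp D s ∧ y ∉ el i ∧ s.tp x y = ρ ∧ D.pi (s.lam y) = q} := by
          rintro y ⟨hy, -⟩ z ⟨hz, -⟩ hyz
          rw [hg y hy, hg z hz] at hyz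
          obtain ⟨h9, h10⟩ := Prod.mk.inj hyz
          have key : ∀ (n n' : R) (hn : s.lam y = n) (hn' : s.lam z = n'), n = n' →
              ((hidx n).some ⟨y, hy, hn⟩).1 = ((hidx n').some ⟨z, hz, hn'⟩).1 → y = z := by
            intro n n' hn hn' hnn h11
            subst hnn
            have h12 := (hidx n).some.injective (Subtype.ext h11)
            exact congrArg Subtype.val h12
          exact key _ _ rfl rfl h9 h10
        refine (h3.image hginj).mono ?_
        rintro _ ⟨y, ⟨hy, hy', h8, h9⟩, rfl⟩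
        rw [hg y hy]
        exact ⟨((hidx (s.lam y)).some ⟨y, hy, rfl⟩).2, h9, h7 y hy hy' h8⟩
      conn := by
        rintro x ⟨hx, hxi⟩ y ⟨hy, hyi⟩
        have h1 : Relation.ReflTransGen (dcmE D τ s) x y :=
          Quotient.exact (hxi.trans hyi.symm)
        have h2 : ∀ z, Relation.ReflTransGen (dcmE D τ s) x z →
            Relation.ReflTransGen (fun a b => b ∈ el i ∧ a ≠ b ∧
              s.tp a b ≠ τ (s.lam a) (s.lam b)) x z := by
          intro z hz
          induction hz with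
          | refl => exact Relation.ReflTransGen.refl
          | tail hb hc ih =>
            refine ih.tail ⟨⟨hc.2.1, ?_⟩, hc.2.2.1, hc.2.2.2⟩
            rw [← hxi]
            exact (Quotient.sound (s := St) (hb.tail hc)).symm
        exact h2 y h1 }
  -- the bijection
  let φ : Pos (Fp D s₀) (Piece.el (D := D) (τ := τ) (sF := s₀.restr (Fp D s₀))
      (o := outC D s₀)) p → ℕ := fun a => match a with
    | .inl f => (e f).1
    | .inr x => x.1.2
  have hφ : Function.Bijective φ := by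
    constructor
    · rintro (f | x) (g | y) h
      · exact congrArg Sum.inl (e.injective (Subtype.ext h))
      · obtain ⟨h1, -⟩ := y.2
        exact absurd (show y.1.2 ∈ Fp D s from (show (e f).1 = y.1.2 from h) ▸ (e f).2) h1
      · obtain ⟨h1, -⟩ := x.2
        exact absurd (show x.1.2 ∈ Fp D s from (show x.1.2 = (e g).1 from h) ▸ (e g).2) h1
      · obtain ⟨⟨i, x⟩, hx1, hx2⟩ := x
        obtain ⟨⟨j, y⟩, hy1, hy2⟩ := y
        have h1 : x = y := h
        subst h1
        have h2 : i = j := hx2.symm.trans hy2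
        subst h2
        rfl
    · intro y
      by_cases hy : y ∈ Fp D s
      · refine ⟨.inl (e.symm ⟨y, hy⟩), ?_⟩
        show (e (e.symm ⟨y, hy⟩)).1 = y
        rw [Equiv.apply_symm_apply]
      · exact ⟨.inr ⟨(cl ⟨y, hy⟩, y), hy, rfl⟩, rfl⟩
  let Φ := Equiv.ofBijective φ hφ
  have hΦ : CIso (asmC p) s Φ := by
    constructor
    · rintro (f | x)
      · exact hlam f
      · rfl
    · rintro (f | x) (g | y) hab
      · exact htp f g fun h => hab (congrArg Sum.inl h)
      · have hy : y.1.2 ∉ Fp D s := y.2.1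
        have hne : y.1.2 ≠ (e f).1 := fun h => hy (h ▸ (e f).2)
        exact hs.sym y.1.2 (e f).1 hne
      · rfl
      · obtain ⟨hx1, hx2⟩ := x.2
        obtain ⟨hy1, hy2⟩ := y.2
        by_cases h : x.1.1 = y.1.1
        · exact (if_pos h).symm
        · refine Eq.trans ?_ (if_neg h).symm
          refine hdef _ _ hx1 hy1 fun h' => h ?_
          rw [← hx2, ← hy2]
          exact h'
  refine ⟨Quotient St, inferInstance, p, ⟨hs.of_iso hΦ.symm, ?_, fun m => ?_⟩,
    iso_toL_iff.2 ⟨Φ, hΦ⟩⟩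
  · exact Infinite.of_surjective φ hφ.2
  · have h1 : {x | x ∉ Fp D s ∧ s.lam x = m} ⊆
        (fun x : {x : Quotient St × ℕ // x.2 ∈ (p x.1).el} => x.1.2) ''
        {x : {x : Quotient St × ℕ // x.2 ∈ (p x.1).el} | (p x.1.1).lam x.1.2 = m} := by
      rintro x ⟨hx, hxm⟩
      exact ⟨⟨(cl ⟨x, hx⟩, x), hx, rfl⟩, hxm, rfl⟩
    have h2 : outC D s₀ m = {x | x ∉ Fp D s ∧ s.lam x = m}.encard := congrFun ho m
    exact h2.le.trans ((Set.encard_le_encard h1).trans (Set.encard_image_le _ _))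

end CTQ
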