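import Pool.Agent.CTQ.StB

/-!
# CTQ: [FIN] the definable sets are finite, and the labels outside are free
-/

set_option autoImplicit false

namespace CTQ

open FirstOrder Set Pool.Agent.Helper6.Str Pool.Agent.Helper5.Multi Pool.Agent.Helper79.VC

private theorem FIN_G0 {P Q R V : Type} {D : CData P Q R} {s : CStr P R V} (hs : IsC D s)
    (hN : NQ D s) (b : R ⊕ (R × R × ℕ)) : (G0 D s b).Finite := by
  rcases b with m | ⟨m, n, r⟩
  · by_cases hm : D.u m = ⊤
    · refine (Set.finite_empty (α := V)).subset fun x hx => ?_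
      exact hx.2 hm
    · have h1 : {x | s.lam x = m}.Finite := by
        rw [← Set.encard_ne_top_iff, hs.cls m]
        exact hm
      exact h1.subset fun x hx => hx.1
  · by_cases hc : D.u m = ⊤ ∧ D.u n = ⊤ ∧ II D m n = ∅
    · obtain ⟨hm, hn, hII⟩ := hc
      have hII' : II D n m = ∅ := by
        rw [Set.eq_empty_iff_forall_notMem]
        intro ρ hρ
        have h1 := II_symm hρ
        rw [hII] at h1
        exact h1
      have hinf : {x | s.lam x = n}.Infinite := by
        rw [← Set.encard_eq_top_iff, hs.cls n]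
        exact hn
      obtain ⟨Y, hY, hYc⟩ := hinf.exists_subset_card_eq (r + 1)
      have hU : ((Y : Set V) ∪ ⋃ y ∈ (Y : Set V), {x | s.lam x = m ∧ Arr D s y x}).Finite :=
        Y.finite_toSet.union (Y.finite_toSet.biUnion fun y hy =>
          hN n m y hn hm hII' (hY hy))
      refine hU.subset fun x hx => ?_
      by_cases hxY : x ∈ (Y : Set V)
      · exact Or.inl hxY
      · refine Or.inr ?_
        obtain ⟨hx1, -, -, -, hx5⟩ := hx
        have h1 : ∃ y ∈ Y, ¬ Arr D s x y := by
          by_contra hcon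
          push Not at hcon
          have h2 : (Y : Set V) ⊆ {y | s.lam y = n ∧ Arr D s x y} := fun y hy =>
            ⟨hY hy, hcon y hy⟩
          have h3 := Set.encard_le_encard h2
          rw [hx5, Set.encard_coe_eq_coe_finsetCard, hYc] at h3
          have h4 : r + 1 ≤ r := by exact_mod_cast h3
          omega
        obtain ⟨y, hy, hya⟩ := h1
        have hne : x ≠ y := fun h => hxY (by rw [h]; exact hy)
        have h5 : Arr D s y x := by
          by_contra hcon
          have h6 := mem_II hs.sym hne hya hcon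
          have h7 : s.lam y = n := hY hy
          rw [hx1, h7, hII] at h6
          exact h6
        exact Set.mem_biUnion (x := y) hy ⟨hx1, h5⟩
    · refine (Set.finite_empty (α := V)).subset fun x hx => ?_
      exact hc ⟨hx.2.1, hx.2.2.1, hx.2.2.2.1⟩

private theorem FIN_G1 {P Q R V : Type} {D : CData P Q R} {s : CStr P R V} (hs : IsC D s)
    (hN : NQ D s) (b : R ⊕ (R × R × ℕ)) (l : List (R × P × R)) : (G1 D s b l).Finite := by
  induction l with
  | nil => exact FIN_G0 hs hN b
  | cons t l ih =>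
    have hU : (⋃ y ∈ G1 D s b l, {z | z ≠ y ∧ s.tp y z = t.2.1 ∧
        D.pi (s.lam z) = D.pi t.2.2 ∧ D.D (s.lam y) t.2.1 (D.pi t.2.2) ≠ ⊤}).Finite := by
      refine ih.biUnion fun y _ => ?_
      by_cases h : D.D (s.lam y) t.2.1 (D.pi t.2.2) = ⊤
      · refine (Set.finite_empty (α := V)).subset fun z hz => ?_
        exact hz.2.2.2 h
      · have h1 : {z | z ≠ y ∧ s.tp y z = t.2.1 ∧ D.pi (s.lam z) = D.pi t.2.2}.Finite := by
          rw [← Set.encard_ne_top_iff, hs.cnt y t.2.1 (D.pi t.2.2)]
          exact h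
        exact h1.subset fun z hz => ⟨hz.1, hz.2.1, hz.2.2.1⟩
    refine hU.subset fun z hz => ?_
    obtain ⟨y, hy, h1, h2, h3, h4, h5⟩ := hz
    exact Set.mem_biUnion (x := y) hy ⟨h2, h3, by rw [h4], by rw [h1]; exact h5⟩

theorem thm_FIN : St_FIN := by
  intro P Q R V D s hs hN
  refine ⟨fun w => FIN_G1 hs hN w.1 w.2, fun x hx => ?_⟩
  have hu : D.u (s.lam x) = ⊤ := by
    by_contra hcon
    exact hx ⟨(Sum.inl (s.lam x), []), rfl, hcon⟩
  refine ⟨hu, fun n hn => ?_⟩
  by_contra hcon
  rw [Set.not_nonempty_iff_eq_empty] at hcon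
  have hfin := hN (s.lam x) n x hu hn hcon rfl
  obtain ⟨r, hr⟩ := ENat.ne_top_iff_exists.1 (Set.encard_ne_top_iff.2 hfin)
  exact hx ⟨(Sum.inr (s.lam x, n, r), []), rfl, hu, hn, hcon, hr.symm⟩

end CTQ
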