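import Pool.Agent.CTQ.StB

/-!
# CTQ [FIR]: the definable sets in a closed part
-/

set_option autoImplicit false

namespace CTQ

open FirstOrder Set

private theorem FIR_arr {P Q R V V' : Type} {D : CData P Q R} {s : CStr P R V} {s' : CStr P R V'}
    {f : V → V'} (hf : Function.Injective f) (hlam : ∀ x, s'.lam (f x) = s.lam x)
    (htp : ∀ x y, x ≠ y → s'.tp (f x) (f y) = s.tp x y) (x y : V) :
    Arr D s' (f x) (f y) ↔ Arr D s x y := by
  unfold Arr
  constructor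
  · rintro ⟨h1, h2⟩
    have h3 : y ≠ x := fun h3 => h1 (by rw [h3])
    rw [hlam, hlam, htp x y (Ne.symm h3)] at h2
    exact ⟨h3, h2⟩
  · rintro ⟨h1, h2⟩
    refine ⟨fun h3 => h1 (hf h3), ?_⟩
    rw [hlam, hlam, htp x y (Ne.symm h1)]
    exact h2

private theorem FIR_G0 {P Q R V V' : Type} {D : CData P Q R} {s : CStr P R V} {s' : CStr P R V'}
    {f : V → V'} (hf : Function.Injective f) (hlam : ∀ x, s'.lam (f x) = s.lam x)
    (htp : ∀ x y, x ≠ y → s'.tp (f x) (f y) = s.tp x y)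
    (hcl : ∀ x y', Arr D s' (f x) y' → y' ∈ range f)
    (hfr : ∀ y', y' ∉ range f → Fr D (s'.lam y')) (b : R ⊕ (R × R × ℕ)) :
    G0 D s' b = f '' G0 D s b := by
  rcases b with m | ⟨m, n, r⟩
  · ext x'
    constructor
    · rintro ⟨h1, h2⟩
      by_cases h3 : x' ∈ range f
      · obtain ⟨x, rfl⟩ := h3
        exact ⟨x, ⟨by rw [← hlam]; exact h1, h2⟩, rfl⟩
      · exact absurd (by rw [← h1]; exact (hfr x' h3).1) h2
    · rintro ⟨x, ⟨h1, h2⟩, rfl⟩
      exact ⟨by rw [hlam]; exact h1, h2⟩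
  · have key : ∀ x : V, {y' | s'.lam y' = n ∧ Arr D s' (f x) y'} =
        f '' {y | s.lam y = n ∧ Arr D s x y} := by
      intro x
      ext y'
      constructor
      · rintro ⟨h1, h2⟩
        obtain ⟨y, rfl⟩ := hcl x y' h2
        exact ⟨y, ⟨by rw [← hlam]; exact h1, (FIR_arr hf hlam htp x y).1 h2⟩, rfl⟩
      · rintro ⟨y, ⟨h1, h2⟩, rfl⟩
        exact ⟨by rw [hlam]; exact h1, (FIR_arr hf hlam htp x y).2 h2⟩
    ext x'
    constructor
    · rintro ⟨h1, h2, h3, h4, h5⟩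
      by_cases h6 : x' ∈ range f
      · obtain ⟨x, rfl⟩ := h6
        refine ⟨x, ⟨by rw [← hlam]; exact h1, h2, h3, h4, ?_⟩, rfl⟩
        rw [key x, hf.encard_image] at h5
        exact h5
      · have h7 := (hfr x' h6).2 n h3
        rw [h1, h4] at h7
        exact absurd h7 not_nonempty_empty
    · rintro ⟨x, ⟨h1, h2, h3, h4, h5⟩, rfl⟩
      refine ⟨by rw [hlam]; exact h1, h2, h3, h4, ?_⟩
      rw [key x, hf.encard_image]
      exact h5

private theorem FIR_G1 {P Q R V V' : Type} {D : CData P Q R} {s : CStr P R V} {s' : CStr P R V'}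
    {f : V → V'} (hf : Function.Injective f) (hlam : ∀ x, s'.lam (f x) = s.lam x)
    (htp : ∀ x y, x ≠ y → s'.tp (f x) (f y) = s.tp x y)
    (hcl : ∀ x y', Arr D s' (f x) y' → y' ∈ range f)
    (hfr : ∀ y', y' ∉ range f → Fr D (s'.lam y')) (b : R ⊕ (R × R × ℕ)) :
    ∀ l : List (R × P × R), G1 D s' b l = f '' G1 D s b l
  | [] => FIR_G0 hf hlam htp hcl hfr b
  | t :: l => by
    have ih := FIR_G1 hf hlam htp hcl hfr b l
    ext z'
    constructor
    · rintro ⟨y', hy', h1, h2, h3, h4, h5⟩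
      rw [ih] at hy'
      obtain ⟨y, hy, rfl⟩ := hy'
      have h6 : Arr D s' (f y) z' := by
        refine ⟨h2, ?_⟩
        rw [h1, h3, h4]
        exact h5
      obtain ⟨z, rfl⟩ := hcl y z' h6
      have h7 : z ≠ y := fun h7 => h2 (by rw [h7])
      refine ⟨z, ⟨y, hy, by rw [← hlam]; exact h1, h7, ?_, by rw [← hlam]; exact h4, h5⟩, rfl⟩
      rw [← htp y z (Ne.symm h7)]
      exact h3
    · rintro ⟨z, ⟨y, hy, h1, h2, h3, h4, h5⟩, rfl⟩
      refine ⟨f y, by rw [ih]; exact ⟨y, hy, rfl⟩, by rw [hlam]; exact h1,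
        fun h6 => h2 (hf h6), ?_, by rw [hlam]; exact h4, h5⟩
      rw [htp y z (Ne.symm h2)]
      exact h3

/-- [FIR], see `St_FIR`. -/
theorem thm_FIR : St_FIR := by
  intro P Q R V V' D s s' f hf hlam htp hcl hfr
  have key : ∀ w, G D s' w = f '' G D s w := fun w => FIR_G1 hf hlam htp hcl hfr w.1 w.2
  refine ⟨key, ?_⟩
  ext x'
  constructor
  · rintro ⟨w, hw⟩
    rw [key w] at hw
    obtain ⟨x, hx, rfl⟩ := hw
    exact ⟨x, ⟨w, hx⟩, rfl⟩
  · rintro ⟨x, ⟨w, hw⟩, rfl⟩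
    exact ⟨w, by rw [key w]; exact ⟨x, hw, rfl⟩⟩

end CTQ
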