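import Pool.Agent.CTQ.Defs

/-!
# CTQ: basic lemmas on labelled structures
-/

set_option autoImplicit false

namespace CTQ

open FirstOrder Set Pool.Agent.Helper6.Str Pool.Agent.Helper5.Multi Pool.Agent.Helper79.VC

variable {P Q R V V' V'' : Type}

theorem relMap_one (s : CStr P R V) (m : R) (v : Fin 1 → V) :
    s.toL.RelMap (n := 1) (m : LCRel P R 1) v ↔ s.lam (v 0) = m := Iff.rfl

theorem relMap_two (s : CStr P R V) (ρ : P) (v : Fin 2 → V) :
    s.toL.RelMap (n := 2) (ρ : LCRel P R 2) v ↔ v 0 ≠ v 1 ∧ s.tp (v 0) (v 1) = ρ := Iff.rfl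

theorem relIso_iff {s : CStr P R V} {s' : CStr P R V'} {e : V ≃ V'} :
    RelIso s.toL s'.toL e ↔ CIso s s' e := by
  constructor
  · intro h
    refine ⟨fun x => ?_, fun x y hxy => ?_⟩
    · exact (h 1 (s.lam x : LCRel P R 1) (fun _ => x)).1 rfl
    · have h1 := (h 2 (s.tp x y : LCRel P R 2) ![x, y]).1 ⟨hxy, rfl⟩
      exact h1.2
  · rintro ⟨h1, h2⟩ n r v
    match n, r, v with
    | 0, r, v => exact Iff.rfl
    | 1, m, v =>
      show s.lam (v 0) = m ↔ s'.lam (e (v 0)) = m
      rw [h1]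
    | 2, ρ, v =>
      show (v 0 ≠ v 1 ∧ s.tp (v 0) (v 1) = ρ) ↔ (e (v 0) ≠ e (v 1) ∧ s'.tp (e (v 0)) (e (v 1)) = ρ)
      constructor
      · rintro ⟨h3, h4⟩
        exact ⟨fun h5 => h3 (e.injective h5), by rw [h2 _ _ h3]; exact h4⟩
      · rintro ⟨h3, h4⟩
        have h5 : v 0 ≠ v 1 := fun h5 => h3 (congrArg e h5)
        exact ⟨h5, by rw [← h2 _ _ h5]; exact h4⟩
    | _ + 3, r, v => exact Iff.rfl

theorem iso_toL_iff {s : CStr P R V} {s' : CStr P R V'} :
    Iso s.toL s'.toL ↔ ∃ e, CIso s s' e :=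
  exists_congr fun _ => relIso_iff

theorem CIso.refl (s : CStr P R V) : CIso s s (Equiv.refl V) := ⟨fun _ => rfl, fun _ _ _ => rfl⟩

theorem CIso.symm {s : CStr P R V} {s' : CStr P R V'} {e : V ≃ V'} (h : CIso s s' e) :
    CIso s' s e.symm := by
  refine ⟨fun x => ?_, fun x y hxy => ?_⟩
  · rw [← h.1 (e.symm x), Equiv.apply_symm_apply]
  · have h1 : e.symm x ≠ e.symm y := fun h2 => hxy (e.symm.injective h2)
    rw [← h.2 _ _ h1, Equiv.apply_symm_apply, Equiv.apply_symm_apply]

theorem CIso.trans {s : CStr P R V} {s' : CStr P R V'} {s'' : CStr P R V''} {e : V ≃ V'}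
    {e' : V' ≃ V''} (h : CIso s s' e) (h' : CIso s' s'' e') : CIso s s'' (e.trans e') := by
  refine ⟨fun x => ?_, fun x y hxy => ?_⟩
  · show s''.lam (e' (e x)) = s.lam x
    rw [h'.1, h.1]
  · show s''.tp (e' (e x)) (e' (e y)) = s.tp x y
    rw [h'.2 _ _ (fun h2 => hxy (e.injective h2)), h.2 _ _ hxy]

theorem encard_equiv (e : V ≃ V') {A : Set V} {B : Set V'} (h : ∀ x, e x ∈ B ↔ x ∈ A) :
    A.encard = B.encard := by
  have : B = e '' A := by
    ext y
    constructor
    · intro hy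
      refine ⟨e.symm y, (h _).1 ?_, by simp⟩
      rwa [Equiv.apply_symm_apply]
    · rintro ⟨x, hx, rfl⟩
      exact (h x).2 hx
  rw [this, e.injective.encard_image]

theorem IsC.of_iso {D : CData P Q R} {s : CStr P R V} {s' : CStr P R V'} {e : V ≃ V'}
    (hs : IsC D s) (h : CIso s s' e) : IsC D s' := by
  have h0 := h.symm
  refine ⟨fun x y hxy => ?_, fun m => ?_, fun x ρ q => ?_⟩
  · have h1 : e.symm x ≠ e.symm y := fun h2 => hxy (e.symm.injective h2)
    rw [← h0.2 _ _ hxy, ← h0.2 _ _ (Ne.symm hxy)]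
    exact hs.sym _ _ h1
  · rw [← hs.cls m]
    exact (encard_equiv e fun x => by simp only [mem_ofPred_eq, h.1]).symm
  · obtain ⟨x, rfl⟩ := e.surjective x
    rw [h.1, ← hs.cnt x ρ q]
    refine (encard_equiv e fun y => ?_).symm
    simp only [mem_ofPred_eq, h.1]
    constructor
    · rintro ⟨h1, h2, h3⟩
      have h4 : y ≠ x := fun h4 => h1 (by rw [h4])
      exact ⟨h4, by rw [← h.2 x y (Ne.symm h4)]; exact h2, h3⟩
    · rintro ⟨h1, h2, h3⟩
      exact ⟨fun h4 => h1 (e.injective h4), by rw [h.2 x y (Ne.symm h1)]; exact h2, h3⟩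

/-- A relational structure isomorphic to a labelled structure is a labelled structure. -/
theorem exists_of_iso {s : CStr P R V} {S : (LC P R).Structure V'} {e : V ≃ V'}
    (h : RelIso s.toL S e) : ∃ s' : CStr P R V', CIso s s' e ∧ S = s'.toL := by
  let s' : CStr P R V' := ⟨fun x => s.lam (e.symm x), fun x y => s.tp (e.symm x) (e.symm y)⟩
  have h1 : CIso s s' e := ⟨fun x => by simp [s'], fun x y _ => by simp [s']⟩
  refine ⟨s', h1, ?_⟩
  apply FirstOrder.Language.Structure.ext
  · funext n f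
    exact isEmptyElim f
  · funext n r v
    apply propext
    have h2 := h n r (e.symm ∘ v)
    have h3 := (relIso_iff.2 h1) n r (e.symm ∘ v)
    have h4 : e ∘ (e.symm ∘ v) = v := by ext i; simp
    rw [h4] at h2 h3
    exact h2.symm.trans h3

theorem mem_KC {D : CData P Q R} {s : CStr P R V} (hs : IsC D s)
    {S : (LC P R).Structure ℕ} (h : Iso s.toL S) : S ∈ KC D := by
  obtain ⟨e, he⟩ := h
  obtain ⟨s', h1, h2⟩ := exists_of_iso he
  exact ⟨s', hs.of_iso h1, h2⟩

/-- `n ≤ encard` is a measurable condition. -/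
theorem measurableSet_le_encard {X β : Type} [MeasurableSpace X] [Countable β] (A : X → Set β)
    (hA : ∀ b, MeasurableSet {x | b ∈ A x}) (n : ℕ) :
    MeasurableSet {x | (n : ℕ∞) ≤ (A x).encard} := by
  have h : {x | (n : ℕ∞) ≤ (A x).encard} =
      ⋃ t ∈ {t : Finset β | t.card = n}, ⋂ b ∈ t, {x | b ∈ A x} := by
    ext x
    simp only [mem_ofPred_eq, mem_iUnion, mem_iInter, exists_prop]
    constructor
    · intro hx
      obtain ⟨B, hB, hBc⟩ := Set.exists_subset_encard_eq hx
      have hfin : B.Finite := Set.finite_of_encard_eq_coe hBc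
      refine ⟨hfin.toFinset, ?_, fun b hb => hB (hfin.mem_toFinset.1 hb)⟩
      have h1 : ((hfin.toFinset.card : ℕ) : ℕ∞) = (n : ℕ∞) := by
        rw [← hBc, ← hfin.encard_eq_coe_toFinset_card]
      exact_mod_cast h1
    · rintro ⟨t, ht, h1⟩
      have h2 : (t : Set β) ⊆ A x := fun b hb => h1 b hb
      calc (n : ℕ∞) = (t : Set β).encard := by rw [Set.encard_coe_eq_coe_finsetCard, ht]
        _ ≤ _ := Set.encard_le_encard h2
  rw [h]
  exact MeasurableSet.biUnion (Set.to_countable _) fun t _ =>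
    MeasurableSet.biInter (Set.to_countable _) fun b _ => hA b

/-- `encard = n` is a measurable condition. -/
theorem measurableSet_encard_eq {X β : Type} [MeasurableSpace X] [Countable β] (A : X → Set β)
    (hA : ∀ b, MeasurableSet {x | b ∈ A x}) (n : ℕ∞) :
    MeasurableSet {x | (A x).encard = n} := by
  have h : {x | (A x).encard = n} =
      ⋂ k : ℕ, {x | (k : ℕ∞) ≤ (A x).encard ↔ (k : ℕ∞) ≤ n} := by
    ext x
    simp only [mem_ofPred_eq, mem_iInter]
    constructor
    · intro hx k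
      rw [hx]
    · intro hx
      exact ENat.eq_of_forall_natCast_le_iff hx
  rw [h]
  refine MeasurableSet.iInter fun k => ?_
  by_cases hk : (k : ℕ∞) ≤ n
  · simpa [hk] using measurableSet_le_encard A hA k
  · have := (measurableSet_le_encard A hA k).compl
    convert this using 1
    ext x
    simp [hk]

/-- `encard < n` is a measurable condition. -/
theorem measurableSet_encard_lt {X β : Type} [MeasurableSpace X] [Countable β] (A : X → Set β)
    (hA : ∀ b, MeasurableSet {x | b ∈ A x}) (n : ℕ∞) :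
    MeasurableSet {x | (A x).encard < n} := by
  have h : {x | (A x).encard < n} = ⋃ k : ℕ, ⋃ (_ : (k : ℕ∞) < n), {x | (A x).encard = k} := by
    ext x
    simp only [mem_ofPred_eq, mem_iUnion, exists_prop]
    constructor
    · intro hx
      obtain ⟨k, hk⟩ := ENat.ne_top_iff_exists.1 (ne_top_of_lt hx)
      exact ⟨k, by rw [hk]; exact hx, hk.symm⟩
    · rintro ⟨k, h1, h2⟩
      rw [h2]
      exact h1
  rw [h]
  exact MeasurableSet.iUnion fun k => MeasurableSet.iUnion fun _ => measurableSet_encard_eq A hA k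

/-- Perfectly many structures in `KC D` from a family of labelled structures from which the points
of Cantor space can be read off with finitely many parameters. -/
theorem perfKC [Countable P] [Countable R] {β : Type} [Countable β] [Infinite β]
    {D : CData P Q R} (N : (ℕ → Bool) → CStr P R β) (hmod : ∀ z, IsC D (N z))
    (hlam : ∀ a m, IsClopen {z | (N z).lam a = m})
    (htp : ∀ a b ρ, a ≠ b → IsClopen {z | (N z).tp a b = ρ})
    {k : ℕ} (p : Fin k → β) (Ev : ℕ → CStr P R β → (Fin k → β) → Prop)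
    (hinv : ∀ n (s s' : CStr P R β) (e : β ≃ β) v, CIso s s' e → Ev n s v → Ev n s' (e ∘ v))
    (hmeas : ∀ n v, MeasurableSet {z | Ev n (N z) v})
    (hdec : ∀ z n, z n = true ↔ Ev n (N z) p) : PerfK (KC D) := by
  refine perfK_of_decode (fun z => (N z).toL) (fun z S h => mem_KC (hmod z) h) ?_
    (ι := Fin k → β) (fun v n => {z | Ev n (N z) v}) (fun v n => hmeas n v) ?_
  · intro n r w
    match n, r, w with
    | 0, r, w => exact (r : Empty).elim
    | 1, m, w => exact hlam (w 0) m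
    | 2, ρ, w =>
      show IsClopen {z | w 0 ≠ w 1 ∧ (N z).tp (w 0) (w 1) = ρ}
      by_cases h : w 0 = w 1
      · have h1 : {z | w 0 ≠ w 1 ∧ (N z).tp (w 0) (w 1) = ρ} = ∅ := by simp [h]
        rw [h1]
        exact isClopen_empty
      · simpa [h] using htp (w 0) (w 1) ρ h
    | _ + 3, r, w => exact (r : Empty).elim
  · intro x y hxy
    obtain ⟨e, he⟩ := iso_toL_iff.1 hxy
    refine ⟨e ∘ p, fun n => ?_⟩
    rw [hdec x n]
    constructor
    · exact hinv n _ _ e p he
    · intro h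
      have h1 := hinv n _ _ e.symm _ he.symm h
      have h2 : e.symm ∘ (e ∘ p) = p := by ext i; simp
      rwa [h2] at h1

/-! ### Invariance of the definable sets -/

theorem Arr_iso {D : CData P Q R} {s : CStr P R V} {s' : CStr P R V'} {e : V ≃ V'}
    (h : CIso s s' e) (x y : V) : Arr D s' (e x) (e y) ↔ Arr D s x y := by
  unfold Arr
  constructor
  · rintro ⟨h1, h2⟩
    have h3 : y ≠ x := fun h3 => h1 (by rw [h3])
    rw [h.1, h.1, h.2 x y (Ne.symm h3)] at h2
    exact ⟨h3, h2⟩
  · rintro ⟨h1, h2⟩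
    refine ⟨fun h3 => h1 (e.injective h3), ?_⟩
    rw [h.1, h.1, h.2 x y (Ne.symm h1)]
    exact h2

theorem CStr.restr_lam (s : CStr P R V) (A : Set V) (x : A) : (s.restr A).lam x = s.lam x := rfl

theorem CStr.restr_tp (s : CStr P R V) (A : Set V) (x y : A) :
    (s.restr A).tp x y = s.tp x y := rfl

theorem II_symm {D : CData P Q R} {m n : R} {ρ : P} (h : ρ ∈ II D m n) : D.inv ρ ∈ II D n m :=
  ⟨h.2, by rw [D.inv_inv]; exact h.1⟩

/-- Different points without arrows have a type which is infinite from both sides. -/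
theorem mem_II {D : CData P Q R} {s : CStr P R V} (hs : ∀ x y, x ≠ y → s.tp y x = D.inv (s.tp x y))
    {x y : V} (hxy : x ≠ y) (h1 : ¬ Arr D s x y) (h2 : ¬ Arr D s y x) :
    s.tp x y ∈ II D (s.lam x) (s.lam y) := by
  unfold Arr at h1 h2
  push Not at h1 h2
  refine ⟨h1 (Ne.symm hxy), ?_⟩
  rw [← hs x y hxy]
  exact h2 hxy

theorem Fp_closed {D : CData P Q R} {s : CStr P R V} {x y : V} (hx : x ∈ Fp D s)
    (h : Arr D s x y) : y ∈ Fp D s := by
  obtain ⟨w, hw⟩ := hx
  exact ⟨(w.1, (s.lam x, s.tp x y, s.lam y) :: w.2), x, hw, rfl, h.1, rfl, rfl, h.2⟩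

end CTQ
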