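import Pool.Agent.CTQ.StB
import Pool.Agent.CTQ.BAS

/-!
# CTQ, module FRB: adding pieces
-/

set_option autoImplicit false

namespace CTQ

open FirstOrder Set Pool.Agent.Helper6.Str Pool.Agent.Helper5.Multi Pool.Agent.Helper79.VC

variable {P Q R Ft I I' : Type} {D : CData P Q R} {τ : R → R → P} {sF : CStr P R Ft}
  {o : R → ℕ∞}

private theorem FRB_u {q : Piece D τ sF o} {x : ℕ} (hx : x ∈ q.el) : D.u (q.lam x) = ⊤ :=
  (q.free x hx).1.1

private theorem FRB_le {p : I → Piece D τ sF o} {p' : I' → Piece D τ sF o} (j : I → I')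
    (hj : ∀ i, p' (j i) = p i) (hinj : Function.Injective j) (a : Pos Ft Piece.el p) (ρ : P)
    (q : Q) :
    {y | y ≠ a ∧ (asmC p).tp a y = ρ ∧ D.pi ((asmC p).lam y) = q}.encard ≤
      {y | y ≠ posMap j hj a ∧ (asmC p').tp (posMap j hj a) y = ρ ∧
        D.pi ((asmC p').lam y) = q}.encard := by
  have hf := posMap_injective (F := Ft) (el := Piece.el) j hj hinj
  obtain ⟨h1, h2⟩ := asmC_posMap j hj hinj
  rw [← hf.encard_image]
  apply Set.encard_le_encard
  rintro _ ⟨y, ⟨hy1, hy2, hy3⟩, rfl⟩
  exact ⟨fun h => hy1 (hf h), by rw [h2]; exact hy2, by rw [h1]; exact hy3⟩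

/-- The points of the common part and of the piece of `x` itself. -/
private theorem FRB_own (p : I → Piece D τ sF o) (x : {x : I × ℕ // x.2 ∈ (p x.1).el}) (ρ : P)
    (q : Q) :
    {y : Pos Ft Piece.el p | (∀ z, y = .inr z → z.1.1 = x.1.1) ∧ y ≠ .inr x ∧
      (asmC p).tp (.inr x) y = ρ ∧ D.pi ((asmC p).lam y) = q}.encard =
    {f | (p x.1.1).fr x.1.2 f = ρ ∧ D.pi (sF.lam f) = q}.encard +
      {y | y ∈ (p x.1.1).el ∧ y ≠ x.1.2 ∧ (p x.1.1).tp x.1.2 y = ρ ∧
        D.pi ((p x.1.1).lam y) = q}.encard := by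
  classical
  let pr : Pos Ft Piece.el p → ℕ := fun y => match y with
    | .inl _ => 0
    | .inr z => z.1.2
  let A : Set (Pos Ft Piece.el p) := {y | ∃ f, y = .inl f ∧
    (p x.1.1).fr x.1.2 f = ρ ∧ D.pi (sF.lam f) = q}
  let B : Set (Pos Ft Piece.el p) := {y | ∃ z : {x : I × ℕ // x.2 ∈ (p x.1).el}, y = .inr z ∧
    z.1.1 = x.1.1 ∧ z ≠ x ∧ (p x.1.1).tp x.1.2 z.1.2 = ρ ∧ D.pi ((p z.1.1).lam z.1.2) = q}
  have hAB : {y : Pos Ft Piece.el p | (∀ z, y = .inr z → z.1.1 = x.1.1) ∧ y ≠ .inr x ∧
      (asmC p).tp (.inr x) y = ρ ∧ D.pi ((asmC p).lam y) = q} = A ∪ B := by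
    ext y
    rcases y with f | z
    · constructor
      · rintro ⟨_, _, h3, h4⟩
        exact Or.inl ⟨f, rfl, h3, h4⟩
      · rintro (⟨g, hg, h3, h4⟩ | ⟨z, hz, _⟩)
        · obtain rfl : f = g := Sum.inl.inj hg
          exact ⟨fun z hz => by simp at hz, by simp, h3, h4⟩
        · simp at hz
    · constructor
      · rintro ⟨h1, h2, h3, h4⟩
        have h5 := h1 z rfl
        refine Or.inr ⟨z, rfl, h5, fun h => h2 (by rw [h]), ?_, h4⟩
        have h6 : (asmC p).tp (.inr x) (.inr z) = (p x.1.1).tp x.1.2 z.1.2 := by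
          show (if x.1.1 = z.1.1 then (p x.1.1).tp x.1.2 z.1.2
            else τ ((p x.1.1).lam x.1.2) ((p z.1.1).lam z.1.2)) = _
          rw [if_pos h5.symm]
        rw [← h6]
        exact h3
      · rintro (⟨g, hg, _⟩ | ⟨w, hw, h1, h2, h3, h4⟩)
        · simp at hg
        · obtain rfl : z = w := Sum.inr.inj hw
          refine ⟨fun w hw => ?_, fun h => h2 (Sum.inr.inj h), ?_, h4⟩
          · obtain rfl : z = w := Sum.inr.inj hw
            exact h1
          · show (if x.1.1 = z.1.1 then (p x.1.1).tp x.1.2 z.1.2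
              else τ ((p x.1.1).lam x.1.2) ((p z.1.1).lam z.1.2)) = _
            rw [if_pos h1.symm]
            exact h3
  have hdis : Disjoint A B := by
    rw [Set.disjoint_left]
    rintro y ⟨f, hf, _⟩ ⟨z, hz, _⟩
    rw [hf] at hz
    simp at hz
  rw [hAB, Set.encard_union_eq hdis]
  congr 1
  · have hA : A = Sum.inl '' {f | (p x.1.1).fr x.1.2 f = ρ ∧ D.pi (sF.lam f) = q} := by
      ext y
      constructor
      · rintro ⟨f, hf, h1, h2⟩
        exact ⟨f, ⟨h1, h2⟩, hf.symm⟩
      · rintro ⟨f, ⟨h1, h2⟩, hf⟩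
        exact ⟨f, hf.symm, h1, h2⟩
    rw [hA, Sum.inl_injective.encard_image]
  · have hinj : InjOn pr B := by
      rintro _ ⟨z, rfl, h1, _⟩ _ ⟨w, rfl, h2, _⟩ h
      have h3 : z.1.2 = w.1.2 := h
      have h4 : z = w := Subtype.ext (Prod.ext (h1.trans h2.symm) h3)
      rw [h4]
    rw [← hinj.encard_image]
    congr 1
    ext y
    constructor
    · rintro ⟨_, ⟨z, rfl, h1, h2, h3, h4⟩, rfl⟩
      have h5 := z.2
      refine ⟨?_, ?_, h3, ?_⟩
      · rw [← h1]
        exact h5
      · intro h
        exact h2 (Subtype.ext (Prod.ext h1 h))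
      · rw [← h1]
        exact h4
    · rintro ⟨h1, h2, h3, h4⟩
      exact ⟨.inr ⟨(x.1.1, y), h1⟩, ⟨⟨(x.1.1, y), h1⟩, rfl, rfl,
        fun h => h2 (congrArg (fun z => z.1.2) h), h3, h4⟩, rfl⟩

theorem thm_FRB : St_FRB := by
  classical
  intro P Q R Ft D τ sF o hτ I I' p p' j hinj hj hM
  obtain ⟨hC, hI, ho⟩ := hM
  have hf := posMap_injective (F := Ft) (el := Piece.el) j hj hinj
  obtain ⟨hl, ht⟩ := asmC_posMap j hj hinj
  have hgr : ∀ m, {x : {x : I × ℕ // x.2 ∈ (p x.1).el} | (p x.1.1).lam x.1.2 = m}.encard ≤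
      {x : {x : I' × ℕ // x.2 ∈ (p' x.1).el} | (p' x.1.1).lam x.1.2 = m ∧
        x.1.1 ∈ range j}.encard := by
    intro m
    let g : {x : I × ℕ // x.2 ∈ (p x.1).el} → {x : I' × ℕ // x.2 ∈ (p' x.1).el} :=
      fun x => ⟨(j x.1.1, x.1.2), by
        show x.1.2 ∈ (p' (j x.1.1)).el
        rw [hj]
        exact x.2⟩
    have hg : Function.Injective g := by
      intro x y h
      have h1 : (j x.1.1, x.1.2) = (j y.1.1, y.1.2) := congrArg Subtype.val h
      have h2 := Prod.ext_iff.1 h1
      exact Subtype.ext (Prod.ext (hinj h2.1) h2.2)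
    rw [← hg.encard_image]
    apply Set.encard_le_encard
    rintro _ ⟨x, hx, rfl⟩
    refine ⟨?_, ⟨x.1.1, rfl⟩⟩
    show (p' (j x.1.1)).lam x.1.2 = m
    rw [hj]
    exact hx
  refine ⟨⟨?_, ?_, ?_⟩, ?_, ?_⟩
  · -- sym
    rintro (f | x) (g | y) hxy
    · exact hC.sym (.inl f) (.inl g) (fun h => hxy (by rw [Sum.inl.inj h]))
    · show (p' y.1.1).fr y.1.2 f = D.inv (D.inv ((p' y.1.1).fr y.1.2 f))
      rw [D.inv_inv]
    · rfl
    · show (if y.1.1 = x.1.1 then (p' y.1.1).tp y.1.2 x.1.2
        else τ ((p' y.1.1).lam y.1.2) ((p' x.1.1).lam x.1.2)) =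
        D.inv (if x.1.1 = y.1.1 then (p' x.1.1).tp x.1.2 y.1.2
        else τ ((p' x.1.1).lam x.1.2) ((p' y.1.1).lam y.1.2))
      by_cases h : x.1.1 = y.1.1
      · rw [if_pos h, if_pos h.symm, ← h]
        refine (p' x.1.1).sym x.1.2 x.2 y.1.2 ?_ ?_
        · rw [h]
          exact y.2
        · intro h2
          exact hxy (by rw [Subtype.ext (Prod.ext h h2)])
      · rw [if_neg h, if_neg (Ne.symm h)]
        exact (hτ _ _ ((p' x.1.1).free x.1.2 x.2) ((p' y.1.1).free y.1.2 y.2)).2
  · -- cls
    intro m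
    rw [← hC.cls m]
    by_cases hu : D.u m = ⊤
    · have h1 : {x | (asmC p).lam x = m}.encard ≤ {x | (asmC p').lam x = m}.encard := by
        rw [← hf.encard_image]
        apply Set.encard_le_encard
        rintro _ ⟨x, hx, rfl⟩
        show (asmC p').lam (posMap j hj x) = m
        rw [hl]
        exact hx
      have h2 := hC.cls m
      rw [h2, hu] at h1 ⊢
      exact top_le_iff.1 h1
    · rw [← hf.encard_image]
      congr 1
      ext y
      constructor
      · intro hy
        rcases y with f | x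
        · exact ⟨.inl f, hy, rfl⟩
        · exfalso
          apply hu
          have h3 : (p' x.1.1).lam x.1.2 = m := hy
          rw [← h3]
          exact FRB_u x.2
      · rintro ⟨x, hx, rfl⟩
        show (asmC p').lam (posMap j hj x) = m
        rw [hl]
        exact hx
  · -- cnt
    rintro (g | x) ρ q
    · -- a point of the common part
      show _ = D.D (sF.lam g) ρ q
      have h0 : {y | y ≠ .inl g ∧ (asmC p).tp (.inl g) y = ρ ∧
          D.pi ((asmC p).lam y) = q}.encard = D.D (sF.lam g) ρ q := hC.cnt (.inl g) ρ q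
      by_cases hd : D.D (sF.lam g) ρ q = ⊤
      · have h1 := FRB_le j hj hinj (.inl g) ρ q
        rw [h0, hd] at h1
        rw [hd]
        exact top_le_iff.1 h1
      · rw [← h0, ← hf.encard_image]
        congr 1
        ext y
        constructor
        · rintro ⟨h1, h2, h3⟩
          rcases y with f | y
          · exact ⟨.inl f, ⟨fun h => h1 (by rw [Sum.inl.inj h]), h2, h3⟩, rfl⟩
          · exfalso
            apply hd
            have h4 := (p' y.1.1).finF y.1.2 y.2 g
            have h5 : D.inv ((p' y.1.1).fr y.1.2 g) = ρ := h2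
            have h6 : D.pi ((p' y.1.1).lam y.1.2) = q := h3
            rw [h5, h6] at h4
            exact h4
        · rintro ⟨y, ⟨h1, h2, h3⟩, rfl⟩
          refine ⟨fun h => h1 (hf h), ?_, ?_⟩
          · rw [← h2, ← ht]
            rfl
          · rw [hl]
            exact h3
    · -- a point of a piece
      show _ = D.D ((p' x.1.1).lam x.1.2) ρ q
      have hown := FRB_own p' x ρ q
      by_cases hd : D.D ((p' x.1.1).lam x.1.2) ρ q = ⊤
      · rw [hd]
        by_cases hx : x.1.1 ∈ range j
        · obtain ⟨i, hi⟩ := hx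
          have hx' : x.1.2 ∈ (p i).el := by
            rw [← hj, hi]
            exact x.2
          have h1 : (.inr x : Pos Ft Piece.el p') = posMap j hj (.inr ⟨(i, x.1.2), hx'⟩) := by
            show (.inr x : Pos Ft Piece.el p') = .inr _
            congr 1
            exact Subtype.ext (Prod.ext hi.symm rfl)
          have h2 := FRB_le j hj hinj (.inr ⟨(i, x.1.2), hx'⟩) ρ q
          rw [← h1] at h2
          have h3 := hC.cnt (.inr ⟨(i, x.1.2), hx'⟩) ρ q
          have h4 : (asmC p).lam (.inr ⟨(i, x.1.2), hx'⟩) = (p' x.1.1).lam x.1.2 := by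
            show (p i).lam x.1.2 = _
            rw [← hi, hj]
          rw [h3, h4, hd] at h2
          exact top_le_iff.1 h2
        · rcases (p' x.1.1).infC x.1.2 x.2 ρ q hd with h1 | h1
          · rw [← hown] at h1
            rw [eq_top_iff, ← h1]
            apply Set.encard_le_encard
            rintro y ⟨_, h2⟩
            exact h2
          · -- infinitely many points in the old pieces
            rw [Set.encard_eq_top_iff]
            intro hfin
            apply h1
            have hsub : ∀ n, D.pi n = q → τ ((p' x.1.1).lam x.1.2) n = ρ →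
                (fun z : {x : I' × ℕ // x.2 ∈ (p' x.1).el} => (.inr z : Pos Ft Piece.el p')) ''
                  {z | (p' z.1.1).lam z.1.2 = n ∧ z.1.1 ∈ range j} ⊆
                {y | y ≠ .inr x ∧ (asmC p').tp (.inr x) y = ρ ∧
                  D.pi ((asmC p').lam y) = q} := by
              rintro n hn1 hn2 _ ⟨z, ⟨hz1, hz2⟩, rfl⟩
              have hne : x.1.1 ≠ z.1.1 := fun h => hx (by rw [h]; exact hz2)
              refine ⟨fun h => hne (by rw [Sum.inr.inj h]), ?_, ?_⟩
              · show (if x.1.1 = z.1.1 then (p' x.1.1).tp x.1.2 z.1.2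
                  else τ ((p' x.1.1).lam x.1.2) ((p' z.1.1).lam z.1.2)) = ρ
                rw [if_neg hne, hz1]
                exact hn2
              · show D.pi ((p' z.1.1).lam z.1.2) = q
                rw [hz1]
                exact hn1
            have hle : ∀ n, D.pi n = q → τ ((p' x.1.1).lam x.1.2) n = ρ →
                o n ≤ ((fun z : {x : I' × ℕ // x.2 ∈ (p' x.1).el} =>
                  (.inr z : Pos Ft Piece.el p')) ''
                  {z | (p' z.1.1).lam z.1.2 = n ∧ z.1.1 ∈ range j}).encard := by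
              intro n _ _
              rw [Function.Injective.encard_image Sum.inr_injective]
              exact (ho n).trans (hgr n)
            refine Set.Finite.subset (s := ⋃ n ∈ (asmC p').lam '' {y | y ≠ .inr x ∧
              (asmC p').tp (.inr x) y = ρ ∧ D.pi ((asmC p').lam y) = q},
              (fun k : ℕ => ((n, k) : R × ℕ)) '' {k : ℕ | D.pi n = q ∧
                τ ((p' x.1.1).lam x.1.2) n = ρ ∧ (k : ℕ∞) < o n}) ?_ ?_
            · refine Set.Finite.biUnion (hfin.image _) fun n _ => Set.Finite.image _ ?_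
              by_cases hn : D.pi n = q ∧ τ ((p' x.1.1).lam x.1.2) n = ρ
              · have h2 := (hle n hn.1 hn.2).trans (Set.encard_le_encard (hsub n hn.1 hn.2))
                have h3 : o n < ⊤ := h2.trans_lt (Set.encard_lt_top_iff.2 hfin)
                have h4 : {k : ℕ | (k : ℕ∞) < o n}.Finite := by
                  rw [← Set.encard_lt_top_iff, encard_lt_nat]
                  exact h3
                exact h4.subset fun k hk => hk.2.2
              · exact Set.Finite.subset Set.finite_empty fun k hk => hn ⟨hk.1, hk.2.1⟩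
            · rintro ⟨n, k⟩ ⟨hk1, hk2, hk3⟩
              have hk1 : (k : ℕ∞) < o n := hk1
              have hk2 : D.pi n = q := hk2
              have hk3 : τ ((p' x.1.1).lam x.1.2) n = ρ := hk3
              have h2 := hle n hk2 hk3
              have h3 : (0 : ℕ∞) < ((fun z : {x : I' × ℕ // x.2 ∈ (p' x.1).el} =>
                  (.inr z : Pos Ft Piece.el p')) ''
                  {z | (p' z.1.1).lam z.1.2 = n ∧ z.1.1 ∈ range j}).encard :=
                (bot_le.trans_lt hk1).trans_le h2
              rw [Set.encard_pos] at h3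
              obtain ⟨y, hy⟩ := h3
              have hy' := hsub n hk2 hk3 hy
              obtain ⟨z, ⟨hz1, _⟩, rfl⟩ := hy
              simp only [mem_iUnion, exists_prop]
              exact ⟨n, ⟨_, hy', hz1⟩, k, ⟨hk2, hk3, hk1⟩, rfl⟩
      · rw [← (p' x.1.1).finC x.1.2 x.2 ρ q hd, ← hown]
        congr 1
        ext y
        constructor
        · rintro ⟨h1, h2, h3⟩
          refine ⟨fun z hz => ?_, h1, h2, h3⟩
          subst hz
          by_contra hne
          apply hd
          have h4 : (asmC p').tp (.inr x) (.inr z) =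
              τ ((p' x.1.1).lam x.1.2) ((p' z.1.1).lam z.1.2) := by
            show (if x.1.1 = z.1.1 then (p' x.1.1).tp x.1.2 z.1.2
              else τ ((p' x.1.1).lam x.1.2) ((p' z.1.1).lam z.1.2)) = _
            rw [if_neg (Ne.symm hne)]
          have h5 : D.pi ((p' z.1.1).lam z.1.2) = q := h3
          have h6 := (hτ _ _ ((p' x.1.1).free x.1.2 x.2) ((p' z.1.1).free z.1.2 z.2)).1.1
          rw [← h4, h2, h5] at h6
          exact h6
        · rintro ⟨_, h1⟩
          exact h1
  · have := hI
    exact Infinite.of_injective _ hf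
  · intro m
    refine ((ho m).trans (hgr m)).trans (Set.encard_le_encard ?_)
    rintro x ⟨hx, _⟩
    exact hx

end CTQ
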