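import Pool.Agent.CTQ.StB

/-!
# CTQ, module FRC: isomorphisms respect the pieces (helper31)
-/

set_option autoImplicit false
set_option linter.unusedVariables false

namespace CTQ

open FirstOrder Set Pool.Agent.Helper6.Str Pool.Agent.Helper5.Multi Pool.Agent.Helper79.VC

variable {P Q R Ft : Type} {D : CData P Q R} {τ : R → R → P} {sF : CStr P R Ft} {o : R → ℕ∞}

/-- the algebraic part of a free union of pieces -/
private theorem FRC_Fp (hF : St_FIR) (hFp : Fp D sF = univ) {I : Type} (p : I → Piece D τ sF o) :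
    Fp D (asmC p) = range (Sum.inl : Ft → Pos Ft Piece.el p) := by
  have h := (hF P Q R Ft (Pos Ft Piece.el p) D sF (asmC p) Sum.inl Sum.inl_injective
    (fun _ => rfl) (fun _ _ _ => rfl)
    (fun x y' hA => by
      rcases y' with y | y
      · exact ⟨y, rfl⟩
      · exact absurd ((p y.1.1).finF y.1.2 y.2 x) hA.2)
    (fun y' hy' => by
      rcases y' with y | y
      · exact absurd ⟨y, rfl⟩ hy'
      · exact ((p y.1.1).free y.1.2 y.2).1)).2
  rw [h, hFp, image_univ]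

/-- an isomorphism maps the algebraic part to itself, and pieces to pieces -/
private theorem FRC_map (hF : St_FIR) (hFp : Fp D sF = univ) {I I' : Type}
    {p : I → Piece D τ sF o} {p' : I' → Piece D τ sF o}
    {e : Pos Ft Piece.el p ≃ Pos Ft Piece.el p'} (he : CIso (asmC p) (asmC p') e) :
    ∃ (α : Ft → Ft) (E : {x : I × ℕ // x.2 ∈ (p x.1).el} → {x : I' × ℕ // x.2 ∈ (p' x.1).el}),
      (∀ g, e (Sum.inl g) = Sum.inl (α g)) ∧ (∀ x, e (Sum.inr x) = Sum.inr (E x)) ∧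
      ∀ x y, x.1.1 = y.1.1 → (E x).1.1 = (E y).1.1 := by
  have h1 := FRC_Fp hF hFp p
  have h2 := FRC_Fp hF hFp p'
  have h3 := (hF P Q R (Pos Ft Piece.el p) (Pos Ft Piece.el p') D (asmC p) (asmC p') e e.injective
    he.1 he.2 (fun _ y' _ => e.surjective y') (fun y' hy' => absurd (e.surjective y') hy')).2
  rw [h1, h2] at h3
  have h4 : ∀ g, ∃ g', e (Sum.inl g) = Sum.inl g' := by
    intro g
    have h5 : e (Sum.inl g) ∈ e '' range (Sum.inl : Ft → Pos Ft Piece.el p) := ⟨_, ⟨g, rfl⟩, rfl⟩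
    rw [← h3] at h5
    obtain ⟨g', hg'⟩ := h5
    exact ⟨g', hg'.symm⟩
  have h5 : ∀ x, ∃ x', e (Sum.inr x) = Sum.inr x' := by
    intro x
    rcases hx : e (Sum.inr x) with g | x'
    · exfalso
      have h6 : (Sum.inl g : Pos Ft Piece.el p') ∈ e '' range (Sum.inl : Ft → Pos Ft Piece.el p) := by
        rw [← h3]
        exact ⟨g, rfl⟩
      obtain ⟨z, ⟨g', rfl⟩, hz⟩ := h6
      rw [← hx] at hz
      have h7 := e.injective hz
      exact Sum.inl_ne_inr h7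
    · exact ⟨x', rfl⟩
  choose α hα using h4
  choose E hE using h5
  refine ⟨α, E, hα, hE, ?_⟩
  have hlam : ∀ x, (p' (E x).1.1).lam (E x).1.2 = (p x.1.1).lam x.1.2 := by
    intro x
    have h6 := he.1 (Sum.inr x)
    rw [hE] at h6
    exact h6
  have hstep : ∀ (i : I) (a b : ℕ) (ha : a ∈ (p i).el) (hb : b ∈ (p i).el), a ≠ b →
      (p i).tp a b ≠ τ ((p i).lam a) ((p i).lam b) →
      (E ⟨(i, a), ha⟩).1.1 = (E ⟨(i, b), hb⟩).1.1 := by
    intro i a b ha hb hab htp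
    by_contra hne
    apply htp
    have h6 : (Sum.inr ⟨(i, a), ha⟩ : Pos Ft Piece.el p) ≠ Sum.inr ⟨(i, b), hb⟩ := by
      intro h7
      have h8 := Sum.inr_injective h7
      exact hab (congrArg (fun z : {x : I × ℕ // x.2 ∈ (p x.1).el} => z.1.2) h8)
    have h7 := he.2 _ _ h6
    rw [hE, hE] at h7
    have h8 : (asmC p').tp (Sum.inr (E ⟨(i, a), ha⟩)) (Sum.inr (E ⟨(i, b), hb⟩)) =
        τ ((p' (E ⟨(i, a), ha⟩).1.1).lam (E ⟨(i, a), ha⟩).1.2)
          ((p' (E ⟨(i, b), hb⟩).1.1).lam (E ⟨(i, b), hb⟩).1.2) := if_neg hne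
    have h9 : (asmC p).tp (Sum.inr ⟨(i, a), ha⟩) (Sum.inr ⟨(i, b), hb⟩) = (p i).tp a b :=
      if_pos rfl
    rw [h8, h9, hlam, hlam] at h7
    exact h7.symm
  have hconn : ∀ (i : I) (a b : ℕ) (ha : a ∈ (p i).el), Relation.ReflTransGen
      (fun a b => b ∈ (p i).el ∧ a ≠ b ∧ (p i).tp a b ≠ τ ((p i).lam a) ((p i).lam b)) a b →
      ∃ hb : b ∈ (p i).el, (E ⟨(i, a), ha⟩).1.1 = (E ⟨(i, b), hb⟩).1.1 := by
    intro i a b ha h
    induction h with
    | refl => exact ⟨ha, rfl⟩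
    | tail _ h7 ih =>
      obtain ⟨hb, h8⟩ := ih
      exact ⟨h7.1, h8.trans (hstep i _ _ hb h7.1 h7.2.1 h7.2.2)⟩
  rintro ⟨⟨i, a⟩, ha⟩ ⟨⟨k, b⟩, hb⟩ hik
  have hik' : i = k := hik
  subst hik'
  obtain ⟨hb', h6⟩ := hconn i a b ha ((p i).conn a ha b hb)
  exact h6

/-- isomorphisms of pieces over a permutation of the algebraic part -/
private def FRC_Al (α : Ft ≃ Ft) (A A' : Piece D τ sF o) (ε : A.el ≃ A'.el) : Prop :=
  (∀ x, A'.lam (ε x) = A.lam x) ∧ (∀ x y, x ≠ y → A'.tp (ε x) (ε y) = A.tp x y) ∧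
    ∀ x g, A'.fr (ε x) (α g) = A.fr x g

private theorem FRC_Al_symm {α : Ft ≃ Ft} {A A' : Piece D τ sF o} {ε : A.el ≃ A'.el}
    (h : FRC_Al α A A' ε) : FRC_Al α.symm A' A ε.symm := by
  refine ⟨fun x => ?_, fun x y hxy => ?_, fun x g => ?_⟩
  · have h1 := h.1 (ε.symm x)
    rw [Equiv.apply_symm_apply] at h1
    exact h1.symm
  · have h1 := h.2.1 (ε.symm x) (ε.symm y) (fun h2 => hxy (ε.symm.injective h2))
    rw [Equiv.apply_symm_apply, Equiv.apply_symm_apply] at h1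
    exact h1.symm
  · have h1 := h.2.2 (ε.symm x) (α.symm g)
    rw [Equiv.apply_symm_apply, Equiv.apply_symm_apply] at h1
    exact h1.symm

private theorem FRC_Al_iso {α : Ft ≃ Ft} {A A' B B' : Piece D τ sF o} {ε : A.el ≃ A'.el}
    {η : B.el ≃ B'.el} (h : FRC_Al α A A' ε) (k : FRC_Al α B B' η) (hAB : PIso A B) :
    PIso A' B' := by
  obtain ⟨f, f1, f2, f3⟩ := hAB
  have h' := FRC_Al_symm h
  refine ⟨(ε.symm.trans f).trans η, fun x => ?_, fun x y hxy => ?_, fun x g => ?_⟩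
  · show B'.lam (η (f (ε.symm x))) = A'.lam x
    rw [k.1, f1, h'.1]
  · have h1 : ε.symm x ≠ ε.symm y := fun h2 => hxy (ε.symm.injective h2)
    show B'.tp (η (f (ε.symm x))) (η (f (ε.symm y))) = A'.tp x y
    rw [k.2.1 _ _ (fun h2 => h1 (f.injective h2)), f2 _ _ h1, h'.2.1 _ _ hxy]
  · show B'.fr (η (f (ε.symm x))) g = A'.fr x g
    have h1 := k.2.2 (f (ε.symm x)) (α.symm g)
    rw [Equiv.apply_symm_apply] at h1
    rw [h1, f3, h'.2.2]

/-- **[FRC]** isomorphisms respect the pieces (helper31) -/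
theorem thm_FRC (hF : St_FIR) : St_FRC := by
  intro P Q R Ft D τ sF o _ hFp I I' p p' _ _ hiso
  obtain ⟨e, he⟩ := hiso
  obtain ⟨α, E, hα, hE, hidx⟩ := FRC_map hF hFp he
  obtain ⟨α', E', hα', hE', hidx'⟩ := FRC_map hF hFp he.symm
  have a1 : ∀ g, α' (α g) = g := by
    intro g
    have h1 := hα' (α g)
    rw [← hα, Equiv.symm_apply_apply] at h1
    exact (Sum.inl_injective h1).symm
  have a2 : ∀ g, α (α' g) = g := by
    intro g
    have h1 := hα (α' g)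
    rw [← hα', Equiv.apply_symm_apply] at h1
    exact (Sum.inl_injective h1).symm
  have b1 : ∀ x, E' (E x) = x := by
    intro x
    have h1 := hE' (E x)
    rw [← hE, Equiv.symm_apply_apply] at h1
    exact (Sum.inr_injective h1).symm
  have b2 : ∀ x, E (E' x) = x := by
    intro x
    have h1 := hE (E' x)
    rw [← hE', Equiv.apply_symm_apply] at h1
    exact (Sum.inr_injective h1).symm
  have hne : ∀ i, ∃ a, a ∈ (p i).el := fun i => (p i).ne
  have hne' : ∀ i, ∃ a, a ∈ (p' i).el := fun i => (p' i).ne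
  choose c hc using hne
  choose c' hc' using hne'
  obtain ⟨t, ht⟩ : ∃ t : I ≃ I', ∀ x, (E x).1.1 = t x.1.1 := by
    refine ⟨⟨fun i => (E ⟨(i, c i), hc i⟩).1.1, fun i => (E' ⟨(i, c' i), hc' i⟩).1.1,
      fun i => ?_, fun i => ?_⟩, fun x => ?_⟩
    · show (E' ⟨((E ⟨(i, c i), hc i⟩).1.1, c' _), hc' _⟩).1.1 = i
      rw [hidx' ⟨((E ⟨(i, c i), hc i⟩).1.1, c' _), hc' _⟩ (E ⟨(i, c i), hc i⟩) rfl, b1]
    · show (E ⟨((E' ⟨(i, c' i), hc' i⟩).1.1, c _), hc _⟩).1.1 = i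
      rw [hidx ⟨((E' ⟨(i, c' i), hc' i⟩).1.1, c _), hc _⟩ (E' ⟨(i, c' i), hc' i⟩) rfl, b2]
    · exact hidx x ⟨(x.1.1, c x.1.1), hc x.1.1⟩ rfl
  have ht' : ∀ x, (E' x).1.1 = t.symm x.1.1 := by
    intro x
    rw [Equiv.eq_symm_apply, ← ht, b2]
  obtain ⟨A, hA⟩ : ∃ A : Ft ≃ Ft, ∀ g, A g = α g := ⟨⟨α, α', a1, a2⟩, fun _ => rfl⟩
  have key : ∀ i, ∃ ε : (p i).el ≃ (p' (t i)).el, FRC_Al A (p i) (p' (t i)) ε := by
    intro i
    have hmem : ∀ y : (p i).el, (E ⟨(i, y.1), y.2⟩).1.2 ∈ (p' (t i)).el := by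
      intro y
      have h1 := (E ⟨(i, y.1), y.2⟩).2
      rw [ht] at h1
      exact h1
    obtain ⟨f, hf⟩ : ∃ f : (p i).el → (p' (t i)).el, ∀ y, E ⟨(i, y.1), y.2⟩ =
        ⟨(t i, (f y).1), (f y).2⟩ :=
      ⟨fun y => ⟨(E ⟨(i, y.1), y.2⟩).1.2, hmem y⟩, fun y => Subtype.ext (Prod.ext (ht _) rfl)⟩
    have hinj : Function.Injective f := by
      intro y z hyz
      have h1 : E ⟨(i, y.1), y.2⟩ = E ⟨(i, z.1), z.2⟩ := by rw [hf, hf, hyz]
      have h2 := congrArg E' h1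
      rw [b1, b1] at h2
      exact Subtype.ext (congrArg (fun z : {x : I × ℕ // x.2 ∈ (p x.1).el} => z.1.2) h2)
    have hsurj : Function.Surjective f := by
      intro z
      have h1 := b2 ⟨(t i, z.1), z.2⟩
      have h2 := ht' ⟨(t i, z.1), z.2⟩
      rcases hw : E' ⟨(t i, z.1), z.2⟩ with ⟨⟨k, y⟩, hy⟩
      rw [hw] at h1 h2
      have h3 : k = i := h2.trans (t.symm_apply_apply i)
      subst h3
      refine ⟨⟨y, hy⟩, ?_⟩
      have h4 := (hf ⟨y, hy⟩).symm.trans h1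
      exact Subtype.ext (congrArg (fun z : {x : I' × ℕ // x.2 ∈ (p' x.1).el} => z.1.2) h4)
    obtain ⟨ε, hε⟩ : ∃ ε : (p i).el ≃ (p' (t i)).el, ∀ y, ε y = f y :=
      ⟨Equiv.ofBijective f ⟨hinj, hsurj⟩, fun _ => rfl⟩
    have hev : ∀ y : (p i).el, e (Sum.inr ⟨(i, y.1), y.2⟩) =
        Sum.inr ⟨(t i, (ε y).1), (ε y).2⟩ := by
      intro y
      rw [hE, hf, hε]
    refine ⟨ε, fun y => ?_, fun y z hyz => ?_, fun y g => ?_⟩
    · have h1 := he.1 (Sum.inr ⟨(i, y.1), y.2⟩)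
      rw [hev] at h1
      exact h1
    · have h1 : (Sum.inr ⟨(i, y.1), y.2⟩ : Pos Ft Piece.el p) ≠ Sum.inr ⟨(i, z.1), z.2⟩ := by
        intro h2
        have h3 := Sum.inr_injective h2
        exact hyz (Subtype.ext
          (congrArg (fun z : {x : I × ℕ // x.2 ∈ (p x.1).el} => z.1.2) h3))
      have h2 := he.2 _ _ h1
      rw [hev, hev] at h2
      have h3 : (asmC p').tp (Sum.inr ⟨(t i, (ε y).1), (ε y).2⟩)
          (Sum.inr ⟨(t i, (ε z).1), (ε z).2⟩) = (p' (t i)).tp (ε y) (ε z) := if_pos rfl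
      have h4 : (asmC p).tp (Sum.inr ⟨(i, y.1), y.2⟩) (Sum.inr ⟨(i, z.1), z.2⟩) =
          (p i).tp y z := if_pos rfl
      rw [h3, h4] at h2
      exact h2
    · have h1 := he.2 (Sum.inr ⟨(i, y.1), y.2⟩) (Sum.inl g) Sum.inr_ne_inl
      rw [hev, hα, ← hA] at h1
      exact h1
  refine ⟨t, fun i j => ?_⟩
  obtain ⟨ε, hε⟩ := key i
  obtain ⟨η, hη⟩ := key j
  exact ⟨fun h => FRC_Al_iso hε hη h, fun h => FRC_Al_iso (FRC_Al_symm hε) (FRC_Al_symm hη) h⟩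

end CTQ
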