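import Pool.Agent.CTQ.StB

/-!
# CTQ, module FRD: isomorphic pieces give isomorphic unions
-/

set_option autoImplicit false

namespace CTQ

open FirstOrder Set Pool.Agent.Helper6.Str Pool.Agent.Helper5.Multi Pool.Agent.Helper79.VC

theorem thm_FRD : St_FRD := by
  classical
  intro P Q R Ft D τ sF o I I' p p' t hiso hMd
  choose e he1 he2 he3 using hiso
  -- the bijection of the points of the pieces
  let g : {x : I × ℕ // x.2 ∈ (p x.1).el} → {x : I' × ℕ // x.2 ∈ (p' x.1).el} := fun x =>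
    ⟨(t x.1.1, ((e x.1.1 ⟨x.1.2, x.2⟩ : (p' (t x.1.1)).el) : ℕ)), (e x.1.1 ⟨x.1.2, x.2⟩).2⟩
  have hg : Function.Bijective g := by
    constructor
    · rintro ⟨⟨i, a⟩, ha⟩ ⟨⟨i', b⟩, hb⟩ h
      have h1 : t i = t i' := congrArg (fun z => z.1.1) h
      obtain rfl := t.injective h1
      have h2 : ((e i ⟨a, ha⟩ : (p' (t i)).el) : ℕ) = (e i ⟨b, hb⟩ : (p' (t i)).el) :=
        congrArg (fun z => z.1.2) h
      have h3 := (e i).injective (Subtype.ext h2)
      have h4 : a = b := congrArg Subtype.val h3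
      subst h4
      rfl
    · rintro ⟨⟨i', b⟩, hb⟩
      obtain ⟨i, rfl⟩ := t.surjective i'
      refine ⟨⟨(i, ((e i).symm ⟨b, hb⟩ : (p i).el)), ((e i).symm ⟨b, hb⟩).2⟩, ?_⟩
      apply Subtype.ext
      refine Prod.ext rfl ?_
      show ((e i ((e i).symm ⟨b, hb⟩) : (p' (t i)).el) : ℕ) = b
      rw [Equiv.apply_symm_apply]
  let G : {x : I × ℕ // x.2 ∈ (p x.1).el} ≃ {x : I' × ℕ // x.2 ∈ (p' x.1).el} :=
    Equiv.ofBijective g hg
  let E : Pos Ft Piece.el p ≃ Pos Ft Piece.el p' := Equiv.sumCongr (Equiv.refl Ft) G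
  have hE : CIso (asmC p) (asmC p') E := by
    constructor
    · rintro (f | x)
      · rfl
      · exact he1 x.1.1 ⟨x.1.2, x.2⟩
    · rintro (f | ⟨⟨i, a⟩, ha⟩) (f' | ⟨⟨i', b⟩, hb⟩) hxy
      · rfl
      · exact congrArg D.inv (he3 i' ⟨b, hb⟩ f)
      · exact he3 i ⟨a, ha⟩ f'
      · show (if t i = t i' then (p' (t i)).tp (e i ⟨a, ha⟩ : (p' (t i)).el)
            (e i' ⟨b, hb⟩ : (p' (t i')).el)
          else τ ((p' (t i)).lam (e i ⟨a, ha⟩ : (p' (t i)).el))
            ((p' (t i')).lam (e i' ⟨b, hb⟩ : (p' (t i')).el))) =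
          if i = i' then (p i).tp a b else τ ((p i).lam a) ((p i').lam b)
        by_cases h : i = i'
        · subst h
          rw [if_pos rfl, if_pos rfl]
          refine he2 i ⟨a, ha⟩ ⟨b, hb⟩ ?_
          intro h1
          apply hxy
          have h2 : a = b := congrArg Subtype.val h1
          subst h2
          rfl
        · rw [if_neg (fun h1 => h (t.injective h1)), if_neg h, he1, he1]
  refine ⟨⟨E, hE⟩, hMd.1.of_iso hE, ?_, fun m => ?_⟩
  · have := hMd.2.1
    exact E.infinite_iff.1 this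
  · refine (hMd.2.2 m).trans (le_of_eq (encard_equiv G ?_))
    intro x
    show (p' (t x.1.1)).lam (e x.1.1 ⟨x.1.2, x.2⟩ : (p' (t x.1.1)).el) = m ↔
      (p x.1.1).lam x.1.2 = m
    rw [he1]

end CTQ
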