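import Pool.Agent.CTQ.StB

/-!
# CTQ, the frame of pieces (module FRM)
-/

set_option autoImplicit false

namespace CTQ

open FirstOrder Set Pool.Agent.Helper6.Str Pool.Agent.Helper5.Multi Pool.Agent.Helper79.VC

section

variable {P Q R Ft : Type} {D : CData P Q R} {τ : R → R → P} {sF : CStr P R Ft} {o : R → ℕ∞}

theorem PIso.refl (p : Piece D τ sF o) : PIso p p :=
  ⟨Equiv.refl _, fun _ => rfl, fun _ _ _ => rfl, fun _ _ => rfl⟩

theorem PIso.symm {p q : Piece D τ sF o} (h : PIso p q) : PIso q p := by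
  obtain ⟨e, h1, h2, h3⟩ := h
  refine ⟨e.symm, fun x => ?_, fun x y hxy => ?_, fun x f => ?_⟩
  · rw [← h1 (e.symm x), Equiv.apply_symm_apply]
  · have h4 : e.symm x ≠ e.symm y := fun h4 => hxy (e.symm.injective h4)
    rw [← h2 _ _ h4, Equiv.apply_symm_apply, Equiv.apply_symm_apply]
  · rw [← h3 (e.symm x) f, Equiv.apply_symm_apply]

theorem PIso.trans {p q r : Piece D τ sF o} (h : PIso p q) (h' : PIso q r) : PIso p r := by
  obtain ⟨e, h1, h2, h3⟩ := h
  obtain ⟨e', h1', h2', h3'⟩ := h'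
  refine ⟨e.trans e', fun x => ?_, fun x y hxy => ?_, fun x f => ?_⟩
  · rw [Equiv.trans_apply, h1', h1]
  · rw [Equiv.trans_apply, Equiv.trans_apply, h2' _ _ (fun h4 => hxy (e.injective h4)), h2 _ _ hxy]
  · rw [Equiv.trans_apply, h3', h3]

/-- Isomorphism of pieces as a setoid. -/
def pieceSetoid (D : CData P Q R) (τ : R → R → P) (sF : CStr P R Ft) (o : R → ℕ∞) :
    Setoid (Piece D τ sF o) where
  r := PIso
  iseqv := ⟨PIso.refl, PIso.symm, PIso.trans⟩

/-- The map of positions gives an embedding of the relational structures. -/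
theorem emb_toL {I I' : Type} {p : I → Piece D τ sF o} {p' : I' → Piece D τ sF o} (j : I → I')
    (hj : ∀ i, p' (j i) = p i) (hinj : Function.Injective j) (n : ℕ) (r : (LC P R).Relations n)
    (v : Fin n → Pos Ft Piece.el p) :
    (asmC p).toL.RelMap r v ↔ (asmC p').toL.RelMap r (posMap j hj ∘ v) := by
  obtain ⟨h1, h2⟩ := asmC_posMap (p := p) (p' := p') j hj hinj
  have h3 : Function.Injective (posMap (F := Ft) (el := Piece.el) j hj) :=
    posMap_injective j hj hinj
  match n, r, v with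
  | 0, r, v => exact Iff.rfl
  | 1, m, v =>
    show (asmC p).lam (v 0) = m ↔ (asmC p').lam (posMap j hj (v 0)) = m
    rw [h1]
  | 2, ρ, v =>
    show (v 0 ≠ v 1 ∧ (asmC p).tp (v 0) (v 1) = ρ) ↔
      (posMap j hj (v 0) ≠ posMap j hj (v 1) ∧
        (asmC p').tp (posMap j hj (v 0)) (posMap j hj (v 1)) = ρ)
    rw [h2, h3.ne_iff]
  | _ + 3, r, v => exact Iff.rfl

end

/-- The frame for the classes `KF D τ sF o`. -/
theorem thm_FRM (hFRB : St_FRB) (hFRC : St_FRC) (hFRD : St_FRD) : St_FRM := by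
  intro P Q R Ft _ _ hFt D τ sF o hτ hF
  let fr : Frame (KF D τ sF o) :=
    { Piece := Piece D τ sF o
      r := pieceSetoid D τ sF o
      F := Ft
      ctF := hFt
      el := Piece.el
      asm := fun p => (asmC p).toL
      Md := fun p => MdC p
      md_congr := fun t ht hM => (hFRD P Q R Ft D τ sF o _ _ _ _ t ht hM).2
      congr := fun t ht hM => iso_toL_iff.2 (hFRD P Q R Ft D τ sF o _ _ _ _ t ht hM).1
      inf := fun hM => hM.2.1
      emb := fun j hj hinj _ n r v => emb_toL j hj hinj n r v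
      mem := fun {I} _ {p} hM S hS => ⟨I, ‹_›, p, hM, hS⟩
      rep := fun S hS => hS
      mono := fun j hinj hj hM => hFRB P Q R Ft D τ sF o hτ _ _ _ _ j hinj hj hM
      dec := fun hM hM' hI => hFRC P Q R Ft D τ sF o hτ hF _ _ _ _ hM hM' (iso_toL_iff.1 hI) }
  exact fr.dichotomy

end CTQ
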