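import Pool.Agent.CTQ.StC

/-!
# CTQ: [IVC] isomorphisms preserve truth, with counting
-/

set_option autoImplicit false
set_option linter.unusedVariables false

namespace CTQ

open FirstOrder Set Pool.Agent.Helper6.Str Pool.Agent.Helper5.Multi Pool.Agent.Helper79.VC
open VPF (Atm atm)

private theorem IVC_upd {k : ℕ} {M N : Type} (e : M ≃ N) (v : Fin k → M) (i : Fin k) (a : M) :
    Function.update (e ∘ v) i (e a) = e ∘ Function.update v i a := by
  funext j
  by_cases h : j = i
  · subst h
    simp
  · simp [Function.update_of_ne h]

private theorem IVC_sat {L : FirstOrder.Language.{0, 0}} {M N : Type} {S : L.Structure M}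
    {S' : L.Structure N} {e : M ≃ N} (he : RelIso S S' e) {k : ℕ} (φ : FC L k) :
    ∀ v : Fin k → M, φ.Sat S' (e ∘ v) ↔ φ.Sat S v := by
  induction φ with
  | eq i j =>
    intro v
    exact e.injective.eq_iff
  | rel R w =>
    intro v
    exact (he _ R fun i => v (w i)).symm
  | neg φ ih =>
    intro v
    exact not_congr (ih v)
  | conj φ ih =>
    intro v
    exact forall_congr' fun m => ih m v
  | ge n i φ ih =>
    intro v
    have h : {a : M | FC.Sat S φ (Function.update v i a)}.encard =
        {a : N | FC.Sat S' φ (Function.update (e ∘ v) i a)}.encard := by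
      refine encard_equiv e fun a => ?_
      show FC.Sat S' φ (Function.update (e ∘ v) i (e a)) ↔ FC.Sat S φ (Function.update v i a)
      rw [IVC_upd]
      exact ih _
    show (n : ℕ∞) ≤ {a : N | FC.Sat S' φ (Function.update (e ∘ v) i a)}.encard ↔
      (n : ℕ∞) ≤ {a : M | FC.Sat S φ (Function.update v i a)}.encard
    rw [h]

/-- [IVC] -/
theorem thm_IVC : St_IVC := by
  intro L M N S S' e he
  have h5 : ∀ x y a, atm S' (e x) (e y) a ↔ atm S x y a := by
    intro x y a
    have h := he _ a.2.1 (fun i => if a.2.2 i = 0 then x else y)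
    unfold atm
    rw [h]
    have e1 : (fun i => if a.2.2 i = 0 then e x else e y) =
        fun i => e (if a.2.2 i = 0 then x else y) := by
      funext i
      split_ifs <;> rfl
    rw [e1]
    rfl
  refine ⟨fun k φ v => IVC_sat he φ v, fun F x => ?_, fun x y => ?_⟩
  · funext i
    apply propext
    cases i with
    | inl m => exact IVC_sat he (F m) (fun _ => x)
    | inr a => exact h5 x x a
  · funext a
    exact propext (h5 x y a)

end CTQ
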