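import Pool.Agent.CTQ.StB
import Pool.Agent.CTQ.BAS
import Pool.Agent.VB.B

/-!
# CTQ, module KOC (helper71): countably many algebraic parts
-/

set_option autoImplicit false

namespace CTQ

open FirstOrder Set Pool.Agent.Helper6.Str Pool.Agent.Helper5.Multi Pool.Agent.Helper79.VC

section

variable {P Q R V V' : Type}

/-- the union of the first `k` definable sets has an enumeration with the data `l`, `t`, `g` -/
private def KOC_E (D : CData P Q R) (w : ℕ → Wd P R) (s : CStr P R V) (k N : ℕ) (l : Fin N → R)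
    (t : Fin N → Fin N → P) (g : Fin N → Fin k → Bool) : Prop :=
  ∃ v : Fin N → V, Function.Injective v ∧ (∀ x, (∃ i < k, x ∈ G D s (w i)) ↔ ∃ a, v a = x) ∧
    (∀ a, s.lam (v a) = l a) ∧ (∀ a b, a ≠ b → s.tp (v a) (v b) = t a b) ∧
    ∀ a (i : Fin k), v a ∈ G D s (w i) ↔ g a i = true

private theorem KOC_G (hR : St_FIR) {D : CData P Q R} {s : CStr P R V} {s' : CStr P R V'}
    {e : V ≃ V'} (h : CIso s s' e) :
    (∀ w x, e x ∈ G D s' w ↔ x ∈ G D s w) ∧ ∀ x, e x ∈ Fp D s' ↔ x ∈ Fp D s := by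
  obtain ⟨h1, h2⟩ := hR P Q R V V' D s s' e e.injective h.1 (fun x y hxy => h.2 x y hxy)
    (fun x y' _ => e.surjective y') (fun y' hy' => absurd (e.surjective y') hy')
  refine ⟨fun w x => ?_, fun x => ?_⟩
  · rw [h1 w]
    exact e.injective.mem_set_image
  · rw [h2]
    exact e.injective.mem_set_image

private theorem KOC_inv (hR : St_FIR) {D : CData P Q R} {w : ℕ → Wd P R} {s : CStr P R V}
    {s' : CStr P R V'} {e : V ≃ V'} (h : CIso s s' e) {k N : ℕ} {l : Fin N → R}
    {t : Fin N → Fin N → P} {g : Fin N → Fin k → Bool} (hE : KOC_E D w s k N l t g) :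
    KOC_E D w s' k N l t g := by
  obtain ⟨v, h1, h2, h3, h4, h5⟩ := hE
  have hG := (KOC_G hR (D := D) h).1
  refine ⟨fun a => e (v a), fun a b hab => h1 (e.injective hab), fun x => ?_, fun a => ?_,
    fun a b hab => ?_, fun a i => ?_⟩
  · obtain ⟨x, rfl⟩ := e.surjective x
    simp only [hG, e.injective.eq_iff]
    exact h2 x
  · rw [h.1]
    exact h3 a
  · rw [h.2 _ _ fun h' => hab (h1 h')]
    exact h4 a b hab
  · rw [hG]
    exact h5 a i

private theorem KOC_out (hR : St_FIR) {D : CData P Q R} {s : CStr P R V} {s' : CStr P R V'}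
    {e : V ≃ V'} (h : CIso s s' e) (m : R) : outC D s m = outC D s' m := by
  unfold outC
  refine encard_equiv e fun x => ?_
  simp only [mem_ofPred_eq, h.1, (KOC_G hR (D := D) h).2]

private theorem KOC_apx {D : CData P Q R} {w : ℕ → Wd P R} {s : CStr P R V} {s' : CStr P R V'}
    {k N : ℕ} {l : Fin N → R} {t : Fin N → Fin N → P} {g : Fin N → Fin k → Bool}
    (h : KOC_E D w s k N l t g) (h' : KOC_E D w s' k N l t g) : Apx D s s' w k := by
  obtain ⟨v, h1, h2, h3, h4, h5⟩ := h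
  obtain ⟨v', h1', h2', h3', h4', h5'⟩ := h'
  let f : Fin N ≃ {x // ∃ i < k, x ∈ G D s (w i)} := Equiv.ofBijective
    (fun a => ⟨v a, (h2 _).2 ⟨a, rfl⟩⟩)
    ⟨fun a b hab => h1 (congrArg Subtype.val hab), fun x => by
      obtain ⟨a, ha⟩ := (h2 x.1).1 x.2
      exact ⟨a, Subtype.ext ha⟩⟩
  let f' : Fin N ≃ {x // ∃ i < k, x ∈ G D s' (w i)} := Equiv.ofBijective
    (fun a => ⟨v' a, (h2' _).2 ⟨a, rfl⟩⟩)
    ⟨fun a b hab => h1' (congrArg Subtype.val hab), fun x => by
      obtain ⟨a, ha⟩ := (h2' x.1).1 x.2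
      exact ⟨a, Subtype.ext ha⟩⟩
  have hf : ∀ a, (f a).1 = v a := fun _ => rfl
  have hf' : ∀ a, (f' a).1 = v' a := fun _ => rfl
  refine ⟨f.symm.trans f', fun x => ?_, fun x y hxy => ?_, fun x i hi => ?_⟩
  · obtain ⟨a, rfl⟩ := f.surjective x
    rw [Equiv.trans_apply, Equiv.symm_apply_apply, hf, hf', h3, h3']
  · obtain ⟨a, rfl⟩ := f.surjective x
    obtain ⟨b, rfl⟩ := f.surjective y
    have hab : a ≠ b := fun h => hxy (congrArg f h)
    rw [Equiv.trans_apply, Equiv.trans_apply, Equiv.symm_apply_apply, Equiv.symm_apply_apply,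
      hf, hf, hf', hf', h4 a b hab, h4' a b hab]
  · obtain ⟨a, rfl⟩ := f.surjective x
    rw [Equiv.trans_apply, Equiv.symm_apply_apply, hf, hf']
    exact (h5' a ⟨i, hi⟩).trans (h5 a ⟨i, hi⟩).symm

private theorem KOC_ex {D : CData P Q R} {w : ℕ → Wd P R} {s : CStr P R V}
    (hfin : ∀ v, (G D s v).Finite) (k : ℕ) : ∃ (N : ℕ) (l : Fin N → R) (t : Fin N → Fin N → P)
      (g : Fin N → Fin k → Bool), KOC_E D w s k N l t g := by
  classical
  have h1 : {x | ∃ i < k, x ∈ G D s (w i)}.Finite := by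
    have h2 : {x | ∃ i < k, x ∈ G D s (w i)} = ⋃ i ∈ Set.Iio k, G D s (w i) := by
      ext x
      simp only [mem_ofPred_eq, mem_iUnion, mem_Iio, exists_prop]
    rw [h2]
    exact (Set.finite_Iio k).biUnion fun i _ => hfin _
  have h2 : Finite {x | ∃ i < k, x ∈ G D s (w i)} := h1.to_subtype
  obtain ⟨N, ⟨e⟩⟩ := Finite.exists_equiv_fin {x | ∃ i < k, x ∈ G D s (w i)}
  refine ⟨N, fun a => s.lam (e.symm a).1, fun a b => s.tp (e.symm a).1 (e.symm b).1,
    fun a i => decide ((e.symm a).1 ∈ G D s (w i)), fun a => (e.symm a).1, fun a b hab => ?_,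
    fun x => ⟨fun hx => ⟨e ⟨x, hx⟩, by
      show (e.symm (e ⟨x, hx⟩)).1 = x
      rw [Equiv.symm_apply_apply]⟩, ?_⟩, fun _ => rfl,
    fun _ _ _ => rfl, fun a i => ?_⟩
  · exact e.symm.injective (Subtype.ext hab)
  · rintro ⟨a, rfl⟩
    exact (e.symm a).2
  · exact decide_eq_true_iff.symm

end

/-- Countably many algebraic parts. -/
theorem thm_KOC (hM : St_MEC) (hK : St_KON) (hF : St_FIN) (hR : St_FIR) : St_KOC := by
  classical
  intro P Q R _ _ _ D s₀ hs₀ hNQ hP
  obtain ⟨w, hw⟩ : ∃ w : ℕ → Wd P R, Function.Surjective w := by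
    have : Nonempty (Wd P R) := ⟨(Sum.inl (s₀.lam 0), [])⟩
    exact exists_surjective_nat _
  obtain ⟨m1, m2, m3, m4, m5, m6, m7⟩ := hM P Q R D (s₀.lam 0) (s₀.tp 0 0)
  obtain ⟨ρ, hρ⟩ := Pool.Agent.Helper5.DU.ctbl_of_props m7 hP (n := 0)
    (ι := ((k : ℕ) × ((N : ℕ) × ((Fin N → R) × ((Fin N → Fin N → P) ×
      (Fin N → Fin k → Bool))))) ⊕ (R × ℕ))
    (fun q S _ => match q with
      | .inl q => KOC_E D w (ofL (s₀.lam 0) (s₀.tp 0 0) S) q.1 q.2.1 q.2.2.1 q.2.2.2.1 q.2.2.2.2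
      | .inr q => (q.2 : ℕ∞) ≤ outC D (ofL (s₀.lam 0) (s₀.tp 0 0) S) q.1)
    (by
      rintro (⟨k, N, l, t, g⟩ | ⟨m, n⟩) v
      · have h1 : {c : Code (LC P R) | KOC_E D w (ofL (s₀.lam 0) (s₀.tp 0 0) (toStr c)) k N l t g} =
            ⋃ v : {v : Fin N → ℕ // Function.Injective v},
              ((⋂ x, {c : Code (LC P R) |
                (∃ i < k, x ∈ G D (ofL (s₀.lam 0) (s₀.tp 0 0) (toStr c)) (w i)) ↔
                  ∃ a, v.1 a = x}) ∩
              ((⋂ a, {c : Code (LC P R) | (ofL (s₀.lam 0) (s₀.tp 0 0) (toStr c)).lam (v.1 a) =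
                l a}) ∩
              ((⋂ a, ⋂ b, {c : Code (LC P R) | a ≠ b →
                (ofL (s₀.lam 0) (s₀.tp 0 0) (toStr c)).tp (v.1 a) (v.1 b) = t a b}) ∩
              ⋂ a, ⋂ i : Fin k, {c : Code (LC P R) |
                v.1 a ∈ G D (ofL (s₀.lam 0) (s₀.tp 0 0) (toStr c)) (w i) ↔ g a i = true}))) := by
          ext c
          simp only [mem_iUnion, mem_inter_iff, mem_iInter, mem_ofPred_eq, Subtype.exists,
            exists_prop]
          exact Iff.rfl
        have h2 : ∀ x, MeasurableSet {c : Code (LC P R) |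
            ∃ i < k, x ∈ G D (ofL (s₀.lam 0) (s₀.tp 0 0) (toStr c)) (w i)} := by
          intro x
          have h3 : {c : Code (LC P R) |
              ∃ i < k, x ∈ G D (ofL (s₀.lam 0) (s₀.tp 0 0) (toStr c)) (w i)} =
              ⋃ i ∈ Set.Iio k, {c : Code (LC P R) |
                x ∈ G D (ofL (s₀.lam 0) (s₀.tp 0 0) (toStr c)) (w i)} := by
            ext c
            simp only [mem_ofPred_eq, mem_iUnion, mem_Iio, exists_prop]
          rw [h3]
          exact MeasurableSet.biUnion (Set.to_countable _) fun i _ => m5 (w i) x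
        have hiff : ∀ (X : Set (Code (LC P R))) (q : Prop), MeasurableSet X →
            MeasurableSet {c | c ∈ X ↔ q} := by
          intro X q hX
          by_cases hq : q
          · have : {c | c ∈ X ↔ q} = X := by
              ext c
              simp [hq]
            rw [this]
            exact hX
          · have : {c | c ∈ X ↔ q} = Xᶜ := by
              ext c
              simp [hq]
            rw [this]
            exact hX.compl
        show MeasurableSet {c : Code (LC P R) |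
          KOC_E D w (ofL (s₀.lam 0) (s₀.tp 0 0) (toStr c)) k N l t g}
        rw [h1]
        refine MeasurableSet.iUnion fun v => MeasurableSet.inter (MeasurableSet.iInter fun x =>
          hiff _ _ (h2 x)) (MeasurableSet.inter (MeasurableSet.iInter fun a => m3 _ _)
          (MeasurableSet.inter (MeasurableSet.iInter fun a => MeasurableSet.iInter fun b => ?_)
            (MeasurableSet.iInter fun a => MeasurableSet.iInter fun i =>
              hiff _ _ (m5 (w i) _))))
        by_cases hab : a = b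
        · have : {c : Code (LC P R) | a ≠ b →
              (ofL (s₀.lam 0) (s₀.tp 0 0) (toStr c)).tp (v.1 a) (v.1 b) = t a b} = Set.univ := by
            ext c
            simp [hab]
          rw [this]
          exact MeasurableSet.univ
        · have : {c : Code (LC P R) | a ≠ b →
              (ofL (s₀.lam 0) (s₀.tp 0 0) (toStr c)).tp (v.1 a) (v.1 b) = t a b} =
              {c : Code (LC P R) |
                (ofL (s₀.lam 0) (s₀.tp 0 0) (toStr c)).tp (v.1 a) (v.1 b) = t a b} := by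
            ext c
            simp [hab]
          rw [this]
          exact m4 _ _ _
      · exact m6 m n)
    (by
      rintro (⟨k, N, l, t, g⟩ | ⟨m, n⟩) S S' e v he h
      · exact KOC_inv hR (m2 S S' e he) h
      · show (n : ℕ∞) ≤ outC D (ofL (s₀.lam 0) (s₀.tp 0 0) S') m
        rw [← KOC_out hR (m2 S S' e he) m]
        exact h)
  have hσ : ∀ k, ∃ s : CStr P R ℕ, IsC D s ∧ ((ρ k).1 ∈ KC D → (ρ k).1 = s.toL) := by
    intro k
    by_cases h : (ρ k).1 ∈ KC D
    · obtain ⟨s, h1, h2⟩ := h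
      exact ⟨s, h1, fun _ => h2⟩
    · exact ⟨s₀, hs₀, fun h' => absurd h' h⟩
  choose σ hσ1 hσ2 using hσ
  refine ⟨σ, hσ1, fun s hs => ?_⟩
  obtain ⟨m, hm1, hm2⟩ := hρ s.toL ⟨s, hs, rfl⟩ Fin.elim0
  have hm3 := hσ2 m hm1
  refine ⟨m, ?_, ?_⟩
  · have hf1 := (hF P Q R ℕ D (σ m) (hσ1 m) (hNQ (σ m) (hσ1 m))).1
    have hf2 := (hF P Q R ℕ D s hs (hNQ s hs)).1
    refine hK P Q R ℕ ℕ D (σ m) s w hw hf1 hf2 fun k => ?_
    obtain ⟨N, l, t, g, hE⟩ := KOC_ex (w := w) hf1 k
    refine KOC_apx hE ?_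
    have h1 : KOC_E D w (ofL (s₀.lam 0) (s₀.tp 0 0) (σ m).toL) k N l t g :=
      KOC_inv hR (m1 (σ m)) hE
    rw [← hm3] at h1
    have h2 : KOC_E D w (ofL (s₀.lam 0) (s₀.tp 0 0) s.toL) k N l t g :=
      (hm2 (Sum.inl ⟨k, N, l, t, g⟩)).2 h1
    exact KOC_inv hR (m1 s).symm h2
  · funext r
    refine ENat.eq_of_forall_natCast_le_iff fun n => ?_
    rw [KOC_out hR (m1 (σ m)) r, KOC_out hR (m1 s) r, ← hm3]
    exact (hm2 (Sum.inr (r, n))).symm

end CTQ
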