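import Pool.Agent.CTQ.StB

/-!
# CTQ, module KON: Koenig's lemma for increasing unions of finite structures
-/

set_option autoImplicit false

namespace CTQ

open FirstOrder Set Pool.Agent.Helper6.Str Pool.Agent.Helper5.Multi Pool.Agent.Helper79.VC

/-- finitely many cases along an ultrafilter -/
private theorem KON_fin {V : Type} {T : Set V} (hT : T.Finite) (U : Ultrafilter ℕ)
    (A : ℕ → V → Prop) (h : ∀ᶠ k in (U : Filter ℕ), ∃ y ∈ T, A k y) :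
    ∃ y ∈ T, ∀ᶠ k in (U : Filter ℕ), A k y := by
  have h1 : (⋃ y ∈ T, {k | A k y}) ∈ U := by
    have h2 : {k | ∃ y ∈ T, A k y} ∈ U := h
    have e : (⋃ y ∈ T, {k | A k y}) = {k | ∃ y ∈ T, A k y} := by
      ext k
      simp only [mem_iUnion, mem_ofPred_eq, exists_prop]
    rw [e]
    exact h2
  obtain ⟨y, hy, h3⟩ := (Ultrafilter.finite_biUnion_mem_iff hT).1 h1
  exact ⟨y, hy, h3⟩

theorem thm_KON : St_KON := by
  intro P Q R V V' D s s' w hw hf hf' hA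
  choose e he1 he2 he3 using hA
  let U : Ultrafilter ℕ := Filter.hyperfilter ℕ
  have hU : (U : Filter ℕ) ≤ Filter.atTop := Nat.hyperfilter_le_atTop
  let A : ℕ → V → V' → Prop := fun k x y =>
    ∃ h : (∃ i < k, x ∈ G D s (w i)), (e k ⟨x, h⟩).1 = y
  have hex : ∀ x ∈ Fp D s, ∃ y ∈ Fp D s', ∀ᶠ k in (U : Filter ℕ), A k x y := by
    rintro x ⟨v, hv⟩
    obtain ⟨i, rfl⟩ := hw v
    have h1 : ∀ᶠ k in (U : Filter ℕ), ∃ y ∈ G D s' (w i), A k x y := by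
      refine Filter.Eventually.filter_mono hU ((Filter.eventually_gt_atTop i).mono fun k hk => ?_)
      exact ⟨(e k ⟨x, i, hk, hv⟩).1, (he3 k ⟨x, i, hk, hv⟩ i hk).2 hv, ⟨i, hk, hv⟩, rfl⟩
    obtain ⟨y, hy, h2⟩ := KON_fin (hf' (w i)) U (fun k y => A k x y) h1
    exact ⟨y, ⟨w i, hy⟩, h2⟩
  have hey : ∀ y ∈ Fp D s', ∃ x ∈ Fp D s, ∀ᶠ k in (U : Filter ℕ), A k x y := by
    rintro y ⟨v, hv⟩
    obtain ⟨i, rfl⟩ := hw v
    have h1 : ∀ᶠ k in (U : Filter ℕ), ∃ x ∈ G D s (w i), A k x y := by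
      refine Filter.Eventually.filter_mono hU ((Filter.eventually_gt_atTop i).mono fun k hk => ?_)
      have h2 : e k ((e k).symm ⟨y, i, hk, hv⟩) = ⟨y, i, hk, hv⟩ := Equiv.apply_symm_apply _ _
      have h3 : (e k ((e k).symm ⟨y, i, hk, hv⟩)).1 ∈ G D s' (w i) := by
        rw [h2]
        exact hv
      refine ⟨((e k).symm ⟨y, i, hk, hv⟩).1, (he3 k _ i hk).1 h3,
        ((e k).symm ⟨y, i, hk, hv⟩).2, ?_⟩
      exact congrArg Subtype.val h2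
    obtain ⟨x, hx, h2⟩ := KON_fin (hf (w i)) U (fun k x => A k x y) h1
    exact ⟨x, ⟨w i, hx⟩, h2⟩
  choose E hE1 hE2 using hex
  choose E' hE'1 hE'2 using hey
  refine ⟨⟨fun x => ⟨E x.1 x.2, hE1 x.1 x.2⟩, fun y => ⟨E' y.1 y.2, hE'1 y.1 y.2⟩, ?_, ?_⟩, ?_, ?_⟩
  · rintro ⟨x, hx⟩
    apply Subtype.ext
    obtain ⟨k, ⟨h1, h2⟩, h3, h4⟩ := ((hE2 x hx).and (hE'2 _ (hE1 x hx))).exists
    have h5 := (e k).injective (Subtype.ext (h4.trans h2.symm))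
    exact Subtype.mk.inj h5
  · rintro ⟨y, hy⟩
    apply Subtype.ext
    obtain ⟨k, ⟨h1, h2⟩, h3, h4⟩ := ((hE'2 y hy).and (hE2 _ (hE'1 y hy))).exists
    exact h4.symm.trans h2
  · rintro ⟨x, hx⟩
    obtain ⟨k, h1, h2⟩ := (hE2 x hx).exists
    show s'.lam (E x hx) = s.lam x
    rw [← h2]
    exact he1 k ⟨x, h1⟩
  · rintro ⟨x, hx⟩ ⟨y, hy⟩ hxy
    obtain ⟨k, ⟨h1, h2⟩, h3, h4⟩ := ((hE2 x hx).and (hE2 y hy)).exists
    show s'.tp (E x hx) (E y hy) = s.tp x y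
    rw [← h2, ← h4]
    refine he2 k ⟨x, h1⟩ ⟨y, h3⟩ fun h5 => hxy ?_
    exact Subtype.ext (Subtype.mk.inj h5)

end CTQ
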