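import Pool.Agent.CTQ.StC

/-!
# CTQ, module LBL: countably many labels
-/

set_option autoImplicit false

namespace CTQ

open FirstOrder Set Pool.Agent.Helper6.Str Pool.Agent.Helper5.Multi Pool.Agent.Helper79.VC
open VPF (Atm atm)

section

variable {L : FirstOrder.Language.{0, 0}} [∀ n, IsEmpty (L.Functions n)]
  [∀ n, Countable (L.Relations n)]

private theorem LBL_cnt {K : Set (L.Structure ℕ)}
    (hK : MeasurableSet {c : Code L | toStr c ∈ K}) (hP : ¬ PerfK K) {n : ℕ} {ι : Type}
    [Countable ι] (A : ι → L.Structure ℕ → (Fin n → ℕ) → Prop)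
    (hA : ∀ k v, MeasurableSet {c : Code L | A k (toStr c) v})
    (hinv : ∀ k (S S' : L.Structure ℕ) (e : ℕ ≃ ℕ) (v : Fin n → ℕ), RelIso S S' e → A k S v →
      A k S' (e ∘ v))
    {β T : Type} (val : L.Structure ℕ → (Fin n → ℕ) → β)
    (hval : ∀ S v S' v', (∀ k, A k S v ↔ A k S' v') → val S v = val S' v')
    (j : T → β) (hj : Function.Injective j) (hT : ∀ t, ∃ S ∈ K, ∃ v, j t = val S v) :
    Countable T := by
  obtain ⟨ρ, hρ⟩ := Pool.Agent.Helper5.DU.ctbl_of_props hK hP A hA hinv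
  have h : ∀ t, ∃ m, j t = val (ρ m).1 (ρ m).2 := by
    intro t
    obtain ⟨S, hS, v, hv⟩ := hT t
    obtain ⟨m, -, hm⟩ := hρ S hS v
    exact ⟨m, hv.trans (hval _ _ _ _ hm)⟩
  choose m hm using h
  have hinj : Function.Injective m := fun t t' h => hj (by rw [hm, hm, h])
  exact hinj.countable

/-- a family of measurable conditions with prescribed truth values -/
private theorem LBL_eq {X I : Type} [MeasurableSpace X] [Countable I] (A : X → I → Prop)
    (hA : ∀ i, MeasurableSet {x | A x i}) (p : I → Prop) : MeasurableSet {x | A x = p} := by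
  have h : {x | A x = p} = ⋂ i, {x | A x i ↔ p i} := by
    ext x
    simp only [mem_ofPred_eq, mem_iInter]
    constructor
    · intro h i
      rw [h]
    · intro h
      funext i
      exact propext (h i)
  rw [h]
  refine MeasurableSet.iInter fun i => ?_
  by_cases hp : p i
  · have h1 : {x | A x i ↔ p i} = {x | A x i} := by
      ext x
      simp only [mem_ofPred_eq]
      exact iff_true_right hp
    rw [h1]
    exact hA i
  · have h1 : {x | A x i ↔ p i} = {x | A x i}ᶜ := by
      ext x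
      simp only [mem_ofPred_eq, mem_compl_iff]
      exact iff_false_right hp
    rw [h1]
    exact (hA i).compl

end

theorem thm_LBL (hM : St_MSC) (hI : St_IVC) : St_LBL := by
  intro L _ _ F hP
  obtain ⟨-, mT, mA, mK⟩ := hM L
  have hK := mK 2 (F 0)
  have iT : ∀ (S S' : L.Structure ℕ) (e : ℕ ≃ ℕ), RelIso S S' e → ∀ x,
      tyc S' F (e x) = tyc S F x := fun S S' e h x => (hI L ℕ ℕ S S' e h).2.1 F x
  have iP : ∀ (S S' : L.Structure ℕ) (e : ℕ ≃ ℕ), RelIso S S' e → ∀ x y,
      pt S' (e x) (e y) = pt S x y := fun S S' e h => (hI L ℕ ℕ S S' e h).2.2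
  have iC : ∀ (S S' : L.Structure ℕ) (e : ℕ ≃ ℕ), RelIso S S' e → ∀ x,
      cntT (ModC (F 0)) F S' (e x) = cntT (ModC (F 0)) F S x := by
    intro S S' e h x
    funext ρ q
    refine (encard_equiv e fun y => ?_).symm
    simp only [mem_ofPred_eq, iP S S' e h, iT S S' e h, e.injective.ne_iff]
  -- (1)
  have c1 : Countable (PTy (ModC (F 0))) := by
    refine LBL_cnt hK hP (n := 2) (ι := Atm L) (fun a S v => atm S (v 0) (v 1) a)
      (fun a v => mA (v 0) (v 1) a) ?_ (fun S v => pt S (v 0) (v 1)) ?_ Subtype.val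
      Subtype.val_injective ?_
    · intro a S S' e v he h
      have h1 := congrFun (iP S S' e he (v 0) (v 1)) a
      exact h1.mpr h
    · intro S v S' v' h
      funext a
      exact propext (h a)
    · rintro ⟨q, S, hS, x, y, hq⟩
      exact ⟨S, hS, ![x, y], hq⟩
  -- (2)
  have c2 : Countable (QTy (ModC (F 0)) F) := by
    refine LBL_cnt hK hP (n := 1) (ι := ℕ ⊕ Atm L) (fun i S v => tyc S F (v 0) i)
      (fun i v => mT F (v 0) i) ?_ (fun S v => tyc S F (v 0)) ?_ Subtype.val
      Subtype.val_injective ?_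
    · intro i S S' e v he h
      have h1 := congrFun (iT S S' e he (v 0)) i
      exact h1.mpr h
    · intro S v S' v' h
      funext i
      exact propext (h i)
    · rintro ⟨q, S, hS, x, hq⟩
      exact ⟨S, hS, fun _ => x, hq⟩
  -- measurability of the numbers
  have mTe : ∀ (x : ℕ) (q : ℕ ⊕ Atm L → Prop), MeasurableSet {c : Code L | tyc (toStr c) F x = q} :=
    fun x q => LBL_eq (fun c => tyc (toStr c) F x) (fun i => mT F x i) q
  have mPe : ∀ (x y : ℕ) (q : Atm L → Prop), MeasurableSet {c : Code L | pt (toStr c) x y = q} :=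
    fun x y q => LBL_eq (fun c => pt (toStr c) x y) (fun a => mA x y a) q
  have mS : ∀ (x : ℕ) (ρ : PTy (ModC (F 0))) (q : QTy (ModC (F 0)) F) (b : ℕ),
      MeasurableSet {c : Code L | b ∈ {y | y ≠ x ∧ pt (toStr c) x y = ρ.1 ∧
        tyc (toStr c) F y = q.1}} := by
    intro x ρ q b
    exact (MeasurableSet.const (b ≠ x)).inter ((mPe x b ρ.1).inter (mTe b q.1))
  have mC : ∀ (x : ℕ) (f : PTy (ModC (F 0)) → QTy (ModC (F 0)) F → ℕ∞),
      MeasurableSet {c : Code L | cntT (ModC (F 0)) F (toStr c) x = f} := by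
    intro x f
    have h : {c : Code L | cntT (ModC (F 0)) F (toStr c) x = f} =
        ⋂ ρ, ⋂ q, {c : Code L | cntT (ModC (F 0)) F (toStr c) x ρ q = f ρ q} := by
      ext c
      simp only [mem_ofPred_eq, mem_iInter]
      constructor
      · intro h ρ q
        rw [h]
      · intro h
        funext ρ q
        exact h ρ q
    rw [h]
    exact MeasurableSet.iInter fun ρ => MeasurableSet.iInter fun q =>
      measurableSet_encard_eq (fun c : Code L => {y | y ≠ x ∧ pt (toStr c) x y = ρ.1 ∧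
        tyc (toStr c) F y = q.1}) (mS x ρ q) (f ρ q)
  -- (3)
  have c3 : Countable (RTy (ModC (F 0)) F) := by
    refine LBL_cnt hK hP (n := 1)
      (ι := (ℕ ⊕ Atm L) ⊕ (ℕ × (PTy (ModC (F 0)) × QTy (ModC (F 0)) F)))
      (fun i S v => match i with
        | .inl i => tyc S F (v 0) i
        | .inr p => (p.1 : ℕ∞) ≤ cntT (ModC (F 0)) F S (v 0) p.2.1 p.2.2) ?_ ?_
      (fun S v => (tyc S F (v 0), cntT (ModC (F 0)) F S (v 0))) ?_
      (fun r => (r.1.1.1, r.1.2)) ?_ ?_
    · rintro (i | ⟨k, ρ, q⟩) v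
      · exact mT F (v 0) i
      · exact measurableSet_le_encard (fun c : Code L => {y | y ≠ v 0 ∧ pt (toStr c) (v 0) y = ρ.1 ∧
          tyc (toStr c) F y = q.1}) (mS (v 0) ρ q) k
    · rintro (i | ⟨k, ρ, q⟩) S S' e v he h
      · have h1 := congrFun (iT S S' e he (v 0)) i
        exact h1.mpr h
      · show (k : ℕ∞) ≤ cntT (ModC (F 0)) F S' (e (v 0)) ρ q
        rw [iC S S' e he (v 0)]
        exact h
    · intro S v S' v' h
      refine Prod.ext ?_ ?_
      · funext i
        exact propext (h (.inl i))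
      · funext ρ q
        exact ENat.eq_of_forall_natCast_le_iff fun k => h (.inr (k, ρ, q))
    · rintro ⟨⟨⟨q, hq⟩, f⟩, hr⟩ ⟨⟨⟨q', hq'⟩, f'⟩, hr'⟩ h
      have h1 : q = q' := congrArg Prod.fst h
      have h2 : f = f' := congrArg Prod.snd h
      subst h1
      subst h2
      rfl
    · rintro ⟨⟨q, f⟩, S, hS, x, hq, hf⟩
      exact ⟨S, hS, fun _ => x, Prod.ext hq hf⟩
  refine ⟨c1, c2, c3, ?_⟩
  -- (4)
  obtain ⟨ρ, hρ⟩ := Pool.Agent.Helper5.DU.ctbl_of_props hK hP (n := 0)
    (ι := ℕ × RTy (ModC (F 0)) F)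
    (fun p S _ => (p.1 : ℕ∞) ≤ (dat (ModC (F 0)) F S).u p.2)
    (by
      rintro ⟨k, r⟩ v
      exact measurableSet_le_encard (fun c : Code L => {x | tyc (toStr c) F x = r.1.1.1 ∧
          cntT (ModC (F 0)) F (toStr c) x = r.1.2})
        (fun b => (mTe b r.1.1.1).inter (mC b r.1.2)) k)
    (by
      rintro ⟨k, r⟩ S S' e v he h
      have h1 : (dat (ModC (F 0)) F S).u r = (dat (ModC (F 0)) F S').u r := by
        refine encard_equiv e fun x => ?_
        simp only [mem_ofPred_eq, iT S S' e he, iC S S' e he]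
      show (k : ℕ∞) ≤ (dat (ModC (F 0)) F S').u r
      rw [← h1]
      exact h)
  refine ⟨fun m => (ρ m).1, fun S hS => ?_⟩
  obtain ⟨m, hm, h⟩ := hρ S hS Fin.elim0
  refine ⟨m, hm, ?_⟩
  funext r
  exact (ENat.eq_of_forall_natCast_le_iff fun k => h (k, r)).symm

end CTQ
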