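import Pool.Agent.CTQ.StA
import Pool.Agent.CTQ.BAS

/-!
# CTQ, module LMQ: Lemma Q
-/

set_option autoImplicit false

namespace CTQ

open FirstOrder Set Pool.Agent.Helper6.Str Pool.Agent.Helper5.Multi Pool.Agent.Helper79.VC

/-- A function with finite fibres on an infinite set is injective on an infinite subset. -/
theorem lmq_sel {α β : Type} {Y : Set α} {f : α → β} (hY : Y.Infinite)
    (hf : ∀ b, {y | y ∈ Y ∧ f y = b}.Finite) : ∃ Y' ⊆ Y, Y'.Infinite ∧ InjOn f Y' := by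
  obtain ⟨Y', h1, h2⟩ := Set.exists_subset_bijOn Y f
  refine ⟨Y', h1, ?_, h2.injOn⟩
  intro h3
  have h4 : (f '' Y).Finite := by
    rw [← h2.image_eq]
    exact h3.image f
  apply hY
  refine (h4.biUnion fun b _ => hf b).subset ?_
  intro y hy
  simp only [mem_iUnion]
  exact ⟨f y, mem_image_of_mem f hy, hy, rfl⟩

/-- Injective or constant on an infinite subset. -/
theorem lmq_ramsey {α β : Type} {Y : Set α} (f : α → β) (hY : Y.Infinite) :
    ∃ Y' ⊆ Y, Y'.Infinite ∧ (InjOn f Y' ∨ ∃ b, ∀ y ∈ Y', f y = b) := by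
  by_cases h : ∀ b, {y | y ∈ Y ∧ f y = b}.Finite
  · obtain ⟨Y', h1, h2, h3⟩ := lmq_sel hY h
    exact ⟨Y', h1, h2, Or.inl h3⟩
  · push Not at h
    obtain ⟨b, hb⟩ := h
    exact ⟨_, fun y hy => hy.1, hb, Or.inr ⟨b, fun y hy => hy.2⟩⟩

/-- Diagonal sequence. -/
theorem lmq_diag {β : Type} (f : ℕ → ℕ → β) {Y : Set ℕ} (hY : Y.Infinite) :
    ∃ y : ℕ → ℕ, StrictMono y ∧ (∀ j, y j ∈ Y) ∧ ∀ w, ∃ J,
      InjOn (fun j => f w (y j)) {j | J ≤ j} ∨ ∃ b, ∀ j, J ≤ j → f w (y j) = b := by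
  classical
  have hstep : ∀ (w : ℕ) (Z : {Z : Set ℕ // Z.Infinite}), ∃ Z' : {Z : Set ℕ // Z.Infinite},
      Z'.1 ⊆ Z.1 ∧ (InjOn (f w) Z'.1 ∨ ∃ b, ∀ y ∈ Z'.1, f w y = b) := by
    intro w Z
    obtain ⟨Y', h1, h2, h3⟩ := lmq_ramsey (f w) Z.2
    exact ⟨⟨Y', h2⟩, h1, h3⟩
  choose nx hnx1 hnx2 using hstep
  let Z : ℕ → {Z : Set ℕ // Z.Infinite} := fun j => Nat.rec ⟨Y, hY⟩ (fun w Z => nx w Z) j
  have hZ0 : (Z 0).1 = Y := rfl
  have hZs : ∀ j, Z (j + 1) = nx j (Z j) := fun j => rfl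
  have hanti : Antitone fun j => (Z j).1 := by
    refine antitone_nat_of_succ_le fun j => ?_
    rw [hZs]
    exact hnx1 j (Z j)
  have hpick : ∀ j b, ∃ a, a ∈ (Z j).1 ∧ b < a := fun j b => (Z j).2.exists_gt b
  choose pk hpk1 hpk2 using hpick
  let y : ℕ → ℕ := fun j => Nat.rec (pk 0 0) (fun j b => pk (j + 1) b) j
  have hys : ∀ j, y (j + 1) = pk (j + 1) (y j) := fun j => rfl
  have hyZ : ∀ j, y j ∈ (Z j).1 := by
    intro j
    cases j with
    | zero => exact hpk1 0 0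
    | succ j => exact hpk1 (j + 1) (y j)
  have hmono : StrictMono y := strictMono_nat_of_lt_succ fun j => by
    rw [hys]
    exact hpk2 _ _
  refine ⟨y, hmono, fun j => hanti (Nat.zero_le j) (hyZ j), fun w => ⟨w + 1, ?_⟩⟩
  have hin : ∀ j, w + 1 ≤ j → y j ∈ (Z (w + 1)).1 := fun j hj => hanti hj (hyZ j)
  have h4 := hnx2 w (Z w)
  rw [← hZs] at h4
  rcases h4 with h4 | ⟨b, h4⟩
  · left
    intro i hi j hj hij
    exact hmono.injective (h4 (hin i hi) (hin j hj) hij)
  · right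
    exact ⟨b, fun j hj => h4 _ (hin j hj)⟩

theorem thm_LMQ (hS : St_SEQ) (hT : St_TOG) : St_LMQ := by
  classical
  intro P Q R _ _ D s m n x hs hum hun hII hx hinf
  -- the types from `x`
  have hfib : ∀ ρ, {y | y ∈ {y | s.lam y = n ∧ Arr D s x y} ∧ s.tp x y = ρ}.Finite := by
    intro ρ
    by_contra hρ
    have hρ' : {y | y ∈ {y | s.lam y = n ∧ Arr D s x y} ∧ s.tp x y = ρ}.Infinite := hρ
    obtain ⟨y, hy⟩ := hρ'.nonempty
    obtain ⟨⟨h1, h2, h3⟩, h4⟩ := hy
    apply h3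
    rw [h4, h1, ← hs.cnt x ρ (D.pi n), Set.encard_eq_top_iff]
    refine hρ'.mono ?_
    rintro y' ⟨⟨h5, h6, h7⟩, h8⟩
    exact ⟨h6, h8, by rw [h5]⟩
  obtain ⟨Y1, hY1, hY1i, hY1j⟩ := lmq_sel hinf hfib
  obtain ⟨y, hymono, hyY, hyd⟩ := lmq_diag (fun w => s.tp w) hY1i
  have hyn : ∀ j, s.lam (y j) = n := fun j => (hY1 (hyY j)).1
  have hyx : ∀ j, y j ≠ x := fun j => (hY1 (hyY j)).2.1
  have hyarr : ∀ j, D.D (s.lam x) (s.tp x (y j)) (D.pi n) ≠ ⊤ := fun j => by
    have := (hY1 (hyY j)).2.2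
    rwa [hyn j] at this
  have hyinj : Function.Injective y := hymono.injective
  have hyle : ∀ j, j ≤ y j := fun j => hymono.le_apply
  by_cases hA : ∃ w, w ≠ x ∧ s.lam w = m ∧ ∃ J, InjOn (fun j => s.tp w (y j)) {j | J ≤ j}
  · -- case A
    obtain ⟨w, hwx, hwm, J, hJ⟩ := hA
    set J' := max J (w + 1) with hJ'
    have hidx : Function.Injective fun p : ℕ × Fin 3 => J' + 3 * p.1 + (p.2 : ℕ) := by
      rintro ⟨a, i⟩ ⟨b, j⟩ h
      simp only at h
      have hi := i.2
      have hj := j.2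
      have h1 : a = b := by omega
      have h2 : (i : ℕ) = j := by omega
      rw [h1, Fin.ext h2]
    have hJle : ∀ (k : ℕ) (i : Fin 3), J ≤ J' + 3 * k + i := fun k i => by
      have : J ≤ J' := le_max_left _ _
      omega
    refine hS P Q R D s n x w (fun k i => y (J' + 3 * k + i)) hs (Ne.symm hwx)
      (by rw [hx, hwm]) (fun p q h => hidx (hyinj h)) (fun k i => hyn _) (fun k i => hyx _) ?_ ?_ ?_
      (fun k i => hyarr _)
    · intro k i h
      have h1 := hyle (J' + 3 * k + i)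
      rw [h] at h1
      have h2 : w + 1 ≤ J' := le_max_right _ _
      omega
    · intro p q h
      exact hidx (hyinj (hY1j (hyY _) (hyY _) h))
    · intro k i j h
      have h1 := @hJ (J' + 3 * k + i) (hJle k i) (J' + 3 * k + j) (hJle k j) h
      exact Fin.ext (by omega)
  · -- case B
    push Not at hA
    have hB : ∀ w, w ≠ x → s.lam w = m → ∃ (θ : P) (J : ℕ), ∀ j, J ≤ j → s.tp w (y j) = θ := by
      intro w h1 h2
      obtain ⟨J, h3 | ⟨b, h3⟩⟩ := hyd w
      · exact absurd h3 (hA w h1 h2 J)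
      · exact ⟨b, J, h3⟩
    have : Nonempty P := ⟨s.tp x x⟩
    choose! θ J hθ using hB
    have htop : ∀ w, w ≠ x → s.lam w = m → D.D m (θ w) (D.pi n) = ⊤ := by
      intro w h1 h2
      rw [← h2, ← hs.cnt w (θ w) (D.pi n), Set.encard_eq_top_iff]
      have h3 : (y '' {j | max (J w) (w + 1) ≤ j}).Infinite :=
        (Set.Ici_infinite (max (J w) (w + 1))).image hyinj.injOn
      refine h3.mono ?_
      rintro _ ⟨j, hj, rfl⟩
      have hj' : max (J w) (w + 1) ≤ j := hj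
      have hj1 : J w ≤ j := (le_max_left _ _).trans hj'
      have hj2 : w + 1 ≤ j := (le_max_right _ _).trans hj'
      refine ⟨?_, hθ w h1 h2 j hj1, by rw [hyn j]⟩
      have := hyle j
      omega
    have hfin : ∀ w, w ≠ x → s.lam w = m → D.D n (D.inv (θ w)) (D.pi m) ≠ ⊤ := by
      intro w h1 h2 h3
      have h4 : θ w ∈ II D m n := ⟨htop w h1 h2, h3⟩
      rw [hII] at h4
      exact h4
    have hWf : ∀ ρ, {w | w ∈ {w | w ≠ x ∧ s.lam w = m} ∧ θ w = ρ}.Finite := by
      intro ρ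
      by_contra hρ
      have hρ' : {w | w ∈ {w | w ≠ x ∧ s.lam w = m} ∧ θ w = ρ}.Infinite := hρ
      obtain ⟨w0, ⟨⟨h1, h2⟩, h3⟩⟩ := hρ'.nonempty
      have h4 := hfin w0 h1 h2
      rw [h3] at h4
      apply h4
      refine ENat.eq_top_iff_forall_ge.2 fun N => ?_
      obtain ⟨F, hF1, hF2⟩ := hρ'.exists_subset_card_eq N
      -- an index beyond all bounds
      set j := F.sup fun w => max (J w) (w + 1) with hj
      have hjw : ∀ w ∈ F, J w ≤ j ∧ w + 1 ≤ j := fun w hw => by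
        have h5 : max (J w) (w + 1) ≤ j := Finset.le_sup (f := fun w => max (J w) (w + 1)) hw
        exact ⟨(le_max_left _ _).trans h5, (le_max_right _ _).trans h5⟩
      have h6 := hs.cnt (y j) (D.inv ρ) (D.pi m)
      rw [hyn j] at h6
      rw [← h6]
      have h7 : (F : Set ℕ) ⊆ {w | w ≠ y j ∧ s.tp (y j) w = D.inv ρ ∧ D.pi (s.lam w) = D.pi m} := by
        intro w hw
        have hw' : w ∈ F := by simpa using hw
        obtain ⟨⟨h8, h9⟩, h10⟩ := hF1 hw
        obtain ⟨h11, h12⟩ := hjw w hw'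
        have h13 : w ≠ y j := by
          have := hyle j
          omega
        refine ⟨h13, ?_, by rw [h9]⟩
        rw [hs.sym w (y j) h13, hθ w h8 h9 j h11, h10]
      calc (N : ℕ∞) = (F : Set ℕ).encard := by rw [Set.encard_coe_eq_coe_finsetCard, hF2]
        _ ≤ _ := Set.encard_le_encard h7
    have hWi : {w | w ≠ x ∧ s.lam w = m}.Infinite := by
      have h1 : {w | s.lam w = m}.Infinite := by
        rw [← Set.encard_eq_top_iff, hs.cls m, hum]
      refine (h1.sdiff (Set.finite_singleton x)).mono ?_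
      rintro w ⟨h2, h3⟩
      exact ⟨h3, h2⟩
    obtain ⟨W1, hW1, hW1i, hW1j⟩ := lmq_sel hWi hWf
    -- the enumeration of `W1`
    have hW1i' : (Set.ofPred fun a => a ∈ W1).Infinite := hW1i
    let z0 : ℕ → ℕ := fun i => Nat.nth (fun a => a ∈ W1) i
    have hz0 : ∀ i, z0 i ∈ W1 := fun i => Nat.nth_mem_of_infinite hW1i' i
    have hz0i : Function.Injective z0 := Nat.nth_injective hW1i'
    -- the conclusion from a disjoint pair
    have key : ∀ z : ℕ → ℕ, Function.Injective z → (∀ i, z i ∈ W1) →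
        {j | y j ∉ range z}.Infinite → PerfK (KC D) := by
      intro z hz hzW hzy
      have hzy' : (Set.ofPred fun j => y j ∉ range z).Infinite := hzy
      let φ : ℕ → ℕ := fun j => Nat.nth (fun j => y j ∉ range z) j
      have hφ : StrictMono φ := Nat.nth_strictMono hzy'
      have hφm : ∀ j, y (φ j) ∉ range z := fun j => Nat.nth_mem_of_infinite hzy' j
      refine hT P Q R D s m n z (fun j => y (φ j)) (fun i => θ (z i)) hs hz
        (hyinj.comp hφ.injective) (fun i j h => hφm j ⟨i, h⟩) (fun i => (hW1 (hzW i)).2)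
        (fun j => hyn _) (fun i j h => hz (hW1j (hzW i) (hzW j) h)) ?_
      intro i
      refine ⟨J (z i), fun j hj => ?_⟩
      exact hθ (z i) (hW1 (hzW i)).1 (hW1 (hzW i)).2 _ (hj.trans (hφ.le_apply))
    by_cases hc : {j | y j ∉ range fun i => z0 (2 * i)}.Infinite
    · exact key (fun i => z0 (2 * i)) (fun i j h => by
        have := hz0i h
        omega) (fun i => hz0 _) hc
    · refine key (fun i => z0 (2 * i + 1)) (fun i j h => by
        have := hz0i h
        omega) (fun i => hz0 _) ?_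
      rw [Set.not_infinite] at hc
      refine (hc.infinite_compl).mono ?_
      intro j hj
      have h1 : y j ∈ range fun i => z0 (2 * i) := by
        by_contra h1
        exact hj h1
      obtain ⟨i, hi⟩ := h1
      rintro ⟨i', hi'⟩
      have h2 : z0 (2 * i) = z0 (2 * i' + 1) := hi.trans hi'.symm
      have := hz0i h2
      omega

end CTQ
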