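import Pool.Agent.CTQ.StB

/-!
# CTQ [MEC]: measurability and invariance of the definable sets

helper40.
-/

set_option autoImplicit false
set_option linter.unusedVariables false

namespace CTQ

open FirstOrder Set Pool.Agent.Helper6.Str Pool.Agent.Helper5.Multi Pool.Agent.Helper79.VC

variable {P Q R V V' : Type}

/-! ### the structure `ofL` -/

private def MEC_A (S : (LC P R).Structure V) (x : V) (m : R) : Prop :=
  S.RelMap (n := 1) (m : LCRel P R 1) (fun _ => x)

private def MEC_B (S : (LC P R).Structure V) (x y : V) (ρ : P) : Prop :=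
  S.RelMap (n := 2) (ρ : LCRel P R 2) ![x, y]

private theorem MEC_ch {I : Type} (A : I → Prop) (h : ∃! i, A i) (m : I) :
    h.choose = m ↔ A m := by
  constructor
  · rintro rfl
    exact h.choose_spec.1
  · intro hm
    exact (h.choose_spec.2 m hm).symm

private theorem MEC_lam (r0 : R) (p0 : P) (S : (LC P R).Structure V) (x : V) (m : R) :
    (ofL r0 p0 S).lam x = m ↔
      ((∃! m', MEC_A S x m') ∧ MEC_A S x m) ∨ (¬ (∃! m', MEC_A S x m') ∧ r0 = m) := by
  classical
  by_cases h : ∃! m', MEC_A S x m'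
  · have h1 : (ofL r0 p0 S).lam x = h.choose := dif_pos h
    rw [h1, MEC_ch (MEC_A S x) h m]
    exact ⟨fun h2 => Or.inl ⟨h, h2⟩, fun h2 => h2.elim (fun h3 => h3.2) fun h3 => absurd h h3.1⟩
  · have h1 : (ofL r0 p0 S).lam x = r0 := dif_neg h
    rw [h1]
    exact ⟨fun h2 => Or.inr ⟨h, h2⟩, fun h2 => h2.elim (fun h3 => absurd h3.1 h) fun h3 => h3.2⟩

private theorem MEC_tp (r0 : R) (p0 : P) (S : (LC P R).Structure V) (x y : V) (ρ : P) :
    (ofL r0 p0 S).tp x y = ρ ↔
      ((∃! ρ', MEC_B S x y ρ') ∧ MEC_B S x y ρ) ∨ (¬ (∃! ρ', MEC_B S x y ρ') ∧ p0 = ρ) := by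
  classical
  by_cases h : ∃! ρ', MEC_B S x y ρ'
  · have h1 : (ofL r0 p0 S).tp x y = h.choose := dif_pos h
    rw [h1, MEC_ch (MEC_B S x y) h ρ]
    exact ⟨fun h2 => Or.inl ⟨h, h2⟩, fun h2 => h2.elim (fun h3 => h3.2) fun h3 => absurd h h3.1⟩
  · have h1 : (ofL r0 p0 S).tp x y = p0 := dif_neg h
    rw [h1]
    exact ⟨fun h2 => Or.inr ⟨h, h2⟩, fun h2 => h2.elim (fun h3 => absurd h3.1 h) fun h3 => h3.2⟩

private theorem MEC_one (r0 : R) (p0 : P) (s : CStr P R V) :
    CIso s (ofL r0 p0 s.toL) (Equiv.refl V) := by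
  refine ⟨fun x => ?_, fun x y hxy => ?_⟩
  · show (ofL r0 p0 s.toL).lam x = s.lam x
    rw [MEC_lam]
    have h : ∀ m, MEC_A s.toL x m ↔ s.lam x = m := fun m => relMap_one s m _
    exact Or.inl ⟨⟨s.lam x, (h _).2 rfl, fun m hm => ((h m).1 hm).symm⟩, (h _).2 rfl⟩
  · show (ofL r0 p0 s.toL).tp x y = s.tp x y
    rw [MEC_tp]
    have h : ∀ ρ, MEC_B s.toL x y ρ ↔ s.tp x y = ρ := fun ρ =>
      (relMap_two s ρ ![x, y]).trans ⟨fun h1 => h1.2, fun h1 => ⟨hxy, h1⟩⟩
    exact Or.inl ⟨⟨s.tp x y, (h _).2 rfl, fun ρ hρ => ((h ρ).1 hρ).symm⟩, (h _).2 rfl⟩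

private theorem MEC_two (r0 : R) (p0 : P) (S : (LC P R).Structure V) (S' : (LC P R).Structure V')
    (e : V ≃ V') (h : RelIso S S' e) : CIso (ofL r0 p0 S) (ofL r0 p0 S') e := by
  refine ⟨fun x => ?_, fun x y hxy => ?_⟩
  · rw [MEC_lam]
    have h1 : MEC_A S' (e x) = MEC_A S x := by
      funext m
      exact propext (h 1 (m : LCRel P R 1) (fun _ => x)).symm
    rw [h1]
    exact (MEC_lam r0 p0 S x _).1 rfl
  · rw [MEC_tp]
    have h1 : MEC_B S' (e x) (e y) = MEC_B S x y := by
      funext ρ
      have h2 : e ∘ ![x, y] = ![e x, e y] := by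
        funext i
        match i with
        | 0 => rfl
        | 1 => rfl
      have h3 := h 2 (ρ : LCRel P R 2) ![x, y]
      rw [h2] at h3
      exact propext h3.symm
    rw [h1]
    exact (MEC_tp r0 p0 S x y _).1 rfl

/-! ### measurability -/

section meas

variable {X : Type} [MeasurableSpace X]

private theorem MEC_exu {I : Type} [Countable I] (A : X → I → Prop)
    (hA : ∀ i, Measurable fun c => A c i) : Measurable fun c => ∃! i, A c i :=
  Measurable.exists fun i => (hA i).and (Measurable.forall fun j => (hA j).imp measurable_const)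

private structure MEC_M (s : X → CStr P R V) : Prop where
  lam : ∀ x m, Measurable fun c => (s c).lam x = m
  tp : ∀ x y ρ, Measurable fun c => (s c).tp x y = ρ

variable [Countable P] [Countable Q] [Countable R] [Countable V] {D : CData P Q R}
  {s : X → CStr P R V}

private theorem MEC_arr (h : MEC_M s) (x y : V) : Measurable fun c => Arr D (s c) x y := by
  have e : (fun c => Arr D (s c) x y) = fun c => ∃ m ρ n, (s c).lam x = m ∧ (s c).tp x y = ρ ∧
      (s c).lam y = n ∧ (y ≠ x ∧ D.D m ρ (D.pi n) ≠ ⊤) := by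
    funext c
    apply propext
    constructor
    · rintro ⟨h1, h2⟩
      exact ⟨_, _, _, rfl, rfl, rfl, h1, h2⟩
    · rintro ⟨m, ρ, n, rfl, rfl, rfl, h1, h2⟩
      exact ⟨h1, h2⟩
  rw [e]
  exact Measurable.exists fun m => Measurable.exists fun ρ => Measurable.exists fun n =>
    (h.lam x m).and ((h.tp x y ρ).and ((h.lam y n).and measurable_const))

private theorem MEC_G0 (h : MEC_M s) (b : R ⊕ (R × R × ℕ)) (x : V) :
    Measurable fun c => x ∈ G0 D (s c) b := by
  rcases b with m | ⟨m, n, r⟩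
  · exact (h.lam x m).and measurable_const
  · have h1 : Measurable fun c => {y | (s c).lam y = n ∧ Arr D (s c) x y}.encard = (r : ℕ∞) :=
      measurableSet_setOfPred.1 (measurableSet_encard_eq
        (fun c => {y | (s c).lam y = n ∧ Arr D (s c) x y})
        (fun y => measurableSet_setOfPred.2 ((h.lam y n).and (MEC_arr h x y))) r)
    exact (h.lam x m).and (measurable_const.and (measurable_const.and (measurable_const.and h1)))

private theorem MEC_G1 (h : MEC_M s) (b : R ⊕ (R × R × ℕ)) (l : List (R × P × R)) :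
    ∀ x : V, Measurable fun c => x ∈ G1 D (s c) b l := by
  induction l with
  | nil => exact fun x => MEC_G0 h b x
  | cons t l ih =>
    intro z
    have e : (fun c => z ∈ G1 D (s c) b (t :: l)) = fun c => ∃ y, y ∈ G1 D (s c) b l ∧
        (s c).lam y = t.1 ∧ z ≠ y ∧ (s c).tp y z = t.2.1 ∧ (s c).lam z = t.2.2 ∧
        D.D t.1 t.2.1 (D.pi t.2.2) ≠ ⊤ := rfl
    rw [e]
    exact Measurable.exists fun y => (ih y).and ((h.lam y _).and (measurable_const.and
      ((h.tp y z _).and ((h.lam z _).and measurable_const))))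

private theorem MEC_Fp (h : MEC_M s) (x : V) : Measurable fun c => x ∈ Fp D (s c) := by
  have e : (fun c => x ∈ Fp D (s c)) = fun c => ∃ w : Wd P R, x ∈ G D (s c) w := rfl
  rw [e]
  exact Measurable.exists fun w => MEC_G1 h w.1 w.2 x

private theorem MEC_isC (h : MEC_M s) : Measurable fun c => IsC D (s c) := by
  have e : (fun c => IsC D (s c)) = fun c =>
      (∀ x y, x ≠ y → ∃ ρ, (s c).tp x y = ρ ∧ (s c).tp y x = D.inv ρ) ∧
      (∀ m, {x | (s c).lam x = m}.encard = D.u m) ∧
      (∀ x ρ q m, (s c).lam x = m →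
        {y | y ≠ x ∧ (s c).tp x y = ρ ∧ D.pi ((s c).lam y) = q}.encard = D.D m ρ q) := by
    funext c
    apply propext
    constructor
    · intro h1
      exact ⟨fun x y hxy => ⟨_, rfl, h1.sym x y hxy⟩, h1.cls, fun x ρ q m hm => by
        rw [← hm]
        exact h1.cnt x ρ q⟩
    · rintro ⟨h1, h2, h3⟩
      refine ⟨fun x y hxy => ?_, h2, fun x ρ q => h3 x ρ q _ rfl⟩
      obtain ⟨ρ, rfl, h4⟩ := h1 x y hxy
      exact h4
  rw [e]
  refine Measurable.and ?_ (Measurable.and ?_ ?_)
  · exact Measurable.forall fun x => Measurable.forall fun y => measurable_const.imp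
      (Measurable.exists fun ρ => (h.tp x y ρ).and (h.tp y x _))
  · exact Measurable.forall fun m => measurableSet_setOfPred.1 (measurableSet_encard_eq
      (fun c => {x | (s c).lam x = m}) (fun x => measurableSet_setOfPred.2 (h.lam x m)) _)
  · refine Measurable.forall fun x => Measurable.forall fun ρ => Measurable.forall fun q =>
      Measurable.forall fun m => (h.lam x m).imp ?_
    refine measurableSet_setOfPred.1 (measurableSet_encard_eq
      (fun c => {y | y ≠ x ∧ (s c).tp x y = ρ ∧ D.pi ((s c).lam y) = q}) (fun y => ?_) _)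
    have e1 : (fun c => D.pi ((s c).lam y) = q) = fun c => ∃ n, (s c).lam y = n ∧ D.pi n = q := by
      funext c
      apply propext
      exact ⟨fun h1 => ⟨_, rfl, h1⟩, fun ⟨n, h1, h2⟩ => by rw [h1]; exact h2⟩
    have h2 : Measurable fun c => D.pi ((s c).lam y) = q := by
      rw [e1]
      exact Measurable.exists fun n => (h.lam y n).and measurable_const
    exact measurableSet_setOfPred.2 (measurable_const.and ((h.tp x y ρ).and h2))

end meas

/-- equality with a labelled structure -/
private theorem MEC_eq (S : (LC P R).Structure ℕ) (s : CStr P R ℕ) : S = s.toL ↔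
    (∀ m x, MEC_A S x m ↔ s.lam x = m) ∧ (∀ ρ x y, MEC_B S x y ρ ↔ (x ≠ y ∧ s.tp x y = ρ)) := by
  constructor
  · rintro rfl
    exact ⟨fun m x => relMap_one s m _, fun ρ x y => relMap_two s ρ _⟩
  · rintro ⟨h1, h2⟩
    apply FirstOrder.Language.Structure.ext
    · funext n f
      exact isEmptyElim f
    · funext n r v
      apply propext
      match n, r, v with
      | 0, r, v => exact (r : Empty).elim
      | 1, m, v =>
        have e : v = fun _ => v 0 := by
          funext i
          rw [Subsingleton.elim i 0]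
        rw [e]
        exact h1 m (v 0)
      | 2, ρ, v =>
        have e : v = ![v 0, v 1] := by
          funext i
          match i with
          | 0 => rfl
          | 1 => rfl
        rw [e]
        exact h2 ρ (v 0) (v 1)
      | _ + 3, r, v => exact (r : Empty).elim

private theorem MEC_KC (D : CData P Q R) (r0 : R) (p0 : P) (S : (LC P R).Structure ℕ) :
    S ∈ KC D ↔ S = (ofL r0 p0 S).toL ∧ IsC D (ofL r0 p0 S) := by
  constructor
  · rintro ⟨s, hs, rfl⟩
    have h1 := MEC_one r0 p0 s
    refine ⟨?_, hs.of_iso h1⟩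
    rw [MEC_eq]
    refine ⟨fun m x => ?_, fun ρ x y => ?_⟩
    · rw [show (ofL r0 p0 s.toL).lam x = s.lam x from h1.1 x]
      exact relMap_one s m _
    · refine (relMap_two s ρ ![x, y]).trans ?_
      constructor
      · rintro ⟨h2, h3⟩
        exact ⟨h2, by rw [show (ofL r0 p0 s.toL).tp x y = s.tp x y from h1.2 x y h2]; exact h3⟩
      · rintro ⟨h2, h3⟩
        exact ⟨h2, by
          rw [show (ofL r0 p0 s.toL).tp x y = s.tp x y from h1.2 x y h2] at h3
          exact h3⟩
  · rintro ⟨h1, h2⟩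
    exact ⟨_, h2, h1⟩

theorem thm_MEC : St_MEC := by
  intro P Q R _ _ _ D r0 p0
  have hA : ∀ x m, Measurable fun c : Code (LC P R) => MEC_A (toStr c) x m := fun x m =>
    measurableSet_setOfPred.1 (measurableSet_relMap (L := LC P R) (n := 1) m fun _ => x)
  have hB : ∀ x y ρ, Measurable fun c : Code (LC P R) => MEC_B (toStr c) x y ρ := fun x y ρ =>
    measurableSet_setOfPred.1 (measurableSet_relMap (L := LC P R) (n := 2) ρ ![x, y])
  have hM : MEC_M fun c : Code (LC P R) => ofL r0 p0 (toStr c) := by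
    refine ⟨fun x m => ?_, fun x y ρ => ?_⟩
    · have e : (fun c : Code (LC P R) => (ofL r0 p0 (toStr c)).lam x = m) = fun c =>
          ((∃! m', MEC_A (toStr c) x m') ∧ MEC_A (toStr c) x m) ∨
            (¬ (∃! m', MEC_A (toStr c) x m') ∧ r0 = m) := by
        funext c
        exact propext (MEC_lam r0 p0 (toStr c) x m)
      rw [e]
      have h1 := MEC_exu (fun c : Code (LC P R) => MEC_A (toStr c) x) (hA x)
      exact (h1.and (hA x m)).or (h1.not.and measurable_const)
    · have e : (fun c : Code (LC P R) => (ofL r0 p0 (toStr c)).tp x y = ρ) = fun c =>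
          ((∃! ρ', MEC_B (toStr c) x y ρ') ∧ MEC_B (toStr c) x y ρ) ∨
            (¬ (∃! ρ', MEC_B (toStr c) x y ρ') ∧ p0 = ρ) := by
        funext c
        exact propext (MEC_tp r0 p0 (toStr c) x y ρ)
      rw [e]
      have h1 := MEC_exu (fun c : Code (LC P R) => MEC_B (toStr c) x y) (hB x y)
      exact (h1.and (hB x y ρ)).or (h1.not.and measurable_const)
  refine ⟨MEC_one r0 p0, MEC_two r0 p0, fun x m => measurableSet_setOfPred.2 (hM.lam x m),
    fun x y ρ => measurableSet_setOfPred.2 (hM.tp x y ρ),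
    fun w x => measurableSet_setOfPred.2 (MEC_G1 hM w.1 w.2 x), fun m n => ?_, ?_⟩
  · exact measurableSet_le_encard (fun c : Code (LC P R) =>
      {x | x ∉ Fp D (ofL r0 p0 (toStr c)) ∧ (ofL r0 p0 (toStr c)).lam x = m})
      (fun x => measurableSet_setOfPred.2 ((MEC_Fp hM x).not.and (hM.lam x m))) n
  · have e : {c : Code (LC P R) | toStr c ∈ KC D} = {c |
        ((∀ m x, MEC_A (toStr c) x m ↔ (ofL r0 p0 (toStr c)).lam x = m) ∧
          (∀ ρ x y, MEC_B (toStr c) x y ρ ↔ (x ≠ y ∧ (ofL r0 p0 (toStr c)).tp x y = ρ))) ∧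
        IsC D (ofL r0 p0 (toStr c))} := by
      ext c
      show toStr c ∈ KC D ↔ _
      rw [MEC_KC D r0 p0, MEC_eq]
      exact Iff.rfl
    rw [e]
    refine measurableSet_setOfPred.2 (Measurable.and (Measurable.and ?_ ?_) (MEC_isC hM))
    · exact Measurable.forall fun m => Measurable.forall fun x => (hA x m).iff (hM.lam x m)
    · exact Measurable.forall fun ρ => Measurable.forall fun x => Measurable.forall fun y =>
        (hB x y ρ).iff (measurable_const.and (hM.tp x y ρ))

end CTQ
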