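import Pool.Agent.CTQ.StC

/-!
# CTQ, module MSC: truth of formulas with counting is a Borel property of the code
-/

set_option autoImplicit false

namespace CTQ

open FirstOrder Set Pool.Agent.Helper6.Str Pool.Agent.Helper5.Multi Pool.Agent.Helper79.VC
open VPF (Atm atm)

/-- Truth of a formula under a fixed assignment is a Borel property of the structure. -/
private theorem MSC_sat {L : FirstOrder.Language.{0, 0}} [∀ n, IsEmpty (L.Functions n)]
    [∀ n, Countable (L.Relations n)] {k : ℕ} (φ : FC L k) :
    ∀ v : Fin k → ℕ, MeasurableSet {c : Code L | φ.Sat (toStr c) v} := by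
  induction φ with
  | eq i j => intro v; exact MeasurableSet.const _
  | rel R w => intro v; exact measurableSet_relMap R _
  | neg φ ih => intro v; exact (ih v).compl
  | conj φ ih =>
    intro v
    have h : {c : Code L | (FC.conj φ).Sat (toStr c) v} =
        ⋂ m, {c : Code L | (φ m).Sat (toStr c) v} := by
      ext c
      simp only [mem_iInter, mem_ofPred_eq]
      exact Iff.rfl
    rw [h]
    exact MeasurableSet.iInter fun m => ih m v
  | ge n i φ ih =>
    intro v
    exact measurableSet_le_encard (X := Code L) (β := ℕ)
      (fun c => {a : ℕ | FC.Sat (toStr c) φ (Function.update v i a)}) (fun a => ih _) n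

theorem thm_MSC : St_MSC := by
  intro L _ _
  have hatm : ∀ (x y : ℕ) a, MeasurableSet {c : Code L | atm (toStr c) x y a} :=
    fun x y a => measurableSet_relMap a.2.1 _
  refine ⟨fun k φ v => MSC_sat φ v, ?_, hatm, ?_⟩
  · intro F x i
    rcases i with m | a
    · exact MSC_sat (F m) (fun _ => x)
    · exact hatm x x a
  · intro k φ
    have h : {c : Code L | toStr c ∈ ModC φ} =
        ⋂ v : Fin k → ℕ, {c : Code L | φ.Sat (toStr c) v} := by
      ext c
      simp only [mem_iInter, mem_ofPred_eq]
      exact Iff.rfl
    rw [h]
    exact MeasurableSet.iInter fun v => MSC_sat φ v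

end CTQ
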