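import Pool.Agent.CTQ.StC

/-!
# CTQ, module RED: the reduction to the combinatorial theorem
-/

set_option autoImplicit false
set_option linter.unusedVariables false

namespace CTQ

open FirstOrder Set Pool.Agent.Helper6.Str Pool.Agent.Helper5.Multi Pool.Agent.Helper79.VC
open VPF (Atm atm)

section

variable {L : FirstOrder.Language.{0, 0}} [∀ n, IsEmpty (L.Functions n)]
  [∀ n, Countable (L.Relations n)]

private theorem RED_clopen {X R : Type} [TopologicalSpace X] (g : X → R)
    (hg : ∀ m, IsClopen {z | g z = m}) (A : Set R) : IsClopen {z | g z ∈ A} := by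
  have h : ∀ A : Set R, IsOpen {z | g z ∈ A} := by
    intro A
    have h1 : {z | g z ∈ A} = ⋃ m ∈ A, {z | g z = m} := by
      ext z
      simp
    rw [h1]
    exact isOpen_biUnion fun m _ => (hg m).isOpen
  refine ⟨⟨?_⟩, h A⟩
  exact h Aᶜ

/-- the labelled structure of a structure in the class has the prescribed numbers -/
private theorem RED_cs {K : Set (L.Structure ℕ)} (F : ℕ → FC L 2) {S S₀ : L.Structure ℕ}
    (hS : S ∈ K) (hu : (dat K F S₀).u = (dat K F S).u) : IsC (dat K F S₀) (cs F hS) := by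
  refine ⟨fun x y hxy => ?_, fun m => ?_, fun x ρ q => ?_⟩
  · exact Subtype.ext (swT_pt S x y).symm
  · rw [hu]
    show _ = {x | tyc S F x = m.1.1.1 ∧ cntT K F S x = m.1.2}.encard
    congr 1
    ext x
    simp only [mem_ofPred_eq]
    constructor
    · rintro rfl
      exact ⟨rfl, rfl⟩
    · rintro ⟨h1, h2⟩
      exact Subtype.ext (Prod.ext (Subtype.ext h1) h2)
  · show _ = {y | y ≠ x ∧ pt S x y = ρ.1 ∧ tyc S F y = q.1}.encard
    congr 1
    ext y
    simp only [mem_ofPred_eq]
    constructor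
    · rintro ⟨h1, rfl, rfl⟩
      exact ⟨h1, rfl, rfl⟩
    · rintro ⟨h1, h2, h3⟩
      exact ⟨h1, Subtype.ext h2, Subtype.ext h3⟩

/-- a structure is the one given by its labels -/
private theorem RED_iso {K : Set (L.Structure ℕ)} (F : ℕ → FC L 2) {S : L.Structure ℕ}
    (hS : S ∈ K) (h3 : ∀ n, 3 ≤ n → IsEmpty (L.Relations n))
    {t : CStr (PTy K) (RTy K F) ℕ} {e : ℕ ≃ ℕ} (he : CIso (cs F hS) t e) :
    RelIso S (psi t) e := by
  intro n R v
  match n, R, v with
  | 0, R, v =>
    have h1 : t.lam 0 = (cs F hS).lam (e.symm 0) := by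
      have := he.1 (e.symm 0)
      rwa [Equiv.apply_symm_apply] at this
    show S.RelMap R v ↔ (t.lam 0).1.1.1 (.inr ⟨0, R, fun _ => 0⟩)
    rw [h1]
    show S.RelMap R v ↔ S.RelMap R _
    have h2 : v = fun i => if (fun _ : Fin 0 => (0 : Fin 2)) i = 0 then e.symm 0 else e.symm 0 :=
      Subsingleton.elim _ _
    rw [← h2]
  | 1, R, v =>
    show S.RelMap R v ↔ (t.lam (e (v 0))).1.1.1 (.inr ⟨1, R, fun _ => 0⟩)
    rw [he.1]
    show S.RelMap R v ↔ S.RelMap R _
    have h2 : v = fun i => if (fun _ : Fin 1 => (0 : Fin 2)) i = 0 then v 0 else v 0 := by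
      funext i
      rw [Subsingleton.elim i 0]
      simp
    rw [← h2]
  | 2, R, v =>
    show S.RelMap R v ↔ (if e (v 0) = e (v 1) then (t.lam (e (v 0))).1.1.1
        (.inr ⟨2, R, fun _ => 0⟩) else (t.tp (e (v 0)) (e (v 1))).1 ⟨2, R, fun i => i⟩)
    by_cases h : v 0 = v 1
    · rw [if_pos (congrArg e h), he.1]
      show S.RelMap R v ↔ S.RelMap R _
      have h2 : v = fun i => if (fun _ : Fin 2 => (0 : Fin 2)) i = 0 then v 0 else v 0 := by
        funext i
        simp only [if_true]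
        fin_cases i
        · rfl
        · exact h.symm
      rw [← h2]
    · rw [if_neg (fun h' => h (e.injective h')), he.2 _ _ h]
      show S.RelMap R v ↔ S.RelMap R _
      have h2 : v = fun i => if (fun i : Fin 2 => i) i = 0 then v 0 else v 1 := by
        funext i
        fin_cases i
        · rfl
        · rfl
      rw [← h2]
  | n + 3, R, v => exact ((h3 (n + 3) (by omega)).false R).elim

end

theorem thm_RED (hCOR : St_COR) (hLBL : St_LBL) (hTRF : St_TRF) (hIVC : St_IVC) : St_RED := by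
  intro L _ _ F h3 hcl
  by_cases hP : PerfK (ModC (F 0))
  · exact Or.inr hP
  left
  obtain ⟨c1, c2, c3, σ, hσ⟩ := hLBL L F hP
  set K : Set (L.Structure ℕ) := ModC (F 0) with hK
  have iT : ∀ (S S' : L.Structure ℕ) (e : ℕ ≃ ℕ), RelIso S S' e → ∀ x,
      tyc S' F (e x) = tyc S F x := fun S S' e h x => (hIVC L ℕ ℕ S S' e h).2.1 F x
  have iP : ∀ (S S' : L.Structure ℕ) (e : ℕ ≃ ℕ), RelIso S S' e → ∀ x y,
      pt S' (e x) (e y) = pt S x y := fun S S' e h => (hIVC L ℕ ℕ S S' e h).2.2
  have iC : ∀ (S S' : L.Structure ℕ) (e : ℕ ≃ ℕ), RelIso S S' e → ∀ x,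
      cntT K F S' (e x) = cntT K F S x := by
    intro S S' e h x
    funext ρ q
    refine (encard_equiv e fun y => ?_).symm
    simp only [mem_ofPred_eq, iP S S' e h, iT S S' e h, e.injective.ne_iff]
  -- no perfect set of labelled structures
  have hC : ∀ S₀ ∈ K, CtblK (KC (dat K F S₀)) := by
    intro S₀ hS₀
    rcases hCOR (PTy K) (QTy K F) (RTy K F) (dat K F S₀) with h | h
    · exact h
    exfalso
    obtain ⟨f, hf1, hf2, hf3⟩ := h
    choose t ht hft using hf1
    have tr := fun z => hTRF L F h3 hcl S₀ hS₀ (t z) (ht z)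
    refine hP ⟨fun z => psi (t z), fun z => (tr z).1, ?_, ?_⟩
    · rintro z z' ⟨e, he⟩
      refine hf2 z z' ⟨e, ?_⟩
      rw [hft z, hft z']
      refine relIso_iff.2 ⟨fun x => ?_, fun x y hxy => ?_⟩
      · refine Subtype.ext (Prod.ext (Subtype.ext ?_) ?_)
        · rw [← (tr z').2.2.1, ← (tr z).2.2.1]
          exact iT _ _ e he x
        · rw [← (tr z').2.2.2, ← (tr z).2.2.2]
          exact iC _ _ e he x
      · refine Subtype.ext ?_
        rw [← (tr z').2.1 _ _ (fun h => hxy (e.injective h)), ← (tr z).2.1 _ _ hxy]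
        exact iP _ _ e he x y
    · have hlam : ∀ x (A : Set (RTy K F)), IsClopen {z | (t z).lam x ∈ A} := by
        intro x A
        refine RED_clopen (fun z => (t z).lam x) (fun m => ?_) A
        have h1 := hf3 1 (m : LCRel (PTy K) (RTy K F) 1) (fun _ => x)
        have h2 : {z | (t z).lam x = m} = {z | (f z).RelMap (n := 1)
            (m : LCRel (PTy K) (RTy K F) 1) (fun _ => x)} := by
          ext z
          show (t z).lam x = m ↔
            @Language.Structure.RelMap _ _ (f z) 1 (m : LCRel (PTy K) (RTy K F) 1) (fun _ => x)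
          rw [hft z]
          exact Iff.rfl
        rw [h2]
        exact h1
      have htp : ∀ x y, x ≠ y → ∀ A : Set (PTy K), IsClopen {z | (t z).tp x y ∈ A} := by
        intro x y hxy A
        refine RED_clopen (fun z => (t z).tp x y) (fun m => ?_) A
        have h1 := hf3 2 (m : LCRel (PTy K) (RTy K F) 2) ![x, y]
        have h2 : {z | (t z).tp x y = m} = {z | (f z).RelMap (n := 2)
            (m : LCRel (PTy K) (RTy K F) 2) ![x, y]} := by
          ext z
          show (t z).tp x y = m ↔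
            @Language.Structure.RelMap _ _ (f z) 2 (m : LCRel (PTy K) (RTy K F) 2) ![x, y]
          rw [hft z]
          exact ⟨fun h => ⟨hxy, h⟩, fun h => h.2⟩
        rw [h2]
        exact h1
      intro n R a
      match n, R, a with
      | 0, R, a => exact hlam 0 {r | r.1.1.1 (.inr ⟨0, R, fun _ => 0⟩)}
      | 1, R, a => exact hlam (a 0) {r | r.1.1.1 (.inr ⟨1, R, fun _ => 0⟩)}
      | 2, R, a =>
        by_cases h : a 0 = a 1
        · have h1 := hlam (a 0) {r | r.1.1.1 (.inr ⟨2, R, fun _ => 0⟩)}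
          have h2 : {z | (psi (t z)).RelMap R a} =
              {z | (t z).lam (a 0) ∈ {r : RTy K F | r.1.1.1 (.inr ⟨2, R, fun _ => 0⟩)}} := by
            ext z
            show (if a 0 = a 1 then ((t z).lam (a 0)).1.1.1 (.inr ⟨2, R, fun _ => 0⟩)
              else ((t z).tp (a 0) (a 1)).1 ⟨2, R, fun i => i⟩) ↔ _
            rw [if_pos h]
            exact Iff.rfl
          rw [h2]
          exact h1
        · have h1 := htp (a 0) (a 1) h {q | q.1 ⟨2, R, fun i => i⟩}
          have h2 : {z | (psi (t z)).RelMap R a} =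
              {z | (t z).tp (a 0) (a 1) ∈ {q : PTy K | q.1 ⟨2, R, fun i => i⟩}} := by
            ext z
            show (if a 0 = a 1 then ((t z).lam (a 0)).1.1.1 (.inr ⟨2, R, fun _ => 0⟩)
              else ((t z).tp (a 0) (a 1)).1 ⟨2, R, fun i => i⟩) ↔ _
            rw [if_neg h]
            exact Iff.rfl
          rw [h2]
          exact h1
      | n + 3, R, a => exact ((h3 (n + 3) (by omega)).false R).elim
  -- countably many structures
  have hg' : ∀ k, ∃ g : ℕ → (LC (PTy K) (RTy K F)).Structure ℕ, σ k ∈ K →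
      ∀ S ∈ KC (dat K F (σ k)), ∃ n, Iso S (g n) := by
    intro k
    by_cases hk : σ k ∈ K
    · obtain ⟨g, hg⟩ := hC (σ k) hk
      exact ⟨g, fun _ => hg⟩
    · exact ⟨fun _ => ⟨fun f => (f : Empty).elim, fun _ _ => False⟩, fun h => absurd h hk⟩
  choose g hg using hg'
  have hT' : ∀ k l : ℕ, ∃ T : L.Structure ℕ,
      (∃ t : CStr (PTy K) (RTy K F) ℕ, g k l = t.toL) →
      ∃ t : CStr (PTy K) (RTy K F) ℕ, g k l = t.toL ∧ T = psi t := by
    intro k l
    by_cases h : ∃ t : CStr (PTy K) (RTy K F) ℕ, g k l = t.toL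
    · obtain ⟨t, ht⟩ := h
      exact ⟨psi t, fun _ => ⟨t, ht, rfl⟩⟩
    · exact ⟨⟨fun f => isEmptyElim f, fun _ _ => False⟩, fun h' => absurd h' h⟩
  choose T hT using hT'
  refine ⟨fun n => T (Nat.unpair n).1 (Nat.unpair n).2, fun S hS => ?_⟩
  obtain ⟨k, hk, hu⟩ := hσ S hS
  have hcs : IsC (dat K F (σ k)) (cs F hS) := RED_cs F hS hu
  obtain ⟨l, e, he⟩ := hg k hk _ ⟨cs F hS, hcs, rfl⟩
  obtain ⟨s', -, hs'⟩ := exists_of_iso he
  obtain ⟨t, ht, hTt⟩ := hT k l ⟨s', hs'⟩
  rw [ht] at he
  refine ⟨Nat.pair k l, e, ?_⟩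
  simp only [Nat.unpair_pair]
  rw [hTt]
  exact RED_iso F hS h3 (relIso_iff.1 he)

end CTQ
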