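import Pool.Agent.CTQ.StA
import Pool.Agent.CTQ.BAS

/-!
# CTQ, module SEQ: infinitely many independent trades
-/

set_option autoImplicit false
set_option linter.unusedVariables false

namespace CTQ

open FirstOrder Set Pool.Agent.Helper6.Str Pool.Agent.Helper5.Multi Pool.Agent.Helper79.VC

section SEQ

/-- sets which depend on finitely many coordinates are clopen -/
private theorem seq_clopen (j : ℕ) (A : Set (ℕ → Bool))
    (h : ∀ z z' : ℕ → Bool, (∀ k < j, z k = z' k) → (z ∈ A ↔ z' ∈ A)) : IsClopen A := by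
  have h1 : A = (fun (z : ℕ → Bool) (k : Fin j) => z k) ⁻¹'
      {u | (fun k => if hk : k < j then u ⟨k, hk⟩ else false) ∈ A} := by
    ext z
    exact h z _ (fun k hk => by simp [hk])
  rw [h1]
  exact (isClopen_discrete _).preimage (by fun_prop)

variable {P Q R : Type}

/-- the structures after `j` steps -/
private def SeqGood (D : CData P Q R) (s : CStr P R ℕ) (x1 x2 : ℕ) (y : ℕ → Fin 3 → ℕ) (j : ℕ)
    (s' : CStr P R ℕ) : Prop :=
  IsC D s' ∧ s'.lam = s.lam ∧ ∀ k, j ≤ k → ∀ i,
    s'.tp x1 (y k i) = s.tp x1 (y k i) ∧ s'.tp x2 (y k i) = s.tp x2 (y k i)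

/-- a point of one triple is in no other triple -/
private theorem seq_idx {y : ℕ → Fin 3 → ℕ}
    (hy : Function.Injective (fun p : ℕ × Fin 3 => y p.1 p.2)) {k j : ℕ} {i : Fin 3}
    (h : y k i ∈ range (y j)) : k = j := by
  obtain ⟨i', h'⟩ := h
  have := @hy (j, i') (k, i) h'
  exact (congrArg Prod.fst this).symm

/-- the family of the structures -/
private theorem seq_build (hT : St_TRD) (D : CData P Q R) (s : CStr P R ℕ) (n : R) (x1 x2 : ℕ)
    (y : ℕ → Fin 3 → ℕ) (hs : IsC D s) (hx : x1 ≠ x2) (hpi : D.pi (s.lam x1) = D.pi (s.lam x2))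
    (hy : Function.Injective (fun p : ℕ × Fin 3 => y p.1 p.2)) (hn : ∀ k i, s.lam (y k i) = n)
    (h1 : ∀ k i, y k i ≠ x1) (h2 : ∀ k i, y k i ≠ x2)
    (ha : Function.Injective (fun p : ℕ × Fin 3 => s.tp x1 (y p.1 p.2)))
    (hb : ∀ k, Function.Injective fun i => s.tp x2 (y k i)) :
    ∃ (S : (ℕ → Bool) → ℕ → CStr P R ℕ) (g : (ℕ → Bool) → ℕ → ℕ → Equiv.Perm (Fin 3)),
      (∀ z, S z 0 = s) ∧ (∀ z j, IsC D (S z j) ∧ (S z j).lam = s.lam) ∧
      (∀ z j v, v ∉ range (y j) → ∀ i,
        (S z (j + 1)).tp v (y j i) = (S z j).tp v (y j (g z j v i))) ∧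
      (∀ z j v w, v ∉ range (y j) → w ∉ range (y j) → (S z (j + 1)).tp v w = (S z j).tp v w) ∧
      (∀ z j, z j = false → ∀ v, g z j v = 1) ∧
      (∀ z j, z j = true → g z j x1 ≠ g z j x2) ∧
      (∀ j z z', (∀ k < j, z k = z' k) → S z j = S z' j) := by
  classical
  have hstep : ∀ (j : ℕ) (t : {s' // SeqGood D s x1 x2 y j s'}),
      ∃ (t' : {s' // SeqGood D s x1 x2 y (j + 1) s'}) (g : ℕ → Equiv.Perm (Fin 3)),
      g x1 ≠ g x2 ∧
      (∀ v, v ∉ range (y j) → ∀ i, t'.1.tp v (y j i) = t.1.tp v (y j (g v i))) ∧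
      (∀ v w, v ∉ range (y j) → w ∉ range (y j) → t'.1.tp v w = t.1.tp v w) := by
    rintro j ⟨s', hc, hl, hk⟩
    have hyj : Function.Injective (y j) := fun i i' h => by
      have := @hy (j, i) (j, i') h
      exact congrArg Prod.snd this
    obtain ⟨s'', g, hc', hl', hg, e1, e2⟩ := hT P Q R ℕ D s' (y j) n x1 x2 hc hyj
      (fun i => by rw [hl]; exact hn j i) hx (fun i => h1 j i) (fun i => h2 j i)
      (by rw [hl]; exact hpi)
      (fun i i' h => by
        have h3 : s.tp x1 (y j i) = s.tp x1 (y j i') := by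
          rw [← (hk j le_rfl i).1, ← (hk j le_rfl i').1]
          exact h
        have := @ha (j, i) (j, i') h3
        exact congrArg Prod.snd this)
      (fun i i' h => by
        apply hb j
        show s.tp x2 (y j i) = s.tp x2 (y j i')
        rw [← (hk j le_rfl i).2, ← (hk j le_rfl i').2]
        exact h)
    have hx1 : x1 ∉ range (y j) := by
      rintro ⟨i, h⟩
      exact h1 j i h
    have hx2 : x2 ∉ range (y j) := by
      rintro ⟨i, h⟩
      exact h2 j i h
    refine ⟨⟨s'', hc', hl'.trans hl, fun k hjk i => ?_⟩, g, hg, e1, e2⟩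
    have h3 : y k i ∉ range (y j) := fun h => by
      have := seq_idx hy h
      omega
    rw [e2 _ _ hx1 h3, e2 _ _ hx2 h3]
    exact hk k (by omega) i
  choose T G hG e1 e2 using hstep
  have hw : ∀ (j : ℕ) (t : {s' // SeqGood D s x1 x2 y j s'}), SeqGood D s x1 x2 y (j + 1) t.1 :=
    fun j t => ⟨t.2.1, t.2.2.1, fun k hk => t.2.2.2 k (by omega)⟩
  let S : (ℕ → Bool) → (j : ℕ) → {s' // SeqGood D s x1 x2 y j s'} := fun z j =>
    Nat.rec (motive := fun j => {s' // SeqGood D s x1 x2 y j s'})
      ⟨s, hs, rfl, fun k _ i => ⟨rfl, rfl⟩⟩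
      (fun j t => if z j = true then T j t else ⟨t.1, hw j t⟩) j
  have hS : ∀ z j, S z (j + 1) = if z j = true then T j (S z j) else ⟨(S z j).1, hw j (S z j)⟩ :=
    fun z j => rfl
  refine ⟨fun z j => (S z j).1, fun z j v => if z j = true then G j (S z j) v else 1,
    fun z => rfl, fun z j => ⟨(S z j).2.1, (S z j).2.2.1⟩, ?_, ?_, ?_, ?_, ?_⟩
  · intro z j v hv i
    show (S z (j + 1)).1.tp v (y j i) = _
    rw [hS]
    by_cases hz : z j = true
    · rw [if_pos hz]
      simp only [hz, if_true]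
      exact e1 j (S z j) v hv i
    · rw [if_neg hz]
      simp only [hz]
      rfl
  · intro z j v w hv hw'
    show (S z (j + 1)).1.tp v w = _
    rw [hS]
    by_cases hz : z j = true
    · rw [if_pos hz]
      exact e2 j (S z j) v w hv hw'
    · rw [if_neg hz]
  · intro z j hz v
    simp [hz]
  · intro z j hz
    simp only [hz, if_true]
    exact hG j (S z j)
  · intro j z z' h
    have key : ∀ j, (∀ k < j, z k = z' k) → S z j = S z' j := by
      intro j
      induction j with
      | zero => exact fun _ => rfl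
      | succ j ih =>
        intro h
        have h3 := ih fun k hk => h k (by omega)
        rw [hS, hS, h3, h j (by omega)]
    exact congrArg Subtype.val (key j h)

/-- the permutation of the points given by permutations of the members of the triples -/
private theorem seq_perm {y : ℕ → Fin 3 → ℕ}
    (hy : Function.Injective (fun p : ℕ × Fin 3 => y p.1 p.2)) (h : ℕ → Equiv.Perm (Fin 3)) :
    ∃ π : Equiv.Perm ℕ, (∀ k i, π (y k i) = y k (h k i)) ∧
      ∀ v, (∀ k i, v ≠ y k i) → π v = v := by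
  classical
  let f := Equiv.ofInjective _ hy
  refine ⟨Equiv.Perm.extendDomain (Equiv.prodShear (Equiv.refl ℕ) h) f, fun k i => ?_,
    fun v hv => ?_⟩
  · have h1 : y k i = f (k, i) := rfl
    rw [h1, Equiv.Perm.extendDomain_apply_image]
    rfl
  · apply Equiv.Perm.extendDomain_apply_not_subtype
    rintro ⟨⟨k, i⟩, h1⟩
    exact hv k i h1.symm

theorem thm_SEQ (hT : St_TRD) : St_SEQ := by
  classical
  intro P Q R _ _ D s n x1 x2 y hs hx hpi hy hn h1 h2 ha hb hfin
  obtain ⟨S, g, hS0, hSC, e1, e2, hg0, hg1, hdep⟩ := seq_build hT D s n x1 x2 y hs hx hpi hy hn h1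
    h2 ha hb
  -- the index after which a point does not occur
  have hidx : ∀ v, ∃ m : ℕ, (∀ j, m ≤ j → v ∉ range (y j)) ∧ (∀ k i, v = y k i → m = k + 1) ∧
      ((∀ k i, v ≠ y k i) → m = 0) := by
    intro v
    by_cases h : ∃ k i, v = y k i
    · obtain ⟨k, i, rfl⟩ := h
      refine ⟨k + 1, fun j hj hv => ?_, fun k' i' h' => ?_, fun h => absurd rfl (h k i)⟩
      · have := seq_idx hy hv
        omega
      · have := @hy (k, i) (k', i') h'
        have h3 : k = k' := congrArg Prod.fst this
        rw [h3]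
    · push Not at h
      refine ⟨0, fun j _ hv => ?_, fun k i h' => absurd h' (h k i), fun _ => rfl⟩
      obtain ⟨i, hi⟩ := hv
      exact h j i hi.symm
  choose idx i1 i2 i3 using hidx
  -- the limits
  let N : (ℕ → Bool) → CStr P R ℕ := fun z =>
    ⟨s.lam, fun v w => (S z (max (idx v) (idx w))).tp v w⟩
  have stab : ∀ z v w a b, idx v ≤ a → a ≤ b → (∀ j, a ≤ j → j < b → w ∉ range (y j)) →
      (S z b).tp v w = (S z a).tp v w := by
    intro z v w a b hv hab hw
    induction b, hab using Nat.le_induction with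
    | base => rfl
    | succ b hab ih =>
      rw [e2 z b v w (i1 v b (hv.trans hab)) (hw b hab (by omega))]
      exact ih fun j hj1 hj2 => hw j hj1 (by omega)
  have hlim : ∀ z v w j, idx v ≤ j → idx w ≤ j → (N z).tp v w = (S z j).tp v w := by
    intro z v w j hv hw
    exact (stab z v w _ j (le_max_left _ _) (max_le hv hw)
      (fun k hk _ => i1 w k ((le_max_right _ _).trans hk))).symm
  -- the rows of the limits
  have hrow1 : ∀ z v k i, idx v ≤ k →
      (N z).tp v (y k i) = (S z (idx v)).tp v (y k (g z k v i)) := by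
    intro z v k i hk
    rw [hlim z v (y k i) (k + 1) (by omega) (i2 _ k i rfl).le, e1 z k v (i1 v k hk) i]
    refine stab z v _ (idx v) k le_rfl hk fun j _ hj hw => ?_
    have := seq_idx hy hw
    omega
  have hrow2 : ∀ z v w, (∀ k i, idx v ≤ k → w ≠ y k i) →
      (N z).tp v w = (S z (idx v)).tp v w := by
    intro z v w h
    refine stab z v w (idx v) _ le_rfl (le_max_left _ _) fun j hj _ hw => ?_
    obtain ⟨i, hi⟩ := hw
    exact h j i hj hi.symm
  have hC : ∀ z, IsC D (N z) := by
    intro z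
    refine ⟨fun v w hvw => ?_, fun m => hs.cls m, fun v ρ q => ?_⟩
    · rw [hlim z w v (max (idx v) (idx w)) (le_max_right _ _) (le_max_left _ _),
        hlim z v w (max (idx v) (idx w)) (le_max_left _ _) (le_max_right _ _)]
      exact (hSC z _).1.sym v w hvw
    · obtain ⟨π, p1, p2⟩ := seq_perm hy fun k => if idx v ≤ k then g z k v else 1
      have hcnt := (hSC z (idx v)).1.cnt v ρ q
      have hl := (hSC z (idx v)).2
      rw [hl] at hcnt
      show _ = D.D (s.lam v) ρ q
      rw [← hcnt]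
      have hπ : ∀ w, (N z).tp v w = (S z (idx v)).tp v (π w) ∧ s.lam (π w) = s.lam w := by
        intro w
        by_cases hw : ∃ k i, w = y k i
        · obtain ⟨k, i, rfl⟩ := hw
          rw [p1]
          refine ⟨?_, (hn _ _).trans (hn _ _).symm⟩
          by_cases hk : idx v ≤ k
          · rw [if_pos hk]
            exact hrow1 z v k i hk
          · rw [if_neg hk]
            refine hrow2 z v _ fun k' i' hk' h => ?_
            have := @hy (k, i) (k', i') h
            have h3 : k = k' := congrArg Prod.fst this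
            omega
        · push Not at hw
          rw [p2 w hw]
          exact ⟨hrow2 z v w fun k i _ => hw k i, rfl⟩
      have hπv : π v = v := by
        by_cases hv : ∃ k i, v = y k i
        · obtain ⟨k, i, rfl⟩ := hv
          rw [p1, if_neg (by rw [i2 _ k i rfl]; omega)]
          rfl
        · push Not at hv
          exact p2 v hv
      refine encard_equiv π fun w => ?_
      simp only [mem_ofPred_eq]
      rw [(hπ w).1, (hπ w).2]
      have h3 : π w ≠ v ↔ w ≠ v := by
        constructor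
        · rintro h rfl
          exact h hπv
        · intro h h'
          exact h (π.injective (h'.trans hπv.symm))
      rw [h3]
  have hclo : ∀ a b ρ, IsClopen {z | (N z).tp a b = ρ} := by
    intro a b ρ
    refine seq_clopen (max (idx a) (idx b)) _ fun z z' h => ?_
    show (S z _).tp a b = ρ ↔ (S z' _).tp a b = ρ
    rw [hdep _ z z' h]
  -- the rows of `x1` and `x2`
  have hx1 : idx x1 = 0 := i3 x1 fun k i h => h1 k i h.symm
  have hx2 : idx x2 = 0 := i3 x2 fun k i h => h2 k i h.symm
  have r1 : ∀ z k i, (N z).tp x1 (y k i) = s.tp x1 (y k (g z k x1 i)) := by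
    intro z k i
    rw [hrow1 z x1 k i (by omega), hx1, hS0]
  have r2 : ∀ z k i, (N z).tp x2 (y k i) = s.tp x2 (y k (g z k x2 i)) := by
    intro z k i
    rw [hrow1 z x2 k i (by omega), hx2, hS0]
  have q1 : ∀ z w, (∀ k i, w ≠ y k i) → (N z).tp x1 w = s.tp x1 w := by
    intro z w hw
    rw [hrow2 z x1 w fun k i _ => hw k i, hx1, hS0]
  have q2 : ∀ z w, (∀ k i, w ≠ y k i) → (N z).tp x2 w = s.tp x2 w := by
    intro z w hw
    rw [hrow2 z x2 w fun k i _ => hw k i, hx2, hS0]
  have ha' : ∀ k i k' i', s.tp x1 (y k i) = s.tp x1 (y k' i') → k = k' ∧ i = i' := by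
    intro k i k' i' h
    have := @ha (k, i) (k', i') h
    exact ⟨congrArg Prod.fst this, congrArg Prod.snd this⟩
  let W : ℕ → Fin 3 → CStr P R ℕ → ℕ → ℕ → Set ℕ := fun j i s' v v' =>
    {w | w ≠ v ∧ w ≠ v' ∧ s'.lam w = n ∧ s'.tp v w = s.tp x1 (y j i) ∧
      s'.tp v' w = s.tp x2 (y j i)}
  have hWfin : ∀ j i, (W j i s x1 x2).Finite := by
    intro j i
    rw [← Set.encard_ne_top_iff]
    intro h3
    apply hfin j i
    rw [← hs.cnt x1, ← top_le_iff, ← h3]
    refine Set.encard_le_encard fun w hw => ⟨hw.1, hw.2.2.2.1, ?_⟩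
    rw [hw.2.2.1]
  refine perfKC N hC (fun a m => ?_) (fun a b ρ _ => hclo a b ρ) (k := 2) ![x1, x2]
    (fun j s' v => ∃ i, (W j i s' (v 0) (v 1)).encard < (W j i s x1 x2).encard) ?_ ?_ ?_
  · by_cases h : s.lam a = m
    · convert isClopen_univ
      exact eq_univ_of_forall fun z => h
    · convert isClopen_empty
      exact eq_empty_of_forall_notMem fun z hz => h hz
  · rintro j s' s'' e v he ⟨i, hi⟩
    refine ⟨i, ?_⟩
    rw [← encard_equiv e (A := W j i s' (v 0) (v 1)) (B := W j i s'' ((e ∘ v) 0) ((e ∘ v) 1))]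
    · exact hi
    · intro w
      simp only [W, mem_ofPred_eq, Function.comp_apply, he.1, ne_eq, EmbeddingLike.apply_eq_iff_eq]
      constructor
      · rintro ⟨g1, g2, g3, g4, g5⟩
        exact ⟨g1, g2, g3, by rw [← he.2 _ _ (Ne.symm g1)]; exact g4,
          by rw [← he.2 _ _ (Ne.symm g2)]; exact g5⟩
      · rintro ⟨g1, g2, g3, g4, g5⟩
        exact ⟨g1, g2, g3, by rw [he.2 _ _ (Ne.symm g1)]; exact g4,
          by rw [he.2 _ _ (Ne.symm g2)]; exact g5⟩
  · intro j v
    have h3 : {z | ∃ i, (W j i (N z) (v 0) (v 1)).encard < (W j i s x1 x2).encard} =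
        ⋃ i, {z | (W j i (N z) (v 0) (v 1)).encard < (W j i s x1 x2).encard} := by
      ext z
      simp
    rw [h3]
    refine MeasurableSet.iUnion fun i => measurableSet_encard_lt
      (fun z => W j i (N z) (v 0) (v 1)) (fun w => ?_) _
    have h4 : {z | w ∈ W j i (N z) (v 0) (v 1)} =
        {z | w ≠ v 0 ∧ w ≠ v 1 ∧ s.lam w = n} ∩ ({z | (N z).tp (v 0) w = s.tp x1 (y j i)} ∩
          {z | (N z).tp (v 1) w = s.tp x2 (y j i)}) := by
      ext z
      constructor
      · rintro ⟨g1, g2, g3, g4, g5⟩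
        exact ⟨⟨g1, g2, g3⟩, g4, g5⟩
      · rintro ⟨⟨g1, g2, g3⟩, g4, g5⟩
        exact ⟨g1, g2, g3, g4, g5⟩
    rw [h4]
    exact (MeasurableSet.const _).inter ((hclo _ _ _).2.measurableSet.inter
      (hclo _ _ _).2.measurableSet)
  · intro z j
    show _ ↔ ∃ i, (W j i (N z) x1 x2).encard < (W j i s x1 x2).encard
    -- members of the triples
    have m1 : ∀ i k i', y k i' ∈ W j i (N z) x1 x2 →
        k = j ∧ g z j x1 i' = i ∧ g z j x2 i' = i := by
      rintro i k i' ⟨-, -, -, g4, g5⟩
      rw [r1] at g4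
      obtain ⟨rfl, g6⟩ := ha' _ _ _ _ g4
      rw [r2] at g5
      exact ⟨rfl, g6, hb k g5⟩
    have m2 : ∀ i, y j i ∈ W j i s x1 x2 := fun i => ⟨h1 j i, h2 j i, hn j i, rfl, rfl⟩
    have m3 : ∀ i w, (∀ k i', w ≠ y k i') → (w ∈ W j i (N z) x1 x2 ↔ w ∈ W j i s x1 x2) := by
      intro i w hw
      simp only [W, mem_ofPred_eq]
      rw [q1 z w hw, q2 z w hw]
    constructor
    · intro hz
      have hne := hg1 z j hz
      obtain ⟨i, hi⟩ : ∃ i, (g z j x1).symm i ≠ (g z j x2).symm i := by
        by_contra hcon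
        push Not at hcon
        apply hne
        have h3 : (g z j x1).symm = (g z j x2).symm := Equiv.ext hcon
        rw [← Equiv.symm_symm (g z j x1), h3, Equiv.symm_symm]
      refine ⟨i, ?_⟩
      have hno : ∀ k i', y k i' ∉ W j i (N z) x1 x2 := by
        intro k i' hm
        obtain ⟨-, g1, g2⟩ := m1 i k i' hm
        apply hi
        rw [(Equiv.symm_apply_eq _).2 g1.symm, (Equiv.symm_apply_eq _).2 g2.symm]
      have hsub : W j i (N z) x1 x2 ⊆ W j i s x1 x2 := by
        intro w hw
        refine (m3 i w fun k i' h => ?_).1 hw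
        exact hno k i' (h ▸ hw)
      exact Set.Finite.encard_lt_encard ((hWfin j i).subset hsub)
        ⟨hsub, fun h => hno j i (h (m2 i))⟩
    · rintro ⟨i, hi⟩
      by_contra hz
      rw [Bool.not_eq_true] at hz
      have hg := hg0 z j hz
      apply absurd hi
      rw [not_lt]
      refine Set.encard_le_encard fun w hw => ?_
      by_cases hwy : ∃ k i', w = y k i'
      · obtain ⟨k, i', rfl⟩ := hwy
        obtain ⟨g1, g2, g3, g4, g5⟩ := hw
        obtain ⟨rfl, rfl⟩ := ha' _ _ _ _ g4
        refine ⟨g1, g2, g3, ?_, ?_⟩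
        · rw [r1, hg]
          rfl
        · rw [r2, hg]
          rfl
      · push Not at hwy
        exact (m3 i w hwy).2 hw

end SEQ

end CTQ
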