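import Pool.Agent.CTQ.StB
import Pool.Agent.CTQ.BAS

/-!
# CTQ, module TAU: default types
-/

set_option autoImplicit false

namespace CTQ

open FirstOrder Set Pool.Agent.Helper6.Str Pool.Agent.Helper5.Multi Pool.Agent.Helper79.VC

open Classical in
theorem thm_TAU (hC : St_CLN) : St_TAU := by
  intro P Q R _ _ D s₀ hN hP
  have h1 : ∀ m, Oc D m → ∀ ρ ρ', ρ ∈ II D m m → ρ' ∈ II D m m → ρ = ρ' := by
    rintro m ⟨-, s, hs, x, hx, rfl⟩ ρ ρ' h h'
    by_contra hne
    exact hP (hC P Q R D s x ρ ρ' (hN s hs) hs hx h h' hne)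
  have h2 : ∀ m n, Oc D m → Oc D n → (II D m n).Nonempty :=
    fun m n hm hn => hm.1.2 n hn.1.1
  obtain ⟨ν, hν⟩ := exists_injective_nat R
  let c : R → R → P := fun m n => if h : (II D m n).Nonempty then h.some else s₀.tp 0 0
  have hc : ∀ m n, Oc D m → Oc D n → c m n ∈ II D m n := by
    intro m n hm hn
    have h := h2 m n hm hn
    show (if h : (II D m n).Nonempty then h.some else s₀.tp 0 0) ∈ II D m n
    rw [dif_pos h]
    exact h.some_mem
  refine ⟨fun m n => if ν m ≤ ν n then c m n else D.inv (c n m), fun m n hm hn => ⟨?_, ?_⟩⟩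
  · show (if ν m ≤ ν n then c m n else D.inv (c n m)) ∈ II D m n
    split_ifs with h
    · exact hc m n hm hn
    · exact II_symm (hc n m hn hm)
  · show (if ν n ≤ ν m then c n m else D.inv (c m n)) =
      D.inv (if ν m ≤ ν n then c m n else D.inv (c n m))
    split_ifs with h h' h'
    · have e : m = n := hν (le_antisymm h' h)
      subst e
      exact h1 m hm _ _ (hc m m hm hm) (II_symm (hc m m hm hm))
    · rw [D.inv_inv]
    · rfl
    · exact absurd (le_of_lt (not_le.1 h)) h'

end CTQ
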