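import Pool.Agent.CTQ.StA
import Pool.Agent.CTQ.BAS

/-!
# CTQ, module TOG: toggling
-/

set_option autoImplicit false

namespace CTQ

open FirstOrder Set Pool.Agent.Helper6.Str Pool.Agent.Helper5.Multi Pool.Agent.Helper79.VC

section gen

variable {P Q R V : Type}

/-- the structure in which the column `v` is permuted by `σ v` -/
private def TOG_N (s : CStr P R V) (σ : V → Equiv.Perm V) : CStr P R V where
  lam := s.lam
  tp := fun w v => s.tp (σ v w) (σ w v)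

private theorem TOG_cnt1 {D : CData P Q R} {s : CStr P R V} (hs : IsC D s)
    {σ : V → Equiv.Perm V} (h0 : ∀ v, σ v v = v) (h1 : ∀ v w, σ v w ≠ w → σ w v = v)
    (h2 : ∀ v w, s.lam (σ v w) = s.lam w) (w : V) (ρ : P) (q : Q)
    (h3 : ∀ v, σ v w ≠ w → D.pi (s.lam v) = q → s.tp w v ≠ ρ ∧ s.tp (σ v w) v ≠ ρ) :
    {v | v ≠ w ∧ s.tp (σ v w) (σ w v) = ρ ∧ D.pi (s.lam v) = q}.encard =
      D.D (s.lam w) ρ q := by
  rw [← hs.cnt w ρ q]
  refine encard_equiv (σ w) fun v => ?_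
  show (σ w v ≠ w ∧ s.tp w (σ w v) = ρ ∧ D.pi (s.lam (σ w v)) = q) ↔
    (v ≠ w ∧ s.tp (σ v w) (σ w v) = ρ ∧ D.pi (s.lam v) = q)
  rw [h2]
  have hw : σ w v ≠ w ↔ v ≠ w := by
    constructor
    · intro h e
      exact h (by rw [e, h0])
    · intro h e
      exact h ((σ w).injective (by rw [e, h0]))
  rw [hw]
  by_cases hv : σ v w = w
  · rw [hv]
  · have e := h1 v w hv
    rw [e]
    constructor
    · rintro ⟨_, h4, h5⟩
      exact absurd h4 (h3 v hv h5).1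
    · rintro ⟨_, h4, h5⟩
      exact absurd h4 (h3 v hv h5).2

private theorem TOG_inf1 {D : CData P Q R} {s : CStr P R V} (hs : IsC D s)
    {σ : V → Equiv.Perm V} (h0 : ∀ v, σ v v = v) (h1 : ∀ v w, σ v w ≠ w → σ w v = v)
    (h2 : ∀ v w, s.lam (σ v w) = s.lam w) (w : V) (ρ : P) (q : Q)
    (ht : D.D (s.lam w) ρ q = ⊤) (h3 : ∀ v, σ v w ≠ w → s.tp w v ≠ ρ) :
    {v | v ≠ w ∧ s.tp (σ v w) (σ w v) = ρ ∧ D.pi (s.lam v) = q}.encard = ⊤ := by
  have hB := hs.cnt w ρ q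
  rw [ht] at hB
  apply top_le_iff.1
  rw [← hB, ← (σ w).symm.injective.encard_image]
  apply Set.encard_le_encard
  rintro _ ⟨x, ⟨hx1, hx2, hx3⟩, rfl⟩
  have hu : σ w ((σ w).symm x) = x := (σ w).apply_symm_apply x
  have h5 : σ ((σ w).symm x) w = w := by
    by_contra h6
    have h7 := h1 _ _ h6
    rw [hu] at h7
    rw [← h7] at h6
    exact h3 x h6 hx2
  refine ⟨fun e => ?_, ?_, ?_⟩
  · rw [e, h0] at hu
    exact hx1 hu.symm
  · rw [h5, hu]
    exact hx2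
  · rw [← h2 w, hu]
    exact hx3

private theorem TOG_inf2 {D : CData P Q R} {s : CStr P R V}
    {σ : V → Equiv.Perm V} (w : V) (ρ : P) (q : Q) (f : ℕ → V) (hf : Function.Injective f)
    (h : ∀ l, f l ≠ w ∧ s.tp (σ (f l) w) (σ w (f l)) = ρ ∧ D.pi (s.lam (f l)) = q) :
    {v | v ≠ w ∧ s.tp (σ v w) (σ w v) = ρ ∧ D.pi (s.lam v) = q}.encard = ⊤ :=
  Set.encard_eq_top_iff.2 (Set.infinite_of_injective_forall_mem hf h)

private theorem TOG_isC {D : CData P Q R} {s : CStr P R V} (hs : IsC D s)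
    {σ : V → Equiv.Perm V} (h0 : ∀ v, σ v v = v) (h1 : ∀ v w, σ v w ≠ w → σ w v = v)
    (h3 : ∀ w ρ q, {v | v ≠ w ∧ s.tp (σ v w) (σ w v) = ρ ∧ D.pi (s.lam v) = q}.encard =
      D.D (s.lam w) ρ q) : IsC D (TOG_N s σ) := by
  refine ⟨fun x y hxy => ?_, hs.cls, h3⟩
  apply hs.sym
  intro e
  by_cases h : σ y x = x
  · have h4 : σ x y = σ x x := by rw [← e, h, h0]
    exact hxy ((σ x).injective h4).symm
  · have h4 := h1 y x h
    rw [h4] at e
    have h5 : σ y x = σ y y := by rw [e, h0]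
    exact hxy ((σ y).injective h5)

end gen

section main

variable {P Q R : Type}

private structure TOG_H (D : CData P Q R) (s : CStr P R ℕ) (m n : R) (z : ℕ → ℕ) (θ : ℕ → P)
    (Y : ℕ × ℕ × ℕ → ℕ) : Prop where
  hs : IsC D s
  zi : Function.Injective z
  Yi : Function.Injective Y
  dis : ∀ i j, z i ≠ Y j
  lz : ∀ i, s.lam (z i) = m
  lY : ∀ j, s.lam (Y j) = n
  ti : Function.Injective θ
  e0 : ∀ j, s.tp (z 0) (Y j) = θ 0
  e1 : ∀ j, s.tp (z 1) (Y j) = θ 1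
  e2 : ∀ j, s.tp (z (2 * j.2.1 + 2)) (Y j) = θ (2 * j.2.1 + 2)
  e3 : ∀ j, s.tp (z (2 * j.2.1 + 3)) (Y j) = θ (2 * j.2.1 + 3)
  top : ∀ i, D.D m (θ i) (D.pi n) = ⊤

private noncomputable def TOG_pi (z : ℕ → ℕ) (c : Bool) (i : ℕ × ℕ × ℕ) : Equiv.Perm ℕ :=
  if i.1 = 0 then Equiv.swap (z 0) (z (2 * i.2.1 + 2))
  else if i.1 = 1 then Equiv.swap (z 1) (z (2 * i.2.1 + 3))
  else if i.1 = 2 ∧ c = true then
    Equiv.swap (z 0) (z (2 * i.2.1 + 2)) * Equiv.swap (z 1) (z (2 * i.2.1 + 3))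
  else 1

private def TOG_C (s : CStr P R ℕ) (n : R) (z : ℕ → ℕ) (θ : ℕ → P) (v : ℕ) : Prop :=
  s.lam v = n ∧ v ≠ z 0 ∧ v ≠ z 1 ∧
    ∃ k, s.tp (z 0) v = θ (2 * k + 2) ∧ s.tp (z 1) v = θ (2 * k + 3)

open Classical in
private noncomputable def TOG_tau (s : CStr P R ℕ) (n : R) (z : ℕ → ℕ) (θ : ℕ → P)
    (Y : ℕ × ℕ × ℕ → ℕ) (v : ℕ) (c : Bool) : Equiv.Perm ℕ :=
  if h : ∃ i, Y i = v then TOG_pi z c h.choose
  else if TOG_C s n z θ v then Equiv.swap (z 0) (z 1) else 1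

open Classical in
private noncomputable def TOG_K (Y : ℕ × ℕ × ℕ → ℕ) (v : ℕ) : ℕ :=
  if h : ∃ i, Y i = v then h.choose.2.1 else 0

/-- the permutation of the column `v` -/
private noncomputable def TOG_s (s : CStr P R ℕ) (n : R) (z : ℕ → ℕ) (θ : ℕ → P)
    (Y : ℕ × ℕ × ℕ → ℕ) (x : ℕ → Bool) (v : ℕ) : Equiv.Perm ℕ :=
  TOG_tau s n z θ Y v (x (TOG_K Y v))

variable {D : CData P Q R} {s : CStr P R ℕ} {m n : R} {z : ℕ → ℕ} {θ : ℕ → P}
  {Y : ℕ × ℕ × ℕ → ℕ}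

private theorem TOG_tau_Y (H : TOG_H D s m n z θ Y) (i : ℕ × ℕ × ℕ) (c : Bool) :
    TOG_tau s n z θ Y (Y i) c = TOG_pi z c i := by
  have h : ∃ j, Y j = Y i := ⟨i, rfl⟩
  unfold TOG_tau
  rw [dif_pos h, H.Yi h.choose_spec]

private theorem TOG_K_Y (H : TOG_H D s m n z θ Y) (i : ℕ × ℕ × ℕ) :
    TOG_K Y (Y i) = i.2.1 := by
  have h : ∃ j, Y j = Y i := ⟨i, rfl⟩
  unfold TOG_K
  rw [dif_pos h, H.Yi h.choose_spec]

private theorem TOG_s_Y (H : TOG_H D s m n z θ Y) (x : ℕ → Bool) (i : ℕ × ℕ × ℕ) :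
    TOG_s s n z θ Y x (Y i) = TOG_pi z (x i.2.1) i := by
  unfold TOG_s
  rw [TOG_K_Y H, TOG_tau_Y H]

private theorem TOG_tau_C {v : ℕ} (h : ¬ ∃ i, Y i = v) (hC : TOG_C s n z θ v) (c : Bool) :
    TOG_tau s n z θ Y v c = Equiv.swap (z 0) (z 1) := by
  unfold TOG_tau
  rw [dif_neg h, if_pos hC]

private theorem TOG_tau_N {v : ℕ} (h : ¬ ∃ i, Y i = v) (hC : ¬ TOG_C s n z θ v) (c : Bool) :
    TOG_tau s n z θ Y v c = 1 := by
  unfold TOG_tau
  rw [dif_neg h, if_neg hC]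

private theorem TOG_swap {a b w : ℕ} (h : Equiv.swap a b w ≠ w) : w = a ∨ w = b := by
  by_contra h1
  push Not at h1
  exact h (Equiv.swap_apply_of_ne_of_ne h1.1 h1.2)

/-- Moved points. -/
private theorem TOG_L1 (H : TOG_H D s m n z θ Y) {v w : ℕ} {c : Bool}
    (h : TOG_tau s n z θ Y v c w ≠ w) :
    s.lam v = n ∧ v ≠ z 0 ∧ v ≠ z 1 ∧ ∃ j i, w = z j ∧ s.tp w v = θ i ∧
      ((j = 0 ∧ i % 2 = 0) ∨ (j = 1 ∧ i % 2 = 1) ∨ (2 ≤ j ∧ i = j ∧ ∃ i', Y i' = v)) := by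
  by_cases hY : ∃ i, Y i = v
  · obtain ⟨i, rfl⟩ := hY
    rw [TOG_tau_Y H] at h
    refine ⟨H.lY i, (H.dis 0 i).symm, (H.dis 1 i).symm, ?_⟩
    have key : w = z 0 ∨ w = z (2 * i.2.1 + 2) ∨ w = z 1 ∨ w = z (2 * i.2.1 + 3) := by
      unfold TOG_pi at h
      split_ifs at h with h1 h2 h3
      · rcases TOG_swap h with h4 | h4
        · exact Or.inl h4
        · exact Or.inr (Or.inl h4)
      · rcases TOG_swap h with h4 | h4
        · exact Or.inr (Or.inr (Or.inl h4))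
        · exact Or.inr (Or.inr (Or.inr h4))
      · by_cases h5 : Equiv.swap (z 1) (z (2 * i.2.1 + 3)) w = w
        · rw [Equiv.Perm.mul_apply, h5] at h
          rcases TOG_swap h with h4 | h4
          · exact Or.inl h4
          · exact Or.inr (Or.inl h4)
        · rcases TOG_swap h5 with h4 | h4
          · exact Or.inr (Or.inr (Or.inl h4))
          · exact Or.inr (Or.inr (Or.inr h4))
      · exact absurd rfl h
    rcases key with h4 | h4 | h4 | h4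
    · exact ⟨0, 0, h4, by rw [h4, H.e0], Or.inl ⟨rfl, rfl⟩⟩
    · exact ⟨_, _, h4, by rw [h4, H.e2], Or.inr (Or.inr ⟨by omega, rfl, i, rfl⟩)⟩
    · exact ⟨1, 1, h4, by rw [h4, H.e1], Or.inr (Or.inl ⟨rfl, rfl⟩)⟩
    · exact ⟨_, _, h4, by rw [h4, H.e3], Or.inr (Or.inr ⟨by omega, rfl, i, rfl⟩)⟩
  · by_cases hC : TOG_C s n z θ v
    · rw [TOG_tau_C hY hC] at h
      obtain ⟨h1, h2, h3, k, h4, h5⟩ := hC
      refine ⟨h1, h2, h3, ?_⟩
      rcases TOG_swap h with h6 | h6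
      · exact ⟨0, 2 * k + 2, h6, by rw [h6, h4], Or.inl ⟨rfl, by omega⟩⟩
      · exact ⟨1, 2 * k + 3, h6, by rw [h6, h5], Or.inr (Or.inl ⟨rfl, by omega⟩)⟩
    · rw [TOG_tau_N hY hC] at h
      exact absurd rfl h

private theorem TOG_one (H : TOG_H D s m n z θ Y) (x : ℕ → Bool) {i : ℕ} (hi : i = 0 ∨ i = 1)
    (w : ℕ) : TOG_s s n z θ Y x (z i) w = w := by
  by_contra h
  obtain ⟨_, h1, h2, _⟩ := TOG_L1 H h
  rcases hi with rfl | rfl
  · exact h1 rfl
  · exact h2 rfl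

private theorem TOG_fixY (H : TOG_H D s m n z θ Y) (x : ℕ → Bool) (v : ℕ) (i : ℕ × ℕ × ℕ) :
    TOG_s s n z θ Y x v (Y i) = Y i := by
  by_contra h
  obtain ⟨_, _, _, j, _, h1, _⟩ := TOG_L1 H h
  exact H.dis j i h1.symm

private theorem TOG_h1 (H : TOG_H D s m n z θ Y) (x : ℕ → Bool) (v w : ℕ)
    (h : TOG_s s n z θ Y x v w ≠ w) : TOG_s s n z θ Y x w v = v := by
  by_contra h'
  obtain ⟨_, h1, h2, j, i, h3, _, h4⟩ := TOG_L1 H h
  obtain ⟨_, h5, h6, j', i', h7, _, h8⟩ := TOG_L1 H h'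
  rcases h4 with ⟨rfl, _⟩ | ⟨rfl, _⟩ | ⟨_, _, k, hk⟩
  · exact h5 h3
  · exact h6 h3
  · exact H.dis j' k (h7.symm.trans hk.symm)

private theorem TOG_h0 (H : TOG_H D s m n z θ Y) (x : ℕ → Bool) (v : ℕ) :
    TOG_s s n z θ Y x v v = v := by
  by_contra h
  exact h (TOG_h1 H x v v h)

private theorem TOG_h2 (H : TOG_H D s m n z θ Y) (x : ℕ → Bool) (v w : ℕ) :
    s.lam (TOG_s s n z θ Y x v w) = s.lam w := by
  by_cases h : TOG_s s n z θ Y x v w = w
  · rw [h]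
  · have h' : TOG_s s n z θ Y x v (TOG_s s n z θ Y x v w) ≠ TOG_s s n z θ Y x v w :=
      fun e => h ((TOG_s s n z θ Y x v).injective e)
    obtain ⟨_, _, _, j, _, h1, _⟩ := TOG_L1 H h
    obtain ⟨_, _, _, j', _, h2, _⟩ := TOG_L1 H h'
    have e1 : s.lam w = m := by rw [h1]; exact H.lz j
    have e2 : s.lam (TOG_s s n z θ Y x v w) = m := by
      have := H.lz j'
      rw [← h2] at this
      exact this
    rw [e1, e2]

private theorem TOG_injY (H : TOG_H D s m n z θ Y) (t k : ℕ) :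
    Function.Injective fun l => Y (t, k, l) := by
  intro a b h
  have := H.Yi h
  simpa using this

private theorem TOG_cnt (H : TOG_H D s m n z θ Y) (x : ℕ → Bool) (w : ℕ) (ρ : P) (q : Q) :
    {v | v ≠ w ∧ s.tp (TOG_s s n z θ Y x v w) (TOG_s s n z θ Y x w v) = ρ ∧
      D.pi (s.lam v) = q}.encard = D.D (s.lam w) ρ q := by
  by_cases hc : q = D.pi n ∧ (∃ i, ρ = θ i) ∧ ∃ j, w = z j
  · obtain ⟨rfl, ⟨i, rfl⟩, j, rfl⟩ := hc
    have ht : D.D (s.lam (z j)) (θ i) (D.pi n) = ⊤ := by rw [H.lz]; exact H.top i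
    rw [ht]
    by_cases hl : (j = 0 ∧ i % 2 = 0) ∨ (j = 1 ∧ i % 2 = 1) ∨ (2 ≤ j ∧ i = j)
    · have red : ∀ t k l, s.tp (TOG_s s n z θ Y x (Y (t, k, l)) (z j))
          (TOG_s s n z θ Y x (z j) (Y (t, k, l))) =
          s.tp (TOG_pi z (x k) (t, k, l) (z j)) (Y (t, k, l)) := by
        intro t k l
        rw [TOG_fixY H, TOG_s_Y H]
      have app : ∀ t k, (∀ l, s.tp (TOG_pi z (x k) (t, k, l) (z j)) (Y (t, k, l)) = θ i) →
          {v | v ≠ z j ∧ s.tp (TOG_s s n z θ Y x v (z j)) (TOG_s s n z θ Y x (z j) v) = θ i ∧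
            D.pi (s.lam v) = D.pi n}.encard = ⊤ := by
        intro t k h
        refine TOG_inf2 (z j) (θ i) (D.pi n) (fun l => Y (t, k, l)) (TOG_injY H t k) fun l => ?_
        exact ⟨(H.dis _ _).symm, by rw [red]; exact h l, by rw [H.lY]⟩
      rcases hl with ⟨rfl, hi⟩ | ⟨rfl, hi⟩ | ⟨hj, rfl⟩
      · rcases Nat.eq_zero_or_pos i with rfl | hpos
        · refine app 3 0 fun l => ?_
          have e : TOG_pi z (x 0) (3, 0, l) = 1 := by simp [TOG_pi]
          rw [e]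
          exact H.e0 _
        · obtain ⟨k, rfl⟩ : ∃ k, i = 2 * k + 2 := ⟨i / 2 - 1, by omega⟩
          refine app 0 k fun l => ?_
          have e : TOG_pi z (x k) (0, k, l) = Equiv.swap (z 0) (z (2 * k + 2)) := by
            simp [TOG_pi]
          rw [e, Equiv.swap_apply_left]
          exact H.e2 (0, k, l)
      · rcases Nat.lt_or_ge i 2 with hlt | hge
        · obtain rfl : i = 1 := by omega
          refine app 3 0 fun l => ?_
          have e : TOG_pi z (x 0) (3, 0, l) = 1 := by simp [TOG_pi]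
          rw [e]
          exact H.e1 _
        · obtain ⟨k, rfl⟩ : ∃ k, i = 2 * k + 3 := ⟨i / 2 - 1, by omega⟩
          refine app 1 k fun l => ?_
          have e : TOG_pi z (x k) (1, k, l) = Equiv.swap (z 1) (z (2 * k + 3)) := by
            simp [TOG_pi]
          rw [e, Equiv.swap_apply_left]
          exact H.e3 (1, k, l)
      · have e : ∀ k l, TOG_pi z (x k) (3, k, l) = 1 := fun k l => by simp [TOG_pi]
        rcases Nat.mod_two_eq_zero_or_one i with h2 | h2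
        · obtain ⟨k, rfl⟩ : ∃ k, i = 2 * k + 2 := ⟨i / 2 - 1, by omega⟩
          refine app 3 k fun l => ?_
          rw [e]
          exact H.e2 (3, k, l)
        · obtain ⟨k, rfl⟩ : ∃ k, i = 2 * k + 3 := ⟨i / 2 - 1, by omega⟩
          refine app 3 k fun l => ?_
          rw [e]
          exact H.e3 (3, k, l)
    · refine TOG_inf1 H.hs (TOG_h0 H x) (TOG_h1 H x) (TOG_h2 H x) (z j) (θ i) (D.pi n) ht
        fun v hv he => ?_
      obtain ⟨_, _, _, j', i', h1, h2, h3⟩ := TOG_L1 H hv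
      have e1 := H.zi h1
      subst e1
      rw [he] at h2
      have e2 := H.ti h2
      subst e2
      apply hl
      rcases h3 with h3 | h3 | ⟨h3, h4, _⟩
      · exact Or.inl h3
      · exact Or.inr (Or.inl h3)
      · exact Or.inr (Or.inr ⟨h3, h4⟩)
  · refine TOG_cnt1 H.hs (TOG_h0 H x) (TOG_h1 H x) (TOG_h2 H x) w ρ q fun v hv hq => ?_
    obtain ⟨h1, _, _, j, i, h2, h3, _⟩ := TOG_L1 H hv
    have h' : TOG_s s n z θ Y x v (TOG_s s n z θ Y x v w) ≠ TOG_s s n z θ Y x v w :=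
      fun e => hv ((TOG_s s n z θ Y x v).injective e)
    obtain ⟨_, _, _, j', i', _, h4, _⟩ := TOG_L1 H h'
    rw [h1] at hq
    refine ⟨fun e => hc ⟨hq.symm, ⟨i, by rw [← e, h3]⟩, j, h2⟩, fun e => ?_⟩
    exact hc ⟨hq.symm, ⟨i', by rw [← e]; exact h4⟩, j, h2⟩

private theorem TOG_model (H : TOG_H D s m n z θ Y) (x : ℕ → Bool) :
    IsC D (TOG_N s (TOG_s s n z θ Y x)) :=
  TOG_isC H.hs (TOG_h0 H x) (TOG_h1 H x) (TOG_cnt H x)

private theorem TOG_clopen (s : CStr P R ℕ) (n : R) (z : ℕ → ℕ) (θ : ℕ → P)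
    (Y : ℕ × ℕ × ℕ → ℕ) (w v : ℕ) (ρ : P) :
    IsClopen {x : ℕ → Bool | (TOG_N s (TOG_s s n z θ Y x)).tp w v = ρ} := by
  have h : {x : ℕ → Bool | (TOG_N s (TOG_s s n z θ Y x)).tp w v = ρ} =
      (fun x : ℕ → Bool => (x (TOG_K Y v), x (TOG_K Y w))) ⁻¹'
        {p : Bool × Bool | s.tp (TOG_tau s n z θ Y v p.1 w) (TOG_tau s n z θ Y w p.2 v) = ρ} :=
    rfl
  rw [h]
  exact (isClopen_discrete _).preimage (by fun_prop)

private theorem TOG_dec (H : TOG_H D s m n z θ Y) (x : ℕ → Bool) (k : ℕ) :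
    x k = true ↔ ∃ u, u ≠ z 0 ∧ u ≠ z 1 ∧ s.lam u = n ∧
      (TOG_N s (TOG_s s n z θ Y x)).tp (z 0) u = θ (2 * k + 2) ∧
      (TOG_N s (TOG_s s n z θ Y x)).tp (z 1) u = θ (2 * k + 3) := by
  have r0 : ∀ u, (TOG_N s (TOG_s s n z θ Y x)).tp (z 0) u =
      s.tp (TOG_s s n z θ Y x u (z 0)) u := fun u => by
    show s.tp (TOG_s s n z θ Y x u (z 0)) (TOG_s s n z θ Y x (z 0) u) = _
    rw [TOG_one H x (Or.inl rfl) u]
  have r1 : ∀ u, (TOG_N s (TOG_s s n z θ Y x)).tp (z 1) u =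
      s.tp (TOG_s s n z θ Y x u (z 1)) u := fun u => by
    show s.tp (TOG_s s n z θ Y x u (z 1)) (TOG_s s n z θ Y x (z 1) u) = _
    rw [TOG_one H x (Or.inr rfl) u]
  simp only [r0, r1]
  have z01 : z 0 ≠ z 1 := fun e => absurd (H.zi e) (by omega)
  have z0k : ∀ k, z 0 ≠ z (2 * k + 3) := fun k e => absurd (H.zi e) (by omega)
  have z1k : ∀ k, z 1 ≠ z (2 * k + 2) := fun k e => absurd (H.zi e) (by omega)
  have z1k' : ∀ k, z 1 ≠ z (2 * k + 3) := fun k e => absurd (H.zi e) (by omega)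
  have z0k' : ∀ k, z 0 ≠ z (2 * k + 2) := fun k e => absurd (H.zi e) (by omega)
  have zkk : ∀ k, z (2 * k + 3) ≠ z (2 * k + 2) := fun k e => absurd (H.zi e) (by omega)
  have p2 : ∀ k l, TOG_pi z true (2, k, l) =
      Equiv.swap (z 0) (z (2 * k + 2)) * Equiv.swap (z 1) (z (2 * k + 3)) := fun k l => by
    simp [TOG_pi]
  have q0 : ∀ k l, TOG_pi z true (2, k, l) (z 0) = z (2 * k + 2) := fun k l => by
    rw [p2, Equiv.Perm.mul_apply, Equiv.swap_apply_of_ne_of_ne z01 (z0k k),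
      Equiv.swap_apply_left]
  have q1 : ∀ k l, TOG_pi z true (2, k, l) (z 1) = z (2 * k + 3) := fun k l => by
    rw [p2, Equiv.Perm.mul_apply, Equiv.swap_apply_left,
      Equiv.swap_apply_of_ne_of_ne (z0k k).symm (zkk k)]
  constructor
  · intro hx
    refine ⟨Y (2, k, 0), (H.dis _ _).symm, (H.dis _ _).symm, H.lY _, ?_, ?_⟩
    · rw [TOG_s_Y H]
      show s.tp (TOG_pi z (x k) (2, k, 0) (z 0)) _ = _
      rw [hx, q0]
      exact H.e2 (2, k, 0)
    · rw [TOG_s_Y H]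
      show s.tp (TOG_pi z (x k) (2, k, 0) (z 1)) _ = _
      rw [hx, q1]
      exact H.e3 (2, k, 0)
  · rintro ⟨u, hu0, hu1, hun, h0, h1⟩
    by_cases hY : ∃ i, Y i = u
    · obtain ⟨⟨t, k', l⟩, rfl⟩ := hY
      rw [TOG_s_Y H] at h0 h1
      dsimp only at h0 h1
      by_cases t0 : t = 0
      · exfalso
        have e : TOG_pi z (x k') (t, k', l) = Equiv.swap (z 0) (z (2 * k' + 2)) := by
          simp [TOG_pi, t0]
        rw [e, Equiv.swap_apply_of_ne_of_ne z01.symm (z1k k'), H.e1] at h1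
        have := H.ti h1
        omega
      · by_cases t1 : t = 1
        · exfalso
          have e : TOG_pi z (x k') (t, k', l) = Equiv.swap (z 1) (z (2 * k' + 3)) := by
            simp [TOG_pi, t1]
          rw [e, Equiv.swap_apply_of_ne_of_ne z01 (z0k k'), H.e0] at h0
          have := H.ti h0
          omega
        · by_cases t2 : t = 2 ∧ x k' = true
          · obtain ⟨rfl, hx⟩ := t2
            rw [hx, q0] at h0
            rw [H.e2 (2, k', l)] at h0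
            have := H.ti h0
            dsimp only at this
            obtain rfl : k' = k := by omega
            exact hx
          · exfalso
            have e : TOG_pi z (x k') (t, k', l) = 1 := by
              simp only [TOG_pi, if_neg t0, if_neg t1, if_neg t2]
            rw [e] at h0
            rw [Equiv.Perm.one_apply, H.e0] at h0
            have := H.ti h0
            omega
    · exfalso
      by_cases hC : TOG_C s n z θ u
      · have e : TOG_s s n z θ Y x u = Equiv.swap (z 0) (z 1) := TOG_tau_C hY hC _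
        obtain ⟨_, _, _, k', h2, h3⟩ := hC
        rw [e, Equiv.swap_apply_left, h3] at h0
        have := H.ti h0
        omega
      · have e : TOG_s s n z θ Y x u = 1 := TOG_tau_N hY hC _
        rw [e, Equiv.Perm.one_apply] at h0 h1
        exact hC ⟨hun, hu0, hu1, k, h0, h1⟩

private theorem TOG_perf [Countable P] [Countable R] (H : TOG_H D s m n z θ Y) :
    PerfK (KC D) := by
  refine perfKC (fun x => TOG_N s (TOG_s s n z θ Y x)) (TOG_model H) (fun a r => ?_)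
    (fun a b ρ _ => TOG_clopen s n z θ Y a b ρ) (k := 2) ![z 0, z 1]
    (fun k s' v => ∃ u, u ≠ v 0 ∧ u ≠ v 1 ∧ s'.lam u = n ∧ s'.tp (v 0) u = θ (2 * k + 2) ∧
      s'.tp (v 1) u = θ (2 * k + 3)) ?_ ?_ (fun x k => TOG_dec H x k)
  · show IsClopen {_x : ℕ → Bool | s.lam a = r}
    by_cases h : s.lam a = r
    · simp only [h, ofPred_true]
      exact isClopen_univ
    · simp only [h, ofPred_false]
      exact isClopen_empty
  · rintro k s' s'' e v he ⟨u, h0, h1, h2, h3, h4⟩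
    refine ⟨e u, fun h => h0 (e.injective h), fun h => h1 (e.injective h), ?_, ?_, ?_⟩
    · rw [he.1]
      exact h2
    · show s''.tp (e (v 0)) (e u) = _
      rw [he.2 _ _ h0.symm]
      exact h3
    · show s''.tp (e (v 1)) (e u) = _
      rw [he.2 _ _ h1.symm]
      exact h4
  · intro k v
    have h : {x | ∃ u, u ≠ v 0 ∧ u ≠ v 1 ∧ (TOG_N s (TOG_s s n z θ Y x)).lam u = n ∧
        (TOG_N s (TOG_s s n z θ Y x)).tp (v 0) u = θ (2 * k + 2) ∧
        (TOG_N s (TOG_s s n z θ Y x)).tp (v 1) u = θ (2 * k + 3)} =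
        ⋃ u : ℕ, ⋃ (_ : u ≠ v 0 ∧ u ≠ v 1 ∧ s.lam u = n),
          ({x | (TOG_N s (TOG_s s n z θ Y x)).tp (v 0) u = θ (2 * k + 2)} ∩
          {x | (TOG_N s (TOG_s s n z θ Y x)).tp (v 1) u = θ (2 * k + 3)}) := by
      ext x
      simp only [mem_ofPred_eq, mem_iUnion, exists_prop, mem_inter_iff]
      constructor
      · rintro ⟨u, h0, h1, h2, h3, h4⟩
        exact ⟨u, ⟨h0, h1, h2⟩, h3, h4⟩
      · rintro ⟨u, ⟨h0, h1, h2⟩, h3, h4⟩
        exact ⟨u, h0, h1, h2, h3, h4⟩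
    show MeasurableSet {x | ∃ u, u ≠ v 0 ∧ u ≠ v 1 ∧ (TOG_N s (TOG_s s n z θ Y x)).lam u = n ∧
        (TOG_N s (TOG_s s n z θ Y x)).tp (v 0) u = θ (2 * k + 2) ∧
        (TOG_N s (TOG_s s n z θ Y x)).tp (v 1) u = θ (2 * k + 3)}
    rw [h]
    exact MeasurableSet.iUnion fun u => MeasurableSet.iUnion fun _ =>
      (TOG_clopen s n z θ Y _ _ _).isClosed.measurableSet.inter
        (TOG_clopen s n z θ Y _ _ _).isClosed.measurableSet

end main

theorem thm_TOG : St_TOG := by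
  intro P Q R _ _ D s m n z y θ hs hz hy hzy lz ly hθ h
  choose J hJ using h
  let bd : ℕ → ℕ := fun k => max (max (J 0) (J 1)) (max (J (2 * k + 2)) (J (2 * k + 3)))
  let φ : ℕ × ℕ × ℕ → ℕ := fun i => Nat.pair (Nat.pair i.1 (Nat.pair i.2.1 i.2.2)) (bd i.2.1)
  have hφ : Function.Injective φ := by
    rintro ⟨a, b, c⟩ ⟨a', b', c'⟩ e
    obtain ⟨e1, _⟩ := Nat.pair_eq_pair.1 e
    obtain ⟨e2, e3⟩ := Nat.pair_eq_pair.1 e1
    obtain ⟨e4, e5⟩ := Nat.pair_eq_pair.1 e3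
    dsimp only at e2 e4 e5
    rw [e2, e4, e5]
  have hb : ∀ i, bd i.2.1 ≤ φ i := fun i => Nat.right_le_pair _ _
  have H : TOG_H D s m n z θ (fun i => y (φ i)) := by
    refine ⟨hs, hz, hy.comp hφ, fun i j => hzy i _, lz, fun j => ly _, hθ, fun j => ?_,
      fun j => ?_, fun j => ?_, fun j => ?_, fun i => ?_⟩
    · exact hJ 0 _ (le_trans (le_trans (le_max_left _ _) (le_max_left _ _)) (hb j))
    · exact hJ 1 _ (le_trans (le_trans (le_max_right _ _) (le_max_left _ _)) (hb j))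
    · exact hJ _ _ (le_trans (le_trans (le_max_left _ _) (le_max_right _ _)) (hb j))
    · exact hJ _ _ (le_trans (le_trans (le_max_right _ _) (le_max_right _ _)) (hb j))
    · have h1 := hs.cnt (z i) (θ i) (D.pi n)
      rw [lz] at h1
      rw [← h1]
      apply Set.encard_eq_top_iff.2
      refine Set.infinite_of_injective_forall_mem (f := fun l : ℕ => y (J i + l)) ?_ fun l => ?_
      · intro a b e
        have := hy e
        omega
      · exact ⟨(hzy i _).symm, hJ i _ (Nat.le_add_right _ _), by rw [ly]⟩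
  exact TOG_perf H

end CTQ
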