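import Pool.Agent.CTQ.StC
import Pool.Agent.CTQ.BAS

/-!
# CTQ [TRC]: the truth lemma with counting
-/

set_option autoImplicit false
set_option linter.unusedVariables false

namespace CTQ

open FirstOrder Set
open VPF (Atm atm)

private theorem TRC_sw_atm {L : FirstOrder.Language.{0, 0}} {M : Type} (S : L.Structure M)
    (x y : M) (a : Atm L) : atm S x y (swA a) ↔ atm S y x a := by
  obtain ⟨n, R, w⟩ := a
  have h : (fun i => if (if w i = 0 then (1 : Fin 2) else 0) = 0 then x else y) =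
      fun i => if w i = 0 then y else x := by
    funext i
    by_cases hi : w i = 0
    · simp [hi]
    · simp [hi]
  show S.RelMap R _ ↔ S.RelMap R _
  exact iff_of_eq (congrArg (S.RelMap R) h)

private theorem TRC_sw_all {L : FirstOrder.Language.{0, 0}} {M N : Type} {S : L.Structure M}
    {S' : L.Structure N} {x y : M} {x' y' : N} (h : ∀ a, atm S x y a ↔ atm S' x' y' a) (a : Atm L) :
    atm S y x a ↔ atm S' y' x' a :=
  (TRC_sw_atm S x y a).symm.trans ((h (swA a)).trans (TRC_sw_atm S' x' y' a))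

/-- The claim of the truth lemma for the formula `ψ`. -/
private def TRC_Cl {L : FirstOrder.Language.{0, 0}} (F : ℕ → FC L 2) {M N : Type}
    (S : L.Structure M) (S' : L.Structure N) (π : N → M) (ψ : FC L 2) : Prop :=
  ∀ (v : Fin 2 → M) (v' : Fin 2 → N), tyc S F (v 0) = tyc S F (π (v' 0)) →
    tyc S F (v 1) = tyc S F (π (v' 1)) → (v 0 = v 1 ↔ v' 0 = v' 1) →
    (∀ a, atm S (v 0) (v 1) a ↔ atm S' (v' 0) (v' 1) a) → (ψ.Sat S v ↔ ψ.Sat S' v')

private theorem TRC_upd1 {M : Type} (v : Fin 2 → M) (a : M) :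
    Function.update v 1 a = ![v 0, a] := by
  funext j
  fin_cases j <;> simp [Function.update]

private theorem TRC_upd0 {M : Type} (v : Fin 2 → M) (a : M) :
    Function.update v 0 a = ![a, v 1] := by
  funext j
  fin_cases j <;> simp [Function.update]

section

variable {L : FirstOrder.Language.{0, 0}} {F : ℕ → FC L 2} {M N : Type} {S : L.Structure M}
  {S' : L.Structure N} {π : N → M}

private theorem TRC_sat1 (S : L.Structure M) (n : ℕ) (φ : FC L 2) (v : Fin 2 → M) :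
    (FC.ge n 1 φ).Sat S v ↔ (n : ℕ∞) ≤ {a : M | φ.Sat S ![v 0, a]}.encard := by
  show (n : ℕ∞) ≤ {a : M | φ.Sat S (Function.update v 1 a)}.encard ↔ _
  simp only [TRC_upd1]

private theorem TRC_sat0 (S : L.Structure M) (n : ℕ) (φ : FC L 2) (v : Fin 2 → M) :
    (FC.ge n 0 φ).Sat S v ↔ (n : ℕ∞) ≤ {a : M | φ.Sat S ![a, v 1]}.encard := by
  show (n : ℕ∞) ≤ {a : M | φ.Sat S (Function.update v 0 a)}.encard ↔ _
  simp only [TRC_upd0]

private theorem TRC_ge1 (hM : MatC S S' F π) (n m k : ℕ) (hk : F k = FC.ge n 1 (F m))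
    (hc : TRC_Cl F S S' π (F m)) (v : Fin 2 → M)
    (v' : Fin 2 → N) (h : tyc S F (v 0) = tyc S F (π (v' 0))) :
    (F k).Sat S v ↔ (F k).Sat S' v' := by
  have h1 : tyc S F (v 0) (Sum.inl k) ↔ tyc S F (π (v' 0)) (Sum.inl k) := by rw [h]
  have h2 : tyc S F (v 0) (Sum.inl k) ↔ (F k).Sat S v := by
    show (F k).Sat S (fun _ => v 0) ↔ _
    rw [hk, TRC_sat1, TRC_sat1]
  have h3 : tyc S F (π (v' 0)) (Sum.inl k) ↔
      (n : ℕ∞) ≤ {a : M | (F m).Sat S ![π (v' 0), a]}.encard := by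
    show (F k).Sat S (fun _ => π (v' 0)) ↔ _
    rw [hk, TRC_sat1]
  obtain ⟨b, hb, hb'⟩ := hM (v' 0)
  have h4 : {a : N | (F m).Sat S' ![v' 0, a]}.encard =
      {a : M | (F m).Sat S ![π (v' 0), a]}.encard := by
    refine encard_equiv b fun a' => ?_
    refine hc ![π (v' 0), b a'] ![v' 0, a'] rfl (hb' a').1 ?_ (hb' a').2
    show π (v' 0) = b a' ↔ v' 0 = a'
    rw [← hb]
    exact b.injective.eq_iff
  rw [← h2, h1, h3, ← h4, ← TRC_sat1 S' n (F m) v', ← hk]

private theorem TRC_ge0 (hM : MatC S S' F π) (n m k : ℕ) (hk : F k = FC.ge n 0 (F m))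
    (hc : TRC_Cl F S S' π (F m)) (v : Fin 2 → M)
    (v' : Fin 2 → N) (h : tyc S F (v 1) = tyc S F (π (v' 1))) :
    (F k).Sat S v ↔ (F k).Sat S' v' := by
  have h1 : tyc S F (v 1) (Sum.inl k) ↔ tyc S F (π (v' 1)) (Sum.inl k) := by rw [h]
  have h2 : tyc S F (v 1) (Sum.inl k) ↔ (F k).Sat S v := by
    show (F k).Sat S (fun _ => v 1) ↔ _
    rw [hk, TRC_sat0, TRC_sat0]
  have h3 : tyc S F (π (v' 1)) (Sum.inl k) ↔
      (n : ℕ∞) ≤ {a : M | (F m).Sat S ![a, π (v' 1)]}.encard := by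
    show (F k).Sat S (fun _ => π (v' 1)) ↔ _
    rw [hk, TRC_sat0]
  obtain ⟨b, hb, hb'⟩ := hM (v' 1)
  have h4 : {a : N | (F m).Sat S' ![a, v' 1]}.encard =
      {a : M | (F m).Sat S ![a, π (v' 1)]}.encard := by
    refine encard_equiv b fun a' => ?_
    refine hc ![b a', π (v' 1)] ![a', v' 1] (hb' a').1 rfl ?_ (TRC_sw_all (hb' a').2)
    show b a' = π (v' 1) ↔ a' = v' 1
    rw [← hb]
    exact b.injective.eq_iff
  rw [← h2, h1, h3, ← h4, ← TRC_sat0 S' n (F m) v', ← hk]

private theorem TRC_claim (hF : ClsC F) (hM : MatC S S' F π) (ψ : FC L 2) :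
    ∀ m, F m = ψ → TRC_Cl F S S' π ψ := by
  induction ψ with
  | eq i j =>
    intro m _ v v' _ _ h _
    show v i = v j ↔ v' i = v' j
    fin_cases i <;> fin_cases j
    · simp
    · exact h
    · exact eq_comm.trans (h.trans eq_comm)
    · simp
  | rel R w =>
    intro m _ v v' _ _ _ h
    have h1 : (fun i => v (w i)) = fun i => if w i = 0 then v 0 else v 1 := by
      funext i
      by_cases hi : w i = 0
      · simp [hi]
      · have : w i = 1 := by omega
        simp [this]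
    have h2 : (fun i => v' (w i)) = fun i => if w i = 0 then v' 0 else v' 1 := by
      funext i
      by_cases hi : w i = 0
      · simp [hi]
      · have : w i = 1 := by omega
        simp [this]
    show S.RelMap R (fun i => v (w i)) ↔ S'.RelMap R (fun i => v' (w i))
    rw [h1, h2]
    exact h ⟨_, R, w⟩
  | neg φ ih =>
    intro m hm v v' h0 h1 h2 h3
    obtain ⟨m', hm'⟩ := hF m φ (hm ▸ SubC1.neg φ)
    exact not_congr (ih m' hm' v v' h0 h1 h2 h3)
  | conj φ ih =>
    intro m hm v v' h0 h1 h2 h3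
    refine forall_congr' fun l => ?_
    obtain ⟨m', hm'⟩ := hF m (φ l) (hm ▸ SubC1.conj φ l)
    exact ih l m' hm' v v' h0 h1 h2 h3
  | ge n i φ ih =>
    intro m hm v v' h0 h1 h2 h3
    obtain ⟨m', hm'⟩ := hF m φ (hm ▸ SubC1.ge n i φ)
    have hc := ih m' hm'
    rw [← hm'] at hc hm
    rw [← hm', ← hm]
    fin_cases i
    · exact TRC_ge0 hM n m' m hm hc v v' h1
    · exact TRC_ge1 hM n m' m hm hc v v' h0

end

theorem thm_TRC : St_TRC := by
  intro L F M N S S' π hF hM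
  have hcl : ∀ m, TRC_Cl F S S' π (F m) := fun m => TRC_claim hF hM (F m) m rfl
  have hdiag : ∀ x' a, atm S (π x') (π x') a ↔ atm S' x' x' a := by
    intro x' a
    obtain ⟨b, hb, hb'⟩ := hM x'
    have := (hb' x').2 a
    rwa [hb] at this
  refine ⟨?_, ?_⟩
  · intro x'
    funext i
    apply propext
    rcases i with m | a
    · exact (hcl m (fun _ => π x') (fun _ => x') rfl rfl (by simp) (hdiag x')).symm
    · exact (hdiag x' a).symm
  · intro m hm v'
    obtain ⟨b, hb, hb'⟩ := hM (v' 0)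
    refine (hcl m ![π (v' 0), b (v' 1)] v' rfl (hb' (v' 1)).1 ?_ (hb' (v' 1)).2).1 (hm _)
    show π (v' 0) = b (v' 1) ↔ v' 0 = v' 1
    rw [← hb]
    exact b.injective.eq_iff

end CTQ
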