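import Pool.Agent.CTQ.StA
import Pool.Agent.CTQ.BAS

/-!
# CTQ, module TRD (helper71): the trade on three columns

Rows: the points outside of the triple and three extra rows `e : Fin 3` (for the pair of the other
two members of the triple); entries: `none`, or a type and a coarse label.
-/

set_option autoImplicit false

namespace CTQ

open FirstOrder Set Pool.Agent.Helper6.Str Pool.Agent.Helper5.Multi Pool.Agent.Helper79.VC

private theorem TRD_perm : ∀ (σ : Equiv.Perm (Fin 3)) (e i : Fin 3), σ e = e → i ≠ e →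
    -(e + σ i) = σ (-(e + i)) := by decide

private theorem TRD_fin : ∀ (e i : Fin 3), -(i + -(e + i)) = e := by decide

private theorem TRD_fin2 : ∀ (e i : Fin 3), -(e + i) = i ↔ e = i := by decide

section

variable {V : Type} (y : Fin 3 → V)

/-- the rows as points -/
private noncomputable def TRD_psi (hy : Function.Injective y) : {v // v ∉ range y} ⊕ Fin 3 ≃ V :=
  Equiv.ofBijective (Sum.elim (fun v => v.1) y) (by
    constructor
    · rintro (v | a) (w | b) h
      · exact congrArg Sum.inl (Subtype.ext h)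
      · exact absurd ⟨b, h.symm⟩ v.2
      · exact absurd ⟨a, h⟩ w.2
      · exact congrArg Sum.inr (hy h)
    · intro v
      by_cases h : v ∈ range y
      · obtain ⟨i, rfl⟩ := h
        exact ⟨Sum.inr i, rfl⟩
      · exact ⟨Sum.inl ⟨v, h⟩, rfl⟩)

private theorem TRD_psi_inl (hy : Function.Injective y) (v : {v // v ∉ range y}) :
    TRD_psi y hy (Sum.inl v) = v.1 := rfl

private theorem TRD_psi_inr (hy : Function.Injective y) (i : Fin 3) :
    TRD_psi y hy (Sum.inr i) = y i := rfl

private theorem TRD_symm_n (hy : Function.Injective y) {v : V} (hv : v ∉ range y) :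
    (TRD_psi y hy).symm v = Sum.inl ⟨v, hv⟩ := by
  rw [Equiv.symm_apply_eq]
  rfl

private theorem TRD_symm_y (hy : Function.Injective y) (i : Fin 3) :
    (TRD_psi y hy).symm (y i) = Sum.inr i := by
  rw [Equiv.symm_apply_eq]
  rfl

/-- the rows as points, seen from the column `i` -/
private noncomputable def TRD_psi' (hy : Function.Injective y) (i : Fin 3) :
    {v // v ∉ range y} ⊕ Fin 3 ≃ V :=
  (Equiv.sumCongr (Equiv.refl _) ⟨fun e => -(e + i), fun e => -(e + i),
    fun e => by revert e i; decide, fun e => by revert e i; decide⟩).trans (TRD_psi y hy)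

private theorem TRD_psi'_inl (hy : Function.Injective y) (i : Fin 3) (v : {v // v ∉ range y}) :
    TRD_psi' y hy i (Sum.inl v) = v.1 := rfl

private theorem TRD_psi'_inr (hy : Function.Injective y) (i e : Fin 3) :
    TRD_psi' y hy i (Sum.inr e) = y (-(e + i)) := rfl

end

/-- The trade on three columns. -/
theorem thm_TRD (hH : St_HAL) : St_TRD := by
  classical
  intro P Q R V _ D s y n x1 x2 hs hy hlam hx hy1 hy2 _ hi1 hi2
  have h1 : x1 ∉ range y := fun ⟨i, h⟩ => hy1 i h
  have h2 : x2 ∉ range y := fun ⟨i, h⟩ => hy2 i h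
  -- the entries
  set t : Fin 3 → {v // v ∉ range y} ⊕ Fin 3 → Option (P × Q) := fun i z =>
    if z = Sum.inr i then none
    else some (s.tp (TRD_psi' y hy i z) (y i), D.pi (s.lam (TRD_psi' y hy i z))) with ht
  have t_inl : ∀ i v, t i (Sum.inl v) = some (s.tp v.1 (y i), D.pi (s.lam v.1)) := by
    intro i v
    simp only [ht]
    rw [if_neg (by simp)]
    rfl
  have t_self : ∀ i, t i (Sum.inr i) = none := fun i => if_pos rfl
  have t_inr : ∀ i e, e ≠ i → t i (Sum.inr e) =
      some (s.tp (y (-(e + i))) (y i), D.pi n) := by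
    intro i e he
    simp only [ht]
    rw [if_neg (fun h => he (Sum.inr_injective h)), TRD_psi'_inr, hlam]
  have t_none : ∀ i z, t i z = none ↔ z = Sum.inr i := by
    intro i z
    simp only [ht]
    split_ifs with h
    · simp [h]
    · simp [h]
  -- numbers in the columns
  have hnum : ∀ i ρ q, {z | t i z = some (ρ, q)}.encard = D.D n (D.inv ρ) q := by
    intro i ρ q
    rw [← hlam i, ← hs.cnt (y i) (D.inv ρ) q]
    refine encard_equiv (TRD_psi' y hy i) fun z => ?_
    simp only [mem_ofPred_eq]
    constructor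
    · rintro ⟨a1, a2, a3⟩
      have hz : z ≠ Sum.inr i := by
        rintro rfl
        apply a1
        rw [TRD_psi'_inr, (TRD_fin2 i i).2 rfl]
      simp only [ht]
      rw [if_neg hz, a3, hs.sym _ _ (Ne.symm a1), a2, D.inv_inv]
    · intro h
      have hz : z ≠ Sum.inr i := by
        rintro rfl
        rw [t_self] at h
        exact absurd h (by simp)
      simp only [ht] at h
      rw [if_neg hz] at h
      have h3 := Option.some.inj h
      have h4 : s.tp (TRD_psi' y hy i z) (y i) = ρ := congrArg Prod.fst h3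
      have h5 : D.pi (s.lam (TRD_psi' y hy i z)) = q := congrArg Prod.snd h3
      have h6 : TRD_psi' y hy i z ≠ y i := by
        intro h6
        apply hz
        apply (TRD_psi' y hy i).injective
        rw [h6, TRD_psi'_inr, (TRD_fin2 i i).2 rfl]
      refine ⟨h6, ?_, h5⟩
      rw [hs.sym _ _ h6, h4]
  have hnone : ∀ i, {z | t i z = none}.encard = 1 := by
    intro i
    have h3 : {z | t i z = none} = {Sum.inr i} := by
      ext z
      exact t_none i z
    rw [h3, Set.encard_singleton]
  have heq : ∀ i j τ, {z | t i z = τ}.encard = {z | t j z = τ}.encard := by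
    rintro i j (_ | ⟨ρ, q⟩)
    · rw [hnone, hnone]
    · rw [hnum, hnum]
  obtain ⟨g0, hg0, hg1⟩ := hH _ _ t (Sum.inl ⟨x1, h1⟩) (Sum.inl ⟨x2, h2⟩) heq
    (fun h => hx (congrArg Subtype.val (Sum.inl_injective h)))
    (by
      intro i j hij
      simp only [t_inl] at hij
      exact hi1 (congrArg Prod.fst (Option.some.inj hij)))
    (by
      intro i j hij
      simp only [t_inl] at hij
      exact hi2 (congrArg Prod.fst (Option.some.inj hij)))
  -- normalisation
  have hk : ∀ i, ∃ e, g0 (Sum.inr e) i = e := by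
    intro i
    have h3 : {z | t (g0 z i) z = none}.encard ≠ 0 := by
      rw [hg1 i i none, hnone]
      exact one_ne_zero
    obtain ⟨z, hz⟩ := Set.encard_ne_zero.1 h3
    have hz' := (t_none _ z).1 hz
    rcases z with v | e
    · exact absurd hz' (by simp)
    · exact ⟨e, (Sum.inr_injective hz').symm⟩
  choose k hk using hk
  have hkinj : Function.Injective k := by
    intro i j hij
    apply (g0 (Sum.inr (k i))).injective
    rw [hk i]
    conv_rhs => rw [hij]
    rw [hk j, hij]
  obtain ⟨K, hK⟩ : ∃ K : Equiv.Perm (Fin 3), ∀ i, K i = k i :=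
    ⟨Equiv.ofBijective k (Finite.injective_iff_bijective.1 hkinj), fun _ => rfl⟩
  obtain ⟨g, hg⟩ : ∃ g : {v // v ∉ range y} ⊕ Fin 3 → Equiv.Perm (Fin 3),
      ∀ z, g z = g0 z * K⁻¹ := ⟨fun z => g0 z * K⁻¹, fun _ => rfl⟩
  have hgx : g (Sum.inl ⟨x1, h1⟩) ≠ g (Sum.inl ⟨x2, h2⟩) := by
    intro h
    rw [hg, hg] at h
    exact hg0 (mul_right_cancel h)
  have hge : ∀ e, g (Sum.inr e) e = e := by
    intro e
    rw [hg, Equiv.Perm.mul_apply]
    have h3 := hk (K⁻¹ e)
    have h4 : K (K⁻¹ e) = e := Equiv.apply_symm_apply K e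
    rw [← hK, h4] at h3
    exact h3
  have hgn : ∀ i τ, {z | t (g z i) z = τ}.encard = {z | t i z = τ}.encard := by
    intro i τ
    rw [← hg1 (K⁻¹ i) i τ]
    congr 1
    ext z
    simp only [mem_ofPred_eq, hg, Equiv.Perm.mul_apply]
  -- the new structure
  set F : ({v // v ∉ range y} ⊕ Fin 3) → ({v // v ∉ range y} ⊕ Fin 3) → P := fun z w =>
    match z, w with
    | .inl v, .inl w => s.tp v.1 w.1
    | .inl v, .inr i => s.tp v.1 (y (g (Sum.inl v) i))
    | .inr i, .inl w => s.tp (y (g (Sum.inl w) i)) w.1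
    | .inr a, .inr b => s.tp (y (g (Sum.inr (-(a + b))) a)) (y (g (Sum.inr (-(a + b))) b)) with hF
  set s' : CStr P R V := ⟨s.lam, fun v w => F ((TRD_psi y hy).symm v) ((TRD_psi y hy).symm w)⟩
    with hs'
  have hvy : ∀ (v : {v // v ∉ range y}) (i : Fin 3), v.1 ≠ y i := fun v i h => v.2 ⟨i, h.symm⟩
  have hsym : ∀ x z, x ≠ z → s'.tp z x = D.inv (s'.tp x z) := by
    intro x z hxz
    show F ((TRD_psi y hy).symm z) ((TRD_psi y hy).symm x) =
      D.inv (F ((TRD_psi y hy).symm x) ((TRD_psi y hy).symm z))
    have hne : (TRD_psi y hy).symm x ≠ (TRD_psi y hy).symm z :=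
      fun h => hxz ((TRD_psi y hy).symm.injective h)
    rcases hx' : (TRD_psi y hy).symm x with v | a <;>
      rcases hz' : (TRD_psi y hy).symm z with w | b
    · rw [hx', hz'] at hne
      exact hs.sym _ _ fun h => hne (congrArg Sum.inl (Subtype.ext h))
    · exact hs.sym _ _ (hvy v _)
    · exact hs.sym _ _ (Ne.symm (hvy w _))
    · rw [hx', hz'] at hne
      show s.tp (y (g (Sum.inr (-(b + a))) b)) (y (g (Sum.inr (-(b + a))) a)) =
        D.inv (s.tp (y (g (Sum.inr (-(a + b))) a)) (y (g (Sum.inr (-(a + b))) b)))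
      rw [add_comm b a]
      exact hs.sym _ _ fun h => hne (congrArg Sum.inr ((g _).injective (hy h)))
  refine ⟨s', fun v => g ((TRD_psi y hy).symm v), ⟨hsym, hs.cls, fun x ρ q => ?_⟩, rfl, ?_, ?_, ?_⟩
  · show {w | w ≠ x ∧ s'.tp x w = ρ ∧ D.pi (s.lam w) = q}.encard = D.D (s.lam x) ρ q
    by_cases hxr : x ∈ range y
    · obtain ⟨i, rfl⟩ := hxr
      have e1 : {z | t (g z i) z = some (D.inv ρ, q)}.encard =
          {w | w ≠ y i ∧ s'.tp (y i) w = ρ ∧ D.pi (s.lam w) = q}.encard := by
        refine encard_equiv (TRD_psi' y hy i) fun z => ?_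
        simp only [mem_ofPred_eq]
        rcases z with v | e
        · have e2 : s'.tp (y i) v.1 = s.tp (y (g (Sum.inl v) i)) v.1 := by
            show F ((TRD_psi y hy).symm (y i)) ((TRD_psi y hy).symm v.1) = _
            rw [TRD_symm_y, TRD_symm_n y hy v.2]
          rw [TRD_psi'_inl, e2, t_inl]
          constructor
          · rintro ⟨-, a2, a3⟩
            rw [hs.sym _ _ (Ne.symm (hvy v _)), a2, a3]
          · intro h
            have h3 := Option.some.inj h
            have h4 : s.tp v.1 (y (g (Sum.inl v) i)) = D.inv ρ := congrArg Prod.fst h3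
            refine ⟨hvy v i, ?_, congrArg Prod.snd h3⟩
            rw [hs.sym _ _ (hvy v _), h4, D.inv_inv]
        · by_cases hei : e = i
          · subst hei
            rw [hge, t_self, TRD_psi'_inr, (TRD_fin2 e e).2 rfl]
            simp
          · have hgei : e ≠ g (Sum.inr e) i := by
              intro h
              apply hei
              apply (g (Sum.inr e)).injective
              rw [hge]
              exact h
            have e2 : s'.tp (y i) (y (-(e + i))) =
                s.tp (y (g (Sum.inr e) i)) (y (g (Sum.inr e) (-(e + i)))) := by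
              show F ((TRD_psi y hy).symm (y i)) ((TRD_psi y hy).symm (y (-(e + i)))) = _
              rw [TRD_symm_y, TRD_symm_y]
              show s.tp (y (g (Sum.inr (-(i + -(e + i)))) i))
                (y (g (Sum.inr (-(i + -(e + i)))) (-(e + i)))) = _
              rw [TRD_fin]
            have hne : g (Sum.inr e) i ≠ g (Sum.inr e) (-(e + i)) := by
              intro h
              exact hei ((TRD_fin2 e i).1 ((g (Sum.inr e)).injective h).symm)
            rw [TRD_psi'_inr, e2, t_inr _ _ hgei, hlam,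
              TRD_perm _ e i (hge e) (fun h => hei h.symm)]
            constructor
            · rintro ⟨-, a2, a3⟩
              rw [hs.sym _ _ (fun h => hne (hy h)), a2, a3]
            · intro h
              have h3 := Option.some.inj h
              have h4 : s.tp (y (g (Sum.inr e) (-(e + i)))) (y (g (Sum.inr e) i)) = D.inv ρ :=
                congrArg Prod.fst h3
              refine ⟨fun h5 => hei ((TRD_fin2 e i).1 (hy h5)), ?_, congrArg Prod.snd h3⟩
              rw [hs.sym _ _ (fun h => hne (hy h).symm), h4, D.inv_inv]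
      rw [← e1, hgn, hnum, D.inv_inv, hlam]
    · rw [← hs.cnt x ρ q]
      refine encard_equiv ((TRD_psi y hy).symm.trans ((Equiv.sumCongr (Equiv.refl _)
        (g (Sum.inl ⟨x, hxr⟩))).trans (TRD_psi y hy))) fun w => ?_
      simp only [mem_ofPred_eq]
      by_cases hw : w ∈ range y
      · obtain ⟨i, rfl⟩ := hw
        have e2 : s'.tp x (y i) = s.tp x (y (g (Sum.inl ⟨x, hxr⟩) i)) := by
          show F ((TRD_psi y hy).symm x) ((TRD_psi y hy).symm (y i)) = _
          rw [TRD_symm_y, TRD_symm_n y hy hxr]
        have e3 : ((TRD_psi y hy).symm.trans ((Equiv.sumCongr (Equiv.refl _)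
            (g (Sum.inl ⟨x, hxr⟩))).trans (TRD_psi y hy))) (y i) =
            y (g (Sum.inl ⟨x, hxr⟩) i) := by
          show (TRD_psi y hy) ((Equiv.sumCongr (Equiv.refl _) (g (Sum.inl ⟨x, hxr⟩)))
            ((TRD_psi y hy).symm (y i))) = _
          rw [TRD_symm_y]
          rfl
        rw [e3, e2, hlam, hlam]
        exact and_congr_left fun _ => ⟨fun _ h => hxr ⟨i, h⟩, fun _ h => hxr ⟨_, h⟩⟩
      · have e2 : s'.tp x w = s.tp x w := by
          show F ((TRD_psi y hy).symm x) ((TRD_psi y hy).symm w) = _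
          rw [TRD_symm_n y hy hw, TRD_symm_n y hy hxr]
        have e3 : ((TRD_psi y hy).symm.trans ((Equiv.sumCongr (Equiv.refl _)
            (g (Sum.inl ⟨x, hxr⟩))).trans (TRD_psi y hy))) w = w := by
          show (TRD_psi y hy) ((Equiv.sumCongr (Equiv.refl _) (g (Sum.inl ⟨x, hxr⟩)))
            ((TRD_psi y hy).symm w)) = _
          rw [TRD_symm_n y hy hw]
          rfl
        rw [e3, e2]
  · show g ((TRD_psi y hy).symm x1) ≠ g ((TRD_psi y hy).symm x2)
    rw [TRD_symm_n y hy h1, TRD_symm_n y hy h2]
    exact hgx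
  · intro v hv i
    show F ((TRD_psi y hy).symm v) ((TRD_psi y hy).symm (y i)) =
      s.tp v (y (g ((TRD_psi y hy).symm v) i))
    rw [TRD_symm_y, TRD_symm_n y hy hv]
  · intro v w hv hw
    show F ((TRD_psi y hy).symm v) ((TRD_psi y hy).symm w) = _
    rw [TRD_symm_n y hy hv, TRD_symm_n y hy hw]

end CTQ
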