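import Pool.Agent.CTQ.StC
import Pool.Agent.VB.A

/-!
# CTQ, module TRF: the transfer
-/

set_option autoImplicit false

namespace CTQ

open FirstOrder Set Pool.Agent.Helper6.Str Pool.Agent.Helper5.Multi Pool.Agent.Helper79.VC
open VPF (Atm atm)

variable {L : FirstOrder.Language.{0, 0}}

/-- A bijection of the complements of two points extends. -/
private theorem TRF_ext (x' x : ℕ) (e : {y // y ≠ x'} ≃ {y // y ≠ x}) :
    ∃ b : ℕ ≃ ℕ, b x' = x ∧ ∀ (y : ℕ) (h : y ≠ x'), b y = (e ⟨y, h⟩).1 := by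
  classical
  refine ⟨⟨fun y => if h : y = x' then x else (e ⟨y, h⟩).1,
    fun y => if h : y = x then x' else (e.symm ⟨y, h⟩).1, ?_, ?_⟩, ?_, ?_⟩
  · intro y
    by_cases h : y = x'
    · simp [h]
    · have h2 : (e ⟨y, h⟩).1 ≠ x := (e ⟨y, h⟩).2
      simp only [dif_neg h, dif_neg h2]
      simp
  · intro y
    by_cases h : y = x
    · simp [h]
    · have h2 : (e.symm ⟨y, h⟩).1 ≠ x' := (e.symm ⟨y, h⟩).2
      simp only [dif_neg h, dif_neg h2]
      simp
  · simp
  · intro y h
    simp [h]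

private theorem TRF_sub (x : ℕ) (A : ℕ → Prop) :
    {y : {y // y ≠ x} | A y.1}.encard = {y | y ≠ x ∧ A y}.encard := by
  rw [← Subtype.val_injective.encard_image]
  congr 1
  ext y
  constructor
  · rintro ⟨z, hz, rfl⟩
    exact ⟨z.2, hz⟩
  · rintro ⟨h1, h2⟩
    exact ⟨⟨y, h1⟩, h2, rfl⟩

private theorem TRF_bij {K : Set (L.Structure ℕ)} {F : ℕ → FC L 2} {S₀ : L.Structure ℕ}
    (hS : S₀ ∈ K) {t : CStr (PTy K) (RTy K F) ℕ} (ht : IsC (dat K F S₀) t) (x' x : ℕ)
    (hx : cntT K F S₀ x = (t.lam x').1.2) :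
    ∃ b : ℕ ≃ ℕ, b x' = x ∧ ∀ y, y ≠ x' →
      pt S₀ x (b y) = (t.tp x' y).1 ∧ tyc S₀ F (b y) = (t.lam y).1.1.1 := by
  let c : {y // y ≠ x'} → PTy K × QTy K F := fun y => (t.tp x' y.1, (t.lam y.1).1.1)
  let c' : {y // y ≠ x} → PTy K × QTy K F := fun y =>
    (⟨pt S₀ x y.1, S₀, hS, x, y.1, rfl⟩, ⟨tyc S₀ F y.1, S₀, hS, y.1, rfl⟩)
  have hfib : ∀ p, {y | c y = p}.encard = {y | c' y = p}.encard := by
    rintro ⟨ρ, q⟩
    have h1 : {y | c y = (ρ, q)}.encard = (t.lam x').1.2 ρ q := by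
      have h2 := TRF_sub x' (fun y => t.tp x' y = ρ ∧ (t.lam y).1.1 = q)
      have h3 := ht.cnt x' ρ q
      have h4 : {y | c y = (ρ, q)} = {y : {y // y ≠ x'} | t.tp x' y.1 = ρ ∧ (t.lam y.1).1.1 = q} := by
        ext y
        exact Prod.ext_iff
      rw [h4, h2]
      exact h3
    have h5 : {y | c' y = (ρ, q)}.encard = cntT K F S₀ x ρ q := by
      have h2 := TRF_sub x (fun y => pt S₀ x y = ρ.1 ∧ tyc S₀ F y = q.1)
      have h4 : {y | c' y = (ρ, q)} =
          {y : {y // y ≠ x} | pt S₀ x y.1 = ρ.1 ∧ tyc S₀ F y.1 = q.1} := by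
        ext y
        refine Prod.ext_iff.trans ?_
        exact and_congr Subtype.ext_iff Subtype.ext_iff
      rw [h4, h2]
      rfl
    rw [h1, h5, hx]
  obtain ⟨e, he⟩ := exists_equiv_of_fibres c c' hfib
  obtain ⟨b, hb1, hb2⟩ := TRF_ext x' x e
  refine ⟨b, hb1, fun y hy => ?_⟩
  have h := he ⟨y, hy⟩
  have h1 := congrArg (fun p => (Prod.fst p).1) h
  have h2 := congrArg (fun p => (Prod.snd p).1) h
  rw [hb2 y hy]
  exact ⟨h1, h2⟩

private theorem TRF_two_eq {K : Set (L.Structure ℕ)} {F : ℕ → FC L 2}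
    (t : CStr (PTy K) (RTy K F) ℕ) (R : L.Relations 2) (v : Fin 2 → ℕ) (h : v 0 = v 1) :
    psiRel t 2 R v = (t.lam (v 0)).1.1.1 (.inr ⟨2, R, fun _ => 0⟩) := if_pos h

private theorem TRF_two_ne {K : Set (L.Structure ℕ)} {F : ℕ → FC L 2}
    (t : CStr (PTy K) (RTy K F) ℕ) (R : L.Relations 2) (v : Fin 2 → ℕ) (h : v 0 ≠ v 1) :
    psiRel t 2 R v = (t.tp (v 0) (v 1)).1 ⟨2, R, fun i => i⟩ := if_neg h

theorem thm_TRF (hTRC : St_TRC) : St_TRF := by
  intro L _ F h3 hF S₀ hS₀ t ht
  -- the points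
  have hπ : ∀ x', ∃ x, tyc S₀ F x = (t.lam x').1.1.1 ∧
      cntT (ModC (F 0)) F S₀ x = (t.lam x').1.2 := by
    intro x'
    have h1 := ht.cls (t.lam x')
    have h2 : {x | t.lam x = t.lam x'}.encard ≠ 0 := by
      rw [encard_ne_zero]
      exact ⟨x', rfl⟩
    rw [h1] at h2
    have h4 : {x | tyc S₀ F x = (t.lam x').1.1.1 ∧
        cntT (ModC (F 0)) F S₀ x = (t.lam x').1.2}.encard ≠ 0 := h2
    rw [encard_ne_zero] at h4
    exact h4
  choose π hπ1 hπ2 using hπ
  -- the bijections
  have hb : ∀ x', ∃ b : ℕ ≃ ℕ, b x' = π x' ∧ ∀ y, y ≠ x' →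
      pt S₀ (π x') (b y) = (t.tp x' y).1 ∧ tyc S₀ F (b y) = (t.lam y).1.1.1 :=
    fun x' => TRF_bij hS₀ ht x' (π x') (hπ2 x')
  -- labels
  have hlam : ∀ (x x₀ : ℕ), tyc S₀ F x₀ = (t.lam x).1.1.1 → ∀ (n : ℕ) (R : L.Relations n)
      (w : Fin n → Fin 2), (t.lam x).1.1.1 (.inr ⟨n, R, w⟩) = S₀.RelMap R (fun _ => x₀) := by
    intro x x₀ hx n R w
    rw [← hx]
    show S₀.RelMap R _ = S₀.RelMap R _
    congr 1
    funext i
    exact ite_self _
  -- the diagonal
  have hdiag : ∀ (x x₀ : ℕ), tyc S₀ F x₀ = (t.lam x).1.1.1 →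
      ∀ a, atm S₀ x₀ x₀ a ↔ atm (psi t) x x a := by
    rintro x x₀ hx ⟨n, R, w⟩
    apply iff_of_eq
    have h1 : atm S₀ x₀ x₀ ⟨n, R, w⟩ = S₀.RelMap R (fun _ => x₀) := by
      show S₀.RelMap R _ = S₀.RelMap R _
      congr 1
      funext i
      exact ite_self _
    rw [h1]
    match n, R, w with
    | 0, R, w =>
      show _ = (t.lam 0).1.1.1 (.inr ⟨0, R, fun _ => 0⟩)
      rw [hlam 0 (π 0) (hπ1 0)]
      congr 1
      funext i
      exact i.elim0
    | 1, R, w =>
      show _ = (t.lam (if w 0 = 0 then x else x)).1.1.1 (.inr ⟨1, R, fun _ => 0⟩)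
      rw [ite_self, hlam x x₀ hx]
    | 2, R, w =>
      have h2 := TRF_two_eq t R (fun i => if w i = 0 then x else x) (by simp)
      have h4 : (if w 0 = 0 then x else x) = x := ite_self _
      simp only [h4] at h2
      exact ((hlam x x₀ hx 2 R _).symm.trans h2.symm)
    | n + 3, R, w => exact ((h3 (n + 3) (by omega)).false R).elim
  -- pairs
  have hpt : ∀ x y, x ≠ y → pt (psi t) x y = (t.tp x y).1 := by
    intro x y hxy
    obtain ⟨b, hb1, hb2⟩ := hb x
    obtain ⟨hb3, hb4⟩ := hb2 y (Ne.symm hxy)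
    funext a
    obtain ⟨n, R, w⟩ := a
    match n, R, w with
    | 0, R, w =>
      show (t.lam 0).1.1.1 (.inr ⟨0, R, fun _ => 0⟩) = _
      rw [hlam 0 (π 0) (hπ1 0), ← hb3]
      show S₀.RelMap R _ = S₀.RelMap R _
      congr 1
      funext i
      exact i.elim0
    | 1, R, w =>
      show (t.lam (if w 0 = 0 then x else y)).1.1.1 (.inr ⟨1, R, fun _ => 0⟩) = _
      rw [← hb3]
      show _ = S₀.RelMap R (fun i => if w i = 0 then π x else b y)
      by_cases hw : w 0 = 0
      · rw [if_pos hw, hlam x (π x) (hπ1 x)]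
        congr 1
        funext i
        rw [Subsingleton.elim i 0, if_pos hw]
      · rw [if_neg hw, hlam y (b y) hb4]
        congr 1
        funext i
        rw [Subsingleton.elim i 0, if_neg hw]
    | 2, R, w =>
      show psiRel t 2 R (fun i => if w i = 0 then x else y) = _
      have h9 : (t.tp x y).1 ⟨2, R, w⟩ = S₀.RelMap R (fun i => if w i = 0 then π x else b y) := by
        rw [← hb3]
        rfl
      by_cases hw0 : w 0 = 0
      · by_cases hw1 : w 1 = 0
        · have h2 := TRF_two_eq t R (fun i => if w i = 0 then x else y) (by simp [hw0, hw1])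
          simp only [hw0, if_true] at h2
          refine h2.trans ((hlam x (π x) (hπ1 x) 2 R _).trans (Eq.trans ?_ h9.symm))
          congr 1
          funext i
          have hi : w i = 0 := by
            fin_cases i
            · exact hw0
            · exact hw1
          rw [if_pos hi]
        · have h2 := TRF_two_ne t R (fun i => if w i = 0 then x else y) (by simp [hw0, hw1, hxy])
          simp only [hw0, hw1, if_true, if_false] at h2
          refine h2.trans ?_
          have hw : (fun i => i) = w := by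
            funext i
            fin_cases i
            · exact hw0.symm
            · show (1 : Fin 2) = w 1
              omega
          rw [hw]
      · by_cases hw1 : w 1 = 0
        · have h2 := TRF_two_ne t R (fun i => if w i = 0 then x else y)
            (by simp [hw0, hw1, Ne.symm hxy])
          simp only [hw0, hw1, if_true, if_false] at h2
          refine h2.trans ?_
          have h5 : (t.tp y x).1 = swT (t.tp x y).1 := congrArg Subtype.val (ht.sym x y hxy)
          rw [h5]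
          show (t.tp x y).1 (swA ⟨2, R, fun i => i⟩) = _
          have h6 : (swA ⟨2, R, fun i => i⟩ : Atm L) = ⟨2, R, w⟩ := by
            unfold swA
            have hw : (fun i : Fin 2 => if i = 0 then (1 : Fin 2) else 0) = w := by
              funext i
              fin_cases i
              · show (1 : Fin 2) = w 0
                omega
              · exact hw1.symm
            simp only [hw]
          rw [h6]
        · have h2 := TRF_two_eq t R (fun i => if w i = 0 then x else y) (by simp [hw0, hw1])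
          simp only [hw0, if_false] at h2
          refine h2.trans ((hlam y (b y) hb4 2 R _).trans (Eq.trans ?_ h9.symm))
          congr 1
          funext i
          have hi : w i ≠ 0 := by
            fin_cases i
            · exact hw0
            · exact hw1
          rw [if_neg hi]
    | n + 3, R, w => exact ((h3 (n + 3) (by omega)).false R).elim
  -- the matching
  have hMat : MatC S₀ (psi t) F π := by
    intro x'
    obtain ⟨b, hb1, hb2⟩ := hb x'
    refine ⟨b, hb1, fun y' => ?_⟩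
    by_cases hy : y' = x'
    · subst hy
      rw [hb1]
      exact ⟨rfl, hdiag y' (π y') (hπ1 y')⟩
    · obtain ⟨h5, h6⟩ := hb2 y' hy
      refine ⟨h6.trans (hπ1 y').symm, fun a => ?_⟩
      have h7 : pt S₀ (π x') (b y') a = pt (psi t) x' y' a := by
        rw [h5, hpt x' y' (Ne.symm hy)]
      exact iff_of_eq h7
  obtain ⟨hty, hsat⟩ := hTRC L F ℕ ℕ S₀ (psi t) π hF hMat
  have hty' : ∀ x, tyc (psi t) F x = (t.lam x).1.1.1 := fun x => (hty x).trans (hπ1 x)
  refine ⟨hsat 0 hS₀, hpt, hty', fun x => ?_⟩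
  funext ρ q
  have h5 := ht.cnt x ρ q
  show {y | y ≠ x ∧ pt (psi t) x y = ρ.1 ∧ tyc (psi t) F y = q.1}.encard = _
  have h6 : {y | y ≠ x ∧ pt (psi t) x y = ρ.1 ∧ tyc (psi t) F y = q.1} =
      {y | y ≠ x ∧ t.tp x y = ρ ∧ (dat (ModC (F 0)) F S₀).pi (t.lam y) = q} := by
    ext y
    refine and_congr_right fun hy => ?_
    rw [hpt x y (Ne.symm hy), hty' y]
    exact and_congr Subtype.ext_iff.symm Subtype.ext_iff.symm
  rw [h6, h5]
  rfl

end CTQ
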