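import Pool.Agent.CTQ.StC

/-!
# CTQ: [TWO] infinitary logic with two variables and counting quantifiers
-/

set_option autoImplicit false
set_option linter.unusedVariables false

namespace CTQ

open FirstOrder Set Pool.Agent.Helper6.Str Pool.Agent.Helper5.Multi Pool.Agent.Helper79.VC
open VPF (Atm atm)

private theorem TWO_map {L : FirstOrder.Language.{0, 0}} {M : Type} (S : L.Structure M)
    {k l : ℕ} (ι : Fin k → Fin l) (hι : Function.Injective ι) :
    ∀ (φ : FC L k) (v : Fin l → M), (FC.map ι φ).Sat S v ↔ φ.Sat S (v ∘ ι)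
  | .eq i j, v => Iff.rfl
  | .rel R w, v => Iff.rfl
  | .neg φ, v => not_congr (TWO_map S ι hι φ v)
  | .conj φ, v => forall_congr' fun m => TWO_map S ι hι (φ m) v
  | .ge n i φ, v => by
    have h : {a : M | (FC.map ι φ).Sat S (Function.update v (ι i) a)} =
        {a : M | φ.Sat S (Function.update (v ∘ ι) i a)} := by
      ext a
      show (FC.map ι φ).Sat S (Function.update v (ι i) a) ↔
        φ.Sat S (Function.update (v ∘ ι) i a)
      rw [TWO_map S ι hι φ, Function.update_comp_eq_of_injective v hι i a]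
    show (n : ℕ∞) ≤ {a : M | (FC.map ι φ).Sat S (Function.update v (ι i) a)}.encard ↔
      (n : ℕ∞) ≤ {a : M | φ.Sat S (Function.update (v ∘ ι) i a)}.encard
    rw [h]

private theorem TWO_mod {L : FirstOrder.Language.{0, 0}} {k : ℕ} (hk : k ≤ 2) (φ : FC L k) :
    ModC (FC.map (Fin.castLE hk) φ) = ModC φ := by
  have hι : Function.Injective (Fin.castLE hk) := Fin.castLE_injective hk
  ext S
  refine ⟨fun h v => ?_, fun h v => (TWO_map S _ hι φ v).2 (h _)⟩
  have h1 := (TWO_map S _ hι φ (fun j : Fin 2 => if h : (j : ℕ) < k then v ⟨j, h⟩ else 0)).1 (h _)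
  have h2 : (fun j : Fin 2 => if h : (j : ℕ) < k then v ⟨j, h⟩ else 0) ∘ Fin.castLE hk = v := by
    funext i
    show (if h : ((Fin.castLE hk i : Fin 2) : ℕ) < k then v ⟨(Fin.castLE hk i : Fin 2), h⟩ else 0) =
      v i
    rw [dif_pos (show ((Fin.castLE hk i : Fin 2) : ℕ) < k from i.2)]
    rfl
  rw [h2] at h1
  exact h1

/-- TWO: infinitary logic with two variables and counting quantifiers. -/
theorem thm_TWO (hSBC : St_SBC) (hARC : St_ARC) (hRED : St_RED) : St_TWO := by
  intro L _ _ k φ hk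
  rw [← TWO_mod hk φ]
  obtain ⟨ψ, hψ⟩ : ∃ ψ : FC L 2, ψ = FC.map (Fin.castLE hk) φ := ⟨_, rfl⟩
  rw [← hψ]
  rcases (ModC ψ).eq_empty_or_nonempty with h0 | h0
  · left
    refine ⟨fun _ => toStr fun _ => false, fun S hS => ?_⟩
    rw [h0] at hS
    exact absurd hS (Set.notMem_empty S)
  · by_cases h1 : ∃ (n : ℕ) (_ : L.Relations n), 3 ≤ n
    · obtain ⟨n, R0, hn⟩ := h1
      exact Or.inr (hARC L ψ n R0 hn h0)
    · have h2 : ∀ n, 3 ≤ n → IsEmpty (L.Relations n) := fun n hn =>
        ⟨fun R => h1 ⟨n, R, hn⟩⟩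
      obtain ⟨F, hF, hF0⟩ := hSBC L 2 ψ
      have h3 := hRED L F h2 hF
      rw [hF0] at h3
      exact h3

end CTQ
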