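import Pool.Agent.CTQ.HAL
import Pool.Agent.CTQ.TRD
import Pool.Agent.CTQ.SEQ
import Pool.Agent.CTQ.TOG
import Pool.Agent.CTQ.LMQ
import Pool.Agent.CTQ.FIN
import Pool.Agent.CTQ.FIR
import Pool.Agent.CTQ.CLN
import Pool.Agent.CTQ.TAU
import Pool.Agent.CTQ.MEC
import Pool.Agent.CTQ.KON
import Pool.Agent.CTQ.KOC
import Pool.Agent.CTQ.FRB
import Pool.Agent.CTQ.FRC
import Pool.Agent.CTQ.FRD
import Pool.Agent.CTQ.FRM
import Pool.Agent.CTQ.DCM
import Pool.Agent.CTQ.COR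
import Pool.Agent.CTQ.SBC
import Pool.Agent.CTQ.MSC
import Pool.Agent.CTQ.IVC
import Pool.Agent.CTQ.TRC
import Pool.Agent.CTQ.ARC
import Pool.Agent.CTQ.LBL
import Pool.Agent.CTQ.TRF
import Pool.Agent.CTQ.RED
import Pool.Agent.CTQ.TWO

/-!
# CTQ: the combinatorial theorem and Vaught's conjecture for two variables with counting
-/

set_option autoImplicit false

namespace CTQ

theorem all_COR : St_COR :=
  thm_COR (thm_LMQ (thm_SEQ (thm_TRD thm_HAL)) thm_TOG) thm_FIN thm_FIR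
    (thm_TAU (thm_CLN thm_FIN)) (thm_KOC thm_MEC thm_KON thm_FIN thm_FIR)
    (thm_FRM thm_FRB (thm_FRC thm_FIR) thm_FRD) (thm_DCM thm_FIN)

theorem all_TWO : St_TWO :=
  thm_TWO thm_SBC thm_ARC
    (thm_RED all_COR (thm_LBL thm_MSC thm_IVC) (thm_TRF thm_TRC) thm_IVC)

end CTQ
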