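import Pool.Agent.CTQ.StB

/-!
# CTQ, module COR: the combinatorial theorem (assembly)
-/

set_option autoImplicit false

namespace CTQ

open FirstOrder Set Pool.Agent.Helper6.Str Pool.Agent.Helper5.Multi Pool.Agent.Helper79.VC

private theorem COR_KF_sub {P Q R : Type} {D : CData P Q R} {τ : R → R → P} {Ft : Type}
    {sF : CStr P R Ft} {o : R → ℕ∞} : KF D τ sF o ⊆ KC D := by
  rintro S ⟨I, _, p, h1, h2⟩
  exact mem_KC h1.1 h2

private theorem COR_Fp {P Q R : Type} {D : CData P Q R} (hFIN : St_FIN) (hFIR : St_FIR)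
    {s : CStr P R ℕ} (hs : IsC D s) (hN : NQ D s) : Fp D (s.restr (Fp D s)) = univ := by
  have h1 := hFIR P Q R (Fp D s) ℕ D (s.restr (Fp D s)) s Subtype.val
    Subtype.val_injective (fun _ => rfl) (fun _ _ _ => rfl)
    (fun x y' h => by
      rw [Subtype.range_val]
      exact Fp_closed x.2 h)
    (fun y' hy' => by
      rw [Subtype.range_val] at hy'
      exact (hFIN P Q R ℕ D s hs hN).2 y' hy')
  rw [eq_univ_iff_forall]
  intro x
  have h2 : x.1 ∈ Subtype.val '' Fp D (s.restr (Fp D s)) := by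
    rw [← h1.2]
    exact x.2
  obtain ⟨y, hy, hyx⟩ := h2
  have h3 : y = x := Subtype.ext hyx
  rw [← h3]
  exact hy

theorem thm_COR (hLMQ : St_LMQ) (hFIN : St_FIN) (hFIR : St_FIR) (hTAU : St_TAU)
    (hKOC : St_KOC) (hFRM : St_FRM) (hDCM : St_DCM) : St_COR := by
  intro P Q R _ _ _ D
  by_cases hP : PerfK (KC D)
  · exact Or.inr hP
  left
  by_cases hne : ∃ s₀ : CStr P R ℕ, IsC D s₀
  · obtain ⟨s₀, hs₀⟩ := hne
    have hQ : NoQ D := by
      intro s hs m n x hm hn hII hx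
      by_contra hinf
      exact hP (hLMQ P Q R D s m n x hs hm hn hII hx hinf)
    obtain ⟨τ, hτ⟩ := hTAU P Q R D s₀ hQ hP
    obtain ⟨σ, hσ, hall⟩ := hKOC P Q R D s₀ hs₀ hQ hP
    have hC : ∀ k : ℕ, CtblK (KF D τ ((σ k).restr (Fp D (σ k))) (outC D (σ k))) := by
      intro k
      rcases hFRM P Q R (Fp D (σ k)) D τ ((σ k).restr (Fp D (σ k))) (outC D (σ k)) hτ
        (COR_Fp hFIN hFIR (hσ k) (hQ (σ k) (hσ k))) with h | h
      · exact h
      · obtain ⟨f, h1, h2⟩ := h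
        exact absurd ⟨f, fun x => COR_KF_sub (h1 x), h2⟩ hP
    choose g hg using hC
    refine ⟨fun n => g (Nat.unpair n).1 (Nat.unpair n).2, ?_⟩
    rintro S ⟨s, hs, rfl⟩
    obtain ⟨k, ⟨e, he⟩, ho⟩ := hall s hs
    obtain ⟨n, hn⟩ := hg k s.toL (hDCM P Q R D τ hQ hτ s (σ k) hs (hσ k) e he ho)
    refine ⟨Nat.pair k n, ?_⟩
    simp only [Nat.unpair_pair]
    exact hn
  · refine ⟨fun _ => (⟨fun f => (f : Empty).elim, fun _ _ => False⟩ : (LC P R).Structure ℕ), ?_⟩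
    rintro S ⟨s, hs, _⟩
    exact absurd ⟨s, hs⟩ hne

end CTQ
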