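import Pool.Agent.VPF.DefsA

/-!
# Two-variable infinitary logic with counting: definitions

* `FC L k`: formulas of infinitary logic with `k` variables (which may be reused), countable
  conjunctions and counting quantifiers `ge n i φ` (at least `n` elements `x_i` with `φ`).
* `CData P Q R`, `CStr P R V`, `IsC D s`: the combinatorial form. A structure is a labelling
  `lam : V → R` and a type `tp x y : P` for every pair `x ≠ y`; the data prescribe the sizes of the
  label classes (`u`) and, for every point `x`, the number of `y ≠ x` with a given type `tp x y` and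
  a given coarse label `pi (lam y)` (`D`).
* `LC P R`, `CStr.toL`, `KC D`: the same as relational structures on `ℕ`.
-/

set_option autoImplicit false

namespace CTQ

open FirstOrder Set Pool.Agent.Helper6.Str Pool.Agent.Helper5.Multi Pool.Agent.Helper79.VC
open VPF (Atm atm)

variable {L : FirstOrder.Language.{0, 0}} {M N : Type}

/-! ### Logic -/

/-- Formulas of infinitary logic with `k` variables and counting quantifiers. -/
inductive FC (L : FirstOrder.Language.{0, 0}) (k : ℕ) : Type
  | eq (i j : Fin k) : FC L k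
  | rel {n : ℕ} (R : L.Relations n) (w : Fin n → Fin k) : FC L k
  | neg (φ : FC L k) : FC L k
  | conj (φ : ℕ → FC L k) : FC L k
  | ge (n : ℕ) (i : Fin k) (φ : FC L k) : FC L k

/-- Truth of a formula in the structure `S` under the assignment `v`; `ge n i φ` says that there
are at least `n` elements `a` such that `φ` is true with `x_i = a`. -/
def FC.Sat {k : ℕ} (S : L.Structure M) : FC L k → (Fin k → M) → Prop
  | .eq i j, v => v i = v j
  | .rel R w, v => S.RelMap R (fun i => v (w i))
  | .neg φ, v => ¬ FC.Sat S φ v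
  | .conj φ, v => ∀ m, FC.Sat S (φ m) v
  | .ge n i φ, v => (n : ℕ∞) ≤ {a : M | FC.Sat S φ (Function.update v i a)}.encard

/-- The structures on `ℕ` in which `φ` is true under all assignments. -/
def ModC {k : ℕ} (φ : FC L k) : Set (L.Structure ℕ) := {S | ∀ v : Fin k → ℕ, φ.Sat S v}

/-- `ψ` is an immediate subformula of `φ`. -/
inductive SubC1 {k : ℕ} : FC L k → FC L k → Prop
  | neg (φ : FC L k) : SubC1 φ (.neg φ)
  | conj (φ : ℕ → FC L k) (m : ℕ) : SubC1 (φ m) (.conj φ)
  | ge (n : ℕ) (i : Fin k) (φ : FC L k) : SubC1 φ (.ge n i φ)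

/-- The formulas `F 0, F 1, ...` are closed under immediate subformulas. -/
def ClsC {k : ℕ} (F : ℕ → FC L k) : Prop := ∀ m ψ, SubC1 ψ (F m) → ∃ m', F m' = ψ

/-- The `F`-type of a point: the truth values of `F m` at `(x, x)` and the atomic type. -/
def tyc (S : L.Structure M) (F : ℕ → FC L 2) (x : M) : ℕ ⊕ Atm L → Prop
  | .inl m => (F m).Sat S (fun _ => x)
  | .inr a => atm S x x a

/-- The atomic type of a pair. -/
def pt (S : L.Structure M) (x y : M) : Atm L → Prop := fun a => atm S x y a

/-- The atomic formula with the two variables exchanged. -/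
def swA (a : Atm L) : Atm L := ⟨a.1, a.2.1, fun i => if a.2.2 i = 0 then 1 else 0⟩

/-- The atomic type with the two variables exchanged. -/
def swT (q : Atm L → Prop) : Atm L → Prop := fun a => q (swA a)

/-- Matching of the counting types of `N` (given by `π : N → M`) with those of `M`. -/
def MatC (S : L.Structure M) (S' : L.Structure N) (F : ℕ → FC L 2) (π : N → M) : Prop :=
  ∀ x' : N, ∃ b : N ≃ M, b x' = π x' ∧
    ∀ y', tyc S F (b y') = tyc S F (π y') ∧ ∀ a, atm S (π x') (b y') a ↔ atm S' x' y' a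

/-! ### Combinatorial form -/

/-- Prescribed numbers: `inv` is the exchange of the two points of a pair, `pi` the coarse label of
a label, `D m ρ q` the number of `y ≠ x` with `tp x y = ρ` and coarse label `q`, for `x` with label
`m`, and `u m` the number of points with label `m`. -/
structure CData (P Q R : Type) where
  inv : P → P
  inv_inv : ∀ ρ, inv (inv ρ) = ρ
  pi : R → Q
  D : R → P → Q → ℕ∞
  u : R → ℕ∞

/-- A labelling of the points and of the pairs (`tp x x` has no meaning). -/
structure CStr (P R V : Type) where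
  lam : V → R
  tp : V → V → P

variable {P Q R V V' : Type}

/-- The structure has the prescribed numbers. -/
structure IsC (D : CData P Q R) (s : CStr P R V) : Prop where
  sym : ∀ x y, x ≠ y → s.tp y x = D.inv (s.tp x y)
  cls : ∀ m, {x | s.lam x = m}.encard = D.u m
  cnt : ∀ x ρ q, {y | y ≠ x ∧ s.tp x y = ρ ∧ D.pi (s.lam y) = q}.encard = D.D (s.lam x) ρ q

/-- Isomorphisms of labelled structures. -/
def CIso (s : CStr P R V) (s' : CStr P R V') (e : V ≃ V') : Prop :=
  (∀ x, s'.lam (e x) = s.lam x) ∧ ∀ x y, x ≠ y → s'.tp (e x) (e y) = s.tp x y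

/-- The relation symbols: unary ones for the labels, binary ones for the types of pairs. -/
def LCRel (P R : Type) : ℕ → Type
  | 0 => Empty
  | 1 => R
  | 2 => P
  | _ + 3 => Empty

/-- The language of labelled structures. -/
def LC (P R : Type) : FirstOrder.Language.{0, 0} := ⟨fun _ => Empty, LCRel P R⟩

instance instLCFun (n : ℕ) : IsEmpty ((LC P R).Functions n) := inferInstanceAs (IsEmpty Empty)

instance instLCRel [Countable P] [Countable R] (n : ℕ) : Countable ((LC P R).Relations n) :=
  match n with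
  | 0 => inferInstanceAs (Countable Empty)
  | 1 => inferInstanceAs (Countable R)
  | 2 => inferInstanceAs (Countable P)
  | _ + 3 => inferInstanceAs (Countable Empty)

/-- The relations of a labelled structure. -/
def CStr.rel (s : CStr P R V) : (n : ℕ) → LCRel P R n → (Fin n → V) → Prop
  | 0, _, _ => False
  | 1, m, v => s.lam (v 0) = m
  | 2, ρ, v => v 0 ≠ v 1 ∧ s.tp (v 0) (v 1) = ρ
  | _ + 3, _, _ => False

/-- The labelled structure as a relational structure. -/
@[instance_reducible]
def CStr.toL (s : CStr P R V) : (LC P R).Structure V where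
  funMap := fun f _ => (f : Empty).elim
  RelMap := fun {n} r v => s.rel n r v

/-- The structures on `ℕ` with the prescribed numbers. -/
def KC (D : CData P Q R) : Set ((LC P R).Structure ℕ) :=
  {S | ∃ s : CStr P R ℕ, IsC D s ∧ S = s.toL}

/-- `x → y`: the number prescribed for the type of `(x, y)` and the coarse label of `y` is
finite. -/
def Arr (D : CData P Q R) (s : CStr P R V) (x y : V) : Prop :=
  y ≠ x ∧ D.D (s.lam x) (s.tp x y) (D.pi (s.lam y)) ≠ ⊤

/-- The types which are infinite from both sides. -/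
def II (D : CData P Q R) (m n : R) : Set P :=
  {ρ | D.D m ρ (D.pi n) = ⊤ ∧ D.D n (D.inv ρ) (D.pi m) = ⊤}

/-- Basic definable sets. -/
def G0 (D : CData P Q R) (s : CStr P R V) : R ⊕ (R × R × ℕ) → Set V
  | .inl m => {x | s.lam x = m ∧ D.u m ≠ ⊤}
  | .inr (m, n, r) => {x | s.lam x = m ∧ D.u m = ⊤ ∧ D.u n = ⊤ ∧ II D m n = ∅ ∧
      {y | s.lam y = n ∧ Arr D s x y}.encard = (r : ℕ∞)}

/-- Definable sets, given by a basic set and a list of steps. -/
def G1 (D : CData P Q R) (s : CStr P R V) (b : R ⊕ (R × R × ℕ)) : List (R × P × R) → Set V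
  | [] => G0 D s b
  | t :: l => {z | ∃ y ∈ G1 D s b l, s.lam y = t.1 ∧ z ≠ y ∧ s.tp y z = t.2.1 ∧ s.lam z = t.2.2 ∧
      D.D t.1 t.2.1 (D.pi t.2.2) ≠ ⊤}

/-- The words which denote definable sets. -/
abbrev Wd (P R : Type) : Type := (R ⊕ (R × R × ℕ)) × List (R × P × R)

/-- The definable set of a word. -/
def G (D : CData P Q R) (s : CStr P R V) (w : Wd P R) : Set V := G1 D s w.1 w.2

/-- The algebraic part of a labelled structure. -/
def Fp (D : CData P Q R) (s : CStr P R V) : Set V := {x | ∃ w, x ∈ G D s w}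

/-- The out-degrees between infinite label classes without a type infinite from both sides are
finite. -/
def NQ (D : CData P Q R) (s : CStr P R V) : Prop :=
  ∀ m n x, D.u m = ⊤ → D.u n = ⊤ → II D m n = ∅ → s.lam x = m →
    {y | s.lam y = n ∧ Arr D s x y}.Finite

/-- `NQ` holds for all structures on `ℕ` with the prescribed numbers. -/
def NoQ (D : CData P Q R) : Prop := ∀ s : CStr P R ℕ, IsC D s → NQ D s

/-- Free labels. -/
def Fr (D : CData P Q R) (m : R) : Prop :=
  D.u m = ⊤ ∧ ∀ n, D.u n = ⊤ → (II D m n).Nonempty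

/-- Free labels which occur outside the algebraic part. -/
def Oc (D : CData P Q R) (m : R) : Prop :=
  Fr D m ∧ ∃ s : CStr P R ℕ, IsC D s ∧ ∃ x, x ∉ Fp D s ∧ s.lam x = m

/-- A symmetric choice of default types. -/
def IsTau (D : CData P Q R) (τ : R → R → P) : Prop :=
  ∀ m n, Oc D m → Oc D n → τ m n ∈ II D m n ∧ τ n m = D.inv (τ m n)

/-- The induced structure on a subset. -/
def CStr.restr (s : CStr P R V) (A : Set V) : CStr P R A where
  lam := fun x => s.lam x.1
  tp := fun x y => s.tp x.1 y.1

/-- The number of points with label `m` outside the algebraic part. -/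
noncomputable def outC (D : CData P Q R) (s : CStr P R V) (m : R) : ℕ∞ :=
  {x | x ∉ Fp D s ∧ s.lam x = m}.encard

/-! ### Pieces -/

/-- A piece over the algebraic part `sF`: a connected structure on a subset `el` of `ℕ` with its
types over `sF`. -/
structure Piece (D : CData P Q R) (τ : R → R → P) {Ft : Type} (sF : CStr P R Ft)
    (o : R → ℕ∞) : Type where
  el : Set ℕ
  lam : ℕ → R
  tp : ℕ → ℕ → P
  fr : ℕ → Ft → P
  ne : el.Nonempty
  free : ∀ x ∈ el, Oc D (lam x)
  sym : ∀ x ∈ el, ∀ y ∈ el, x ≠ y → tp y x = D.inv (tp x y)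
  finF : ∀ x ∈ el, ∀ f, D.D (sF.lam f) (D.inv (fr x f)) (D.pi (lam x)) = ⊤
  finC : ∀ x ∈ el, ∀ ρ q, D.D (lam x) ρ q ≠ ⊤ →
    {f | fr x f = ρ ∧ D.pi (sF.lam f) = q}.encard +
      {y | y ∈ el ∧ y ≠ x ∧ tp x y = ρ ∧ D.pi (lam y) = q}.encard = D.D (lam x) ρ q
  infC : ∀ x ∈ el, ∀ ρ q, D.D (lam x) ρ q = ⊤ →
    {f | fr x f = ρ ∧ D.pi (sF.lam f) = q}.encard +
      {y | y ∈ el ∧ y ≠ x ∧ tp x y = ρ ∧ D.pi (lam y) = q}.encard = ⊤ ∨
    {p : R × ℕ | (p.2 : ℕ∞) < o p.1 ∧ D.pi p.1 = q ∧ τ (lam x) p.1 = ρ}.Infinite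
  conn : ∀ x ∈ el, ∀ y ∈ el,
    Relation.ReflTransGen (fun a b => b ∈ el ∧ a ≠ b ∧ tp a b ≠ τ (lam a) (lam b)) x y

variable {D : CData P Q R} {τ : R → R → P} {Ft : Type} {sF : CStr P R Ft} {o : R → ℕ∞}

open Classical in
/-- The free union of a family of pieces over the algebraic part. -/
noncomputable def asmC {I : Type} (p : I → Piece D τ sF o) :
    CStr P R (Pos Ft Piece.el p) where
  lam := fun a => match a with
    | .inl f => sF.lam f
    | .inr x => (p x.1.1).lam x.1.2
  tp := fun a b => match a, b with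
    | .inl f, .inl g => sF.tp f g
    | .inl f, .inr y => D.inv ((p y.1.1).fr y.1.2 f)
    | .inr x, .inl g => (p x.1.1).fr x.1.2 g
    | .inr x, .inr y => if x.1.1 = y.1.1 then (p x.1.1).tp x.1.2 y.1.2
        else τ ((p x.1.1).lam x.1.2) ((p y.1.1).lam y.1.2)

/-- Admissible families of pieces. -/
def MdC {I : Type} (p : I → Piece D τ sF o) : Prop :=
  IsC D (asmC p) ∧ Infinite (Pos Ft Piece.el p) ∧
    ∀ m, o m ≤ {x : {x : I × ℕ // x.2 ∈ (p x.1).el} | (p x.1.1).lam x.1.2 = m}.encard

/-- Isomorphism of pieces over `sF`. -/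
def PIso (p q : Piece D τ sF o) : Prop :=
  ∃ e : p.el ≃ q.el, (∀ x, q.lam (e x) = p.lam x) ∧
    (∀ x y, x ≠ y → q.tp (e x) (e y) = p.tp x y) ∧ ∀ x f, q.fr (e x) f = p.fr x f

/-- The class of structures with algebraic part `sF` and at least `o m` points of label `m`
outside. -/
def KF (D : CData P Q R) (τ : R → R → P) {Ft : Type} (sF : CStr P R Ft) (o : R → ℕ∞) :
    Set ((LC P R).Structure ℕ) :=
  {S | ∃ (I : Type) (_ : Countable I) (p : I → Piece D τ sF o), MdC p ∧ Iso (asmC p).toL S}

end CTQ
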