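import Pool.Agent.CTQ.BAS

/-!
# CTQ, definitions for statements B
-/

set_option autoImplicit false

namespace CTQ

open FirstOrder Set Pool.Agent.Helper6.Str Pool.Agent.Helper5.Multi Pool.Agent.Helper79.VC

variable {P Q R V V' : Type}

open Classical in
/-- The labelled structure of a relational structure; `r0`, `p0` are the values where the relations
are not as they should be. -/
noncomputable def ofL (r0 : R) (p0 : P) (S : (LC P R).Structure V) : CStr P R V where
  lam := fun x => if h : ∃! m : R, S.RelMap (n := 1) (m : LCRel P R 1) (fun _ => x)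
    then h.choose else r0
  tp := fun x y => if h : ∃! ρ : P, S.RelMap (n := 2) (ρ : LCRel P R 2) ![x, y]
    then h.choose else p0

/-- The unions of the first `k` definable sets are isomorphic. -/
def Apx (D : CData P Q R) (s : CStr P R V) (s' : CStr P R V') (w : ℕ → Wd P R) (k : ℕ) : Prop :=
  ∃ e : {x // ∃ i < k, x ∈ G D s (w i)} ≃ {x // ∃ i < k, x ∈ G D s' (w i)},
    (∀ x, s'.lam (e x).1 = s.lam x.1) ∧
    (∀ x y, x ≠ y → s'.tp (e x).1 (e y).1 = s.tp x.1 y.1) ∧
    ∀ x, ∀ i < k, ((e x).1 ∈ G D s' (w i) ↔ x.1 ∈ G D s (w i))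

open Classical in
theorem asmC_posMap {D : CData P Q R} {τ : R → R → P} {Ft : Type} {sF : CStr P R Ft} {o : R → ℕ∞}
    {I I' : Type} {p : I → Piece D τ sF o} {p' : I' → Piece D τ sF o} (j : I → I')
    (hj : ∀ i, p' (j i) = p i) (hinj : Function.Injective j) :
    (∀ a, (asmC p').lam (posMap j hj a) = (asmC p).lam a) ∧
      ∀ a b, (asmC p').tp (posMap j hj a) (posMap j hj b) = (asmC p).tp a b := by
  constructor
  · rintro (f | x)
    · rfl
    · show (p' (j x.1.1)).lam x.1.2 = (p x.1.1).lam x.1.2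
      rw [hj]
  · rintro (f | x) (g | y)
    · rfl
    · show D.inv ((p' (j y.1.1)).fr y.1.2 f) = D.inv ((p y.1.1).fr y.1.2 f)
      rw [hj]
    · show (p' (j x.1.1)).fr x.1.2 g = (p x.1.1).fr x.1.2 g
      rw [hj]
    · show (if j x.1.1 = j y.1.1 then (p' (j x.1.1)).tp x.1.2 y.1.2
        else τ ((p' (j x.1.1)).lam x.1.2) ((p' (j y.1.1)).lam y.1.2)) =
        if x.1.1 = y.1.1 then (p x.1.1).tp x.1.2 y.1.2
        else τ ((p x.1.1).lam x.1.2) ((p y.1.1).lam y.1.2)
      rw [hj, hj]
      by_cases h : x.1.1 = y.1.1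
      · rw [if_pos h, if_pos (congrArg j h)]
      · rw [if_neg h, if_neg (fun h' => h (hinj h'))]

end CTQ
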