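import Pool.Agent.CTQ.BAS

/-!
# CTQ, definitions for statements C: from formulas to prescribed numbers
-/

set_option autoImplicit false

namespace CTQ

open FirstOrder Set Pool.Agent.Helper6.Str Pool.Agent.Helper5.Multi Pool.Agent.Helper79.VC
open VPF (Atm atm)

variable {L : FirstOrder.Language.{0, 0}} {M : Type}

theorem swA_swA (a : Atm L) : swA (swA a) = a := by
  obtain ⟨n, R, w⟩ := a
  unfold swA
  have h : (fun i => if (if w i = 0 then (1 : Fin 2) else 0) = 0 then (1 : Fin 2) else 0) = w := by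
    funext i
    by_cases hi : w i = 0
    · simp [hi]
    · have : w i = 1 := by omega
      simp [this]
  simp only [h]

theorem swT_swT (q : Atm L → Prop) : swT (swT q) = q := by
  funext a
  show q (swA (swA a)) = q a
  rw [swA_swA]

theorem swT_pt (S : L.Structure M) (x y : M) : swT (pt S x y) = pt S y x := by
  funext a
  obtain ⟨n, R, w⟩ := a
  have h : (fun i => if (if w i = 0 then (1 : Fin 2) else 0) = 0 then x else y) =
      fun i => if w i = 0 then y else x := by
    funext i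
    by_cases hi : w i = 0
    · simp [hi]
    · simp [hi]
  show S.RelMap R _ = S.RelMap R _
  exact congrArg (S.RelMap R) h

/-- The atomic types of pairs which occur in `K`. -/
def PTy (K : Set (L.Structure ℕ)) : Type := {q : Atm L → Prop // ∃ S ∈ K, ∃ x y, q = pt S x y}

/-- The types of points which occur in `K`. -/
def QTy (K : Set (L.Structure ℕ)) (F : ℕ → FC L 2) : Type :=
  {q : ℕ ⊕ Atm L → Prop // ∃ S ∈ K, ∃ x, q = tyc S F x}

/-- The numbers of a point. -/
noncomputable def cntT (K : Set (L.Structure ℕ)) (F : ℕ → FC L 2) (S : L.Structure ℕ) (x : ℕ) :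
    PTy K → QTy K F → ℕ∞ :=
  fun ρ q => {y | y ≠ x ∧ pt S x y = ρ.1 ∧ tyc S F y = q.1}.encard

/-- The full labels which occur in `K`. -/
def RTy (K : Set (L.Structure ℕ)) (F : ℕ → FC L 2) : Type :=
  {r : QTy K F × (PTy K → QTy K F → ℕ∞) //
    ∃ S ∈ K, ∃ x, r.1.1 = tyc S F x ∧ r.2 = cntT K F S x}

/-- The exchange of the two points of a pair. -/
def invT {K : Set (L.Structure ℕ)} (q : PTy K) : PTy K :=
  ⟨swT q.1, by
    obtain ⟨q, S, hS, x, y, rfl⟩ := q
    exact ⟨S, hS, y, x, swT_pt S x y⟩⟩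

/-- The numbers of a structure. -/
noncomputable def dat (K : Set (L.Structure ℕ)) (F : ℕ → FC L 2) (S₀ : L.Structure ℕ) :
    CData (PTy K) (QTy K F) (RTy K F) where
  inv := invT
  inv_inv := fun ρ => Subtype.ext (swT_swT ρ.1)
  pi := fun r => r.1.1
  D := fun r ρ q => r.1.2 ρ q
  u := fun r => {x | tyc S₀ F x = r.1.1.1 ∧ cntT K F S₀ x = r.1.2}.encard

/-- The labelled structure of a structure in `K`. -/
noncomputable def cs {K : Set (L.Structure ℕ)} (F : ℕ → FC L 2) {S : L.Structure ℕ} (hS : S ∈ K) :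
    CStr (PTy K) (RTy K F) ℕ where
  lam := fun x => ⟨(⟨tyc S F x, S, hS, x, rfl⟩, cntT K F S x), S, hS, x, rfl, rfl⟩
  tp := fun x y => ⟨pt S x y, S, hS, x, y, rfl⟩

open Classical in
/-- The relations of the structure given by labels and types of pairs. -/
noncomputable def psiRel {K : Set (L.Structure ℕ)} {F : ℕ → FC L 2} (t : CStr (PTy K) (RTy K F) ℕ) :
    (n : ℕ) → L.Relations n → (Fin n → ℕ) → Prop
  | 0, R, _ => (t.lam 0).1.1.1 (.inr ⟨0, R, fun _ => 0⟩)
  | 1, R, v => (t.lam (v 0)).1.1.1 (.inr ⟨1, R, fun _ => 0⟩)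
  | 2, R, v => if v 0 = v 1 then (t.lam (v 0)).1.1.1 (.inr ⟨2, R, fun _ => 0⟩)
      else (t.tp (v 0) (v 1)).1 ⟨2, R, fun i => i⟩
  | _ + 3, _, _ => False

/-- The structure given by labels and types of pairs. -/
@[instance_reducible]
noncomputable def psi [∀ n, IsEmpty (L.Functions n)] {K : Set (L.Structure ℕ)} {F : ℕ → FC L 2}
    (t : CStr (PTy K) (RTy K F) ℕ) : L.Structure ℕ where
  funMap := fun {n} f => (isEmptyElim f : (Fin n → ℕ) → ℕ)
  RelMap := fun {n} R v => psiRel t n R v

/-- Renaming of variables. -/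
def FC.map {k l : ℕ} (ι : Fin k → Fin l) : FC L k → FC L l
  | .eq i j => .eq (ι i) (ι j)
  | .rel R w => .rel R (fun i => ι (w i))
  | .neg φ => .neg (FC.map ι φ)
  | .conj φ => .conj (fun m => FC.map ι (φ m))
  | .ge n i φ => .ge n (ι i) (FC.map ι φ)

/-- Renaming of variables (without counting). -/
def mapV {k l : ℕ} (ι : Fin k → Fin l) : VPF.FV L k → VPF.FV L l
  | .eq i j => .eq (ι i) (ι j)
  | .rel R w => .rel R (fun i => ι (w i))
  | .neg φ => .neg (mapV ι φ)
  | .conj φ => .conj (fun m => mapV ι (φ m))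
  | .ex i φ => .ex (ι i) (mapV ι φ)

end CTQ
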