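import Pool.Agent.VB.A

/-!
# Infinitary formulas with blocks of counting quantifiers, guards (helper97)

* `FG L V`: formulas of infinitary logic with the variables in `V`, countable conjunctions and
  counting quantifiers `ge m I φ` for finite sets `I` of variables (at least `m` tuples).
* `fv`: the free variables.
* `Gd k φ`: every quantified subformula is guarded (its matrix is a conjunction, one member of which
  is an atom `R(w)` with all its variables), or has at most `k` variables, free or quantified.
-/

set_option autoImplicit false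

namespace CTQ

open FirstOrder Set

/-- Formulas of infinitary logic with variables in `V` and counting quantifiers for blocks. -/
inductive FG (L : FirstOrder.Language.{0, 0}) (V : Type) : Type
  | eq (i j : V) : FG L V
  | rel {n : ℕ} (R : L.Relations n) (w : Fin n → V) : FG L V
  | neg (φ : FG L V) : FG L V
  | conj (φ : ℕ → FG L V) : FG L V
  | ge (m : ℕ) (I : Finset V) (φ : FG L V) : FG L V

namespace FG

variable {L : FirstOrder.Language.{0, 0}} {V M N : Type}

/-- Truth in the structure `S` under the assignment `v`; `ge m I φ` says that at least `m`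
assignments which agree with `v` outside `I` satisfy `φ`. -/
noncomputable def Sat (S : L.Structure M) (φ : FG L V) : (V → M) → Prop :=
  FG.rec (motive := fun _ => (V → M) → Prop)
    (fun i j v => v i = v j)
    (fun R w v => S.RelMap R (fun i => v (w i)))
    (fun _ ih v => ¬ ih v)
    (fun _ ih v => ∀ m, ih m v)
    (fun m I _ ih v => (m : ℕ∞) ≤ {u : V → M | (∀ j, j ∉ I → u j = v j) ∧ ih u}.encard)
    φ

/-- The free variables. -/
noncomputable def fv (φ : FG L V) : Set V :=
  FG.rec (motive := fun _ => Set V)
    (fun i j => {i, j})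
    (fun _ w => range w)
    (fun _ ih => ih)
    (fun _ ih => ⋃ m, ih m)
    (fun _ I _ ih => ih \ (I : Set V))
    φ

/-- The formula `φ` is a conjunction, one member of which is an atom with all the variables of
`X`. -/
def Guarded (φ : FG L V) (X : Set V) : Prop :=
  ∃ (f : ℕ → FG L V) (j n : ℕ) (R : L.Relations n) (w : Fin n → V),
    φ = .conj f ∧ f j = .rel R w ∧ X ⊆ range w

/-- Every quantified subformula is guarded or has at most `k` variables, free or quantified. -/
def Gd (k : ℕ∞) (φ : FG L V) : Prop :=
  FG.rec (motive := fun _ => Prop)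
    (fun _ _ => True)
    (fun _ _ => True)
    (fun _ ih => ih)
    (fun _ ih => ∀ m, ih m)
    (fun _ I φ ih => ih ∧ ((fv φ ∪ (I : Set V)).encard ≤ k ∨ Guarded φ (fv φ ∪ (I : Set V))))
    φ

theorem sat_eq (S : L.Structure M) (i j : V) (v : V → M) :
    (FG.eq i j : FG L V).Sat S v ↔ v i = v j := Iff.rfl

theorem sat_rel (S : L.Structure M) {n : ℕ} (R : L.Relations n) (w : Fin n → V) (v : V → M) :
    (FG.rel R w).Sat S v ↔ S.RelMap R (fun i => v (w i)) := Iff.rfl

theorem sat_neg (S : L.Structure M) (φ : FG L V) (v : V → M) :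
    (FG.neg φ).Sat S v ↔ ¬ φ.Sat S v := Iff.rfl

theorem sat_conj (S : L.Structure M) (φ : ℕ → FG L V) (v : V → M) :
    (FG.conj φ).Sat S v ↔ ∀ m, (φ m).Sat S v := Iff.rfl

theorem fv_eq (i j : V) : (FG.eq i j : FG L V).fv = {i, j} := rfl

theorem fv_rel {n : ℕ} (R : L.Relations n) (w : Fin n → V) : (FG.rel R w).fv = range w := rfl

theorem fv_neg (φ : FG L V) : (FG.neg φ).fv = φ.fv := rfl

theorem fv_conj (φ : ℕ → FG L V) : (FG.conj φ).fv = ⋃ m, (φ m).fv := rfl

theorem fv_ge (m : ℕ) (I : Finset V) (φ : FG L V) : (FG.ge m I φ).fv = φ.fv \ (I : Set V) := rfl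

theorem gd_neg (k : ℕ∞) (φ : FG L V) : (FG.neg φ).Gd k ↔ φ.Gd k := Iff.rfl

theorem gd_conj (k : ℕ∞) (φ : ℕ → FG L V) : (FG.conj φ).Gd k ↔ ∀ m, (φ m).Gd k := Iff.rfl

theorem gd_ge (k : ℕ∞) (m : ℕ) (I : Finset V) (φ : FG L V) : (FG.ge m I φ).Gd k ↔
    φ.Gd k ∧ ((fv φ ∪ (I : Set V)).encard ≤ k ∨ Guarded φ (fv φ ∪ (I : Set V))) := Iff.rfl

theorem sat_ge (S : L.Structure M) (m : ℕ) (I : Finset V) (φ : FG L V) (v : V → M) :
    (FG.ge m I φ).Sat S v ↔
      (m : ℕ∞) ≤ {u : V → M | (∀ j, j ∉ I → u j = v j) ∧ φ.Sat S u}.encard := Iff.rfl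

theorem Gd.mono {k k' : ℕ∞} (h : k ≤ k') {φ : FG L V} (hφ : Gd k φ) : Gd k' φ := by
  induction φ with
  | eq i j => trivial
  | rel R w => trivial
  | neg φ ih => exact ih hφ
  | conj φ ih => exact fun m => ih m (hφ m)
  | ge m I φ ih => exact ⟨ih hφ.1, hφ.2.imp (fun h1 => h1.trans h) id⟩

/-- Truth depends only on the values of the free variables. -/
theorem sat_congr (S : L.Structure M) (φ : FG L V) : ∀ v v' : V → M,
    (∀ i ∈ φ.fv, v i = v' i) → (φ.Sat S v ↔ φ.Sat S v') := by
  induction φ with
  | eq i j =>
    intro v v' h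
    have h1 : v i = v' i := h i (Or.inl rfl)
    have h2 : v j = v' j := h j (Or.inr rfl)
    show v i = v j ↔ v' i = v' j
    rw [h1, h2]
  | rel R w =>
    intro v v' h
    have h1 : (fun i => v (w i)) = fun i => v' (w i) := funext fun i => h (w i) ⟨i, rfl⟩
    show S.RelMap R (fun i => v (w i)) ↔ S.RelMap R (fun i => v' (w i))
    rw [h1]
  | neg φ ih =>
    intro v v' h
    exact not_congr (ih v v' h)
  | conj φ ih =>
    intro v v' h
    exact forall_congr' fun m => ih m v v' fun i hi => h i (mem_iUnion.2 ⟨m, hi⟩)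
  | ge m I φ ih =>
    classical
    have key : ∀ v v' : V → M, (∀ i ∈ φ.fv \ (I : Set V), v i = v' i) →
        {u : V → M | (∀ j, j ∉ I → u j = v j) ∧ φ.Sat S u}.encard ≤
          {u : V → M | (∀ j, j ∉ I → u j = v' j) ∧ φ.Sat S u}.encard := by
      intro v v' h
      let g : (V → M) → V → M := fun u j => if j ∈ I then u j else v' j
      refine encard_le_encard_of_injOn (f := g) ?_ ?_
      · rintro u ⟨h1, h2⟩
        refine ⟨fun j hj => if_neg hj, (ih u (g u) fun i hi => ?_).1 h2⟩
        by_cases hI : i ∈ I
        · exact (if_pos hI).symm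
        · show u i = if i ∈ I then u i else v' i
          rw [if_neg hI, h1 i hI]
          exact h i ⟨hi, hI⟩
      · rintro u ⟨h1, _⟩ u' ⟨h1', _⟩ h3
        funext j
        by_cases hI : j ∈ I
        · have h4 := congrFun h3 j
          have h5 : g u j = u j := if_pos hI
          have h6 : g u' j = u' j := if_pos hI
          rw [h5, h6] at h4
          exact h4
        · rw [h1 j hI, h1' j hI]
    intro v v' h
    exact ⟨fun h1 => h1.trans (key v v' h), fun h1 => h1.trans (key v' v fun i hi =>
      (h i hi).symm)⟩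

/-- A sentence is true under all assignments or under none. -/
theorem sat_of_closed (S : L.Structure M) {φ : FG L V} (h : φ.fv = ∅) (v v' : V → M) :
    φ.Sat S v ↔ φ.Sat S v' :=
  sat_congr S φ v v' fun i hi => by rw [h] at hi; exact absurd hi (notMem_empty i)

/-- Invariance under isomorphisms. -/
theorem sat_inv {S : L.Structure M} {S' : L.Structure N} (e : M ≃ N)
    (he : ∀ (n : ℕ) (R : L.Relations n) (x : Fin n → M), S.RelMap R x ↔ S'.RelMap R (e ∘ x))
    (φ : FG L V) : ∀ v : V → M, φ.Sat S v ↔ φ.Sat S' (e ∘ v) := by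
  induction φ with
  | eq i j => exact fun v => e.injective.eq_iff.symm
  | rel R w => exact fun v => he _ R _
  | neg φ ih => exact fun v => not_congr (ih v)
  | conj φ ih => exact fun v => forall_congr' fun m => ih m v
  | ge m I φ ih =>
    intro v
    have h : {u : V → N | (∀ j, j ∉ I → u j = (e ∘ v) j) ∧ φ.Sat S' u} =
        (fun u : V → M => e ∘ u) '' {u : V → M | (∀ j, j ∉ I → u j = v j) ∧ φ.Sat S u} := by
      ext u
      constructor
      · rintro ⟨h1, h2⟩
        refine ⟨e.symm ∘ u, ⟨fun j hj => ?_, ?_⟩, ?_⟩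
        · show e.symm (u j) = v j
          rw [h1 j hj]
          simp
        · rw [ih]
          have h3 : e ∘ (e.symm ∘ u) = u := by
            funext j
            simp
          rw [h3]
          exact h2
        · funext j
          simp
      · rintro ⟨u', ⟨h1, h2⟩, rfl⟩
        exact ⟨fun j hj => congrArg e (h1 j hj), (ih u').1 h2⟩
    have hinj : Function.Injective (fun u : V → M => (e ∘ u : V → N)) := by
      intro u u' h1
      funext j
      exact e.injective (congrFun h1 j)
    rw [sat_ge, sat_ge, h, hinj.encard_image]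

/-- The quantifier for one variable. -/
theorem encard_one [DecidableEq V] (y : V) (v : V → M) (Q : (V → M) → Prop) :
    {u : V → M | (∀ j, j ∉ ({y} : Finset V) → u j = v j) ∧ Q u}.encard =
      {a : M | Q (Function.update v y a)}.encard := by
  have h : {u : V → M | (∀ j, j ∉ ({y} : Finset V) → u j = v j) ∧ Q u} =
      (fun a => Function.update v y a) '' {a : M | Q (Function.update v y a)} := by
    ext u
    constructor
    · rintro ⟨h1, h2⟩
      have h3 : Function.update v y (u y) = u := by
        funext j
        by_cases hj : j = y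
        · rw [hj, Function.update_self]
        · rw [Function.update_of_ne hj, h1 j (by simpa using hj)]
      refine ⟨u y, ?_, h3⟩
      show Q (Function.update v y (u y))
      rw [h3]
      exact h2
    · rintro ⟨a, ha, rfl⟩
      exact ⟨fun j hj => Function.update_of_ne (by simpa using hj) a v, ha⟩
  have hinj : Function.Injective (fun a : M => Function.update v y a) := by
    intro a b hab
    have h1 := congrFun hab y
    simpa using h1
  rw [h, hinj.encard_image]

theorem sat_ge_one [DecidableEq V] (S : L.Structure M) (m : ℕ) (y : V) (φ : FG L V)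
    (v : V → M) : (FG.ge m {y} φ).Sat S v ↔
      (m : ℕ∞) ≤ {a : M | φ.Sat S (Function.update v y a)}.encard := by
  rw [sat_ge, encard_one]

end FG

/-- The variables of the logic with `n` variables, `n` finite or infinite. -/
abbrev Vr (n : ℕ∞) : Type := {i : ℕ // (i : ℕ∞) < n}

/-- The models of a sentence on `ℕ`. -/
def ModG {L : FirstOrder.Language.{0, 0}} {V : Type} (φ : FG L V) : Set (L.Structure ℕ) :=
  {S | ∀ v : V → ℕ, φ.Sat S v}

end CTQ
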