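import Pool.Agent.CTQ.FG
import Pool.Agent.CTQ.Defs

/-!
# At most two variables: blocks of counting quantifiers (helper97)

`all_FGB`: every formula with at most two variables and counting quantifiers for blocks is
equivalent to a formula of `FC L 2`, with counting quantifiers for single variables.
-/

set_option autoImplicit false
set_option linter.unusedVariables false

namespace CTQ.FGB

open FirstOrder Set Pool.Agent.Helper6.Str

/-! ### Counting pairs -/

section count

variable {M : Type}

open Classical in
theorem sum_rows (Q : Finset (M × M)) (m : ℕ) :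
    ∑ i ∈ Finset.range m,
      ((Q.image Prod.fst).filter fun x => i + 1 ≤ (Q.filter fun p => p.1 = x).card).card =
    ∑ x ∈ Q.image Prod.fst, min m (Q.filter fun p => p.1 = x).card := by
  have h1 : ∀ i, ((Q.image Prod.fst).filter
      fun x => i + 1 ≤ (Q.filter fun p => p.1 = x).card).card =
      ∑ x ∈ Q.image Prod.fst, if i + 1 ≤ (Q.filter fun p => p.1 = x).card then 1 else 0 :=
    fun i => Finset.card_filter _ _
  rw [Finset.sum_congr rfl fun i _ => h1 i, Finset.sum_comm]
  refine Finset.sum_congr rfl fun x _ => ?_
  rw [← Finset.card_filter]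
  have h2 : (Finset.range m).filter (fun i => i + 1 ≤ (Q.filter fun p => p.1 = x).card) =
      Finset.range (min m (Q.filter fun p => p.1 = x).card) := by
    ext i
    simp only [Finset.mem_filter, Finset.mem_range]
    omega
  rw [h2, Finset.card_range]

open Classical in
theorem sum_all (Q : Finset (M × M)) :
    ∑ x ∈ Q.image Prod.fst, (Q.filter fun p => p.1 = x).card = Q.card :=
  (Finset.card_eq_sum_card_image Prod.fst Q).symm

open Classical in
theorem row_encard (Q : Finset (M × M)) (x : M) :
    {y : M | (x, y) ∈ Q}.encard = ((Q.filter fun p => p.1 = x).card : ℕ∞) := by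
  have h : ((Q.filter fun p => p.1 = x : Finset (M × M)) : Set (M × M)) =
      (fun y => (x, y)) '' {y : M | (x, y) ∈ Q} := by
    ext ⟨a, b⟩
    simp only [Finset.coe_filter, mem_image, mem_ofPred_eq, Prod.mk.injEq]
    constructor
    · rintro ⟨h1, rfl⟩
      exact ⟨b, h1, rfl, rfl⟩
    · rintro ⟨y, h1, rfl, rfl⟩
      exact ⟨h1, rfl⟩
  have hinj : Function.Injective (fun y : M => (x, y)) := fun y y' h => (Prod.mk.inj h).2
  rw [← hinj.encard_image, ← h, Set.encard_coe_eq_coe_finsetCard]

/-- The number of pairs from the numbers of long rows. -/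
theorem le_encard_prod (A : Set (M × M)) (m : ℕ) :
    (m : ℕ∞) ≤ A.encard ↔ ∃ f : Fin m → ℕ, m ≤ ∑ i, f i ∧ ∀ i : Fin m,
      (f i : ℕ∞) ≤ {x | ((i.1 + 1 : ℕ) : ℕ∞) ≤ {y | (x, y) ∈ A}.encard}.encard := by
  classical
  constructor
  · intro h
    obtain ⟨t, ht, hc⟩ := exists_subset_encard_eq h
    have hf : t.Finite := finite_of_encard_eq_coe hc
    obtain ⟨Q, rfl⟩ : ∃ Q : Finset (M × M), (Q : Set (M × M)) = t := ⟨hf.toFinset, hf.coe_toFinset⟩
    rw [encard_coe_eq_coe_finsetCard] at hc
    have hm : Q.card = m := by exact_mod_cast hc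
    refine ⟨fun i => ((Q.image Prod.fst).filter
      fun x => i.1 + 1 ≤ (Q.filter fun p => p.1 = x).card).card, ?_, fun i => ?_⟩
    · rw [Fin.sum_univ_eq_sum_range (fun i => ((Q.image Prod.fst).filter
        fun x => i + 1 ≤ (Q.filter fun p => p.1 = x).card).card) m, sum_rows]
      have h1 : ∑ x ∈ Q.image Prod.fst, min m (Q.filter fun p => p.1 = x).card =
          ∑ x ∈ Q.image Prod.fst, (Q.filter fun p => p.1 = x).card := by
        refine Finset.sum_congr rfl fun x _ => min_eq_right ?_
        rw [← hm]
        exact Finset.card_le_card (Finset.filter_subset _ _)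
      rw [h1, sum_all, hm]
    · rw [← encard_coe_eq_coe_finsetCard]
      refine encard_le_encard fun x hx => ?_
      have hx1 := (Finset.mem_filter.1 (Finset.mem_coe.1 hx)).2
      show ((i.1 + 1 : ℕ) : ℕ∞) ≤ {y | (x, y) ∈ A}.encard
      refine le_trans ?_ (encard_le_encard (s := {y | (x, y) ∈ Q}) fun y hy => ht hy)
      rw [row_encard]
      exact_mod_cast hx1
  · rintro ⟨f, h1, h2⟩
    by_contra h3
    rw [not_le] at h3
    have hf : A.Finite := encard_lt_top_iff.1 (h3.trans (by simp))
    obtain ⟨Q, rfl⟩ : ∃ Q : Finset (M × M), (Q : Set (M × M)) = A := ⟨hf.toFinset, hf.coe_toFinset⟩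
    rw [encard_coe_eq_coe_finsetCard] at h3
    have h4 : Q.card < m := by exact_mod_cast h3
    have h5 : ∀ i : Fin m, f i ≤ ((Q.image Prod.fst).filter
        fun x => i.1 + 1 ≤ (Q.filter fun p => p.1 = x).card).card := by
      intro i
      have h6 := h2 i
      have h7 : {x | ((i.1 + 1 : ℕ) : ℕ∞) ≤ {y | (x, y) ∈ (Q : Set (M × M))}.encard} =
          (((Q.image Prod.fst).filter
            fun x => i.1 + 1 ≤ (Q.filter fun p => p.1 = x).card : Finset M) : Set M) := by
        ext x
        have h8 : {y | (x, y) ∈ (Q : Set (M × M))}.encard =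
            ((Q.filter fun p => p.1 = x).card : ℕ∞) := row_encard Q x
        rw [mem_ofPred_eq, h8, Finset.coe_filter, mem_ofPred_eq]
        constructor
        · intro h9
          have h10 : i.1 + 1 ≤ (Q.filter fun p => p.1 = x).card := by exact_mod_cast h9
          refine ⟨?_, h10⟩
          have h11 : 0 < (Q.filter fun p => p.1 = x).card := by omega
          obtain ⟨p, hp⟩ := Finset.card_pos.1 h11
          rw [Finset.mem_filter] at hp
          exact Finset.mem_image.2 ⟨p, hp.1, hp.2⟩
        · rintro ⟨_, h9⟩
          exact_mod_cast h9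
      rw [h7, encard_coe_eq_coe_finsetCard] at h6
      exact_mod_cast h6
    have h6 : ∑ i, f i ≤ Q.card := by
      refine (Finset.sum_le_sum fun i _ => h5 i).trans ?_
      rw [Fin.sum_univ_eq_sum_range (fun i => ((Q.image Prod.fst).filter
        fun x => i + 1 ≤ (Q.filter fun p => p.1 = x).card).card) m, sum_rows, ← sum_all Q]
      exact Finset.sum_le_sum fun x _ => min_le_right _ _
    omega

end count

/-! ### Definability in `FC L 2` -/

section dfn

variable {L : FirstOrder.Language.{0, 0}}

/-- `Q` is defined by a formula of `FC L 2`. -/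
def E (Q : ∀ M : Type, L.Structure M → (Fin 2 → M) → Prop) : Prop :=
  ∃ ψ : FC L 2, ∀ (M : Type) (S : L.Structure M) (v : Fin 2 → M), ψ.Sat S v ↔ Q M S v

variable {Q Q' : ∀ M : Type, L.Structure M → (Fin 2 → M) → Prop}

theorem E.congr (h : E Q) (h' : ∀ M S v, Q M S v ↔ Q' M S v) : E Q' := by
  obtain ⟨ψ, hψ⟩ := h
  exact ⟨ψ, fun M S v => (hψ M S v).trans (h' M S v)⟩

theorem E.neg (h : E Q) : E fun M S v => ¬ Q M S v := by
  obtain ⟨ψ, hψ⟩ := h
  exact ⟨.neg ψ, fun M S v => not_congr (hψ M S v)⟩

theorem E.tr : E fun (M : Type) (S : L.Structure M) (v : Fin 2 → M) => True :=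
  ⟨.eq 0 0, fun M S v => ⟨fun _ => trivial, fun _ => rfl⟩⟩

theorem E.all {ι : Type} [Countable ι] {Q : ι → ∀ M : Type, L.Structure M → (Fin 2 → M) → Prop}
    (h : ∀ i, E (Q i)) : E fun M S v => ∀ i, Q i M S v := by
  rcases isEmpty_or_nonempty ι with h0 | h0
  · exact E.tr.congr fun M S v => ⟨fun _ i => isEmptyElim i, fun _ => trivial⟩
  · obtain ⟨e, he⟩ := exists_surjective_nat ι
    choose ψ hψ using h
    refine ⟨.conj fun n => ψ (e n), fun M S v => ⟨fun h i => ?_, fun h n => ?_⟩⟩
    · obtain ⟨n, rfl⟩ := he i
      exact (hψ _ M S v).1 (h n)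
    · exact (hψ _ M S v).2 (h _)

theorem E.ex {ι : Type} [Countable ι] {Q : ι → ∀ M : Type, L.Structure M → (Fin 2 → M) → Prop}
    (h : ∀ i, E (Q i)) : E fun M S v => ∃ i, Q i M S v :=
  (E.all fun i => (h i).neg).neg.congr fun M S v => by
    push Not
    rfl

theorem E.ge (h : E Q) (n : ℕ) (i : Fin 2) :
    E fun M S v => (n : ℕ∞) ≤ {a : M | Q M S (Function.update v i a)}.encard := by
  obtain ⟨ψ, hψ⟩ := h
  refine ⟨.ge n i ψ, fun M S v => ?_⟩
  show (n : ℕ∞) ≤ {a : M | ψ.Sat S (Function.update v i a)}.encard ↔ _
  simp only [hψ]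

variable {V : Type}

theorem upd_comp {M : Type} (j : V → Fin 2) (hj : Function.Injective j) [DecidableEq V]
    (v : Fin 2 → M) (a : V) (x : M) :
    Function.update v (j a) x ∘ j = Function.update (v ∘ j) a x := by
  funext b
  by_cases h : b = a
  · subst h
    simp
  · simp [Function.update_of_ne h, Function.update_of_ne (hj.ne h)]

/-- Translation. -/
theorem trans (j : V → Fin 2) (hj : Function.Injective j) (φ : FG L V) :
    E fun M S v => φ.Sat S (v ∘ j) := by
  classical
  induction φ with
  | eq a b => exact ⟨.eq (j a) (j b), fun M S v => Iff.rfl⟩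
  | rel R w => exact ⟨.rel R (j ∘ w), fun M S v => Iff.rfl⟩
  | neg φ ih => exact ih.neg
  | conj φ ih => exact (E.all ih).congr fun M S v => Iff.rfl
  | ge m I φ ih =>
    by_cases h2 : ∃ a b, a ≠ b ∧ a ∈ I ∧ b ∈ I
    · obtain ⟨a, b, hab, ha, hb⟩ := h2
      have hall : ∀ c : V, c = a ∨ c = b := by
        intro c
        have hab' : j a ≠ j b := hj.ne hab
        have key : ∀ p q r : Fin 2, p ≠ q → r = p ∨ r = q := by decide
        exact (key (j a) (j b) (j c) hab').imp (fun h => hj h) fun h => hj h
      have hI : ∀ c : V, c ∈ I := by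
        intro c
        rcases hall c with rfl | rfl
        exacts [ha, hb]
      refine (E.ex (ι := {f : Fin m → ℕ // m ≤ ∑ i, f i}) fun f =>
        E.all (ι := Fin m) fun i => (ih.ge (i.1 + 1) (j b)).ge (f.1 i) (j a)).congr
          fun M S v => ?_
      have hset : {u : V → M | (∀ c, c ∉ I → u c = (v ∘ j) c) ∧ φ.Sat S u}.encard =
          {p : M × M | φ.Sat S (Function.update (Function.update v (j a) p.1) (j b) p.2 ∘ j)}.encard
          := by
        have hu : ∀ p : M × M, Function.update (Function.update v (j a) p.1) (j b) p.2 ∘ j =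
            Function.update (Function.update (v ∘ j) a p.1) b p.2 := by
          intro p
          rw [upd_comp j hj, upd_comp j hj]
        simp only [hu]
        have hs : {u : V → M | (∀ c, c ∉ I → u c = (v ∘ j) c) ∧ φ.Sat S u} =
            (fun p : M × M => Function.update (Function.update (v ∘ j) a p.1) b p.2) ''
              {p : M × M | φ.Sat S (Function.update (Function.update (v ∘ j) a p.1) b p.2)} := by
          ext u
          constructor
          · rintro ⟨_, h2⟩
            have h3 : Function.update (Function.update (v ∘ j) a (u a)) b (u b) = u := by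
              funext c
              rcases hall c with rfl | rfl
              · rw [Function.update_of_ne hab, Function.update_self]
              · rw [Function.update_self]
            refine ⟨(u a, u b), ?_, h3⟩
            show φ.Sat S (Function.update (Function.update (v ∘ j) a (u a)) b (u b))
            rw [h3]
            exact h2
          · rintro ⟨p, hp, rfl⟩
            exact ⟨fun c hc => absurd (hI c) hc, hp⟩
        have hinj : Function.Injective
            (fun p : M × M => Function.update (Function.update (v ∘ j) a p.1) b p.2) := by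
          rintro ⟨x, y⟩ ⟨x', y'⟩ h
          have h1 := congrFun h a
          have h2 := congrFun h b
          simp only [Function.update_of_ne hab, Function.update_self] at h1
          simp only [Function.update_self] at h2
          rw [h1, h2]
        rw [hs, hinj.encard_image]
      rw [FG.sat_ge, hset, le_encard_prod]
      constructor
      · rintro ⟨⟨f, hf⟩, h⟩
        exact ⟨f, hf, h⟩
      · rintro ⟨f, hf, h⟩
        exact ⟨⟨f, hf⟩, h⟩
    · rcases I.eq_empty_or_nonempty with rfl | ⟨a, ha⟩
      · have hset : ∀ (M : Type) (S : L.Structure M) (v : Fin 2 → M),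
            {u : V → M | (∀ c, c ∉ (∅ : Finset V) → u c = (v ∘ j) c) ∧ φ.Sat S u} =
              {u : V → M | u = v ∘ j ∧ φ.Sat S (v ∘ j)} := by
          intro M S v
          ext u
          constructor
          · rintro ⟨h1, h3⟩
            have h4 : u = v ∘ j := funext fun c => h1 c (Finset.notMem_empty c)
            exact ⟨h4, h4 ▸ h3⟩
          · rintro ⟨rfl, h3⟩
            exact ⟨fun c _ => rfl, h3⟩
        have henc : ∀ (M : Type) (S : L.Structure M) (v : Fin 2 → M),
            (φ.Sat S (v ∘ j) → {u : V → M | u = v ∘ j ∧ φ.Sat S (v ∘ j)}.encard = 1) ∧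
            (¬ φ.Sat S (v ∘ j) → {u : V → M | u = v ∘ j ∧ φ.Sat S (v ∘ j)}.encard = 0) := by
          intro M S v
          constructor
          · intro h
            have h1 : {u : V → M | u = v ∘ j ∧ φ.Sat S (v ∘ j)} = {v ∘ j} := by
              ext u
              simp [h]
            rw [h1, encard_singleton]
          · intro h
            have h1 : {u : V → M | u = v ∘ j ∧ φ.Sat S (v ∘ j)} = ∅ := by
              ext u
              simp [h]
            rw [h1, encard_empty]
        match m with
        | 0 => exact E.tr.congr fun M S v => by rw [FG.sat_ge]; simp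
        | 1 =>
          refine ih.congr fun M S v => ?_
          rw [FG.sat_ge, hset]
          by_cases h : φ.Sat S (v ∘ j)
          · rw [(henc M S v).1 h]
            simp [h]
          · rw [(henc M S v).2 h]
            simp [h]
        | (m + 2) =>
          refine E.tr.neg.congr fun M S v => ?_
          rw [FG.sat_ge, hset]
          have h2 : {u : V → M | u = v ∘ j ∧ φ.Sat S (v ∘ j)}.encard ≤ 1 := by
            by_cases h : φ.Sat S (v ∘ j)
            · rw [(henc M S v).1 h]
            · rw [(henc M S v).2 h]
              exact zero_le_one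
          constructor
          · intro h
            exact absurd trivial h
          · intro h _
            have h3 : ((m + 2 : ℕ) : ℕ∞) ≤ ((1 : ℕ) : ℕ∞) := by
              rw [Nat.cast_one]
              exact h.trans h2
            have h4 : m + 2 ≤ 1 := by exact_mod_cast h3
            omega
      · have hI : I = {a} := by
          ext b
          rw [Finset.mem_singleton]
          constructor
          · intro hb
            by_contra hba
            exact h2 ⟨b, a, hba, hb, ha⟩
          · rintro rfl
            exact ha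
        subst hI
        refine (ih.ge m (j a)).congr fun M S v => ?_
        have h1 := FG.sat_ge_one S m a φ (v ∘ j)
        have h3 : {x : M | φ.Sat S (Function.update v (j a) x ∘ j)} =
            {x : M | φ.Sat S (Function.update (v ∘ j) a x)} := by
          ext x
          rw [mem_ofPred_eq, mem_ofPred_eq, upd_comp j hj]
        rw [h3]
        exact h1.symm

end dfn

end CTQ.FGB

namespace CTQ

open FirstOrder Set Pool.Agent.Helper6.Str

/-- With at most two variables, the blocks of counting quantifiers can be avoided. -/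
theorem all_FGB {L : FirstOrder.Language.{0, 0}} {n : ℕ∞} (hn : n ≤ 2) (φ : FG L (Vr n)) :
    ∃ ψ : FC L 2, ModC ψ = ModG φ := by
  have hlt : ∀ i : Vr n, i.1 < 2 := fun i => by
    have h1 : ((i.1 : ℕ) : ℕ∞) < ((2 : ℕ) : ℕ∞) := lt_of_lt_of_le i.2 hn
    exact_mod_cast h1
  let j : Vr n → Fin 2 := fun i => ⟨i.1, hlt i⟩
  have hj : Function.Injective j := fun a b h => Subtype.ext (Fin.mk.inj_iff.1 h)
  obtain ⟨ψ, hψ⟩ := FGB.trans j hj φ
  refine ⟨ψ, ?_⟩
  ext S
  constructor
  · intro h v
    have h1 : φ.Sat S (Function.extend j v (fun _ => 0) ∘ j) :=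
      (hψ ℕ S (Function.extend j v fun _ => 0)).1 (h _)
    have h2 : Function.extend j v (fun _ => 0) ∘ j = v := Function.extend_comp hj _ _
    rwa [h2] at h1
  · intro h v
    exact (hψ ℕ S v).2 (h _)

end CTQ
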