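import Pool.Agent.CTQ.StC

/-!
# CTQ, statements D: three variables, final form
-/

set_option autoImplicit false
set_option linter.unusedVariables false

namespace CTQ

open FirstOrder Set Pool.Agent.Helper6.Str Pool.Agent.Helper5.Multi Pool.Agent.Helper79.VC

/-- [THS] (0.7 h; no other module; replaces THR; uses `thm_SHJ` (helper97) and `VPF.thm_C`) Three
variables, one binary relation symbol.

Proof. By `VPF.thm_C` with `D := fun _ => True` it is enough to show `CtblK (ModF T')` or
`PerfK (ModF T')` for all theories in relational languages with countably many symbols, all of them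
unary or binary; this is `thm_SHJ` for `T'` and a true sentence `φ` (then `IsMod T' φ S` iff `S` is a
model of `T'`), if its hypothesis holds: given `φ : FV L' 3`, let `φ' = mapV ι φ : FV L' k` for the
inclusion `ι : Fin 3 → Fin k`; `(mapV ι φ).Sat S v ↔ φ.Sat S (v ∘ ι)` by induction, so
`ModV (mapV ι φ) = ModV φ`. -/
def St_THS : Prop := ∀ k : ℕ, 3 ≤ k →
  (∀ L' : FirstOrder.Language.{0, 0}, (∀ n, IsEmpty (L'.Functions n)) →
    (∀ n, n ≠ 2 → IsEmpty (L'.Relations n)) →
    Subsingleton (L'.Relations 2) → ∀ φ : VPF.FV L' k, CtblK (VPF.ModV φ) ∨ PerfK (VPF.ModV φ)) →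
  ∀ (L : FirstOrder.Language.{0, 0}), Countable L.Symbols → ∀ (T : L.Theory),
      (∃ g : ℕ → L.Structure ℕ, ∀ S : L.Structure ℕ,
          @FirstOrder.Language.Theory.Model L ℕ S T →
            ∃ n : ℕ, Nonempty (@FirstOrder.Language.Equiv L ℕ ℕ S (g n))) ∨
      (∃ f : (ℕ → Bool) → L.Structure ℕ,
          (∀ x : ℕ → Bool, @FirstOrder.Language.Theory.Model L ℕ (f x) T) ∧
          (∀ x y : ℕ → Bool,
              Nonempty (@FirstOrder.Language.Equiv L ℕ ℕ (f x) (f y)) → x = y) ∧
          (∀ (n : ℕ) (R : L.Relations n) (a : Fin n → ℕ),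
              IsClopen {x : ℕ → Bool | @FirstOrder.Language.Structure.RelMap L ℕ (f x) n R a}) ∧
          (∀ (n : ℕ) (F : L.Functions n) (a : Fin n → ℕ) (b : ℕ),
              IsOpen {x : ℕ → Bool |
                @FirstOrder.Language.Structure.funMap L ℕ (f x) n F a = b}))

end CTQ
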