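import Pool.Agent.CTQ.TGC
import Pool.Agent.CTQ.StD
import Pool.Agent.VPF.CodC

/-!
# Guards and three variables: unguarded quantifiers over two variables imply the full conjecture
(helper97)

`all_FGS`: if Vaught's conjecture holds for the sentences of infinitary logic with counting, with
`n ≥ 3` variables, in which every quantified subformula is guarded or has at most `k` variables,
`k ≥ 2`, in the finite relational languages with symbols of arity at most three, then the full
conjecture holds.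
-/

set_option autoImplicit false
set_option linter.unusedSectionVars false
set_option linter.unusedVariables false

namespace CTQ.TG

open FirstOrder Set Pool.Agent.Helper6.Str
open VPF (FV ModV)
open Pool.Agent.CTQ.SH (sat_inv all_iso copy_nat)

variable {L' : FirstOrder.Language.{0, 0}}

section trans

variable [∀ n, IsEmpty (L'.Functions n)] {N : Type} {S : (LT L').Structure N}

theorem sat_tr (hA : ∀ n, n ≠ 2 → IsEmpty (L'.Relations n)) (h : Gd S) (φ : FV L' 3) :
    ∀ (z : N) (hz : ¬ V S z), trS S φ z ↔ φ.Sat (PSt S) (pr h z hz) := by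
  induction φ with
  | eq i j =>
    intro z hz
    show (∃ y, P S i z y ∧ P S j z y) ↔ pr h z hz i = pr h z hz j
    constructor
    · rintro ⟨y, h1, h2⟩
      rw [P_iff h hz] at h1 h2
      exact Subtype.ext (h1.symm.trans h2)
    · intro h1
      refine ⟨_, pr_spec h z hz i, ?_⟩
      rw [h1]
      exact pr_spec h z hz j
  | @rel n R w =>
    intro z hz
    match n, R, w with
    | 0, R, w => exact (hA 0 (by omega)).elim R
    | 1, R, w => exact (hA 1 (by omega)).elim R
    | 2, R, w =>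
      show (∃ z', Q S (w 0) 0 z z' ∧ Q S (w 1) 1 z z' ∧ Rd S R z') ↔
        ∃ p, P S 0 p (pr h z hz (w 0)).1 ∧ P S 1 p (pr h z hz (w 1)).1 ∧ Rd S R p
      refine exists_congr fun p => ?_
      constructor
      · rintro ⟨h1, h2, h3⟩
        have hp := (Q_neg h h1).2
        refine ⟨(P_iff' h hp).2 ((Q_iff h hz hp).1 h1).symm,
          (P_iff' h hp).2 ((Q_iff h hz hp).1 h2).symm, h3⟩
      · rintro ⟨h1, h2, h3⟩
        have hp := h.r1 _ _ h3
        exact ⟨(Q_iff h hz hp).2 ((P_iff' h hp).1 h1).symm,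
          (Q_iff h hz hp).2 ((P_iff' h hp).1 h2).symm, h3⟩
    | (n + 3), R, w => exact (hA (n + 3) (by omega)).elim R
  | neg φ ih =>
    intro z hz
    exact not_congr (ih z hz)
  | conj φ ih =>
    intro z hz
    exact forall_congr' fun m => ih m z hz
  | ex i φ ih =>
    intro z hz
    show (∃ z', (∀ j, j ≠ i → Q S j j z z') ∧ trS S φ z') ↔
      ∃ x, φ.Sat (PSt S) (Function.update (pr h z hz) i x)
    constructor
    · rintro ⟨z', h1, h2⟩
      obtain ⟨j, hj⟩ : ∃ j : Fin 3, j ≠ i := by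
        match i with
        | 0 => exact ⟨1, by decide⟩
        | 1 => exact ⟨0, by decide⟩
        | 2 => exact ⟨0, by decide⟩
      have hz' := (Q_neg h (h1 j hj)).2
      refine ⟨pr h z' hz' i, ?_⟩
      have h3 : Function.update (pr h z hz) i (pr h z' hz' i) = pr h z' hz' := by
        funext l
        by_cases hl : l = i
        · subst hl
          rw [Function.update_self]
        · rw [Function.update_of_ne hl]
          exact (Q_iff h hz hz').1 (h1 l hl)
      rw [h3]
      exact (ih z' hz').1 h2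
    · rintro ⟨x, hx⟩
      obtain ⟨z', hz', h1, h2⟩ := pr_update h hz i x
      refine ⟨z', (h.g1 _ _ _ _ h1).2.2.2, (ih z' hz').2 ?_⟩
      rw [h2]
      exact hx

theorem KK_iff (hA : ∀ n, n ≠ 2 → IsEmpty (L'.Relations n)) (φ : FV L' 3) :
    KK φ S ↔ Gd S ∧ ∀ v : Fin 3 → {x // V S x}, φ.Sat (PSt S) v := by
  constructor
  · rintro ⟨h, h1⟩
    refine ⟨h, fun v => ?_⟩
    obtain ⟨z, hz, rfl⟩ := pr_surj h v
    exact (sat_tr hA h φ z hz).1 (h1 z hz)
  · rintro ⟨h, h1⟩
    exact ⟨h, fun z hz => (sat_tr hA h φ z hz).2 (h1 _)⟩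

end trans

section transfer

variable [∀ n, IsEmpty (L'.Functions n)] (hA : ∀ n, n ≠ 2 → IsEmpty (L'.Relations n))

include hA

theorem KK_iso (φ : FV L' 3) {N N' : Type} {S : (LT L').Structure N} {S' : (LT L').Structure N'}
    (h : Iso S S') (hS : KK φ S) : KK φ S' := by
  rw [KK_iff hA] at hS ⊢
  exact ⟨gd_iso h hS.1, all_iso (pst_iso h) φ hS.2⟩

theorem KK_std (φ : FV L' 3) {M : Type} [Nonempty M] (S : L'.Structure M)
    (h : ∀ v, φ.Sat S v) : KK φ (Std S) := by
  rw [KK_iff hA]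
  exact ⟨gd_std S, all_iso (pst_std S hA).symm φ h⟩

theorem std_inj {M M' : Type} {T : L'.Structure M} {T' : L'.Structure M'}
    (h : Iso (Std T) (Std T')) : Iso T T' :=
  (pst_std T hA).symm.trans ((pst_iso h).trans (pst_std T' hA))

theorem ctbl_transfer (φ : FV L' 3) (h : CtblK {S : (LT L').Structure ℕ | KK φ S}) :
    CtblK (ModV φ) := by
  classical
  obtain ⟨G, hG⟩ := h
  let dflt : L'.Structure ℕ := { funMap := fun f _ => isEmptyElim f, RelMap := fun _ _ => False }
  let gg : ℕ → L'.Structure ℕ := fun n =>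
    if h : ∃ S : L'.Structure ℕ, Iso (Std S) (G n) then h.choose else dflt
  refine ⟨gg, fun S hS => ?_⟩
  obtain ⟨S', hS'⟩ := copy_nat (Std S)
  obtain ⟨n, hn⟩ := hG S' (KK_iso hA φ hS' (KK_std hA φ S hS))
  have h2 : ∃ S : L'.Structure ℕ, Iso (Std S) (G n) := ⟨S, hS'.trans hn⟩
  refine ⟨n, ?_⟩
  have hgg : gg n = h2.choose := dif_pos h2
  rw [hgg]
  exact std_inj hA ((hS'.trans hn).trans h2.choose_spec.symm)

omit hA in
theorem inf_V {S : (LT L').Structure ℕ} (h : Gd S) : {x | V S x}.Infinite := by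
  intro hf
  have h1 : Finite {x // V S x} := hf
  have h2 : Finite ({x // V S x} ⊕ (Fin 3 → {x // V S x})) := inferInstance
  exact not_finite_iff_infinite.2 inferInstance (Finite.of_injective _ (toP_bij h).1 : Finite ℕ)

/-- the increasing enumeration of `V` -/
noncomputable def en {S : (LT L').Structure ℕ} (h : Gd S) : ℕ ≃ {x // V S x} := by
  classical
  refine Equiv.ofBijective (fun n => ⟨Nat.nth (· ∈ {x | V S x}) n,
    Nat.nth_mem_of_infinite (inf_V h) n⟩) ⟨?_, ?_⟩
  · intro a b hab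
    exact Nat.nth_injective (inf_V h) (Subtype.ext_iff.mp hab)
  · rintro ⟨a, ha⟩
    exact ⟨Nat.count (· ∈ {x | V S x}) a, Subtype.ext (Nat.nth_count (p := (· ∈ {x | V S x})) ha)⟩

/-- the decoded structure on `ℕ` -/
@[instance_reducible]
noncomputable def hh {S : (LT L').Structure ℕ} (h : Gd S) : L'.Structure ℕ where
  funMap := fun f _ => isEmptyElim f
  RelMap := fun R w => (PSt S).RelMap R fun i => en h (w i)

omit hA in
theorem hh_iso {S : (LT L').Structure ℕ} (h : Gd S) : Iso (PSt S) (hh h) := by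
  refine ⟨(en h).symm, fun n R v => ?_⟩
  show _ ↔ (PSt S).RelMap R fun i => en h ((en h).symm (v i))
  have h1 : (fun i => en h ((en h).symm (v i))) = v := by
    funext i
    exact (en h).apply_symm_apply _
  rw [h1]

section top

variable {f : (ℕ → Bool) → (LT L').Structure ℕ} (hG : ∀ x, Gd (f x))
  (hcl : ∀ (n : ℕ) (R : (LT L').Relations n) (a : Fin n → ℕ), IsClopen {x | (f x).RelMap R a})

omit hA
include hcl

theorem open_en (b c : ℕ) : IsOpen {x | (en (hG x) b).1 = c} := by
  have h1 := Pool.Agent.Helper5.Multi.isOpen_nth (A := fun x => {z | V (f x) z})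
    (fun p => hcl 1 (sV L') ![p]) (fun x => inf_V (hG x)) b c
  exact h1

theorem open_one (Q : (ℕ → Bool) → ℕ → Prop) (hQ : ∀ c, IsOpen {x | Q x c}) (b : ℕ) :
    IsOpen {x | Q x (en (hG x) b).1} := by
  have h1 : {x | Q x (en (hG x) b).1} = ⋃ c : ℕ, {x | (en (hG x) b).1 = c} ∩ {x | Q x c} := by
    ext x
    constructor
    · intro h
      exact mem_iUnion.2 ⟨_, rfl, h⟩
    · intro h
      obtain ⟨c, h2, h3⟩ := mem_iUnion.1 h
      rw [mem_ofPred_eq] at h2 h3 ⊢
      rw [h2]
      exact h3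
  rw [h1]
  exact isOpen_iUnion fun c => (open_en hG hcl b c).inter (hQ c)

theorem clopen_hh (hA : ∀ n, n ≠ 2 → IsEmpty (L'.Relations n)) {n : ℕ}
    (R : L'.Relations n) (a : Fin n → ℕ) : IsClopen {x | (hh (hG x)).RelMap R a} := by
  match n, R, a with
  | 0, R, a => exact (hA 0 (by omega)).elim R
  | 1, R, a => exact (hA 1 (by omega)).elim R
  | 2, R, a =>
    have h1 : ∀ c, IsClopen {x | Rd (f x) R c} := fun c => hcl 1 (sR R) ![c]
    have h2 : ∀ i c d, IsClopen {x | P (f x) i c d} := fun i c d => hcl 2 (sP L' i) ![c, d]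
    have h3 : ∀ p, IsOpen {x | P (f x) 0 p (en (hG x) (a 0)).1} := fun p =>
      open_one hG hcl (fun x c => P (f x) 0 p c) (fun c => (h2 0 p c).isOpen) (a 0)
    have h4 : ∀ p, IsOpen {x | P (f x) 1 p (en (hG x) (a 1)).1} := fun p =>
      open_one hG hcl (fun x c => P (f x) 1 p c) (fun c => (h2 1 p c).isOpen) (a 1)
    have e1 : {x | (hh (hG x)).RelMap R a} = ⋃ p : ℕ, {x | P (f x) 0 p (en (hG x) (a 0)).1} ∩
        ({x | P (f x) 1 p (en (hG x) (a 1)).1} ∩ {x | Rd (f x) R p}) := by
      ext x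
      constructor
      · rintro ⟨p, h5, h6, h7⟩
        exact mem_iUnion.2 ⟨p, h5, h6, h7⟩
      · intro h
        obtain ⟨p, h5, h6, h7⟩ := mem_iUnion.1 h
        exact ⟨p, h5, h6, h7⟩
    have e2 : {x | (hh (hG x)).RelMap R a}ᶜ = ⋃ p : ℕ, {x | P (f x) 0 p (en (hG x) (a 0)).1} ∩
        ({x | P (f x) 1 p (en (hG x) (a 1)).1} ∩ {x | Rd (f x) R p}ᶜ) := by
      ext x
      constructor
      · intro h
        obtain ⟨p, hp, h5⟩ := pr_surj (hG x)
          ![en (hG x) (a 0), en (hG x) (a 1), en (hG x) (a 1)]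
        have h6 : P (f x) 0 p (en (hG x) (a 0)).1 :=
          (P_iff' (hG x) hp).2 (by rw [h5]; rfl)
        have h7 : P (f x) 1 p (en (hG x) (a 1)).1 :=
          (P_iff' (hG x) hp).2 (by rw [h5]; rfl)
        exact mem_iUnion.2 ⟨p, h6, h7, fun h8 => h ⟨p, h6, h7, h8⟩⟩
      · intro h
        obtain ⟨p, h5, h6, h7⟩ := mem_iUnion.1 h
        rintro ⟨q, h8, h9, h10⟩
        have hp : ¬ V (f x) p := ((hG x).p1 _ _ _ h6).1
        have hq : ¬ V (f x) q := ((hG x).p1 _ _ _ h9).1
        refine h7 ((hG x).r2 R q p ((Q_iff (hG x) hq hp).2 ?_) ((Q_iff (hG x) hq hp).2 ?_) h10)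
        · rw [(P_iff' (hG x) hq).1 h8]
          exact ((P_iff' (hG x) hp).1 h5).symm
        · rw [(P_iff' (hG x) hq).1 h9]
          exact ((P_iff' (hG x) hp).1 h6).symm
    constructor
    · rw [← isOpen_compl_iff, e2]
      exact isOpen_iUnion fun p => (h3 p).inter ((h4 p).inter (h1 p).compl.isOpen)
    · rw [e1]
      exact isOpen_iUnion fun p => (h3 p).inter ((h4 p).inter (h1 p).isOpen)
  | (n + 3), R, a => exact (hA (n + 3) (by omega)).elim R

end top

theorem perf_transfer (φ : FV L' 3) (h : PerfK {S : (LT L').Structure ℕ | KK φ S}) :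
    PerfK (ModV φ) := by
  obtain ⟨f, hf, hinj, hcl⟩ := h
  have hG : ∀ x, Gd (f x) := fun x => (hf x).1
  refine ⟨fun x => hh (hG x), fun x => ?_, fun x y hxy => ?_, fun n R a => clopen_hh hG hcl hA R a⟩
  · exact all_iso (hh_iso (hG x)) φ ((KK_iff hA φ).1 (hf x)).2
  · refine hinj x y ?_
    have h1 : Iso (PSt (f x)) (PSt (f y)) := (hh_iso (hG x)).trans (hxy.trans (hh_iso (hG y)).symm)
    exact (iso_std (hG x)).trans ((std_iso h1).trans (iso_std (hG y)).symm)

end transfer

/-- From the fragments with guards to three variables. -/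
theorem three [∀ n, IsEmpty (L'.Functions n)] (hA : ∀ n, n ≠ 2 → IsEmpty (L'.Relations n))
    (hL : Countable (L'.Relations 2)) {W : Type} [DecidableEq W] {a b c : W} (hab : a ≠ b)
    (hac : a ≠ c) (hbc : b ≠ c)
    (H : ∀ φ : FG (LT L') W, φ.fv = ∅ → φ.Gd 2 → CtblK (ModG φ) ∨ PerfK (ModG φ))
    (φ : FV L' 3) : CtblK (ModV φ) ∨ PerfK (ModV φ) := by
  obtain ⟨Φ, h1, h2, h3⟩ := d_KK hL hab hac hbc φ
  have h4 : ModG Φ = {S : (LT L').Structure ℕ | KK φ S} := by
    ext S
    constructor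
    · intro h
      exact (h3 ℕ S fun _ => 0).1 (h _)
    · intro h v
      exact (h3 ℕ S v).2 h
  have h5 := H Φ (subset_empty_iff.1 h2) h1
  rw [h4] at h5
  rcases h5 with h5 | h5
  · exact Or.inl (ctbl_transfer hA φ h5)
  · exact Or.inr (perf_transfer hA φ h5)

theorem finite_symbols (hA : ∀ n, n ≠ 2 → IsEmpty (L'.Relations n))
    (hs : Subsingleton (L'.Relations 2)) : Finite (LT L').Symbols := by
  have h1 : IsEmpty ((n : ℕ) × (LT L').Functions n) := ⟨fun x => isEmptyElim x.2⟩
  have h2 : Finite (L'.Relations 2) := inferInstance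
  have h3 : Finite ((n : ℕ) × (LT L').Relations n) := by
    let F : (Option (L'.Relations 2) ⊕ Fin 3 ⊕ (Fin 3 ⊕ Fin 3)) →
        (n : ℕ) × (LT L').Relations n := fun x => match x with
      | .inl r => ⟨1, (r : RelT L' 1)⟩
      | .inr (.inl i) => ⟨2, (i : RelT L' 2)⟩
      | .inr (.inr i) => ⟨3, (i : RelT L' 3)⟩
    refine Finite.of_surjective F ?_
    rintro ⟨n, R⟩
    match n, R with
    | 0, R => exact (isEmpty_rel (L' := L') (n := 0) (by omega) (by omega) (by omega)).elim R
    | 1, R => exact ⟨.inl (R : RelT L' 1), rfl⟩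
    | 2, R => exact ⟨.inr (.inl (R : RelT L' 2)), rfl⟩
    | 3, R => exact ⟨.inr (.inr (R : RelT L' 3)), rfl⟩
    | (n + 4), R =>
      exact (isEmpty_rel (L' := L') (n := n + 4) (by omega) (by omega) (by omega)).elim R
  exact inferInstanceAs (Finite (((n : ℕ) × (LT L').Functions n) ⊕
    ((n : ℕ) × (LT L').Relations n)))

end CTQ.TG

namespace CTQ

open FirstOrder Set Pool.Agent.Helper6.Str

/-- With `n ≥ 3` variables, guards and unguarded quantifiers over `k ≥ 2` variables: as hard as the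
full conjecture. -/
theorem all_FGS (k n : ℕ∞) (hk : 2 ≤ k) (hn : 3 ≤ n)
    (H : ∀ L' : FirstOrder.Language.{0, 0}, Finite L'.Symbols → (∀ m, IsEmpty (L'.Functions m)) →
      (∀ m, 3 < m → IsEmpty (L'.Relations m)) → ∀ φ : FG L' (Vr n), φ.fv = ∅ → FG.Gd k φ →
      CtblK (ModG φ) ∨ PerfK (ModG φ)) :
    ∀ (L : FirstOrder.Language.{0, 0}), Countable L.Symbols → ∀ (T : L.Theory),
      (∃ g : ℕ → L.Structure ℕ, ∀ S : L.Structure ℕ,
          @FirstOrder.Language.Theory.Model L ℕ S T →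
            ∃ n : ℕ, Nonempty (@FirstOrder.Language.Equiv L ℕ ℕ S (g n))) ∨
      (∃ f : (ℕ → Bool) → L.Structure ℕ,
          (∀ x : ℕ → Bool, @FirstOrder.Language.Theory.Model L ℕ (f x) T) ∧
          (∀ x y : ℕ → Bool,
              Nonempty (@FirstOrder.Language.Equiv L ℕ ℕ (f x) (f y)) → x = y) ∧
          (∀ (n : ℕ) (R : L.Relations n) (a : Fin n → ℕ),
              IsClopen {x : ℕ → Bool | @FirstOrder.Language.Structure.RelMap L ℕ (f x) n R a}) ∧
          (∀ (n : ℕ) (F : L.Functions n) (a : Fin n → ℕ) (b : ℕ),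
              IsOpen {x : ℕ → Bool | @FirstOrder.Language.Structure.funMap L ℕ (f x) n F a = b}))
    := by
  intro L hL T
  refine VPF.thm_C (fun _ => True) trivial (Or.inl trivial) ?_ L hL T
  intro L' h1 h2 h3 T' _
  have := h1
  have := h2
  have key := Pool.Agent.CTQ.thm_SHJ (fun L'' g1 g2 g3 φ => by
    have := g1
    have hc : ∀ i : ℕ, i < 3 → (i : ℕ∞) < n := fun i hi =>
      lt_of_lt_of_le (by exact_mod_cast hi) hn
    let a : Vr n := ⟨0, hc 0 (by omega)⟩
    let b : Vr n := ⟨1, hc 1 (by omega)⟩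
    let c : Vr n := ⟨2, hc 2 (by omega)⟩
    have hab : a ≠ b := fun h => by
      have h4 : (0 : ℕ) = 1 := Subtype.ext_iff.1 h
      omega
    have hac : a ≠ c := fun h => by
      have h4 : (0 : ℕ) = 2 := Subtype.ext_iff.1 h
      omega
    have hbc : b ≠ c := fun h => by
      have h4 : (1 : ℕ) = 2 := Subtype.ext_iff.1 h
      omega
    refine TG.three (L' := L'') g2 inferInstance hab hac hbc (fun ψ h5 h6 => ?_) φ
    exact H (TG.LT L'') (TG.finite_symbols g2 g3) (fun m => inferInstance)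
      (fun m hm => TG.isEmpty_rel (by omega) (by omega) (by omega)) ψ h5 (h6.mono hk)) L' T'
      (.conj fun _ => .neg (.ex (.neg (.eq 0 0))))
  have e : {S : L'.Structure ℕ | Pool.Agent.Helper6.VC.IsMod T'
      (.conj fun _ => .neg (.ex (.neg (.eq 0 0)))) S} = VPF.ModF T' := by
    ext S
    constructor
    · intro h
      exact h.1
    · intro h
      refine ⟨h, ?_⟩
      intro _ h2
      obtain ⟨a, ha⟩ := h2
      exact ha rfl
  rwa [e] at key

end CTQ
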