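import Pool.Agent.CTQ.StA
import Pool.Agent.VB.A
import Mathlib.Combinatorics.Hall.Basic
import Mathlib.SetTheory.Cardinal.SchroederBernstein

/-!
# CTQ, module HAL: recolouring three columns
-/

set_option autoImplicit false

namespace CTQ

open Set Function

/-- Hall on both sides and Schroeder Bernstein for a set `E` of edges `(z, j)` from `z` to
`β j z`. -/
private theorem HAL_match {Z : Type} (β : Fin 3 → Z ≃ Z) (E : Z → Fin 3 → Prop)
    (h1 : ∀ A N : Finset Z, (∀ z ∈ A, ∀ j, E z j → β j z ∈ N) → A.card ≤ N.card)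
    (h2 : ∀ B M : Finset Z, (∀ z j, β j z ∈ B → E z j → z ∈ M) → B.card ≤ M.card) :
    ∃ c : Z → Fin 3, (∀ z, E z (c z)) ∧ Bijective (fun z => β (c z) z) := by
  classical
  let t1 : Z → Finset Z := fun z => (Finset.univ.filter (fun j => E z j)).image (fun j => β j z)
  let t2 : Z → Finset Z := fun b => (Finset.univ.filter (fun j => E ((β j).symm b) j)).image
    (fun j => (β j).symm b)
  obtain ⟨f, hf, hf'⟩ := (Finset.all_card_le_biUnion_card_iff_exists_injective t1).1 (by
    intro s
    apply h1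
    intro z hz j hj
    simp only [t1, Finset.mem_biUnion, Finset.mem_image, Finset.mem_filter, Finset.mem_univ,
      true_and]
    exact ⟨z, hz, j, hj, rfl⟩)
  obtain ⟨g, hg, hg'⟩ := (Finset.all_card_le_biUnion_card_iff_exists_injective t2).1 (by
    intro s
    apply h2
    intro z j hz hj
    simp only [t2, Finset.mem_biUnion, Finset.mem_image, Finset.mem_filter, Finset.mem_univ,
      true_and]
    exact ⟨β j z, hz, j, by simpa using hj, by simp⟩)
  obtain ⟨h, hh, hh'⟩ := Function.Embedding.schroeder_bernstein_of_rel hf hg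
    (fun z b => ∃ j, E z j ∧ b = β j z) (by
      intro z
      have := hf' z
      simp only [t1, Finset.mem_image, Finset.mem_filter, Finset.mem_univ, true_and] at this
      obtain ⟨j, hj, hj'⟩ := this
      exact ⟨j, hj, hj'.symm⟩) (by
      intro b
      have := hg' b
      simp only [t2, Finset.mem_image, Finset.mem_filter, Finset.mem_univ, true_and] at this
      obtain ⟨j, hj, hj'⟩ := this
      exact ⟨j, by rw [← hj']; exact hj, by rw [← hj']; simp⟩)
  choose c hc hc' using hh'
  refine ⟨c, hc, ?_⟩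
  have : (fun z => β (c z) z) = h := by
    funext z
    exact (hc' z).symm
  rw [this]
  exact hh

section count

variable {Z : Type} [DecidableEq Z] (β : Fin 3 → Z ≃ Z)

/-- the edges ending in `B` -/
private def HAL_ec (B : Finset Z) : Finset (Z × Fin 3) :=
  (B ×ˢ (Finset.univ : Finset (Fin 3))).image (fun p => ((β p.2).symm p.1, p.2))

private theorem HAL_mem_ec (B : Finset Z) (z : Z) (j : Fin 3) :
    (z, j) ∈ HAL_ec β B ↔ β j z ∈ B := by
  unfold HAL_ec
  simp only [Finset.mem_image, Finset.mem_product, Finset.mem_univ, and_true, Prod.mk.injEq]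
  constructor
  · rintro ⟨⟨b, k⟩, hb, rfl, rfl⟩
    simpa using hb
  · intro h
    exact ⟨(β j z, j), h, by simp, rfl⟩

private theorem HAL_card_ec (B : Finset Z) : (HAL_ec β B).card = 3 * B.card := by
  unfold HAL_ec
  rw [Finset.card_image_of_injective, Finset.card_product, Finset.card_univ, Fintype.card_fin,
    mul_comm]
  rintro ⟨b, k⟩ ⟨b', k'⟩ h
  simp only [Prod.mk.injEq] at h
  obtain ⟨h1, rfl⟩ := h
  have := (β k).symm.injective h1
  rw [this]

omit [DecidableEq Z] in
private theorem HAL_card_er (A : Finset Z) :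
    (A ×ˢ (Finset.univ : Finset (Fin 3))).card = 3 * A.card := by
  rw [Finset.card_product, Finset.card_univ, Fintype.card_fin, mul_comm]

/-- equality in the counting argument -/
private theorem HAL_tight (X Y D : Finset (Z × Fin 3)) (a n : ℕ) (hX : X.card = 3 * a)
    (hY : Y.card = 3 * n) (hD : D.card = 3) (h : X \ D ⊆ Y) (hlt : n < a) :
    D ⊆ X ∧ X \ D = Y := by
  have e1 : (X ∩ D).card + (X \ D).card = X.card := Finset.card_inter_add_card_sdiff X D
  have e2 : (X ∩ D).card ≤ D.card := Finset.card_le_card Finset.inter_subset_right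
  have e3 : (X \ D).card ≤ Y.card := Finset.card_le_card h
  constructor
  · have e4 : X ∩ D = D := by
      apply Finset.eq_of_subset_of_card_le Finset.inter_subset_right
      omega
    rw [← e4]
    exact Finset.inter_subset_left
  · apply Finset.eq_of_subset_of_card_le h
    omega

/-- a bad pair of finite sets -/
private def HAL_bad (p q : Z) (i : Fin 3) : Prop :=
  ∃ A B : Finset Z, (∀ z j, (z ∈ A ∧ (z, j) ≠ (q, i)) ↔ (β j z ∈ B ∧ (z, j) ≠ (p, i))) ∧
    q ∈ A ∧ p ∉ A

private theorem HAL_two (p q : Z) (i j : Fin 3) (hij : i ≠ j) (h1 : HAL_bad β p q i)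
    (h2 : HAL_bad β p q j) : False := by
  obtain ⟨A, B, hAB, hq, hp⟩ := h1
  obtain ⟨A', B', hAB', hq', hp'⟩ := h2
  have key : HAL_ec β (B ∩ B') =
      ((A ∩ A') ×ˢ (Finset.univ : Finset (Fin 3))) \ {(q, i), (q, j)} := by
    ext ⟨z, k⟩
    rw [HAL_mem_ec]
    simp only [Finset.mem_inter, Finset.mem_sdiff, Finset.mem_product, Finset.mem_univ, and_true,
      Finset.mem_insert, Finset.mem_singleton, not_or]
    constructor
    · rintro ⟨hB, hB'⟩
      have n1 : (z, k) ≠ (p, i) := by
        intro h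
        rw [Prod.mk.injEq] at h
        obtain ⟨rfl, rfl⟩ := h
        have := (hAB' z k).2 ⟨hB', by
          intro h
          rw [Prod.mk.injEq] at h
          exact hij h.2⟩
        exact hp' this.1
      have n2 : (z, k) ≠ (p, j) := by
        intro h
        rw [Prod.mk.injEq] at h
        obtain ⟨rfl, rfl⟩ := h
        have := (hAB z k).2 ⟨hB, by
          intro h
          rw [Prod.mk.injEq] at h
          exact hij h.2.symm⟩
        exact hp this.1
      have m1 := (hAB z k).2 ⟨hB, n1⟩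
      have m2 := (hAB' z k).2 ⟨hB', n2⟩
      exact ⟨⟨m1.1, m2.1⟩, m1.2, m2.2⟩
    · rintro ⟨⟨m1, m2⟩, m3, m4⟩
      exact ⟨((hAB z k).1 ⟨m1, m3⟩).1, ((hAB' z k).1 ⟨m2, m4⟩).1⟩
  have c1 := HAL_card_ec β (B ∩ B')
  have c2 := HAL_card_er (A ∩ A')
  have c3 : (((A ∩ A') ×ˢ (Finset.univ : Finset (Fin 3))) \ {(q, i), (q, j)}).card + 2 =
      ((A ∩ A') ×ˢ (Finset.univ : Finset (Fin 3))).card := by
    have hs : ({(q, i), (q, j)} : Finset (Z × Fin 3)) ⊆
        ((A ∩ A') ×ˢ (Finset.univ : Finset (Fin 3))) := by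
      intro e he
      simp only [Finset.mem_insert, Finset.mem_singleton] at he
      rcases he with rfl | rfl <;> simp [hq, hq']
    have hc : ({(q, i), (q, j)} : Finset (Z × Fin 3)).card = 2 := by
      rw [Finset.card_pair]
      intro h
      rw [Prod.mk.injEq] at h
      exact hij h.2
    have := Finset.card_sdiff_add_card_eq_card hs
    omega
  rw [← key] at c3
  omega

/-- the removed edges -/
private def HAL_D (x1 x2 : Z) (i : Fin 3) : Finset (Z × Fin 3) :=
  ((Finset.univ.filter (fun j => j ≠ i)).image (fun j => (x1, j))) ∪ {(x2, i)}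

private theorem HAL_mem_D {x1 x2 : Z} {i : Fin 3} (z : Z) (j : Fin 3) :
    (z, j) ∈ HAL_D x1 x2 i ↔ (z = x1 ∧ j ≠ i) ∨ (z = x2 ∧ j = i) := by
  unfold HAL_D
  simp only [Finset.mem_union, Finset.mem_image, Finset.mem_filter, Finset.mem_univ, true_and,
    Finset.mem_singleton, Prod.mk.injEq]
  constructor
  · rintro (⟨k, hk, rfl, rfl⟩ | ⟨rfl, rfl⟩)
    · exact Or.inl ⟨rfl, hk⟩
    · exact Or.inr ⟨rfl, rfl⟩
  · rintro (⟨rfl, hk⟩ | ⟨rfl, rfl⟩)
    · exact Or.inl ⟨j, hk, rfl, rfl⟩
    · exact Or.inr ⟨rfl, rfl⟩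

private theorem HAL_card_D {x1 x2 : Z} (hx : x1 ≠ x2) (i : Fin 3) :
    (HAL_D x1 x2 i).card = 3 := by
  unfold HAL_D
  rw [Finset.card_union_of_disjoint, Finset.card_image_of_injective, Finset.card_singleton]
  · have : ∀ i : Fin 3, (Finset.univ.filter (fun j => j ≠ i)).card = 2 := by decide
    rw [this]
  · intro j j' h
    simpa using h
  · rw [Finset.disjoint_singleton_right]
    simp only [Finset.mem_image, Finset.mem_filter, Finset.mem_univ, true_and, Prod.mk.injEq,
      not_exists, not_and]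
    intro k hk h
    exact absurd h hx

private theorem HAL_one {x1 x2 : Z} (hx : x1 ≠ x2) (i : Fin 3) :
    (∃ c : Z → Fin 3, c x1 = i ∧ c x2 ≠ i ∧ Bijective (fun z => β (c z) z)) ∨
    HAL_bad β x1 x2 i ∨ HAL_bad β x2 x1 i := by
  by_contra hcon
  simp only [not_or] at hcon
  obtain ⟨hc, hb1, hb2⟩ := hcon
  apply hc
  have hE : ∀ z j, ((z = x1 → j = i) ∧ (z = x2 → j ≠ i)) ↔ (z, j) ∉ HAL_D x1 x2 i := by
    intro z j
    rw [HAL_mem_D]
    tauto
  obtain ⟨c, hc1, hc2⟩ := HAL_match β (fun z j => (z = x1 → j = i) ∧ (z = x2 → j ≠ i)) (by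
    intro A N hAN
    by_contra hlt
    rw [not_le] at hlt
    apply hb1
    obtain ⟨t1, t2⟩ := HAL_tight _ _ (HAL_D x1 x2 i) A.card N.card (HAL_card_er A)
      (HAL_card_ec β N) (HAL_card_D hx i) (by
        rintro ⟨z, j⟩ hz
        simp only [Finset.mem_sdiff, Finset.mem_product, Finset.mem_univ, and_true] at hz
        rw [HAL_mem_ec]
        exact hAN z hz.1 j ((hE z j).2 hz.2)) hlt
    have t3 : ∀ z j, (z ∈ A ∧ (z, j) ∉ HAL_D x1 x2 i) ↔ β j z ∈ N := by
      intro z j
      rw [← HAL_mem_ec β N, ← t2]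
      simp
    have t4 : ∀ z j, (z, j) ∈ HAL_D x1 x2 i → z ∈ A := by
      intro z j h
      have := t1 h
      simpa using this
    have u2 : x2 ∈ A := t4 x2 i ((HAL_mem_D _ _).2 (Or.inr ⟨rfl, rfl⟩))
    refine ⟨A.erase x1, N, ?_, ?_, ?_⟩
    · intro z j
      rw [← t3, HAL_mem_D, Finset.mem_erase]
      simp only [Ne, Prod.mk.injEq]
      constructor
      · rintro ⟨⟨h1, h2⟩, h3⟩
        refine ⟨⟨h2, ?_⟩, fun h => h1 h.1⟩
        rintro (h | h)
        · exact h1 h.1
        · exact h3 h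
      · rintro ⟨⟨h1, h2⟩, h3⟩
        refine ⟨⟨fun h => ?_, h1⟩, fun h => h2 (Or.inr h)⟩
        by_cases hj : j = i
        · exact h3 ⟨h, hj⟩
        · exact h2 (Or.inl ⟨h, hj⟩)
    · rw [Finset.mem_erase]
      exact ⟨hx.symm, u2⟩
    · simp) (by
    intro B M hBM
    by_contra hlt
    rw [not_le] at hlt
    apply hb2
    obtain ⟨t1, t2⟩ := HAL_tight _ _ (HAL_D x1 x2 i) B.card M.card (HAL_card_ec β B)
      (HAL_card_er M) (HAL_card_D hx i) (by
        rintro ⟨z, j⟩ hz
        rw [Finset.mem_sdiff, HAL_mem_ec] at hz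
        simp only [Finset.mem_product, Finset.mem_univ, and_true]
        exact hBM z j hz.1 ((hE z j).2 hz.2)) hlt
    have t3 : ∀ z j, (β j z ∈ B ∧ (z, j) ∉ HAL_D x1 x2 i) ↔ z ∈ M := by
      intro z j
      rw [← HAL_mem_ec β B, ← Finset.mem_sdiff, t2]
      simp
    have t4 : ∀ z j, (z, j) ∈ HAL_D x1 x2 i → β j z ∈ B := by
      intro z j h
      have := t1 h
      rwa [HAL_mem_ec] at this
    have u1 : x1 ∉ M := by
      intro h
      obtain ⟨k, hk⟩ : ∃ k : Fin 3, k ≠ i := exists_ne i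
      exact ((t3 x1 k).2 h).2 ((HAL_mem_D _ _).2 (Or.inl ⟨rfl, hk⟩))
    have u2 : x2 ∉ M := by
      intro h
      exact ((t3 x2 i).2 h).2 ((HAL_mem_D _ _).2 (Or.inr ⟨rfl, rfl⟩))
    refine ⟨insert x1 M, B, ?_, ?_, ?_⟩
    · intro z j
      rw [Finset.mem_insert]
      simp only [Ne, Prod.mk.injEq]
      constructor
      · rintro ⟨h1 | h1, h2⟩
        · have hj : j ≠ i := fun h => h2 ⟨h1, h⟩
          exact ⟨t4 z j ((HAL_mem_D _ _).2 (Or.inl ⟨h1, hj⟩)), fun h => hj h.2⟩
        · exact ⟨((t3 z j).2 h1).1, fun h => u2 (h.1 ▸ h1)⟩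
      · rintro ⟨h1, h2⟩
        by_cases hD : (z, j) ∈ HAL_D x1 x2 i
        · rw [HAL_mem_D] at hD
          rcases hD with hD | hD
          · exact ⟨Or.inl hD.1, fun h => hD.2 h.2⟩
          · exact absurd hD h2
        · have h3 := (t3 z j).1 ⟨h1, hD⟩
          exact ⟨Or.inr h3, fun h => u1 (h.1 ▸ h3)⟩
    · exact Finset.mem_insert_self _ _
    · rw [Finset.mem_insert, not_or]
      exact ⟨hx.symm, u2⟩)
  exact ⟨c, (hc1 x1).1 rfl, (hc1 x2).2 rfl, hc2⟩

private theorem HAL_claim {x1 x2 : Z} (hx : x1 ≠ x2) :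
    ∃ c : Z → Fin 3, c x1 ≠ c x2 ∧ Bijective (fun z => β (c z) z) := by
  by_contra hcon
  have h : ∀ i, HAL_bad β x1 x2 i ∨ HAL_bad β x2 x1 i := by
    intro i
    rcases HAL_one β hx i with ⟨c, h1, h2, h3⟩ | h
    · exact absurd ⟨c, by rw [h1]; exact h2.symm, h3⟩ hcon
    · exact h
  have k01 : (0 : Fin 3) ≠ 1 := by decide
  have k02 : (0 : Fin 3) ≠ 2 := by decide
  have k12 : (1 : Fin 3) ≠ 2 := by decide
  rcases h 0 with h0 | h0 <;> rcases h 1 with h1 | h1 <;> rcases h 2 with h2 | h2
  · exact HAL_two β _ _ _ _ k01 h0 h1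
  · exact HAL_two β _ _ _ _ k01 h0 h1
  · exact HAL_two β _ _ _ _ k02 h0 h2
  · exact HAL_two β _ _ _ _ k12 h1 h2
  · exact HAL_two β _ _ _ _ k12 h1 h2
  · exact HAL_two β _ _ _ _ k02 h0 h2
  · exact HAL_two β _ _ _ _ k01 h0 h1
  · exact HAL_two β _ _ _ _ k01 h0 h1

/-- the second step -/
private theorem HAL_second (c : Z → Fin 3) (hc : Bijective (fun z => β (c z) z)) :
    ∃ c' : Z → Fin 3, (∀ z, c' z ≠ c z) ∧ Bijective (fun z => β (c' z) z) := by
  let F : Z ≃ Z := Equiv.ofBijective _ hc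
  have hF : ∀ z, F z = β (c z) z := fun z => rfl
  -- edges at rows
  have c1 : ∀ A : Finset Z, ((A ×ˢ (Finset.univ : Finset (Fin 3))).filter
      (fun p => ¬ p.2 = c p.1)).card = 2 * A.card := by
    intro A
    have e1 := HAL_card_er A
    have e2 := Finset.card_filter_add_card_filter_not (s := A ×ˢ (Finset.univ : Finset (Fin 3)))
      (fun p => p.2 = c p.1)
    have e3 : ((A ×ˢ (Finset.univ : Finset (Fin 3))).filter (fun p => p.2 = c p.1)) =
        A.image (fun z => (z, c z)) := by
      ext ⟨z, j⟩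
      simp only [Finset.mem_filter, Finset.mem_product, Finset.mem_univ, and_true,
        Finset.mem_image, Prod.mk.injEq]
      constructor
      · rintro ⟨h1, rfl⟩
        exact ⟨z, h1, rfl, rfl⟩
      · rintro ⟨w, hw, rfl, rfl⟩
        exact ⟨hw, rfl⟩
    have e4 : (A.image (fun z => (z, c z))).card = A.card := by
      apply Finset.card_image_of_injective
      intro z w h
      simp only [Prod.mk.injEq] at h
      exact h.1
    rw [e3, e4] at e2
    omega
  have c2 : ∀ B : Finset Z, ((HAL_ec β B).filter (fun p => ¬ p.2 = c p.1)).card =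
      2 * B.card := by
    intro B
    have e1 := HAL_card_ec β B
    have e2 := Finset.card_filter_add_card_filter_not (s := HAL_ec β B)
      (fun p => p.2 = c p.1)
    have e3 : ((HAL_ec β B).filter (fun p => p.2 = c p.1)) =
        B.image (fun b => (F.symm b, c (F.symm b))) := by
      ext ⟨z, j⟩
      rw [Finset.mem_filter, HAL_mem_ec]
      simp only [Finset.mem_image, Prod.mk.injEq]
      constructor
      · rintro ⟨h1, rfl⟩
        refine ⟨F z, h1, by simp, by simp⟩
      · rintro ⟨w, hw, rfl, rfl⟩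
        refine ⟨?_, rfl⟩
        rw [← hF]
        simpa using hw
    have e4 : (B.image (fun b => (F.symm b, c (F.symm b)))).card = B.card := by
      apply Finset.card_image_of_injective
      intro z w h
      simp only [Prod.mk.injEq] at h
      exact F.symm.injective h.1
    rw [e3, e4] at e2
    omega
  obtain ⟨c', h1, h2⟩ := HAL_match β (fun z j => j ≠ c z) (by
    intro A N hAN
    have := Finset.card_le_card (s := (A ×ˢ (Finset.univ : Finset (Fin 3))).filter
      (fun p => ¬ p.2 = c p.1)) (t := (HAL_ec β N).filter (fun p => ¬ p.2 = c p.1)) (by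
        rintro ⟨z, j⟩ h
        simp only [Finset.mem_filter, Finset.mem_product, Finset.mem_univ, and_true] at h
        rw [Finset.mem_filter, HAL_mem_ec]
        exact ⟨hAN z h.1 j h.2, h.2⟩)
    rw [c1, c2] at this
    omega) (by
    intro B M hBM
    have := Finset.card_le_card (t := (M ×ˢ (Finset.univ : Finset (Fin 3))).filter
      (fun p => ¬ p.2 = c p.1)) (s := (HAL_ec β B).filter (fun p => ¬ p.2 = c p.1)) (by
        rintro ⟨z, j⟩ h
        simp only [Finset.mem_filter, Finset.mem_product, Finset.mem_univ, and_true]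
        rw [Finset.mem_filter, HAL_mem_ec] at h
        exact ⟨hBM z j h.1 h.2, h.2⟩)
    rw [c1, c2] at this
    omega)
  exact ⟨c', h1, h2⟩

end count

private theorem HAL_perm : ∀ a b : Fin 3, b ≠ a → ∃ σ : Equiv.Perm (Fin 3), σ 0 = a ∧ σ 1 = b := by
  decide

private theorem HAL_third : ∀ k : Fin 3 → Fin 3, (∃ j, k j = 0 ∧ ∀ y, k y = 0 → y = j) →
    (∃ j, k j = 1 ∧ ∀ y, k y = 1 → y = j) → (∃ j, k j = 2 ∧ ∀ y, k y = 2 → y = j) := by
  decide

private theorem HAL_bij {Z : Type} (β : Fin 3 → Z ≃ Z) (g : Z → Equiv.Perm (Fin 3)) (i : Fin 3) :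
    Bijective (fun z => β (g z i) z) ↔ ∀ b, ∃! j, (g ((β j).symm b)).symm j = i := by
  rw [Function.bijective_iff_existsUnique]
  refine forall_congr' fun b => ?_
  constructor
  · rintro ⟨z, hz, hu⟩
    refine ⟨g z i, ?_, ?_⟩
    · dsimp only
      rw [← hz]
      simp
    · intro j hj
      have hj' : g ((β j).symm b) i = j := by
        rw [← hj]
        simp
      have := hu ((β j).symm b) (by
        dsimp only
        rw [hj']
        simp)
      rw [← this, hj']
  · rintro ⟨j, hj, hu⟩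
    have hj' : g ((β j).symm b) i = j := by
      rw [← hj]
      simp
    refine ⟨(β j).symm b, ?_, ?_⟩
    · dsimp only
      rw [hj']
      simp
    · intro z hz
      have h1 : (β (g z i)).symm b = z := by
        rw [← hz]
        simp
      have := hu (g z i) (by
        dsimp only
        rw [h1]
        simp)
      rw [← this, h1]

theorem thm_HAL : St_HAL := by
  intro Z T _ t x1 x2 ht hx _ _
  classical
  have hβ : ∀ i, ∃ τ : Z ≃ Z, ∀ z, t 0 (τ z) = t i z := fun i =>
    Pool.Agent.Helper5.Multi.exists_equiv_of_fibres (t i) (t 0) (fun τ => ht i 0 τ)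
  choose β hβ using hβ
  obtain ⟨c, hc, hcb⟩ := HAL_claim β hx
  obtain ⟨c', hc', hcb'⟩ := HAL_second β c hcb
  choose g hg0 hg1 using fun z => HAL_perm (c z) (c' z) (hc' z)
  have b0 : Bijective (fun z => β (g z 0) z) := by
    have : (fun z => β (g z 0) z) = fun z => β (c z) z := by
      funext z
      rw [hg0]
    rw [this]
    exact hcb
  have b1 : Bijective (fun z => β (g z 1) z) := by
    have : (fun z => β (g z 1) z) = fun z => β (c' z) z := by
      funext z
      rw [hg1]
    rw [this]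
    exact hcb'
  have b2 : Bijective (fun z => β (g z 2) z) := by
    rw [HAL_bij] at b0 b1 ⊢
    intro b
    exact HAL_third (fun j => (g ((β j).symm b)).symm j) (b0 b) (b1 b)
  have hb : ∀ i, Bijective (fun z => β (g z i) z) := by
    intro i
    fin_cases i
    · exact b0
    · exact b1
    · exact b2
  refine ⟨g, ?_, ?_⟩
  · intro h
    apply hc
    rw [← hg0 x1, ← hg0 x2, h]
  · intro i j τ
    rw [ht j 0 τ]
    have e : {z | t (g z i) z = τ} = (Equiv.ofBijective _ (hb i)) ⁻¹' {z | t 0 z = τ} := by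
      ext z
      simp only [Set.mem_ofPred_eq, mem_preimage, Equiv.ofBijective_apply]
      rw [hβ]
    rw [e]
    exact Set.encard_preimage_of_bijective (Equiv.bijective _) _

end CTQ
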