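import Pool.Agent.CTQ.SHQ

/-!
Three variables, one binary symbol and nothing else, first part (helper97): definability by formulas
with three variables, uniformly in all nonempty universes; the class of the structures of tuples
has no finite members.
-/

set_option autoImplicit false
set_option linter.unusedSectionVars false
set_option linter.unusedVariables false

namespace Pool.Agent.CTQ.SH

open FirstOrder Set Pool.Agent.Helper6.Str Pool.Agent.Helper5.DU VPF VPF.CC
open FirstOrder.Language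

/-! ### Uniform definability -/

section D3g

variable {L' : FirstOrder.Language.{0, 0}}

/-- The class `Q` is defined by a formula with three variables, in all nonempty universes. -/
def D3g (Q : ∀ N : Type, L'.Structure N → Prop) : Prop :=
  ∃ Φ : FV L' 3, ∀ (N : Type), Nonempty N → ∀ S : L'.Structure N, (∀ v, Φ.Sat S v) ↔ Q N S

theorem D3g.all {ι : Type} [Countable ι] {Q : ι → ∀ N : Type, L'.Structure N → Prop}
    (h : ∀ i, D3g (Q i)) : D3g fun N S => ∀ i, Q i N S := by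
  rcases isEmpty_or_nonempty ι with h0 | h0
  · exact ⟨.eq 0 0, fun N hN S => ⟨fun _ i => isEmptyElim i, fun _ v => rfl⟩⟩
  · obtain ⟨e, he⟩ := exists_surjective_nat ι
    choose Φ hΦ using h
    refine ⟨.conj fun n => Φ (e n), fun N hN S => ⟨fun h i => ?_, fun h v n => ?_⟩⟩
    · obtain ⟨n, rfl⟩ := he i
      exact (hΦ (e n) N hN S).1 fun v => h v n
    · exact (hΦ (e n) N hN S).2 (h (e n)) v

theorem D3g.and {Q R : ∀ N : Type, L'.Structure N → Prop} (h1 : D3g Q) (h2 : D3g R) :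
    D3g fun N S => Q N S ∧ R N S := by
  obtain ⟨Φ, hΦ⟩ := h1
  obtain ⟨Ψ, hΨ⟩ := h2
  refine ⟨fand Φ Ψ, fun N hN S => ?_⟩
  show _ ↔ Q N S ∧ R N S
  rw [← hΦ N hN S, ← hΨ N hN S]
  simp only [sat_fand]
  exact ⟨fun h => ⟨fun v => (h v).1, fun v => (h v).2⟩, fun h v => ⟨h.1 v, h.2 v⟩⟩

theorem D3g.congr {Q R : ∀ N : Type, L'.Structure N → Prop} (h1 : D3g Q)
    (h2 : ∀ (N : Type), Nonempty N → ∀ S, Q N S ↔ R N S) : D3g R := by
  obtain ⟨Φ, hΦ⟩ := h1
  exact ⟨Φ, fun N hN S => (hΦ N hN S).trans (h2 N hN S)⟩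

theorem d3g_of (Φ : FV L' 3) {Q : ∀ N : Type, L'.Structure N → Prop}
    (h : ∀ (N : Type) (S : L'.Structure N), (∀ v, Φ.Sat S v) ↔ Q N S) : D3g Q :=
  ⟨Φ, fun N _ S => h N S⟩

end D3g

/-! ### The structures of tuples -/

section Kc

variable {L : FirstOrder.Language.{0, 0}}

theorem d3g_AAE {ψ : (LC L).BoundedFormula Empty 3} (h : ψ.IsQF) :
    D3g fun N S => ∀ x y, ∃ z, Tr S ψ x y z := by
  obtain ⟨Φ, hΦ⟩ := qf_fv h
  refine ⟨.ex 2 Φ, fun N _ S => ⟨fun h x y => ?_, fun h v => ?_⟩⟩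
  · obtain ⟨a, ha⟩ := h ![x, y, x]
    refine ⟨a, ?_⟩
    have h1 := (hΦ N S _).1 ha
    rw [upd2] at h1
    exact h1
  · obtain ⟨z, hz⟩ := h (v 0) (v 1)
    refine ⟨z, (hΦ N S _).2 ?_⟩
    rw [upd2]
    exact hz

theorem d3g_AAA {ψ : (LC L).BoundedFormula Empty 3} (h : ψ.IsQF) :
    D3g fun N S => ∀ x y z, Tr S ψ x y z := by
  obtain ⟨Φ, hΦ⟩ := qf_fv h
  refine ⟨Φ, fun N _ S => ⟨fun h x y z => (hΦ N S _).1 (h _), fun h v => (hΦ N S _).2 ?_⟩⟩
  rw [eta3 v]
  exact h _ _ _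

theorem d3g_good (hL : Countable L.Symbols) (T : L.Theory) :
    D3g fun (N : Type) (S : (LC L).Structure N) => Good T S := by
  have hR : ∀ n, Countable ((LC L).Relations n) := CC.countable_rel hL
  have hR' : Countable ((n : ℕ) × (LC L).Relations n) := inferInstance
  have hF' : Countable ((n : ℕ) × (LC L).Functions n) := by
    have : IsEmpty ((n : ℕ) × (LC L).Functions n) := ⟨fun x => isEmptyElim x.2⟩
    infer_instance
  have hS : Countable (LC L).Symbols :=
    inferInstanceAs (Countable (((n : ℕ) × (LC L).Functions n) ⊕ ((n : ℕ) × (LC L).Relations n)))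
  have hB : Countable ((n : ℕ) × (LC L).BoundedFormula Empty n) := countable_fml hS
  have hB3 : Countable ((LC L).BoundedFormula Empty 3) :=
    Function.Injective.countable (f := fun ψ => (⟨3, ψ⟩ : (n : ℕ) × (LC L).BoundedFormula Empty n))
      fun a b hab => by simpa using hab
  have hC : Countable (RelT L 2) := hR 2
  have h1 : D3g fun (N : Type) (S : (LC L).Structure N) =>
      ∀ ψ : {ψ : (LC L).BoundedFormula Empty 3 // AxM T ψ}, ∀ x y, ∃ z, Tr S ψ.1 x y z :=
    D3g.all fun ψ => d3g_AAE (qf_axM ψ.2)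
  have h2 : D3g fun (N : Type) (S : (LC L).Structure N) =>
      ∀ q : RelT L 2, ∀ x y z, Tr S (fnA q.2.2) x y z :=
    D3g.all fun q => d3g_AAA (qf_fnA q.2.2)
  refine (h1.and h2).congr fun N hN S => ⟨fun h => ?_, fun h => ⟨fun ψ => ?_, fun q x y z => ?_⟩⟩
  · refine good_of_axM S (fun ψ hψ => h.1 ⟨ψ, hψ⟩) fun {n k} τ {x y z} h3 h4 => ?_
    have h5 := h.2 ⟨n, k, τ⟩ x y z
    simp only [fnA, tr_imp, tr_b, tr_e] at h5
    exact h5 h3 h4
  · exact axM_of_good S h ψ.2
  · simp only [fnA, tr_imp, tr_b, tr_e]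
    exact fun h3 h4 => h.bFun _ h3 h4

theorem d3g_Kc (hL : Countable L.Symbols) (T : L.Theory) (φ : FmI L 0) :
    D3g fun (N : Type) (S : (LC L).Structure N) => Kc T φ S := by
  have h1 : D3g fun (N : Type) (S : (LC L).Structure N) => ∀ x, ∃ n, U S n x := by
    refine ⟨.neg (.conj fun n => .neg (aU L n 0)), fun N _ S => ⟨fun h x => ?_, fun h v => ?_⟩⟩
    · by_contra hcon
      push Not at hcon
      refine h (fun _ => x) fun n => ?_
      show ¬ (aU L n 0).Sat S _
      rw [sat_U1]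
      exact hcon n
    · intro h1
      obtain ⟨n, hn⟩ := h (v 0)
      refine h1 n ?_
      rw [sat_U1]
      exact hn
  have h2 : D3g fun (N : Type) (S : (LC L).Structure N) =>
      ∀ v, U S 0 (v 0) → (trI φ 0).Sat S v := by
    refine ⟨fimp (aU L 0 0) (trI φ 0), fun N _ S => forall_congr' fun v => ?_⟩
    rw [sat_fimp, sat_U1]
  refine ((d3g_good hL (Tp T)).and (h1.and h2)).congr fun N hN S => ⟨?_, ?_⟩
  · rintro ⟨hG, h3, h4⟩
    refine ⟨hG, h3, ?_⟩
    obtain ⟨z, hz⟩ := hG.zero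
    have h5 := (sat_trI hG φ ⟨z, hz⟩ 0 (fun _ => z) rfl).1 (h4 _ hz)
    have h6 : crd hG ⟨z, hz⟩ = Fin.elim0 := Subsingleton.elim _ _
    rw [h6] at h5
    exact h5
  · rintro ⟨hG, h3, h4⟩
    refine ⟨hG, h3, fun v hv => ?_⟩
    refine (sat_trI hG φ ⟨v 0, hv⟩ 0 v rfl).2 ?_
    have h6 : crd hG ⟨v 0, hv⟩ = Fin.elim0 := Subsingleton.elim _ _
    rw [h6]
    exact h4

theorem Kc_infinite {T : L.Theory} {φ : FmI L 0} {N : Type} {S : (LC L).Structure N}
    (h : Kc T φ S) : Infinite N := by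
  obtain ⟨hG, _⟩ := h
  have := good_infinite hG
  exact Infinite.of_injective (fun x : Tu S 1 => x.1) Subtype.val_injective

end Kc

/-! ### The structures of pairs -/

section KK

variable {L' : FirstOrder.Language.{0, 0}}

theorem d3g_gd (hL : ∀ n, Countable (L'.Relations n)) :
    D3g fun (N : Type) (S : (LP L').Structure N) => Gd S := by
  have h1' := hL 1
  have h2' := hL 2
  have e1 : D3g fun (N : Type) (S : (LP L').Structure N) =>
      ∀ x y, E S x y → ((V S x → ¬ V S y) ∧ (¬ V S y → V S x)) := by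
    refine d3g_of (fimp (fE L' 0 1) (fand (fimp (fV L' 0) (.neg (fV L' 1)))
      (fimp (.neg (fV L' 1)) (fV L' 0)))) fun N S => ?_
    simp only [sat_fimp, sat_fand, sat_neg, sat_fV, sat_fE]
    exact ⟨fun h x y => h ![x, y, x], fun h v => h _ _⟩
  have a1 : D3g fun (N : Type) (S : (LP L').Structure N) => ∀ p, ¬ V S p → ∃ x, E S p x := by
    refine d3g_of (fimp (.neg (fV L' 0)) (.ex 1 (fE L' 0 1))) fun N S => ?_
    simp only [sat_fimp, sat_neg, sat_ex, sat_fV, sat_fE, (u1 _ _).1, (u1 _ _).2.1]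
    exact ⟨fun h x => h ![x, x, x], fun h v => h _⟩
  have a2 : D3g fun (N : Type) (S : (LP L').Structure N) =>
      ∀ p x y, ¬ V S p → E S p x → E S p y → x = y := by
    refine d3g_of (fimp (.neg (fV L' 0)) (fimp (fE L' 0 1) (fimp (fE L' 0 2) (.eq 1 2))))
      fun N S => ?_
    simp only [sat_fimp, sat_neg, sat_eq, sat_fV, sat_fE]
    exact ⟨fun h p x y => h ![p, x, y], fun h v => h _ _ _⟩
  have b1 : D3g fun (N : Type) (S : (LP L').Structure N) => ∀ p, ¬ V S p → ∃ x, E S x p := by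
    refine d3g_of (fimp (.neg (fV L' 0)) (.ex 1 (fE L' 1 0))) fun N S => ?_
    simp only [sat_fimp, sat_neg, sat_ex, sat_fV, sat_fE, (u1 _ _).1, (u1 _ _).2.1]
    exact ⟨fun h x => h ![x, x, x], fun h v => h _⟩
  have b2 : D3g fun (N : Type) (S : (LP L').Structure N) =>
      ∀ p x y, ¬ V S p → E S x p → E S y p → x = y := by
    refine d3g_of (fimp (.neg (fV L' 0)) (fimp (fE L' 1 0) (fimp (fE L' 2 0) (.eq 1 2))))
      fun N S => ?_
    simp only [sat_fimp, sat_neg, sat_eq, sat_fV, sat_fE]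
    exact ⟨fun h p x y => h ![p, x, y], fun h v => h _ _ _⟩
  have c : D3g fun (N : Type) (S : (LP L').Structure N) =>
      ∀ x y, V S x → V S y → ∃ p, E S p x ∧ E S y p := by
    refine d3g_of (fimp (fV L' 0) (fimp (fV L' 1) (.ex 2 (fand (fE L' 2 0) (fE L' 1 2)))))
      fun N S => ?_
    simp only [sat_fimp, sat_fand, sat_ex, sat_fV, sat_fE, (u2 _ _).1, (u2 _ _).2.1,
      (u2 _ _).2.2]
    exact ⟨fun h x y => h ![x, y, x], fun h v => h _ _⟩
  have d : D3g fun (N : Type) (S : (LP L').Structure N) => ∀ p q, ¬ V S p → ¬ V S q →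
      (∃ z, E S p z ∧ E S q z) → (∃ z, E S z p ∧ E S z q) → p = q := by
    refine d3g_of (fimp (.neg (fV L' 0)) (fimp (.neg (fV L' 1))
      (fimp (.ex 2 (fand (fE L' 0 2) (fE L' 1 2)))
        (fimp (.ex 2 (fand (fE L' 2 0) (fE L' 2 1))) (.eq 0 1))))) fun N S => ?_
    simp only [sat_fimp, sat_fand, sat_neg, sat_eq, sat_ex, sat_fV, sat_fE, (u2 _ _).1,
      (u2 _ _).2.1, (u2 _ _).2.2]
    exact ⟨fun h x y => h ![x, y, x], fun h v => h _ _⟩
  have u : D3g fun (N : Type) (S : (LP L').Structure N) => ∀ P, ∀ x, Pd S P x → V S x := by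
    refine D3g.all fun P => d3g_of (fimp (.rel (sP P) ![0]) (fV L' 0)) fun N S => ?_
    simp only [sat_fimp, sat_fV, sat_P]
    exact ⟨fun h x => h ![x, x, x], fun h v => h _⟩
  have r : D3g fun (N : Type) (S : (LP L').Structure N) => ∀ R, ∀ x, Rd S R x → ¬ V S x := by
    refine D3g.all fun R => d3g_of (fimp (.rel (sR R) ![0]) (.neg (fV L' 0))) fun N S => ?_
    simp only [sat_fimp, sat_neg, sat_fV, sat_R]
    exact ⟨fun h x => h ![x, x, x], fun h v => h _⟩
  refine (e1.and (a1.and (a2.and (b1.and (b2.and (c.and (d.and (u.and r)))))))).congr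
    fun N _ S => ?_
  constructor
  · rintro ⟨h1, h2, h3, h4, h5, h6, h7, h8, h9⟩
    exact ⟨h1, h2, h3, h4, h5, h6, h7, h8, h9⟩
  · intro h
    exact ⟨h.e1, h.a1, h.a2, h.b1, h.b2, h.c, h.d, h.u, h.r⟩

theorem d3g_KK (hL : ∀ n, Countable (L'.Relations n)) (φ : FV L' 3) :
    D3g fun (N : Type) (S : (LP L').Structure N) => KK φ S := by
  refine (d3g_gd hL).and (d3g_of (fimp (fand (fV L' 0) (fand (fV L' 1) (fV L' 2))) (tr φ))
    fun N S => ?_)
  simp only [sat_fimp, sat_fand, sat_fV]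
  constructor
  · intro h v hv
    exact h v ⟨hv 0, hv 1, hv 2⟩
  · rintro h v ⟨h0, h1, h2⟩
    refine h v fun i => ?_
    match i with
    | 0 => exact h0
    | 1 => exact h1
    | 2 => exact h2

/-- no finite models -/
def NoFin (φ : FV L' 3) : Prop :=
  ∀ (N : Type), Nonempty N → ∀ S : L'.Structure N, (∀ v, φ.Sat S v) → Infinite N

theorem KK_infinite [∀ n, IsEmpty (L'.Functions n)] {φ : FV L' 3} (hφ : NoFin φ) {N : Type}
    (hN : Nonempty N) {S : (LP L').Structure N} (h : KK φ S) : Infinite N := by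
  rw [KK_iff] at h
  have hV : Nonempty {x // V S x} := by
    obtain ⟨p⟩ := hN
    by_cases hp : V S p
    · exact ⟨p, hp⟩
    · exact ⟨fA h.1 p hp⟩
  have := hφ _ hV _ h.2
  exact Infinite.of_injective (fun x : {x // V S x} => x.1) Subtype.val_injective

end KK

end Pool.Agent.CTQ.SH
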