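import Pool.Agent.CTQ.SHG

/-!
Three variables, one binary symbol and nothing else, second part (helper97): coding of countably
many unary symbols and one binary symbol by one binary relation.

`o` is the only element with a loop, `c_0 -> c_1 -> ...` is a chain of elements with `E o c_i` and
only `E c_0 o`; the unary predicate number `i` holds at `x` iff `E x c_i`.
-/

set_option autoImplicit false
set_option linter.unusedSectionVars false
set_option linter.unusedVariables false

namespace Pool.Agent.CTQ.SG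

open FirstOrder Set Pool.Agent.Helper6.Str VPF VPF.CC
open FirstOrder.Language
open Pool.Agent.CTQ.SH (one_eq two_eq)

/-- one binary relation symbol -/
def RelE : ℕ → Type
  | 2 => Unit
  | _ => Empty

/-- the language with one binary relation symbol and no other symbols -/
def LE : FirstOrder.Language.{0, 0} := ⟨fun _ => Empty, RelE⟩

instance (n : ℕ) : IsEmpty (LE.Functions n) := inferInstanceAs (IsEmpty Empty)

theorem isEmpty_rel {n : ℕ} (h2 : n ≠ 2) : IsEmpty (LE.Relations n) := by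
  match n, h2 with
  | 0, _ => exact inferInstanceAs (IsEmpty Empty)
  | 1, _ => exact inferInstanceAs (IsEmpty Empty)
  | 2, h => exact absurd rfl h
  | (n + 3), _ => exact inferInstanceAs (IsEmpty Empty)

theorem countable_rel (n : ℕ) : Countable (LE.Relations n) := by
  match n with
  | 0 => exact inferInstanceAs (Countable Empty)
  | 1 => exact inferInstanceAs (Countable Empty)
  | 2 => exact inferInstanceAs (Countable Unit)
  | (n + 3) => exact inferInstanceAs (Countable Empty)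

theorem subsingleton_two : Subsingleton (LE.Relations 2) := inferInstanceAs (Subsingleton Unit)

def sE : LE.Relations 2 := (() : RelE 2)

section sem

variable {N : Type} (T : LE.Structure N)

def E (x y : N) : Prop := T.RelMap sE ![x, y]
/-- the chain -/
def C (x : N) : Prop := ¬ E T x x ∧ ∃ o, E T o o ∧ E T o x
/-- the main part -/
def W (x : N) : Prop := ¬ E T x x ∧ ¬ ∃ o, E T o o ∧ E T o x
/-- the `n`-th element of the chain -/
def ga : ℕ → N → Prop
  | 0, x => C T x ∧ ∃ o, E T o o ∧ E T x o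
  | n + 1, x => C T x ∧ ∃ y, ga n y ∧ E T y x

theorem ga_C {n : ℕ} {x : N} (h : ga T n x) : C T x := by
  cases n with
  | zero => exact h.1
  | succ n => exact h.1

end sem

section code

variable {L : FirstOrder.Language.{0, 0}} (ι : L.Relations 1 → ℕ)

/-- the numbers in use -/
def Ix (i : ℕ) : Prop := (i = 0 ∧ Nonempty (L.Relations 2)) ∨ ∃ P, i = ι P + 1

/-- the coding structures -/
structure Gd {N : Type} (T : LE.Structure N) : Prop where
  o1 : ∃ o, E T o o
  o2 : ∀ x y, E T x x → E T y y → x = y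
  g1 : ∀ x, C T x → ∃ n, ga T n x
  g2 : ∀ n, ∃ x, ga T n x
  g3 : ∀ n x y, ga T n x → ga T n y → x = y
  g4 : ∀ m n, m ≠ n → ∀ x, ga T m x → ¬ ga T n x
  g5 : ∀ x y, C T x → W T y → ¬ E T x y
  g6 : ∀ x y, W T x → E T y y → ¬ E T x y
  g7 : ∀ i, ¬ Ix ι i → ∀ x y, W T x → ga T i y → ¬ E T x y
  g8 : IsEmpty (L.Relations 2) → ∀ x y, W T x → W T y → ¬ E T x y
  g9 : ∃ x, W T x

/-- the decoded relations -/
def rl {N : Type} (T : LE.Structure N) : ∀ {n : ℕ}, L.Relations n → (Fin n → N) → Prop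
  | 1, P, w => ∃ c, ga T (ι P + 1) c ∧ E T (w 0) c
  | 2, R, w => (w 0 = w 1 ∧ ∃ c, ga T 0 c ∧ E T (w 0) c) ∨ (w 0 ≠ w 1 ∧ E T (w 0) (w 1))
  | 0, _, _ => False
  | (_ + 3), _, _ => False

variable [∀ n, IsEmpty (L.Functions n)]

/-- the decoded structure -/
@[instance_reducible]
def PSt {N : Type} (T : LE.Structure N) : L.Structure {x // W T x} where
  funMap := fun f _ => isEmptyElim f
  RelMap := fun R w => rl ι T R fun i => (w i).1

variable {M : Type}

/-- the edges of the code of `S` -/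
def ed (S : L.Structure M) : M ⊕ Option ℕ → M ⊕ Option ℕ → Prop
  | .inl x, .inl y => x ≠ y ∧ ∃ R, S.RelMap R ![x, y]
  | .inl _, .inr none => False
  | .inl x, .inr (some i) => (i = 0 ∧ ∃ R, S.RelMap R ![x, x]) ∨
      ∃ P, i = ι P + 1 ∧ S.RelMap P ![x]
  | .inr none, .inl _ => False
  | .inr (some _), .inl _ => False
  | .inr none, .inr _ => True
  | .inr (some i), .inr none => i = 0
  | .inr (some i), .inr (some j) => j = i + 1

/-- the code of `S` -/
@[instance_reducible]
def Std (S : L.Structure M) : LE.Structure (M ⊕ Option ℕ) where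
  funMap := fun f _ => isEmptyElim f
  RelMap := fun {n} R w => match n, R, w with
    | 2, (() : RelE 2), w => ed ι S (w 0) (w 1)
    | 0, _, _ => False
    | 1, _, _ => False
    | (_ + 3), _, _ => False

variable (S : L.Structure M)

theorem std_E (z w : M ⊕ Option ℕ) : E (Std ι S) z w ↔ ed ι S z w := Iff.rfl

theorem std_loop (z : M ⊕ Option ℕ) : E (Std ι S) z z ↔ z = Sum.inr none := by
  rw [std_E]
  rcases z with x | (_ | i)
  · exact ⟨fun h => absurd rfl h.1, fun h => by simp at h⟩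
  · exact ⟨fun _ => rfl, fun _ => trivial⟩
  · constructor
    · intro h
      have h1 : i = i + 1 := h
      omega
    · intro h
      simp at h

theorem std_oz (z : M ⊕ Option ℕ) : (∃ o, E (Std ι S) o o ∧ E (Std ι S) o z) ↔
    ∃ a, z = Sum.inr a := by
  constructor
  · rintro ⟨o, h1, h2⟩
    rw [std_loop] at h1
    subst h1
    rcases z with x | a
    · exact h2.elim
    · exact ⟨a, rfl⟩
  · rintro ⟨a, rfl⟩
    exact ⟨Sum.inr none, (std_loop ι S _).2 rfl, trivial⟩

theorem std_W (z : M ⊕ Option ℕ) : W (Std ι S) z ↔ ∃ x, z = Sum.inl x := by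
  unfold W
  rw [std_loop, std_oz]
  rcases z with x | a
  · simp
  · simp

theorem std_C (z : M ⊕ Option ℕ) : C (Std ι S) z ↔ ∃ i, z = Sum.inr (some i) := by
  unfold C
  rw [std_loop, std_oz]
  rcases z with x | (_ | i)
  · simp
  · simp
  · simp

theorem std_ga (n : ℕ) : ∀ z : M ⊕ Option ℕ, ga (Std ι S) n z ↔ z = Sum.inr (some n) := by
  induction n with
  | zero =>
    intro z
    show (C (Std ι S) z ∧ ∃ o, E (Std ι S) o o ∧ E (Std ι S) z o) ↔ _
    rw [std_C]
    constructor
    · rintro ⟨⟨i, rfl⟩, o, h1, h2⟩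
      rw [std_loop] at h1
      subst h1
      have h3 : i = 0 := h2
      rw [h3]
    · rintro rfl
      exact ⟨⟨0, rfl⟩, Sum.inr none, (std_loop ι S _).2 rfl, rfl⟩
  | succ n ih =>
    intro z
    show (C (Std ι S) z ∧ ∃ y, ga (Std ι S) n y ∧ E (Std ι S) y z) ↔ _
    rw [std_C]
    constructor
    · rintro ⟨⟨i, rfl⟩, y, h1, h2⟩
      rw [ih] at h1
      subst h1
      have h3 : i = n + 1 := h2
      rw [h3]
    · rintro rfl
      exact ⟨⟨n + 1, rfl⟩, Sum.inr (some n), (ih _).2 rfl, rfl⟩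

theorem gd_std [Nonempty M] : Gd ι (Std ι S) where
  o1 := ⟨Sum.inr none, (std_loop ι S _).2 rfl⟩
  o2 := by
    intro x y hx hy
    rw [std_loop] at hx hy
    rw [hx, hy]
  g1 := by
    intro x hx
    obtain ⟨i, rfl⟩ := (std_C ι S x).1 hx
    exact ⟨i, (std_ga ι S i _).2 rfl⟩
  g2 := fun n => ⟨_, (std_ga ι S n _).2 rfl⟩
  g3 := by
    intro n x y hx hy
    rw [std_ga] at hx hy
    rw [hx, hy]
  g4 := by
    intro m n hmn x hx hy
    rw [std_ga] at hx hy
    rw [hx] at hy
    have h1 := Option.some_injective _ (Sum.inr_injective hy)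
    exact hmn h1
  g5 := by
    intro x y hx hy h
    obtain ⟨i, rfl⟩ := (std_C ι S x).1 hx
    obtain ⟨y, rfl⟩ := (std_W ι S y).1 hy
    exact h
  g6 := by
    intro x y hx hy h
    obtain ⟨x, rfl⟩ := (std_W ι S x).1 hx
    rw [std_loop] at hy
    subst hy
    exact h
  g7 := by
    intro i hi x y hx hy h
    obtain ⟨x, rfl⟩ := (std_W ι S x).1 hx
    rw [std_ga] at hy
    subst hy
    rcases h with ⟨h1, R, _⟩ | ⟨P, h1, _⟩
    · exact hi (Or.inl ⟨h1, ⟨R⟩⟩)
    · exact hi (Or.inr ⟨P, h1⟩)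
  g8 := by
    intro hE x y hx hy h
    obtain ⟨x, rfl⟩ := (std_W ι S x).1 hx
    obtain ⟨y, rfl⟩ := (std_W ι S y).1 hy
    obtain ⟨_, R, _⟩ := h
    exact hE.elim R
  g9 := by
    obtain ⟨x⟩ := ‹Nonempty M›
    exact ⟨Sum.inl x, (std_W ι S _).2 ⟨x, rfl⟩⟩

variable (hA : ∀ n, n ≠ 1 → n ≠ 2 → IsEmpty (L.Relations n)) (hs : Subsingleton (L.Relations 2))
  (hι : Function.Injective ι)

include hA hs hι in
/-- decoding the code -/
theorem pst_std : Iso (PSt ι (Std ι S)) S := by
  let e : {z // W (Std ι S) z} ≃ M :=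
    { toFun := fun z => ((std_W ι S z.1).1 z.2).choose
      invFun := fun x => ⟨Sum.inl x, (std_W ι S _).2 ⟨x, rfl⟩⟩
      left_inv := fun z => Subtype.ext ((std_W ι S z.1).1 z.2).choose_spec.symm
      right_inv := fun x => by
        have h : ∃ y, (Sum.inl x : M ⊕ Option ℕ) = Sum.inl y := ⟨x, rfl⟩
        exact (Sum.inl_injective h.choose_spec).symm }
  have he : ∀ z : {z // W (Std ι S) z}, z.1 = Sum.inl (e z) :=
    fun z => ((std_W ι S z.1).1 z.2).choose_spec
  refine ⟨e, fun n R w => ?_⟩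
  match n, R, w with
  | 0, R, w => exact (hA 0 (by omega) (by omega)).elim R
  | 1, P, w =>
    show (∃ c, ga (Std ι S) (ι P + 1) c ∧ E (Std ι S) (w 0).1 c) ↔ _
    rw [one_eq (e ∘ w), he]
    show _ ↔ S.RelMap P ![e (w 0)]
    constructor
    · rintro ⟨c, h1, h2⟩
      rw [std_ga] at h1
      subst h1
      rcases h2 with ⟨h3, _⟩ | ⟨P', h3, h4⟩
      · omega
      · have h5 : P = P' := hι (by omega)
        rw [h5]
        exact h4
    · intro h
      exact ⟨_, (std_ga ι S _ _).2 rfl, Or.inr ⟨P, rfl, h⟩⟩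
  | 2, R, w =>
    show (((w 0).1 = (w 1).1 ∧ ∃ c, ga (Std ι S) 0 c ∧ E (Std ι S) (w 0).1 c) ∨
      ((w 0).1 ≠ (w 1).1 ∧ E (Std ι S) (w 0).1 (w 1).1)) ↔ _
    rw [two_eq (e ∘ w), he, he]
    show _ ↔ S.RelMap R ![e (w 0), e (w 1)]
    constructor
    · rintro (⟨h1, c, h2, h3⟩ | ⟨h1, h2⟩)
      · rw [← Sum.inl_injective h1]
        rw [std_ga] at h2
        subst h2
        rcases h3 with ⟨_, R', h4⟩ | ⟨P', h4, _⟩
        · rwa [Subsingleton.elim R R']
        · omega
      · obtain ⟨_, R', h3⟩ := h2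
        rwa [Subsingleton.elim R R']
    · intro h
      by_cases h1 : e (w 0) = e (w 1)
      · left
        rw [← h1] at h
        refine ⟨by rw [h1], _, (std_ga ι S 0 _).2 rfl, Or.inl ⟨rfl, R, h⟩⟩
      · right
        exact ⟨fun h2 => h1 (Sum.inl_injective h2), h1, R, h⟩
  | (n + 3), R, w => exact (hA (n + 3) (by omega) (by omega)).elim R

end code

/-! ### Every coding structure is standard -/

section std

variable {L : FirstOrder.Language.{0, 0}} (ι : L.Relations 1 → ℕ) [∀ n, IsEmpty (L.Functions n)]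
  {N : Type} {T : LE.Structure N}

theorem Gd.cases (h : Gd ι T) (x : N) : W T x ∨ E T x x ∨ ∃ n, ga T n x := by
  by_cases h1 : E T x x
  · exact Or.inr (Or.inl h1)
  · by_cases h2 : ∃ o, E T o o ∧ E T o x
    · exact Or.inr (Or.inr (h.g1 x ⟨h1, h2⟩))
    · exact Or.inl ⟨h1, h2⟩

open Classical in
/-- the coordinates in the code -/
noncomputable def toC (h : Gd ι T) (x : N) : {x // W T x} ⊕ Option ℕ :=
  if hx : W T x then Sum.inl ⟨x, hx⟩
  else if hy : E T x x then Sum.inr none
  else Sum.inr (some (((h.cases ι x).resolve_left hx).resolve_left hy).choose)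

theorem toC_W (h : Gd ι T) {x : N} (hx : W T x) : toC ι h x = Sum.inl ⟨x, hx⟩ := dif_pos hx

theorem toC_o (h : Gd ι T) {x : N} (hx : E T x x) : toC ι h x = Sum.inr none := by
  have h1 : ¬ W T x := fun h2 => h2.1 hx
  unfold toC
  rw [dif_neg h1, dif_pos hx]

theorem toC_ga (h : Gd ι T) {x : N} {n : ℕ} (hx : ga T n x) :
    toC ι h x = Sum.inr (some n) := by
  have hC := ga_C T hx
  have h1 : ¬ W T x := fun h2 => h2.2 hC.2
  have h2 : ¬ E T x x := hC.1
  unfold toC
  rw [dif_neg h1, dif_neg h2]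
  have h3 := (((h.cases ι x).resolve_left h1).resolve_left h2).choose_spec
  congr 2
  by_contra h4
  exact h.g4 _ _ h4 x h3 hx

theorem toC_bij (h : Gd ι T) : Function.Bijective (toC ι h) := by
  constructor
  · intro x y hxy
    rcases h.cases ι x with hx | hx | ⟨n, hx⟩
    · rcases h.cases ι y with hy | hy | ⟨m, hy⟩
      · rw [toC_W ι h hx, toC_W ι h hy] at hxy
        exact Subtype.ext_iff.1 (Sum.inl_injective hxy)
      · rw [toC_W ι h hx, toC_o ι h hy] at hxy
        exact absurd hxy (by simp)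
      · rw [toC_W ι h hx, toC_ga ι h hy] at hxy
        exact absurd hxy (by simp)
    · rcases h.cases ι y with hy | hy | ⟨m, hy⟩
      · rw [toC_o ι h hx, toC_W ι h hy] at hxy
        exact absurd hxy (by simp)
      · exact h.o2 x y hx hy
      · rw [toC_o ι h hx, toC_ga ι h hy] at hxy
        exact absurd hxy (by simp)
    · rcases h.cases ι y with hy | hy | ⟨m, hy⟩
      · rw [toC_ga ι h hx, toC_W ι h hy] at hxy
        exact absurd hxy (by simp)
      · rw [toC_ga ι h hx, toC_o ι h hy] at hxy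
        exact absurd hxy (by simp)
      · rw [toC_ga ι h hx, toC_ga ι h hy] at hxy
        have h1 := Option.some_injective _ (Sum.inr_injective hxy)
        subst h1
        exact h.g3 n x y hx hy
  · rintro (⟨x, hx⟩ | (_ | n))
    · exact ⟨x, toC_W ι h hx⟩
    · obtain ⟨o, ho⟩ := h.o1
      exact ⟨o, toC_o ι h ho⟩
    · obtain ⟨x, hx⟩ := h.g2 n
      exact ⟨x, toC_ga ι h hx⟩

/-- a coding structure is standard -/
theorem iso_std (h : Gd ι T) : Iso T (Std ι (PSt ι T)) := by
  refine ⟨Equiv.ofBijective (toC ι h) (toC_bij ι h), fun n R w => ?_⟩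
  match n, R, w with
  | 0, R, w => exact (isEmpty_rel (n := 0) (by omega)).elim R
  | 1, R, w => exact (isEmpty_rel (n := 1) (by omega)).elim R
  | 2, (() : RelE 2), w =>
    show _ ↔ ed ι (PSt ι T) (toC ι h (w 0)) (toC ι h (w 1))
    rw [two_eq w]
    show E T (w 0) (w 1) ↔ ed ι (PSt ι T) (toC ι h (w 0)) (toC ι h (w 1))
    generalize w 0 = x
    generalize w 1 = y
    rcases h.cases ι x with hx | hx | ⟨n, hx⟩
    · rcases h.cases ι y with hy | hy | ⟨m, hy⟩
      · rw [toC_W ι h hx, toC_W ι h hy]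
        constructor
        · intro h1
          have h2 : x ≠ y := by
            rintro rfl
            exact hx.1 h1
          have h3 : Nonempty (L.Relations 2) := by
            by_contra h3
            exact h.g8 (not_nonempty_iff.1 h3) x y hx hy h1
          obtain ⟨R⟩ := h3
          exact ⟨fun h4 => h2 (Subtype.ext_iff.1 h4), R, Or.inr ⟨h2, h1⟩⟩
        · rintro ⟨h1, R, h2 | h2⟩
          · exact absurd (Subtype.ext h2.1) h1
          · exact h2.2
      · rw [toC_W ι h hx, toC_o ι h hy]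
        exact ⟨fun h1 => h.g6 x y hx hy h1, fun h1 => h1.elim⟩
      · rw [toC_W ι h hx, toC_ga ι h hy]
        constructor
        · intro h1
          have h2 : Ix ι m := by
            by_contra h2
            exact h.g7 m h2 x y hx hy h1
          rcases h2 with ⟨h2, ⟨R⟩⟩ | ⟨P, h2⟩
          · subst h2
            exact Or.inl ⟨rfl, R, Or.inl ⟨rfl, y, hy, h1⟩⟩
          · subst h2
            exact Or.inr ⟨P, rfl, y, hy, h1⟩
        · rintro (⟨h1, R, h2 | h2⟩ | ⟨P, h1, c, h2, h3⟩)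
          · subst h1
            obtain ⟨_, c, h3, h4⟩ := h2
            rw [h.g3 0 y c hy h3]
            exact h4
          · exact absurd rfl h2.1
          · subst h1
            rw [h.g3 _ y c hy h2]
            exact h3
    · rw [toC_o ι h hx]
      rcases h.cases ι y with hy | hy | ⟨m, hy⟩
      · rw [toC_W ι h hy]
        exact ⟨fun h1 => hy.2 ⟨x, hx, h1⟩, fun h1 => h1.elim⟩
      · rw [toC_o ι h hy]
        refine ⟨fun _ => trivial, fun _ => ?_⟩
        rw [h.o2 y x hy hx]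
        exact hx
      · rw [toC_ga ι h hy]
        refine ⟨fun _ => trivial, fun _ => ?_⟩
        obtain ⟨o, h1, h2⟩ := (ga_C T hy).2
        rw [h.o2 x o hx h1]
        exact h2
    · rw [toC_ga ι h hx]
      rcases h.cases ι y with hy | hy | ⟨m, hy⟩
      · rw [toC_W ι h hy]
        exact ⟨fun h1 => h.g5 x y (ga_C T hx) hy h1, fun h1 => h1.elim⟩
      · rw [toC_o ι h hy]
        constructor
        · intro h1
          have h2 : ga T 0 x := ⟨ga_C T hx, y, hy, h1⟩
          by_contra h3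
          exact h.g4 n 0 h3 x hx h2
        · intro h1
          have h2 : n = 0 := h1
          subst h2
          obtain ⟨_, o, h3, h4⟩ := hx
          rw [h.o2 y o hy h3]
          exact h4
      · rw [toC_ga ι h hy]
        constructor
        · intro h1
          have h2 : ga T (n + 1) y := ⟨ga_C T hy, x, hx, h1⟩
          show m = n + 1
          by_contra h3
          exact h.g4 m (n + 1) h3 y hy h2
        · intro h1
          have h2 : m = n + 1 := h1
          subst h2
          obtain ⟨_, z, h3, h4⟩ := hy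
          rw [h.g3 n x z hx h3]
          exact h4
  | (n + 3), R, w => exact (isEmpty_rel (n := n + 3) (by omega)).elim R

/-! ### Isomorphisms -/

section iso

variable {N' : Type} {T' : LE.Structure N'} {e : N ≃ N'}

theorem relIso_E (he : RelIso T T' e) (x y : N) : E T x y ↔ E T' (e x) (e y) := by
  have h := he 2 sE ![x, y]
  rwa [two_eq (e ∘ ![x, y])] at h

theorem relIso_ex (he : RelIso T T' e) (x : N) :
    (∃ o, E T o o ∧ E T o x) ↔ ∃ o, E T' o o ∧ E T' o (e x) := by
  constructor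
  · rintro ⟨o, h1, h2⟩
    exact ⟨e o, (relIso_E he _ _).1 h1, (relIso_E he _ _).1 h2⟩
  · rintro ⟨o, h1, h2⟩
    refine ⟨e.symm o, (relIso_E he _ _).2 ?_, (relIso_E he _ _).2 ?_⟩
    · rwa [e.apply_symm_apply]
    · rwa [e.apply_symm_apply]

theorem relIso_W (he : RelIso T T' e) (x : N) : W T x ↔ W T' (e x) := by
  unfold W
  rw [relIso_E he x x, relIso_ex he x]

theorem relIso_C (he : RelIso T T' e) (x : N) : C T x ↔ C T' (e x) := by
  unfold C
  rw [relIso_E he x x, relIso_ex he x]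

theorem relIso_ga (he : RelIso T T' e) (n : ℕ) : ∀ x : N, ga T n x ↔ ga T' n (e x) := by
  induction n with
  | zero =>
    intro x
    show (C T x ∧ ∃ o, E T o o ∧ E T x o) ↔ (C T' (e x) ∧ ∃ o, E T' o o ∧ E T' (e x) o)
    rw [relIso_C he x]
    refine and_congr_right fun _ => ⟨?_, ?_⟩
    · rintro ⟨o, h1, h2⟩
      exact ⟨e o, (relIso_E he _ _).1 h1, (relIso_E he _ _).1 h2⟩
    · rintro ⟨o, h1, h2⟩
      refine ⟨e.symm o, (relIso_E he _ _).2 ?_, (relIso_E he _ _).2 ?_⟩
      · rwa [e.apply_symm_apply]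
      · rwa [e.apply_symm_apply]
  | succ n ih =>
    intro x
    show (C T x ∧ ∃ y, ga T n y ∧ E T y x) ↔ (C T' (e x) ∧ ∃ y, ga T' n y ∧ E T' y (e x))
    rw [relIso_C he x]
    refine and_congr_right fun _ => ⟨?_, ?_⟩
    · rintro ⟨o, h1, h2⟩
      exact ⟨e o, (ih _).1 h1, (relIso_E he _ _).1 h2⟩
    · rintro ⟨o, h1, h2⟩
      refine ⟨e.symm o, (ih _).2 ?_, (relIso_E he _ _).2 ?_⟩
      · rwa [e.apply_symm_apply]
      · rwa [e.apply_symm_apply]

end iso

theorem pst_iso {N' : Type} {T' : LE.Structure N'} (h : Iso T T') :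
    Iso (PSt ι T) (PSt ι T') := by
  obtain ⟨e, he⟩ := h
  refine ⟨e.subtypeEquiv fun x => relIso_W he x, fun n R w => ?_⟩
  match n, R, w with
  | 0, R, w => exact Iff.rfl
  | 1, P, w =>
    show (∃ c, ga T (ι P + 1) c ∧ E T (w 0).1 c) ↔
      ∃ c, ga T' (ι P + 1) c ∧ E T' (e (w 0).1) c
    constructor
    · rintro ⟨c, h1, h2⟩
      exact ⟨e c, (relIso_ga he _ _).1 h1, (relIso_E he _ _).1 h2⟩
    · rintro ⟨c, h1, h2⟩
      refine ⟨e.symm c, (relIso_ga he _ _).2 ?_, (relIso_E he _ _).2 ?_⟩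
      · rwa [e.apply_symm_apply]
      · rwa [e.apply_symm_apply]
  | 2, R, w =>
    show (((w 0).1 = (w 1).1 ∧ ∃ c, ga T 0 c ∧ E T (w 0).1 c) ∨
      ((w 0).1 ≠ (w 1).1 ∧ E T (w 0).1 (w 1).1)) ↔
      ((e (w 0).1 = e (w 1).1 ∧ ∃ c, ga T' 0 c ∧ E T' (e (w 0).1) c) ∨
      (e (w 0).1 ≠ e (w 1).1 ∧ E T' (e (w 0).1) (e (w 1).1)))
    rw [e.injective.eq_iff, e.injective.ne_iff, ← relIso_E he]
    refine or_congr_left (and_congr_right fun _ => ?_)
    constructor
    · rintro ⟨c, h1, h2⟩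
      exact ⟨e c, (relIso_ga he _ _).1 h1, (relIso_E he _ _).1 h2⟩
    · rintro ⟨c, h1, h2⟩
      refine ⟨e.symm c, (relIso_ga he _ _).2 ?_, (relIso_E he _ _).2 ?_⟩
      · rwa [e.apply_symm_apply]
      · rwa [e.apply_symm_apply]
  | (n + 3), R, w => exact Iff.rfl

theorem gd_iso {N' : Type} {T' : LE.Structure N'} (h : Iso T T') (hT : Gd ι T) : Gd ι T' := by
  obtain ⟨e, he⟩ := h.symm
  have hE := relIso_E he
  have hW := relIso_W he
  have hC := relIso_C he
  have hga := relIso_ga he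
  constructor
  · obtain ⟨o, ho⟩ := hT.o1
    refine ⟨e.symm o, (hE _ _).2 ?_⟩
    rwa [e.apply_symm_apply]
  · intro x y hx hy
    exact e.injective (hT.o2 _ _ ((hE _ _).1 hx) ((hE _ _).1 hy))
  · intro x hx
    obtain ⟨n, hn⟩ := hT.g1 _ ((hC x).1 hx)
    exact ⟨n, (hga n x).2 hn⟩
  · intro n
    obtain ⟨x, hx⟩ := hT.g2 n
    refine ⟨e.symm x, (hga n _).2 ?_⟩
    rwa [e.apply_symm_apply]
  · intro n x y hx hy
    exact e.injective (hT.g3 n _ _ ((hga n x).1 hx) ((hga n y).1 hy))
  · intro m n hmn x hx hy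
    exact hT.g4 m n hmn _ ((hga m x).1 hx) ((hga n x).1 hy)
  · intro x y hx hy h1
    exact hT.g5 _ _ ((hC x).1 hx) ((hW y).1 hy) ((hE _ _).1 h1)
  · intro x y hx hy h1
    exact hT.g6 _ _ ((hW x).1 hx) ((hE _ _).1 hy) ((hE _ _).1 h1)
  · intro i hi x y hx hy h1
    exact hT.g7 i hi _ _ ((hW x).1 hx) ((hga i y).1 hy) ((hE _ _).1 h1)
  · intro h0 x y hx hy h1
    exact hT.g8 h0 _ _ ((hW x).1 hx) ((hW y).1 hy) ((hE _ _).1 h1)
  · obtain ⟨x, hx⟩ := hT.g9
    refine ⟨e.symm x, (hW _).2 ?_⟩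
    rwa [e.apply_symm_apply]

theorem std_iso {M M' : Type} {S : L.Structure M} {S' : L.Structure M'} (h : Iso S S') :
    Iso (Std ι S) (Std ι S') := by
  obtain ⟨e, he⟩ := h
  have h1 : ∀ P x, S.RelMap P ![x] ↔ S'.RelMap P ![e x] := fun P x => by
    have h := he 1 P ![x]
    rwa [one_eq (e ∘ ![x])] at h
  have h2 : ∀ R x y, S.RelMap R ![x, y] ↔ S'.RelMap R ![e x, e y] := fun R x y => by
    have h := he 2 R ![x, y]
    rwa [two_eq (e ∘ ![x, y])] at h
  let f : M ⊕ Option ℕ ≃ M' ⊕ Option ℕ := Equiv.sumCongr e (Equiv.refl _)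
  have fl : ∀ x, f (Sum.inl x) = Sum.inl (e x) := fun x => rfl
  have fr : ∀ a, f (Sum.inr a) = Sum.inr a := fun x => rfl
  refine ⟨f, fun n R w => ?_⟩
  match n, R, w with
  | 0, R, w => exact (isEmpty_rel (n := 0) (by omega)).elim R
  | 1, R, w => exact (isEmpty_rel (n := 1) (by omega)).elim R
  | 2, (() : RelE 2), w =>
    show ed ι S (w 0) (w 1) ↔ ed ι S' (f (w 0)) (f (w 1))
    rcases w 0 with x | (_ | i)
    · rcases w 1 with y | (_ | j)
      · rw [fl, fl]
        show (x ≠ y ∧ ∃ R, S.RelMap R ![x, y]) ↔ (e x ≠ e y ∧ ∃ R, S'.RelMap R ![e x, e y])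
        rw [e.injective.ne_iff]
        simp only [h2]
      · rw [fl, fr]
        exact Iff.rfl
      · rw [fl, fr]
        show ((j = 0 ∧ ∃ R, S.RelMap R ![x, x]) ∨ ∃ P, j = ι P + 1 ∧ S.RelMap P ![x]) ↔
          ((j = 0 ∧ ∃ R, S'.RelMap R ![e x, e x]) ∨ ∃ P, j = ι P + 1 ∧ S'.RelMap P ![e x])
        simp only [h1, h2]
    · rcases w 1 with y | b
      · rw [fl, fr]
        exact Iff.rfl
      · rw [fr, fr]
        exact Iff.rfl
    · rcases w 1 with y | (_ | j)
      · rw [fl, fr]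
        exact Iff.rfl
      · rw [fr, fr]
        exact Iff.rfl
      · rw [fr, fr]
        exact Iff.rfl
  | (n + 3), R, w => exact (isEmpty_rel (n := n + 3) (by omega)).elim R

end std

end Pool.Agent.CTQ.SG
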