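import Pool.Agent.CTQ.SHH

/-!
Three variables, one binary symbol and nothing else, third part (helper97): translation,
definability, transfer; `thm_SHI`: if Vaught's conjecture holds for infinitary logic with three
variables (no counting) in the language with one binary relation symbol and no other symbols, then it
holds for infinitary logic in every countable relational language.
-/

set_option autoImplicit false
set_option linter.unusedSectionVars false
set_option linter.unusedVariables false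

namespace Pool.Agent.CTQ.SG

open FirstOrder Set Pool.Agent.Helper6.Str VPF VPF.CC
open FirstOrder.Language
open Pool.Agent.CTQ.SH (one_eq two_eq D3g d3g_of NoFin all_iso upd_comp copy_nat sat_inv)

/-! ### Formulas -/

def fE (i j : Fin 3) : FV LE 3 := .rel sE ![i, j]
/-- `x_i` is above the element with the loop -/
def fO (i : Fin 3) : FV LE 3 := .ex (i + 1) (fand (fE (i + 1) (i + 1)) (fE (i + 1) i))
def fC (i : Fin 3) : FV LE 3 := fand (.neg (fE i i)) (fO i)
def fW (i : Fin 3) : FV LE 3 := fand (.neg (fE i i)) (.neg (fO i))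
def fg : ℕ → Fin 3 → FV LE 3
  | 0, i => fand (fC i) (.ex (i + 1) (fand (fE (i + 1) (i + 1)) (fE i (i + 1))))
  | n + 1, i => fand (fC i) (.ex (i + 1) (fand (fg n (i + 1)) (fE (i + 1) i)))

section sat

variable {N : Type} (T : LE.Structure N)

theorem sat_ex {L : FirstOrder.Language.{0, 0}} {S : L.Structure N} (i : Fin 3)
    (φ : FV L 3) (v : Fin 3 → N) :
    (FV.ex i φ).Sat S v ↔ ∃ a, φ.Sat S (Function.update v i a) := Iff.rfl

theorem sat_neg {L : FirstOrder.Language.{0, 0}} {S : L.Structure N}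
    (φ : FV L 3) (v : Fin 3 → N) : (FV.neg φ).Sat S v ↔ ¬ φ.Sat S v := Iff.rfl

theorem sat_eq {L : FirstOrder.Language.{0, 0}} {S : L.Structure N}
    (i j : Fin 3) (v : Fin 3 → N) : (FV.eq i j : FV L 3).Sat S v ↔ v i = v j := Iff.rfl

theorem sat_fE (i j : Fin 3) (v : Fin 3 → N) : (fE i j).Sat T v ↔ E T (v i) (v j) := by
  show T.RelMap sE _ ↔ T.RelMap sE _
  rw [two_eq (fun k : Fin 2 => v ((![i, j] : Fin 2 → Fin 3) k))]
  rfl

theorem up (v : Fin 3 → N) (i : Fin 3) (a : N) :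
    Function.update v (i + 1) a i = v i ∧ Function.update v (i + 1) a (i + 1) = a :=
  ⟨Function.update_of_ne (ne_add_one i) _ _, Function.update_self _ _ _⟩

theorem sat_fO (i : Fin 3) (v : Fin 3 → N) :
    (fO i).Sat T v ↔ ∃ o, E T o o ∧ E T o (v i) := by
  unfold fO
  simp only [sat_ex, sat_fand, sat_fE, (up _ _ _).1, (up _ _ _).2]

theorem sat_fC (i : Fin 3) (v : Fin 3 → N) : (fC i).Sat T v ↔ C T (v i) := by
  unfold fC C
  simp only [sat_fand, sat_neg, sat_fE, sat_fO]

theorem sat_fW (i : Fin 3) (v : Fin 3 → N) : (fW i).Sat T v ↔ W T (v i) := by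
  unfold fW W
  simp only [sat_fand, sat_neg, sat_fE, sat_fO]

theorem sat_fg (n : ℕ) : ∀ (i : Fin 3) (v : Fin 3 → N), (fg n i).Sat T v ↔ ga T n (v i) := by
  induction n with
  | zero =>
    intro i v
    show (fand (fC i) (.ex (i + 1) (fand (fE (i + 1) (i + 1)) (fE i (i + 1))))).Sat T v ↔
      (C T (v i) ∧ ∃ o, E T o o ∧ E T (v i) o)
    simp only [sat_ex, sat_fand, sat_fE, sat_fC, (up _ _ _).1, (up _ _ _).2]
  | succ n ih =>
    intro i v
    show (fand (fC i) (.ex (i + 1) (fand (fg n (i + 1)) (fE (i + 1) i)))).Sat T v ↔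
      (C T (v i) ∧ ∃ y, ga T n y ∧ E T y (v i))
    simp only [sat_ex, sat_fand, sat_fE, sat_fC, ih, (up _ _ _).1, (up _ _ _).2]

end sat

section tr

variable {L : FirstOrder.Language.{0, 0}} (ι : L.Relations 1 → ℕ)

/-- translation of the atomic formulas -/
def trel : ∀ {n : ℕ}, L.Relations n → (Fin n → Fin 3) → FV LE 3
  | 1, P, w => .ex (w 0 + 1) (fand (fg (ι P + 1) (w 0 + 1)) (fE (w 0) (w 0 + 1)))
  | 2, R, w => .neg (fand
      (.neg (fand (.eq (w 0) (w 1)) (.ex (w 0 + 1) (fand (fg 0 (w 0 + 1)) (fE (w 0) (w 0 + 1))))))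
      (.neg (fand (.neg (.eq (w 0) (w 1))) (fE (w 0) (w 1)))))
  | 0, _, _ => .neg (.eq 0 0)
  | (_ + 3), _, _ => .neg (.eq 0 0)

/-- translation of the formulas with three variables -/
def tr : FV L 3 → FV LE 3
  | .eq i j => .eq i j
  | .rel R w => trel ι R w
  | .neg φ => .neg (tr φ)
  | .conj φ => .conj fun m => tr (φ m)
  | .ex i φ => .ex i (fand (fW i) (tr φ))

variable [∀ n, IsEmpty (L.Functions n)] {N : Type} (T : LE.Structure N)

theorem sat_trel {n : ℕ} (R : L.Relations n) (w : Fin n → Fin 3) (v : Fin 3 → {x // W T x}) :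
    (trel ι R w).Sat T (fun i => (v i).1) ↔ (PSt ι T).RelMap R fun i => v (w i) := by
  match n, R, w with
  | 0, R, w => exact ⟨fun h => (h rfl).elim, fun h => h.elim⟩
  | 1, P, w =>
    show (FV.ex (w 0 + 1) (fand (fg (ι P + 1) (w 0 + 1)) (fE (w 0) (w 0 + 1)))).Sat T
      (fun i => (v i).1) ↔ ∃ c, ga T (ι P + 1) c ∧ E T (v (w 0)).1 c
    simp only [sat_ex, sat_fand, sat_fE, sat_fg, (up _ _ _).1, (up _ _ _).2]
  | 2, R, w =>
    show (FV.neg (fand (.neg (fand (.eq (w 0) (w 1))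
      (.ex (w 0 + 1) (fand (fg 0 (w 0 + 1)) (fE (w 0) (w 0 + 1))))))
      (.neg (fand (.neg (.eq (w 0) (w 1))) (fE (w 0) (w 1)))))).Sat T (fun i => (v i).1) ↔
      (((v (w 0)).1 = (v (w 1)).1 ∧ ∃ c, ga T 0 c ∧ E T (v (w 0)).1 c) ∨
      ((v (w 0)).1 ≠ (v (w 1)).1 ∧ E T (v (w 0)).1 (v (w 1)).1))
    simp only [sat_ex, sat_neg, sat_eq, sat_fand, sat_fE, sat_fg, (up _ _ _).1, (up _ _ _).2]
    rw [not_and_or, not_not, not_not]
  | (n + 3), R, w => exact ⟨fun h => (h rfl).elim, fun h => h.elim⟩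

theorem sat_tr (φ : FV L 3) : ∀ v : Fin 3 → {x // W T x},
    (tr ι φ).Sat T (fun i => (v i).1) ↔ φ.Sat (PSt ι T) v := by
  induction φ with
  | eq i j =>
    intro v
    exact Subtype.ext_iff.symm
  | rel R w =>
    intro v
    exact sat_trel ι T R w v
  | neg φ ih =>
    intro v
    exact not_congr (ih v)
  | conj φ ih =>
    intro v
    exact forall_congr' fun m => ih m v
  | ex i φ ih =>
    intro v
    show (∃ a, (fand _ (tr ι φ)).Sat T (Function.update (fun i => (v i).1) i a)) ↔ _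
    constructor
    · rintro ⟨a, ha⟩
      rw [sat_fand, sat_fW, Function.update_self] at ha
      refine ⟨⟨a, ha.1⟩, (ih _).1 ?_⟩
      rw [← upd_comp (fun x : {x // W T x} => x.1) v i ⟨a, ha.1⟩]
      exact ha.2
    · rintro ⟨a, ha⟩
      refine ⟨a.1, ?_⟩
      rw [sat_fand, sat_fW, Function.update_self]
      refine ⟨a.2, ?_⟩
      rw [upd_comp (fun x : {x // W T x} => x.1) v i a]
      exact (ih _).2 ha

end tr

/-! ### Definability -/

section def3

variable {L : FirstOrder.Language.{0, 0}} (ι : L.Relations 1 → ℕ)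

/-- the class of the codes of the models of `φ` -/
def KK (φ : FV L 3) {N : Type} (T : LE.Structure N) : Prop :=
  Gd ι T ∧ ∀ v : Fin 3 → N, (∀ i, W T (v i)) → (tr ι φ).Sat T v

theorem upd0 {N : Type} (v : Fin 3 → N) (a : N) :
    Function.update v 0 a 0 = a ∧ Function.update v 0 a 1 = v 1 ∧ Function.update v 0 a 2 = v 2 :=
  ⟨Function.update_self _ _ _, Function.update_of_ne (by decide) _ _,
    Function.update_of_ne (by decide) _ _⟩

/-- a formula that is false everywhere -/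
def fF : FV LE 3 := .neg (.eq 0 0)

theorem d3g_gd : D3g fun (N : Type) (T : LE.Structure N) => Gd ι T := by
  classical
  have o1 : D3g fun (N : Type) (T : LE.Structure N) => ∃ o, E T o o := by
    refine ⟨.ex 0 (fE 0 0), fun N hN T => ?_⟩
    simp only [sat_ex, sat_fE, (upd0 _ _).1]
    exact ⟨fun h => h fun _ => hN.some, fun h _ => h⟩
  have o2 : D3g fun (N : Type) (T : LE.Structure N) => ∀ x y, E T x x → E T y y → x = y := by
    refine d3g_of (fimp (fE 0 0) (fimp (fE 1 1) (.eq 0 1))) fun N T => ?_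
    simp only [sat_fimp, sat_fE, sat_eq]
    exact ⟨fun h x y => h ![x, y, x], fun h v => h _ _⟩
  have g1 : D3g fun (N : Type) (T : LE.Structure N) => ∀ x, C T x → ∃ n, ga T n x := by
    refine d3g_of (fimp (fC 0) (.neg (.conj fun n => .neg (fg n 0)))) fun N T => ?_
    simp only [sat_fimp, sat_fC, sat_neg]
    have h1 : ∀ v : Fin 3 → N, (FV.conj fun n => FV.neg (fg n 0)).Sat T v ↔
        ∀ n, ¬ ga T n (v 0) := fun v => forall_congr' fun n => not_congr (sat_fg T n 0 v)
    simp only [h1, not_forall, not_not]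
    exact ⟨fun h x => h ![x, x, x], fun h v => h _⟩
  have g2 : D3g fun (N : Type) (T : LE.Structure N) => ∀ n, ∃ x, ga T n x := by
    refine D3g.all fun n => ⟨.ex 0 (fg n 0), fun N hN T => ?_⟩
    simp only [sat_ex, sat_fg, (upd0 _ _).1]
    exact ⟨fun h => h fun _ => hN.some, fun h _ => h⟩
  have g3 : D3g fun (N : Type) (T : LE.Structure N) =>
      ∀ n, ∀ x y, ga T n x → ga T n y → x = y := by
    refine D3g.all fun n => d3g_of (fimp (fg n 0) (fimp (fg n 1) (.eq 0 1))) fun N T => ?_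
    simp only [sat_fimp, sat_fg, sat_eq]
    exact ⟨fun h x y => h ![x, y, x], fun h v => h _ _⟩
  have g4 : D3g fun (N : Type) (T : LE.Structure N) =>
      ∀ m n, m ≠ n → ∀ x, ga T m x → ¬ ga T n x := by
    refine D3g.all fun m => D3g.all fun n => ?_
    by_cases hmn : m = n
    · exact d3g_of (.eq 0 0) fun N T => ⟨fun _ h => absurd hmn h, fun _ v => rfl⟩
    · refine d3g_of (fimp (fg m 0) (.neg (fg n 0))) fun N T => ?_
      simp only [sat_fimp, sat_fg, sat_neg]
      exact ⟨fun h _ x => h ![x, x, x], fun h v => h hmn _⟩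
  have g5 : D3g fun (N : Type) (T : LE.Structure N) => ∀ x y, C T x → W T y → ¬ E T x y := by
    refine d3g_of (fimp (fC 0) (fimp (fW 1) (.neg (fE 0 1)))) fun N T => ?_
    simp only [sat_fimp, sat_fC, sat_fW, sat_neg, sat_fE]
    exact ⟨fun h x y => h ![x, y, x], fun h v => h _ _⟩
  have g6 : D3g fun (N : Type) (T : LE.Structure N) =>
      ∀ x y, W T x → E T y y → ¬ E T x y := by
    refine d3g_of (fimp (fW 0) (fimp (fE 1 1) (.neg (fE 0 1)))) fun N T => ?_
    simp only [sat_fimp, sat_fW, sat_neg, sat_fE]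
    exact ⟨fun h x y => h ![x, y, x], fun h v => h _ _⟩
  have g7 : D3g fun (N : Type) (T : LE.Structure N) =>
      ∀ i, ¬ Ix ι i → ∀ x y, W T x → ga T i y → ¬ E T x y := by
    refine D3g.all fun i => ?_
    by_cases hi : Ix ι i
    · exact d3g_of (.eq 0 0) fun N T => ⟨fun _ h => absurd hi h, fun _ v => rfl⟩
    · refine d3g_of (fimp (fW 0) (fimp (fg i 1) (.neg (fE 0 1)))) fun N T => ?_
      simp only [sat_fimp, sat_fg, sat_fW, sat_neg, sat_fE]
      exact ⟨fun h _ x y => h ![x, y, x], fun h v => h hi _ _⟩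
  have g8 : D3g fun (N : Type) (T : LE.Structure N) =>
      IsEmpty (L.Relations 2) → ∀ x y, W T x → W T y → ¬ E T x y := by
    by_cases h0 : IsEmpty (L.Relations 2)
    · refine d3g_of (fimp (fW 0) (fimp (fW 1) (.neg (fE 0 1)))) fun N T => ?_
      simp only [sat_fimp, sat_fW, sat_neg, sat_fE]
      exact ⟨fun h _ x y => h ![x, y, x], fun h v => h h0 _ _⟩
    · exact d3g_of (.eq 0 0) fun N T => ⟨fun _ h => absurd h h0, fun _ v => rfl⟩
  have g9 : D3g fun (N : Type) (T : LE.Structure N) => ∃ x, W T x := by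
    refine ⟨.ex 0 (fW 0), fun N hN T => ?_⟩
    simp only [sat_ex, sat_fW, (upd0 _ _).1]
    exact ⟨fun h => h fun _ => hN.some, fun h _ => h⟩
  refine (o1.and (o2.and (g1.and (g2.and (g3.and (g4.and (g5.and (g6.and (g7.and
    (g8.and g9)))))))))).congr fun N _ T => ?_
  constructor
  · rintro ⟨h1, h2, h3, h4, h5, h6, h7, h8, h9, h10, h11⟩
    exact ⟨h1, h2, h3, h4, h5, h6, h7, h8, h9, h10, h11⟩
  · intro h
    exact ⟨h.o1, h.o2, h.g1, h.g2, h.g3, h.g4, h.g5, h.g6, h.g7, h.g8, h.g9⟩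

theorem d3g_KK (φ : FV L 3) : D3g fun (N : Type) (T : LE.Structure N) => KK ι φ T := by
  refine (d3g_gd ι).and (d3g_of (fimp (fand (fW 0) (fand (fW 1) (fW 2))) (tr ι φ))
    fun N T => ?_)
  simp only [sat_fimp, sat_fand, sat_fW]
  constructor
  · intro h v hv
    exact h v ⟨hv 0, hv 1, hv 2⟩
  · rintro h v ⟨h0, h1, h2⟩
    refine h v fun i => ?_
    match i with
    | 0 => exact h0
    | 1 => exact h1
    | 2 => exact h2

end def3

/-! ### Transfer -/

section transfer

variable {L : FirstOrder.Language.{0, 0}} (ι : L.Relations 1 → ℕ) [∀ n, IsEmpty (L.Functions n)]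

theorem KK_iff (φ : FV L 3) {N : Type} (T : LE.Structure N) :
    KK ι φ T ↔ Gd ι T ∧ ∀ v : Fin 3 → {x // W T x}, φ.Sat (PSt ι T) v := by
  refine and_congr_right fun _ => ?_
  constructor
  · intro h v
    exact (sat_tr ι T φ v).1 (h _ fun i => (v i).2)
  · intro h v hv
    exact (sat_tr ι T φ fun i => ⟨v i, hv i⟩).2 (h _)

theorem KK_iso (φ : FV L 3) {N N' : Type} {T : LE.Structure N} {T' : LE.Structure N'}
    (h : Iso T T') (hT : KK ι φ T) : KK ι φ T' := by
  rw [KK_iff] at hT ⊢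
  exact ⟨gd_iso ι h hT.1, all_iso (pst_iso ι h) φ hT.2⟩

variable (hA : ∀ n, n ≠ 1 → n ≠ 2 → IsEmpty (L.Relations n)) (hs : Subsingleton (L.Relations 2))
  (hι : Function.Injective ι)

include hA hs hι

theorem KK_std (φ : FV L 3) {M : Type} [Nonempty M] (S : L.Structure M)
    (h : ∀ v, φ.Sat S v) : KK ι φ (Std ι S) := by
  rw [KK_iff]
  exact ⟨gd_std ι S, all_iso (pst_std ι S hA hs hι).symm φ h⟩

theorem std_inj {M M' : Type} {S : L.Structure M} {S' : L.Structure M'}
    (h : Iso (Std ι S) (Std ι S')) : Iso S S' :=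
  (pst_std ι S hA hs hι).symm.trans ((pst_iso ι h).trans (pst_std ι S' hA hs hι))

theorem ctbl_transfer (φ : FV L 3) (h : CtblK {T : LE.Structure ℕ | KK ι φ T}) :
    CtblK (ModV φ) := by
  classical
  obtain ⟨G, hG⟩ := h
  let dflt : L.Structure ℕ := { funMap := fun f _ => isEmptyElim f, RelMap := fun _ _ => False }
  let gg : ℕ → L.Structure ℕ := fun n =>
    if h : ∃ S : L.Structure ℕ, Iso (Std ι S) (G n) then h.choose else dflt
  refine ⟨gg, fun S hS => ?_⟩
  obtain ⟨S', hS'⟩ := copy_nat (Std ι S)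
  obtain ⟨n, hn⟩ := hG S' (KK_iso ι φ hS' (KK_std ι hA hs hι φ S hS))
  have h2 : ∃ S : L.Structure ℕ, Iso (Std ι S) (G n) := ⟨S, hS'.trans hn⟩
  refine ⟨n, ?_⟩
  have hgg : gg n = h2.choose := dif_pos h2
  rw [hgg]
  exact std_inj ι hA hs hι ((hS'.trans hn).trans h2.choose_spec.symm)

omit hA hs hι

theorem inf_W {φ : FV L 3} (hφ : NoFin φ) {T : LE.Structure ℕ} (h : KK ι φ T) :
    {x | W T x}.Infinite := by
  rw [KK_iff] at h
  have hW : Nonempty {x // W T x} := by
    obtain ⟨x, hx⟩ := h.1.g9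
    exact ⟨x, hx⟩
  exact Set.infinite_coe_iff.1 (hφ _ hW _ h.2)

/-- the increasing enumeration of `W` -/
noncomputable def en {T : LE.Structure ℕ} (h : {x | W T x}.Infinite) : ℕ ≃ {x // W T x} := by
  classical
  refine Equiv.ofBijective (fun n => ⟨Nat.nth (· ∈ {x | W T x}) n,
    Nat.nth_mem_of_infinite h n⟩) ⟨?_, ?_⟩
  · intro a b hab
    exact Nat.nth_injective h (Subtype.ext_iff.mp hab)
  · rintro ⟨a, ha⟩
    exact ⟨Nat.count (· ∈ {x | W T x}) a, Subtype.ext (Nat.nth_count (p := (· ∈ {x | W T x})) ha)⟩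

/-- the decoded structure on `ℕ` -/
@[instance_reducible]
noncomputable def hh {T : LE.Structure ℕ} (h : {x | W T x}.Infinite) : L.Structure ℕ where
  funMap := fun f _ => isEmptyElim f
  RelMap := fun R w => (PSt ι T).RelMap R fun i => en h (w i)

theorem hh_iso {T : LE.Structure ℕ} (h : {x | W T x}.Infinite) :
    Iso (PSt ι T) (hh ι h) := by
  refine ⟨(en h).symm, fun n R v => ?_⟩
  show _ ↔ (PSt ι T).RelMap R fun i => en h ((en h).symm (v i))
  have h1 : (fun i => en h ((en h).symm (v i))) = v := by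
    funext i
    exact (en h).apply_symm_apply _
  rw [h1]

section top

variable {f : (ℕ → Bool) → LE.Structure ℕ} (hG : ∀ x, Gd ι (f x))
  (hI : ∀ x, {z | W (f x) z}.Infinite)
  (hcl : ∀ (n : ℕ) (R : LE.Relations n) (a : Fin n → ℕ), IsClopen {x | (f x).RelMap R a})

include hG hcl

theorem clopen_ex (c : ℕ) : IsClopen {x | ∃ o, E (f x) o o ∧ E (f x) o c} := by
  have h2 : ∀ c d, IsClopen {x | E (f x) c d} := fun c d => hcl 2 sE ![c, d]
  have e1 : {x | ∃ o, E (f x) o o ∧ E (f x) o c} =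
      ⋃ o, ({x | E (f x) o o} ∩ {x | E (f x) o c}) := by
    ext x
    simp only [mem_ofPred_eq, mem_iUnion, mem_inter_iff]
  have e2 : {x | ∃ o, E (f x) o o ∧ E (f x) o c}ᶜ =
      ⋃ o, ({x | E (f x) o o} ∩ {x | E (f x) o c}ᶜ) := by
    ext x
    simp only [mem_compl_iff, mem_ofPred_eq, mem_iUnion, mem_inter_iff]
    constructor
    · intro h
      obtain ⟨o, ho⟩ := (hG x).o1
      exact ⟨o, ho, fun h1 => h ⟨o, ho, h1⟩⟩
    · rintro ⟨o, ho, h1⟩ ⟨o', ho', h2⟩
      rw [(hG x).o2 o' o ho' ho] at h2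
      exact h1 h2
  constructor
  · rw [← isOpen_compl_iff, e2]
    exact isOpen_iUnion fun o => (h2 o o).isOpen.inter (h2 o c).compl.isOpen
  · rw [e1]
    exact isOpen_iUnion fun o => (h2 o o).isOpen.inter (h2 o c).isOpen

theorem clopen_W (c : ℕ) : IsClopen {x | W (f x) c} := by
  have h2 : IsClopen {x | E (f x) c c} := hcl 2 sE ![c, c]
  exact h2.compl.inter (clopen_ex ι hG hcl c).compl

theorem clopen_C (c : ℕ) : IsClopen {x | C (f x) c} := by
  have h2 : IsClopen {x | E (f x) c c} := hcl 2 sE ![c, c]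
  exact h2.compl.inter (clopen_ex ι hG hcl c)

theorem open_ga (n : ℕ) : ∀ c, IsOpen {x | ga (f x) n c} := by
  have h2 : ∀ c d, IsClopen {x | E (f x) c d} := fun c d => hcl 2 sE ![c, d]
  induction n with
  | zero =>
    intro c
    have e1 : {x | ga (f x) 0 c} = {x | C (f x) c} ∩
        ⋃ o, ({x | E (f x) o o} ∩ {x | E (f x) c o}) := by
      ext x
      simp only [mem_ofPred_eq, mem_iUnion, mem_inter_iff]
      exact Iff.rfl
    rw [e1]
    exact (clopen_C ι hG hcl c).isOpen.inter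
      (isOpen_iUnion fun o => (h2 o o).isOpen.inter (h2 c o).isOpen)
  | succ n ih =>
    intro c
    have e1 : {x | ga (f x) (n + 1) c} = {x | C (f x) c} ∩
        ⋃ y, ({x | ga (f x) n y} ∩ {x | E (f x) y c}) := by
      ext x
      simp only [mem_ofPred_eq, mem_iUnion, mem_inter_iff]
      exact Iff.rfl
    rw [e1]
    exact (clopen_C ι hG hcl c).isOpen.inter
      (isOpen_iUnion fun y => (ih y).inter (h2 y c).isOpen)

include hI

theorem open_en (b c : ℕ) : IsOpen {x | (en (hI x) b).1 = c} := by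
  have h1 := Pool.Agent.Helper5.Multi.isOpen_nth (A := fun x => {z | W (f x) z})
    (fun p => clopen_W ι hG hcl p) hI b c
  exact h1

theorem open_one (Q : (ℕ → Bool) → ℕ → Prop) (hQ : ∀ c, IsOpen {x | Q x c}) (b : ℕ) :
    IsOpen {x | Q x (en (hI x) b).1} := by
  have h1 : {x | Q x (en (hI x) b).1} = ⋃ c : ℕ, {x | (en (hI x) b).1 = c} ∩ {x | Q x c} := by
    ext x
    constructor
    · intro h
      exact mem_iUnion.2 ⟨_, rfl, h⟩
    · intro h
      obtain ⟨c, h2, h3⟩ := mem_iUnion.1 h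
      rw [mem_ofPred_eq] at h2 h3 ⊢
      rw [h2]
      exact h3
  rw [h1]
  exact isOpen_iUnion fun c => (open_en ι hG hI hcl b c).inter (hQ c)

/-- the relation `E` to the `i`-th element of the chain is clopen -/
theorem clopen_num (i b : ℕ) :
    IsClopen {x | ∃ c, ga (f x) i c ∧ E (f x) (en (hI x) b).1 c} := by
  have h2 : ∀ c d, IsClopen {x | E (f x) c d} := fun c d => hcl 2 sE ![c, d]
  have e1 : {x | ∃ c, ga (f x) i c ∧ E (f x) (en (hI x) b).1 c} =
      ⋃ c, ({x | ga (f x) i c} ∩ {x | E (f x) (en (hI x) b).1 c}) := by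
    ext x
    simp only [mem_ofPred_eq, mem_iUnion, mem_inter_iff]
  have e2 : {x | ∃ c, ga (f x) i c ∧ E (f x) (en (hI x) b).1 c}ᶜ =
      ⋃ c, ({x | ga (f x) i c} ∩ {x | ¬ E (f x) (en (hI x) b).1 c}) := by
    ext x
    simp only [mem_compl_iff, mem_ofPred_eq, mem_iUnion, mem_inter_iff]
    constructor
    · intro h
      obtain ⟨c, hc⟩ := (hG x).g2 i
      exact ⟨c, hc, fun h1 => h ⟨c, hc, h1⟩⟩
    · rintro ⟨c, hc, h1⟩ ⟨d, hd, h3⟩
      rw [(hG x).g3 i d c hd hc] at h3
      exact h1 h3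
  constructor
  · rw [← isOpen_compl_iff, e2]
    exact isOpen_iUnion fun c => (open_ga ι hG hcl i c).inter
      (open_one ι hG hI hcl (fun x d => ¬ E (f x) d c) (fun d => (h2 d c).compl.isOpen) b)
  · rw [e1]
    exact isOpen_iUnion fun c => (open_ga ι hG hcl i c).inter
      (open_one ι hG hI hcl (fun x d => E (f x) d c) (fun d => (h2 d c).isOpen) b)

theorem clopen_eq (a b : ℕ) : IsClopen {x | (en (hI x) a).1 = (en (hI x) b).1} := by
  by_cases h : a = b
  · subst h
    have h1 : {x : ℕ → Bool | (en (hI x) a).1 = (en (hI x) a).1} = univ := by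
      ext x
      simp
    rw [h1]
    exact isClopen_univ
  · have h1 : {x : ℕ → Bool | (en (hI x) a).1 = (en (hI x) b).1} = ∅ := by
      ext x
      simp only [mem_ofPred_eq, mem_empty_iff_false, iff_false]
      intro h2
      exact h ((en (hI x)).injective (Subtype.ext h2))
    rw [h1]
    exact isClopen_empty

theorem clopen_edge (a b : ℕ) : IsClopen {x | E (f x) (en (hI x) a).1 (en (hI x) b).1} := by
  have h2 : ∀ c d, IsClopen {x | E (f x) c d} := fun c d => hcl 2 sE ![c, d]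
  have h3 : ∀ c, IsOpen {x | E (f x) (en (hI x) a).1 c} := fun c =>
    open_one ι hG hI hcl (fun x d => E (f x) d c) (fun d => (h2 d c).isOpen) a
  have h4 : ∀ c, IsOpen {x | ¬ E (f x) (en (hI x) a).1 c} := fun c =>
    open_one ι hG hI hcl (fun x d => ¬ E (f x) d c) (fun d => (h2 d c).compl.isOpen) a
  constructor
  · rw [← isOpen_compl_iff]
    exact open_one ι hG hI hcl (fun x c => ¬ E (f x) (en (hI x) a).1 c) h4 b
  · exact open_one ι hG hI hcl (fun x c => E (f x) (en (hI x) a).1 c) h3 b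

theorem clopen_hh (hA : ∀ n, n ≠ 1 → n ≠ 2 → IsEmpty (L.Relations n)) {n : ℕ}
    (R : L.Relations n) (a : Fin n → ℕ) : IsClopen {x | (hh ι (hI x)).RelMap R a} := by
  match n, R, a with
  | 0, R, a => exact (hA 0 (by omega) (by omega)).elim R
  | 1, P, a => exact clopen_num ι hG hI hcl (ι P + 1) (a 0)
  | 2, R, a =>
    have h1 := clopen_eq ι hG hI hcl (a 0) (a 1)
    exact (h1.inter (clopen_num ι hG hI hcl 0 (a 0))).union
      (h1.compl.inter (clopen_edge ι hG hI hcl (a 0) (a 1)))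
  | (n + 3), R, a => exact (hA (n + 3) (by omega) (by omega)).elim R

end top

include hA

theorem perf_transfer {φ : FV L 3} (hφ : NoFin φ)
    (h : PerfK {T : LE.Structure ℕ | KK ι φ T}) : PerfK (ModV φ) := by
  obtain ⟨f, hf, hinj, hcl⟩ := h
  have hG : ∀ x, Gd ι (f x) := fun x => (hf x).1
  have hI : ∀ x, {z | W (f x) z}.Infinite := fun x => inf_W ι hφ (hf x)
  refine ⟨fun x => hh ι (hI x), fun x => ?_, fun x y hxy => ?_,
    fun n R a => clopen_hh ι hG hI hcl hA R a⟩
  · exact all_iso (hh_iso ι (hI x)) φ ((KK_iff ι φ (f x)).1 (hf x)).2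
  · refine hinj x y ?_
    have h1 : Iso (PSt ι (f x)) (PSt ι (f y)) :=
      (hh_iso ι (hI x)).trans (hxy.trans (hh_iso ι (hI y)).symm)
    exact (iso_std ι (hG x)).trans ((std_iso ι h1).trans (iso_std ι (hG y)).symm)

include hs

/-- the reduction to one binary symbol -/
theorem one_binary (hL : Countable (L.Relations 1)) (H : ∀ φ : FV LE 3, CtblK (ModV φ) ∨
    PerfK (ModV φ)) {φ : FV L 3} (hφ : NoFin φ) : CtblK (ModV φ) ∨ PerfK (ModV φ) := by
  obtain ⟨ι', hι'⟩ := exists_injective_nat (L.Relations 1)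
  obtain ⟨Φ, hΦ⟩ := d3g_KK ι' φ
  have h1 : ModV Φ = {T : LE.Structure ℕ | KK ι' φ T} := by
    ext T
    exact hΦ ℕ inferInstance T
  have h2 := H Φ
  rw [h1] at h2
  rcases h2 with h2 | h2
  · exact Or.inl (ctbl_transfer ι' hA hs hι' φ h2)
  · exact Or.inr (perf_transfer ι' hA hφ h2)

end transfer

end Pool.Agent.CTQ.SG
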