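import Pool.Agent.CTQ.SHI

/-!
Three variables, one binary symbol and nothing else, last part (helper97): `thm_SHJ`: if Vaught's
conjecture holds for infinitary logic with three variables (no counting) in the language with one
binary relation symbol and no other symbols, then it holds for infinitary logic in every countable
relational language.
-/

set_option autoImplicit false
set_option linter.unusedSectionVars false
set_option linter.unusedVariables false

namespace Pool.Agent.CTQ

open FirstOrder Set Pool.Agent.Helper6.Str Pool.Agent.Helper5.DU VPF VPF.CC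
open FirstOrder.Language

/-- from the class of the structures of tuples to the class of the models -/
theorem ci_transfer (L : FirstOrder.Language.{0, 0}) [∀ n, IsEmpty (L.Functions n)]
    [∀ n, Countable (L.Relations n)] (T : L.Theory) (φ : FmI L 0)
    (H : CtblK {S : (CC.LC L).Structure ℕ | CC.Kc T φ S} ∨
      PerfK {S : (CC.LC L).Structure ℕ | CC.Kc T φ S}) :
    CtblK {S : L.Structure ℕ | Pool.Agent.Helper6.VC.IsMod T φ S} ∨
      PerfK {S : L.Structure ℕ | Pool.Agent.Helper6.VC.IsMod T φ S} := by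
  rcases H with ⟨G, hG⟩ | ⟨f, hf, hinj, hcl⟩
  · left
    let dflt : L.Structure ℕ := { funMap := fun _ _ => 0, RelMap := fun _ _ => False }
    have hinf : Infinite (CC.SU ℕ Empty) :=
      Infinite.of_injective (fun n : ℕ => (CC.mkT 1 fun _ => n : CC.SU ℕ Empty))
        fun a b hab => congrFun (CC.mkT_inj hab) 0
    obtain ⟨u⟩ := nonempty_equiv_of_countable (α := CC.SU ℕ Empty) (β := ℕ)
    let Q : L.Structure ℕ → (CC.LC L).Structure ℕ := fun S =>
      { funMap := fun {n} f _ => (inferInstance : IsEmpty ((CC.LC L).Functions n)).elim f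
        RelMap := fun {m} R v => (@CC.Std L ℕ Empty S).RelMap R (u.symm ∘ v) }
    have hQ : ∀ S : L.Structure ℕ, Iso (@CC.Std L ℕ Empty S) (Q S) := by
      intro S
      refine ⟨u, fun n R v => ?_⟩
      show _ ↔ (@CC.Std L ℕ Empty S).RelMap R (u.symm ∘ (u ∘ v))
      have h1 : u.symm ∘ (u ∘ v) = v := by
        funext k
        simp
      rw [h1]
    classical
    let gg : ℕ → L.Structure ℕ := fun n =>
      if h : ∃ S : L.Structure ℕ, Iso (Q S) (G n) then h.choose else dflt
    refine ⟨gg, fun S hS => ?_⟩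
    obtain ⟨n, hn⟩ := hG (Q S) (CC.Kc_iso (hQ S) (CC.Kc_std S hS.1 hS.2))
    have h2 : ∃ S : L.Structure ℕ, Iso (Q S) (G n) := ⟨S, hn⟩
    refine ⟨n, ?_⟩
    have hgg : gg n = h2.choose := dif_pos h2
    rw [hgg]
    have h3 := h2.choose_spec
    have h4 : Iso (@CC.Std L ℕ Empty S) (@CC.Std L ℕ Empty h2.choose) :=
      ((hQ S).trans (hn.trans h3.symm)).trans (hQ _).symm
    exact CC.iso_of_equiv (@CC.std_inj L ℕ ℕ Empty Empty S h2.choose h4)
  · right
    have hK : ∀ x, CC.Kc T φ (f x) := fun x => hf x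
    have hG : ∀ x, CC.Good (CC.Tp T) (f x) := fun x => (hK x).choose
    refine ⟨fun x => CC.hh (hG x), fun x => ⟨CC.hh_model (hG x), CC.hh_sat (hK x)⟩,
      fun x y hxy => ?_, fun n R a => CC.clopen_hh hG hcl R a⟩
    obtain ⟨E⟩ := CC.equiv_of_iso hxy
    obtain ⟨E1⟩ := CC.hh_equiv (hG x)
    obtain ⟨E2⟩ := CC.hh_equiv (hG y)
    have hx := CC.jk_empty (hK x)
    have hy := CC.jk_empty (hK y)
    refine hinj x y (Iso.trans (Iso.symm (CC.iso_std (hG x)))
      (Iso.trans ?_ (CC.iso_std (hG y))))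
    refine @CC.std_iso L (CC.Tu (f x) 1) (CC.Tu (f y) 1) (CC.Jk (f x)) (CC.Jk (f y))
      (CC.PS (hG x)) (CC.PS (hG y)) ?_ (Equiv.equivOfIsEmpty _ _)
    exact @FirstOrder.Language.Equiv.comp L (CC.Tu (f x) 1) ℕ (CC.PS (hG x)) (CC.hh (hG y))
      (CC.Tu (f y) 1) (CC.PS (hG y))
      (@FirstOrder.Language.Equiv.symm L _ _ (CC.PS (hG y)) (CC.hh (hG y)) E2)
      (@FirstOrder.Language.Equiv.comp L (CC.Tu (f x) 1) ℕ (CC.PS (hG x)) (CC.hh (hG x)) ℕ
        (CC.hh (hG y)) E E1)

/-- [SHJ] If Vaught's conjecture holds for infinitary logic with three variables (no counting) in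
the language with one binary relation symbol and no other symbols, then it holds for infinitary
logic in every countable relational language. -/
theorem thm_SHJ
    (H : ∀ L' : FirstOrder.Language.{0, 0}, (∀ n, IsEmpty (L'.Functions n)) →
      (∀ n, n ≠ 2 → IsEmpty (L'.Relations n)) → Subsingleton (L'.Relations 2) →
      ∀ φ : FV L' 3, CtblK (ModV φ) ∨ PerfK (ModV φ)) :
    ∀ (L : FirstOrder.Language.{0, 0}) [∀ n, IsEmpty (L.Functions n)]
      [∀ n, Countable (L.Relations n)] (T : L.Theory) (φ : FmI L 0),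
      CtblK {S : L.Structure ℕ | Pool.Agent.Helper6.VC.IsMod T φ S} ∨
        PerfK {S : L.Structure ℕ | Pool.Agent.Helper6.VC.IsMod T φ S} := by
  intro L _ _ T φ
  have hR' : Countable ((n : ℕ) × L.Relations n) := inferInstance
  have hF' : Countable ((n : ℕ) × L.Functions n) := by
    have : IsEmpty ((n : ℕ) × L.Functions n) := ⟨fun x => isEmptyElim x.2⟩
    infer_instance
  have hL : Countable L.Symbols :=
    inferInstanceAs (Countable (((n : ℕ) × L.Functions n) ⊕ ((n : ℕ) × L.Relations n)))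
  obtain ⟨Φ, hΦ⟩ := SH.d3g_Kc hL T φ
  have hΦ1 : ∀ (N : Type), Nonempty N → ∀ S : (LC L).Structure N,
      (∀ v, Φ.Sat S v) ↔ Kc T φ S := hΦ
  have hn : SH.NoFin Φ := fun N hN S h => SH.Kc_infinite ((hΦ1 N hN S).1 h)
  obtain ⟨Ψ, hΨ⟩ := SH.d3g_KK (CC.countable_rel hL) Φ
  have hΨ1 : ∀ (N : Type), Nonempty N → ∀ S : (SH.LP (LC L)).Structure N,
      (∀ v, Ψ.Sat S v) ↔ SH.KK Φ S := hΨ
  have hm : SH.NoFin Ψ := fun N hN S h => SH.KK_infinite hn hN ((hΨ1 N hN S).1 h)
  have h1 := SG.one_binary (L := SH.LP (LC L)) (fun n h4 h5 => SH.isEmpty_rel h4 h5)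
    SH.subsingleton_two (SH.countable_rel (CC.countable_rel hL) 1)
    (H SG.LE (fun n => inferInstance) (fun n h => SG.isEmpty_rel h) SG.subsingleton_two) hm
  have e1 : ModV Ψ = {S : (SH.LP (LC L)).Structure ℕ | SH.KK Φ S} := by
    ext S
    exact hΨ1 ℕ inferInstance S
  have e2 : ModV Φ = {S : (CC.LC L).Structure ℕ | CC.Kc T φ S} := by
    ext S
    exact hΦ1 ℕ inferInstance S
  have hA : ∀ n, n ≠ 1 → n ≠ 2 → IsEmpty ((LC L).Relations n) :=
    fun n h4 h5 => CC.isEmpty_rel h4 h5
  rw [e1] at h1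
  refine ci_transfer L T φ ?_
  rw [← e2]
  rcases h1 with h1 | h1
  · exact Or.inl (SH.ctbl_transfer hA Φ h1)
  · exact Or.inr (SH.perf_transfer hA Φ h1)

end Pool.Agent.CTQ
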