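import Pool.Agent.VPF.CodI

/-!
Three variables, no counting, one binary relation symbol (helper97): if Vaught's conjecture holds
for infinitary logic with three variables in the languages with unary symbols and at most one
binary symbol, then it holds for all of infinitary logic, in every countable relational language.

A binary relation `R` on `V` is coded on `V` together with the pairs of elements of `V`: one binary
relation `E` with `E p x` for `p = (x, y)` and `E y p`, and a unary predicate for `R`.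
-/

set_option autoImplicit false
set_option linter.unusedSectionVars false

namespace Pool.Agent.CTQ.SH

open FirstOrder Set Pool.Agent.Helper6.Str VPF VPF.CC
open FirstOrder.Language

/-- relation symbols: `none` for the set `V`, the unary symbols, one unary symbol for every binary
symbol; one binary symbol -/
def RelP (L' : FirstOrder.Language.{0, 0}) : ℕ → Type
  | 1 => Option (L'.Relations 1 ⊕ L'.Relations 2)
  | 2 => Unit
  | _ => Empty

/-- the language with one binary symbol -/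
def LP (L' : FirstOrder.Language.{0, 0}) : FirstOrder.Language.{0, 0} :=
  ⟨fun _ => Empty, RelP L'⟩

variable {L' : FirstOrder.Language.{0, 0}}

instance (n : ℕ) : IsEmpty ((LP L').Functions n) := inferInstanceAs (IsEmpty Empty)

theorem isEmpty_rel {n : ℕ} (h1 : n ≠ 1) (h2 : n ≠ 2) : IsEmpty ((LP L').Relations n) := by
  match n, h1, h2 with
  | 0, _, _ => exact inferInstanceAs (IsEmpty Empty)
  | 1, h, _ => exact absurd rfl h
  | 2, _, h => exact absurd rfl h
  | (n + 3), _, _ => exact inferInstanceAs (IsEmpty Empty)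

theorem countable_rel (hL : ∀ n, Countable (L'.Relations n)) (n : ℕ) :
    Countable ((LP L').Relations n) := by
  have h1 := hL 1
  have h2 := hL 2
  match n with
  | 0 => exact inferInstanceAs (Countable Empty)
  | 1 => exact inferInstanceAs (Countable (Option (L'.Relations 1 ⊕ L'.Relations 2)))
  | 2 => exact inferInstanceAs (Countable Unit)
  | (n + 3) => exact inferInstanceAs (Countable Empty)

theorem subsingleton_two : Subsingleton ((LP L').Relations 2) :=
  inferInstanceAs (Subsingleton Unit)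

def sV (L' : FirstOrder.Language.{0, 0}) : (LP L').Relations 1 := (none : RelP L' 1)
def sP (P : L'.Relations 1) : (LP L').Relations 1 := (some (Sum.inl P) : RelP L' 1)
def sR (R : L'.Relations 2) : (LP L').Relations 1 := (some (Sum.inr R) : RelP L' 1)
def sE (L' : FirstOrder.Language.{0, 0}) : (LP L').Relations 2 := (() : RelP L' 2)

section sem

variable {N : Type} (S : (LP L').Structure N)

def V (x : N) : Prop := S.RelMap (sV L') ![x]
def Pd (P : L'.Relations 1) (x : N) : Prop := S.RelMap (sP P) ![x]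
def Rd (R : L'.Relations 2) (x : N) : Prop := S.RelMap (sR R) ![x]
def E (x y : N) : Prop := S.RelMap (sE L') ![x, y]

/-- the structures of pairs -/
structure Gd : Prop where
  e1 : ∀ x y, E S x y → ((V S x → ¬ V S y) ∧ (¬ V S y → V S x))
  a1 : ∀ p, ¬ V S p → ∃ x, E S p x
  a2 : ∀ p x y, ¬ V S p → E S p x → E S p y → x = y
  b1 : ∀ p, ¬ V S p → ∃ x, E S x p
  b2 : ∀ p x y, ¬ V S p → E S x p → E S y p → x = y
  c : ∀ x y, V S x → V S y → ∃ p, E S p x ∧ E S y p
  d : ∀ p q, ¬ V S p → ¬ V S q → (∃ z, E S p z ∧ E S q z) → (∃ z, E S z p ∧ E S z q) → p = q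
  u : ∀ P x, Pd S P x → V S x
  r : ∀ R x, Rd S R x → ¬ V S x

end sem

/-! ### Decoding -/

section dec

variable [∀ n, IsEmpty (L'.Functions n)] {N : Type}

/-- the decoded relations -/
def rl (S : (LP L').Structure N) : ∀ {n : ℕ}, L'.Relations n → (Fin n → N) → Prop
  | 1, P, w => Pd S P (w 0)
  | 2, R, w => ∃ p, E S p (w 0) ∧ E S (w 1) p ∧ Rd S R p
  | 0, _, _ => False
  | (_ + 3), _, _ => False

/-- the decoded structure -/
@[instance_reducible]
def PSt (S : (LP L').Structure N) : L'.Structure {x // V S x} where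
  funMap := fun f _ => isEmptyElim f
  RelMap := fun R w => rl S R fun i => (w i).1

/-- the structure of pairs -/
@[instance_reducible]
def Std {M : Type} (S : L'.Structure M) : (LP L').Structure (M ⊕ M × M) where
  funMap := fun f _ => isEmptyElim f
  RelMap := fun {n} R w => match n, R, w with
    | 1, (none : RelP L' 1), w => ∃ x, w 0 = Sum.inl x
    | 1, (some (Sum.inl P) : RelP L' 1), w => ∃ x, w 0 = Sum.inl x ∧ S.RelMap P ![x]
    | 1, (some (Sum.inr R) : RelP L' 1), w => ∃ x y, w 0 = Sum.inr (x, y) ∧ S.RelMap R ![x, y]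
    | 2, (() : RelP L' 2), w => ∃ x y, (w 0 = Sum.inr (x, y) ∧ w 1 = Sum.inl x) ∨
        (w 0 = Sum.inl y ∧ w 1 = Sum.inr (x, y))
    | 0, _, _ => False
    | (_ + 3), _, _ => False

variable {M : Type} (S : L'.Structure M)

omit [∀ n, IsEmpty (L'.Functions n)] in
theorem std_V (z : M ⊕ M × M) : V (Std S) z ↔ ∃ x, z = Sum.inl x := Iff.rfl
omit [∀ n, IsEmpty (L'.Functions n)] in
theorem std_P (P : L'.Relations 1) (z : M ⊕ M × M) :
    Pd (Std S) P z ↔ ∃ x, z = Sum.inl x ∧ S.RelMap P ![x] := Iff.rfl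
omit [∀ n, IsEmpty (L'.Functions n)] in
theorem std_R (R : L'.Relations 2) (z : M ⊕ M × M) :
    Rd (Std S) R z ↔ ∃ x y, z = Sum.inr (x, y) ∧ S.RelMap R ![x, y] := Iff.rfl
omit [∀ n, IsEmpty (L'.Functions n)] in
theorem std_E (z w : M ⊕ M × M) : E (Std S) z w ↔ ∃ x y, (z = Sum.inr (x, y) ∧ w = Sum.inl x) ∨
    (z = Sum.inl y ∧ w = Sum.inr (x, y)) := Iff.rfl

theorem std_Epx (x y z : M) : E (Std S) (Sum.inr (x, y)) (Sum.inl z) ↔ z = x := by
  rw [std_E]
  constructor
  · rintro ⟨x', y', h | h⟩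
    · have h1 := Sum.inr_injective h.1
      have h2 := Sum.inl_injective h.2
      rw [Prod.mk.injEq] at h1
      rw [h2, h1.1]
    · exact absurd h.1 (by simp)
  · rintro rfl
    exact ⟨z, y, Or.inl ⟨rfl, rfl⟩⟩

theorem std_Eyp (x y z : M) : E (Std S) (Sum.inl z) (Sum.inr (x, y)) ↔ z = y := by
  rw [std_E]
  constructor
  · rintro ⟨x', y', h | h⟩
    · exact absurd h.1 (by simp)
    · have h1 := Sum.inr_injective h.2
      have h2 := Sum.inl_injective h.1
      rw [Prod.mk.injEq] at h1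
      rw [h2, h1.2]
  · rintro rfl
    exact ⟨x, z, Or.inr ⟨rfl, rfl⟩⟩

theorem std_Ell (x y : M) : ¬ E (Std S) (Sum.inl x) (Sum.inl y) := by
  rw [std_E]
  rintro ⟨x', y', h | h⟩
  · exact absurd h.1 (by simp)
  · exact absurd h.2 (by simp)

theorem std_Err (x y : M × M) : ¬ E (Std S) (Sum.inr x) (Sum.inr y) := by
  rw [std_E]
  rintro ⟨x', y', h | h⟩
  · exact absurd h.2 (by simp)
  · exact absurd h.1 (by simp)

theorem gd_std : Gd (Std S) where
  e1 := by
    rintro (x | ⟨x, x'⟩) (y | ⟨y, y'⟩) h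
    · exact absurd h (std_Ell S x y)
    · exact ⟨fun _ h1 => by obtain ⟨z, hz⟩ := h1; simp at hz, fun _ => ⟨x, rfl⟩⟩
    · exact ⟨fun h1 => by obtain ⟨z, hz⟩ := h1; simp at hz, fun h1 => absurd ⟨y, rfl⟩ h1⟩
    · exact absurd h (std_Err S _ _)
  a1 := by
    rintro (x | ⟨x, x'⟩) h
    · exact absurd ⟨x, rfl⟩ h
    · exact ⟨Sum.inl x, (std_Epx S x x' x).2 rfl⟩
  a2 := by
    rintro (x | ⟨x, x'⟩) (y | y) (z | z) h h1 h2
    · exact absurd ⟨x, rfl⟩ h
    · exact absurd ⟨x, rfl⟩ h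
    · exact absurd ⟨x, rfl⟩ h
    · exact absurd ⟨x, rfl⟩ h
    · rw [(std_Epx S x x' y).1 h1, (std_Epx S x x' z).1 h2]
    · exact absurd h2 (std_Err S _ _)
    · exact absurd h1 (std_Err S _ _)
    · exact absurd h1 (std_Err S _ _)
  b1 := by
    rintro (x | ⟨x, x'⟩) h
    · exact absurd ⟨x, rfl⟩ h
    · exact ⟨Sum.inl x', (std_Eyp S x x' x').2 rfl⟩
  b2 := by
    rintro (x | ⟨x, x'⟩) (y | y) (z | z) h h1 h2
    · exact absurd ⟨x, rfl⟩ h
    · exact absurd ⟨x, rfl⟩ h
    · exact absurd ⟨x, rfl⟩ h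
    · exact absurd ⟨x, rfl⟩ h
    · rw [(std_Eyp S x x' y).1 h1, (std_Eyp S x x' z).1 h2]
    · exact absurd h2 (std_Err S _ _)
    · exact absurd h1 (std_Err S _ _)
    · exact absurd h1 (std_Err S _ _)
  c := by
    rintro x y ⟨x, rfl⟩ ⟨y, rfl⟩
    exact ⟨Sum.inr (x, y), (std_Epx S x y x).2 rfl, (std_Eyp S x y y).2 rfl⟩
  d := by
    rintro (x | ⟨x, x'⟩) (y | ⟨y, y'⟩) h1 h2 ⟨z, h3, h4⟩ ⟨w, h5, h6⟩
    · exact absurd ⟨x, rfl⟩ h1
    · exact absurd ⟨x, rfl⟩ h1
    · exact absurd ⟨y, rfl⟩ h2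
    · rcases z with z | z
      · rcases w with w | w
        · rw [← (std_Epx S x x' z).1 h3, ← (std_Epx S y y' z).1 h4, ← (std_Eyp S x x' w).1 h5,
            ← (std_Eyp S y y' w).1 h6]
        · exact absurd h5 (std_Err S _ _)
      · exact absurd h3 (std_Err S _ _)
  u := by
    rintro P x ⟨y, hy, _⟩
    exact ⟨y, hy⟩
  r := by
    rintro R x ⟨y, z, hy, _⟩ ⟨w, hw⟩
    rw [hy] at hw
    simp at hw

/-- decoding the structure of pairs -/
theorem pst_std (hA : ∀ n, n ≠ 1 → n ≠ 2 → IsEmpty (L'.Relations n)) : Iso (PSt (Std S)) S := by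
  let e : {z // V (Std S) z} ≃ M :=
    { toFun := fun z => z.2.choose
      invFun := fun x => ⟨Sum.inl x, x, rfl⟩
      left_inv := fun z => Subtype.ext z.2.choose_spec.symm
      right_inv := fun x => by
        have h : V (Std S) (Sum.inl x) := ⟨x, rfl⟩
        exact (Sum.inl_injective h.choose_spec).symm }
  have he : ∀ z : {z // V (Std S) z}, z.1 = Sum.inl (e z) := fun z => z.2.choose_spec
  refine ⟨e, fun n R w => ?_⟩
  match n, R, w with
  | 0, R, w => exact (hA 0 (by omega) (by omega)).elim R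
  | 1, P, w =>
    show Pd (Std S) P (w 0).1 ↔ _
    rw [std_P, he]
    have h1 : e ∘ w = ![e (w 0)] := by
      funext i
      match i with
      | 0 => rfl
    rw [h1]
    constructor
    · rintro ⟨x, hx, h⟩
      rwa [Sum.inl_injective hx]
    · intro h
      exact ⟨_, rfl, h⟩
  | 2, R, w =>
    show (∃ p, E (Std S) p (w 0).1 ∧ E (Std S) (w 1).1 p ∧ Rd (Std S) R p) ↔ _
    have h1 : e ∘ w = ![e (w 0), e (w 1)] := by
      funext i
      match i with
      | 0 => rfl
      | 1 => rfl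
    rw [h1, he, he]
    constructor
    · rintro ⟨p | ⟨x, y⟩, h2, h3, h4⟩
      · exact absurd h2 (std_Ell S _ _)
      · rw [std_Epx] at h2
        rw [std_Eyp] at h3
        obtain ⟨x', y', h5, h6⟩ := h4
        have h7 := Sum.inr_injective h5
        rw [Prod.mk.injEq] at h7
        rwa [h2, h3, h7.1, h7.2]
    · intro h
      exact ⟨Sum.inr (e (w 0), e (w 1)), (std_Epx S _ _ _).2 rfl, (std_Eyp S _ _ _).2 rfl,
        _, _, rfl, h⟩
  | (n + 3), R, w => exact (hA (n + 3) (by omega) (by omega)).elim R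

end dec

/-! ### Every structure of pairs is standard -/

section std

variable [∀ n, IsEmpty (L'.Functions n)] {N : Type} {S : (LP L').Structure N}

theorem Gd.va (h : Gd S) {p x : N} (hp : ¬ V S p) (hx : E S p x) : V S x := by
  by_contra h1
  exact hp ((h.e1 p x hx).2 h1)

theorem Gd.vb (h : Gd S) {p x : N} (hp : ¬ V S p) (hx : E S x p) : V S x := (h.e1 x p hx).2 hp

noncomputable def fA (h : Gd S) (p : N) (hp : ¬ V S p) : {x // V S x} :=
  ⟨(h.a1 p hp).choose, h.va hp (h.a1 p hp).choose_spec⟩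

noncomputable def fB (h : Gd S) (p : N) (hp : ¬ V S p) : {x // V S x} :=
  ⟨(h.b1 p hp).choose, h.vb hp (h.b1 p hp).choose_spec⟩

theorem fA_spec (h : Gd S) (p : N) (hp : ¬ V S p) : E S p (fA h p hp).1 :=
  (h.a1 p hp).choose_spec

theorem fB_spec (h : Gd S) (p : N) (hp : ¬ V S p) : E S (fB h p hp).1 p :=
  (h.b1 p hp).choose_spec

theorem fA_eq (h : Gd S) {p : N} (hp : ¬ V S p) {x : {x // V S x}} (hx : E S p x.1) :
    fA h p hp = x := Subtype.ext (h.a2 p _ _ hp (fA_spec h p hp) hx)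

theorem fB_eq (h : Gd S) {p : N} (hp : ¬ V S p) {x : {x // V S x}} (hx : E S x.1 p) :
    fB h p hp = x := Subtype.ext (h.b2 p _ _ hp (fB_spec h p hp) hx)

open Classical in
noncomputable def toP (h : Gd S) (x : N) : {x // V S x} ⊕ {x // V S x} × {x // V S x} :=
  if hx : V S x then Sum.inl ⟨x, hx⟩ else Sum.inr (fA h x hx, fB h x hx)

theorem toP_pos (h : Gd S) {x : N} (hx : V S x) : toP h x = Sum.inl ⟨x, hx⟩ := dif_pos hx

theorem toP_neg (h : Gd S) {x : N} (hx : ¬ V S x) :
    toP h x = Sum.inr (fA h x hx, fB h x hx) := dif_neg hx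

theorem toP_bij (h : Gd S) : Function.Bijective (toP h) := by
  constructor
  · intro x y hxy
    by_cases hx : V S x
    · by_cases hy : V S y
      · rw [toP_pos h hx, toP_pos h hy] at hxy
        exact Subtype.ext_iff.1 (Sum.inl_injective hxy)
      · rw [toP_pos h hx, toP_neg h hy] at hxy
        exact absurd hxy (by simp)
    · by_cases hy : V S y
      · rw [toP_neg h hx, toP_pos h hy] at hxy
        exact absurd hxy (by simp)
      · rw [toP_neg h hx, toP_neg h hy] at hxy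
        have h1 := Sum.inr_injective hxy
        rw [Prod.mk.injEq] at h1
        refine h.d x y hx hy ⟨_, fA_spec h x hx, ?_⟩ ⟨_, fB_spec h x hx, ?_⟩
        · rw [h1.1]
          exact fA_spec h y hy
        · rw [h1.2]
          exact fB_spec h y hy
  · rintro (⟨x, hx⟩ | ⟨⟨x, hx⟩, ⟨y, hy⟩⟩)
    · exact ⟨x, toP_pos h hx⟩
    · obtain ⟨p, hp1, hp2⟩ := h.c x y hx hy
      have hp : ¬ V S p := (h.e1 y p hp2).1 hy
      refine ⟨p, ?_⟩
      rw [toP_neg h hp, fA_eq h hp (x := ⟨x, hx⟩) hp1, fB_eq h hp (x := ⟨y, hy⟩) hp2]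

theorem one_eq {X : Type} (w : Fin 1 → X) : w = ![w 0] := by
  funext i
  match i with
  | 0 => rfl

theorem two_eq {X : Type} (w : Fin 2 → X) : w = ![w 0, w 1] := by
  funext i
  match i with
  | 0 => rfl
  | 1 => rfl

/-- a structure of pairs is standard -/
theorem iso_std (h : Gd S) : Iso S (Std (PSt S)) := by
  refine ⟨Equiv.ofBijective (toP h) (toP_bij h), fun n R w => ?_⟩
  have hval : ∀ x, Equiv.ofBijective (toP h) (toP_bij h) x = toP h x := fun x => rfl
  match n, R, w with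
  | 0, R, w => exact (isEmpty_rel (L' := L') (n := 0) (by omega) (by omega)).elim R
  | 1, (none : RelP L' 1), w =>
    show _ ↔ ∃ x, toP h (w 0) = Sum.inl x
    rw [one_eq w]
    show V S (w 0) ↔ ∃ x, toP h (w 0) = Sum.inl x
    constructor
    · intro h1
      exact ⟨_, toP_pos h h1⟩
    · rintro ⟨x, hx⟩
      by_contra h1
      rw [toP_neg h h1] at hx
      simp at hx
  | 1, (some (Sum.inl P) : RelP L' 1), w =>
    show _ ↔ ∃ x, toP h (w 0) = Sum.inl x ∧ Pd S P x.1
    rw [one_eq w]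
    show Pd S P (w 0) ↔ ∃ x, toP h (w 0) = Sum.inl x ∧ Pd S P x.1
    constructor
    · intro h1
      exact ⟨⟨w 0, h.u _ _ h1⟩, toP_pos h (h.u _ _ h1), h1⟩
    · rintro ⟨x, hx, h2⟩
      by_cases h1 : V S (w 0)
      · rw [toP_pos h h1] at hx
        rw [← Sum.inl_injective hx] at h2
        exact h2
      · rw [toP_neg h h1] at hx
        simp at hx
  | 1, (some (Sum.inr R) : RelP L' 1), w =>
    show _ ↔ ∃ x y, toP h (w 0) = Sum.inr (x, y) ∧ ∃ p, E S p x.1 ∧ E S y.1 p ∧ Rd S R p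
    rw [one_eq w]
    show Rd S R (w 0) ↔ ∃ x y, toP h (w 0) = Sum.inr (x, y) ∧ ∃ p, E S p x.1 ∧ E S y.1 p ∧ Rd S R p
    constructor
    · intro h1
      have h2 := h.r _ _ h1
      exact ⟨_, _, toP_neg h h2, w 0, fA_spec h _ h2, fB_spec h _ h2, h1⟩
    · rintro ⟨x, y, hx, p, h2, h3, h4⟩
      by_cases h1 : V S (w 0)
      · rw [toP_pos h h1] at hx
        simp at hx
      · rw [toP_neg h h1] at hx
        have h5 := Sum.inr_injective hx
        rw [Prod.mk.injEq] at h5
        have h6 : w 0 = p := by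
          refine h.d _ _ h1 (h.r _ _ h4) ⟨x.1, ?_, h2⟩ ⟨y.1, ?_, h3⟩
          · rw [← h5.1]
            exact fA_spec h _ h1
          · rw [← h5.2]
            exact fB_spec h _ h1
        rw [h6]
        exact h4
  | 2, (() : RelP L' 2), w =>
    show _ ↔ E (Std (PSt S)) (toP h (w 0)) (toP h (w 1))
    rw [two_eq w]
    show E S (w 0) (w 1) ↔ E (Std (PSt S)) (toP h (w 0)) (toP h (w 1))
    by_cases h0 : V S (w 0)
    · by_cases h1 : V S (w 1)
      · rw [toP_pos h h0, toP_pos h h1]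
        exact ⟨fun h2 => absurd h1 ((h.e1 _ _ h2).1 h0), fun h2 => absurd h2 (std_Ell _ _ _)⟩
      · rw [toP_pos h h0, toP_neg h h1, std_Eyp]
        constructor
        · intro h2
          exact (fB_eq h h1 (x := ⟨w 0, h0⟩) h2).symm
        · intro h2
          have h3 := fB_spec h _ h1
          rw [← h2] at h3
          exact h3
    · by_cases h1 : V S (w 1)
      · rw [toP_neg h h0, toP_pos h h1, std_Epx]
        constructor
        · intro h2
          exact (fA_eq h h0 (x := ⟨w 1, h1⟩) h2).symm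
        · intro h2
          have h3 := fA_spec h _ h0
          rw [← h2] at h3
          exact h3
      · rw [toP_neg h h0, toP_neg h h1]
        exact ⟨fun h2 => absurd ((h.e1 _ _ h2).2 h1) h0, fun h2 => absurd h2 (std_Err _ _ _)⟩
  | (n + 3), R, w => exact (isEmpty_rel (L' := L') (n := n + 3) (by omega) (by omega)).elim R

/-! ### Isomorphisms -/

variable {N' : Type} {S' : (LP L').Structure N'}

section iso
variable {e : N ≃ N'}

omit [∀ n, IsEmpty (L'.Functions n)] in
theorem relIso_V (he : RelIso S S' e) (x : N) : V S x ↔ V S' (e x) := by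
  have h := he 1 (sV L') ![x]
  rwa [one_eq (e ∘ ![x])] at h

omit [∀ n, IsEmpty (L'.Functions n)] in
theorem relIso_P (he : RelIso S S' e) (P : L'.Relations 1) (x : N) :
    Pd S P x ↔ Pd S' P (e x) := by
  have h := he 1 (sP P) ![x]
  rwa [one_eq (e ∘ ![x])] at h

omit [∀ n, IsEmpty (L'.Functions n)] in
theorem relIso_R (he : RelIso S S' e) (R : L'.Relations 2) (x : N) :
    Rd S R x ↔ Rd S' R (e x) := by
  have h := he 1 (sR R) ![x]
  rwa [one_eq (e ∘ ![x])] at h

omit [∀ n, IsEmpty (L'.Functions n)] in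
theorem relIso_E (he : RelIso S S' e) (x y : N) : E S x y ↔ E S' (e x) (e y) := by
  have h := he 2 (sE L') ![x, y]
  rwa [two_eq (e ∘ ![x, y])] at h

end iso

theorem pst_iso (h : Iso S S') : Iso (PSt S) (PSt S') := by
  obtain ⟨e, he⟩ := h
  refine ⟨e.subtypeEquiv fun x => relIso_V he x, fun n R w => ?_⟩
  match n, R, w with
  | 0, R, w => exact Iff.rfl
  | 1, P, w => exact relIso_P he P (w 0).1
  | 2, R, w =>
    show (∃ p, E S p (w 0).1 ∧ E S (w 1).1 p ∧ Rd S R p) ↔
      ∃ p, E S' p (e (w 0).1) ∧ E S' (e (w 1).1) p ∧ Rd S' R p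
    constructor
    · rintro ⟨p, h1, h2, h3⟩
      exact ⟨e p, (relIso_E he _ _).1 h1, (relIso_E he _ _).1 h2, (relIso_R he _ _).1 h3⟩
    · rintro ⟨p, h1, h2, h3⟩
      refine ⟨e.symm p, (relIso_E he _ _).2 ?_, (relIso_E he _ _).2 ?_, (relIso_R he _ _).2 ?_⟩
      · rwa [e.apply_symm_apply]
      · rwa [e.apply_symm_apply]
      · rwa [e.apply_symm_apply]
  | (n + 3), R, w => exact Iff.rfl

theorem gd_iso (h : Iso S S') (hS : Gd S) : Gd S' := by
  obtain ⟨e, he⟩ := h.symm
  have hV := relIso_V he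
  have hE := relIso_E he
  have hP := relIso_P he
  have hR := relIso_R he
  constructor
  · intro x y h1
    rw [hV, hV]
    exact hS.e1 _ _ ((hE _ _).1 h1)
  · intro p hp
    rw [hV] at hp
    obtain ⟨x, hx⟩ := hS.a1 _ hp
    refine ⟨e.symm x, (hE _ _).2 ?_⟩
    rwa [e.apply_symm_apply]
  · intro p x y hp hx hy
    rw [hV] at hp
    exact e.injective (hS.a2 _ _ _ hp ((hE _ _).1 hx) ((hE _ _).1 hy))
  · intro p hp
    rw [hV] at hp
    obtain ⟨x, hx⟩ := hS.b1 _ hp
    refine ⟨e.symm x, (hE _ _).2 ?_⟩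
    rwa [e.apply_symm_apply]
  · intro p x y hp hx hy
    rw [hV] at hp
    exact e.injective (hS.b2 _ _ _ hp ((hE _ _).1 hx) ((hE _ _).1 hy))
  · intro x y hx hy
    rw [hV] at hx hy
    obtain ⟨p, hp1, hp2⟩ := hS.c _ _ hx hy
    refine ⟨e.symm p, (hE _ _).2 ?_, (hE _ _).2 ?_⟩
    · rwa [e.apply_symm_apply]
    · rwa [e.apply_symm_apply]
  · rintro p q hp hq ⟨z, h1, h2⟩ ⟨w, h3, h4⟩
    rw [hV] at hp hq
    exact e.injective (hS.d _ _ hp hq ⟨e z, (hE _ _).1 h1, (hE _ _).1 h2⟩
      ⟨e w, (hE _ _).1 h3, (hE _ _).1 h4⟩)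
  · intro P x h1
    rw [hV]
    exact hS.u P _ ((hP P x).1 h1)
  · intro R x h1
    rw [hV]
    exact hS.r R _ ((hR R x).1 h1)

theorem std_iso {M M' : Type} {T : L'.Structure M} {T' : L'.Structure M'} (h : Iso T T') :
    Iso (Std T) (Std T') := by
  obtain ⟨e, he⟩ := h
  have h1 : ∀ P x, T.RelMap P ![x] ↔ T'.RelMap P ![e x] := fun P x => by
    have h := he 1 P ![x]
    rwa [one_eq (e ∘ ![x])] at h
  have h2 : ∀ R x y, T.RelMap R ![x, y] ↔ T'.RelMap R ![e x, e y] := fun R x y => by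
    have h := he 2 R ![x, y]
    rwa [two_eq (e ∘ ![x, y])] at h
  let f : M ⊕ M × M ≃ M' ⊕ M' × M' := Equiv.sumCongr e (Equiv.prodCongr e e)
  have fl : ∀ x, f (Sum.inl x) = Sum.inl (e x) := fun x => rfl
  have fr : ∀ x y, f (Sum.inr (x, y)) = Sum.inr (e x, e y) := fun x y => rfl
  refine ⟨f, fun n R w => ?_⟩
  match n, R, w with
  | 0, R, w => exact (isEmpty_rel (L' := L') (n := 0) (by omega) (by omega)).elim R
  | 1, (none : RelP L' 1), w =>
    show (∃ x, w 0 = Sum.inl x) ↔ ∃ x, f (w 0) = Sum.inl x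
    rcases w 0 with z | ⟨z, z'⟩
    · exact ⟨fun _ => ⟨_, fl z⟩, fun _ => ⟨z, rfl⟩⟩
    · rw [fr]
      simp
  | 1, (some (Sum.inl P) : RelP L' 1), w =>
    show (∃ x, w 0 = Sum.inl x ∧ T.RelMap P ![x]) ↔ ∃ x, f (w 0) = Sum.inl x ∧ T'.RelMap P ![x]
    rcases w 0 with z | ⟨z, z'⟩
    · rw [fl]
      constructor
      · rintro ⟨x, hx, h3⟩
        rw [← Sum.inl_injective hx] at h3
        exact ⟨_, rfl, (h1 _ _).1 h3⟩
      · rintro ⟨x, hx, h3⟩
        rw [← Sum.inl_injective hx] at h3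
        exact ⟨_, rfl, (h1 _ _).2 h3⟩
    · rw [fr]
      simp
  | 1, (some (Sum.inr R) : RelP L' 1), w =>
    show (∃ x y, w 0 = Sum.inr (x, y) ∧ T.RelMap R ![x, y]) ↔
      ∃ x y, f (w 0) = Sum.inr (x, y) ∧ T'.RelMap R ![x, y]
    rcases w 0 with z | ⟨z, z'⟩
    · rw [fl]
      simp
    · rw [fr]
      constructor
      · rintro ⟨x, y, hx, h3⟩
        have h4 := Sum.inr_injective hx
        rw [Prod.mk.injEq] at h4
        rw [← h4.1, ← h4.2] at h3
        exact ⟨_, _, rfl, (h2 _ _ _).1 h3⟩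
      · rintro ⟨x, y, hx, h3⟩
        have h4 := Sum.inr_injective hx
        rw [Prod.mk.injEq] at h4
        rw [← h4.1, ← h4.2] at h3
        exact ⟨_, _, rfl, (h2 _ _ _).2 h3⟩
  | 2, (() : RelP L' 2), w =>
    show E (Std T) (w 0) (w 1) ↔ E (Std T') (f (w 0)) (f (w 1))
    rcases w 0 with z | ⟨z, z'⟩
    · rcases w 1 with y | ⟨y, y'⟩
      · exact ⟨fun h => absurd h (std_Ell _ _ _), fun h => absurd h (std_Ell _ _ _)⟩
      · rw [fl, fr, std_Eyp, std_Eyp, e.injective.eq_iff]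
    · rcases w 1 with y | ⟨y, y'⟩
      · rw [fl, fr, std_Epx, std_Epx, e.injective.eq_iff]
      · exact ⟨fun h => absurd h (std_Err _ _ _), fun h => absurd h (std_Err _ _ _)⟩
  | (n + 3), R, w => exact (isEmpty_rel (L' := L') (n := n + 3) (by omega) (by omega)).elim R

end std

end Pool.Agent.CTQ.SH
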