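import Pool.Agent.CTQ.SHP

/-!
Three variables, no counting, one binary relation symbol, second part (helper97): translation of
the formulas, definability of the class of the structures of pairs, transfer; `thm_SHP`.
-/

set_option autoImplicit false
set_option linter.unusedSectionVars false

namespace Pool.Agent.CTQ.SH

open FirstOrder Set Pool.Agent.Helper6.Str VPF VPF.CC
open FirstOrder.Language

variable {L' : FirstOrder.Language.{0, 0}}

/-! ### Isomorphisms preserve truth -/

theorem upd_comp {k : ℕ} {M N : Type} (e : M → N) (v : Fin k → M) (i : Fin k) (a : M) :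
    Function.update (fun j => e (v j)) i (e a) = fun j => e (Function.update v i a j) := by
  funext j
  by_cases h : j = i
  · subst h
    simp
  · simp [Function.update_of_ne h]

theorem sat_inv {L : FirstOrder.Language.{0, 0}} {M N : Type} {S : L.Structure M}
    {S' : L.Structure N} {e : M ≃ N} (he : RelIso S S' e) {k : ℕ} (φ : FV L k) :
    ∀ v : Fin k → M, φ.Sat S' (fun j => e (v j)) ↔ φ.Sat S v := by
  induction φ with
  | eq i j =>
    intro v
    exact e.injective.eq_iff
  | rel R w =>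
    intro v
    exact (he _ R fun i => v (w i)).symm
  | neg φ ih =>
    intro v
    exact not_congr (ih v)
  | conj φ ih =>
    intro v
    exact forall_congr' fun m => ih m v
  | ex i φ ih =>
    intro v
    constructor
    · rintro ⟨a, ha⟩
      refine ⟨e.symm a, (ih _).1 ?_⟩
      rw [← upd_comp, Equiv.apply_symm_apply]
      exact ha
    · rintro ⟨a, ha⟩
      refine ⟨e a, ?_⟩
      rw [upd_comp]
      exact (ih _).2 ha

/-! ### Translation -/

/-- an index different from `a` and `b` -/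
def third (a b : Fin 3) : Fin 3 :=
  if a ≠ 0 ∧ b ≠ 0 then 0 else if a ≠ 1 ∧ b ≠ 1 then 1 else 2

theorem third_ne : ∀ a b : Fin 3, a ≠ third a b ∧ b ≠ third a b := by decide

/-- translation of the atomic formulas -/
def trel : ∀ {n : ℕ}, L'.Relations n → (Fin n → Fin 3) → FV (LP L') 3
  | 1, P, w => .rel (sP P) ![w 0]
  | 2, R, w => .ex (third (w 0) (w 1))
      (fand (.rel (sE L') ![third (w 0) (w 1), w 0])
        (fand (.rel (sE L') ![w 1, third (w 0) (w 1)]) (.rel (sR R) ![third (w 0) (w 1)])))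
  | 0, _, _ => .neg (.eq 0 0)
  | (_ + 3), _, _ => .neg (.eq 0 0)

/-- translation of the formulas with three variables -/
def tr : FV L' 3 → FV (LP L') 3
  | .eq i j => .eq i j
  | .rel R w => trel R w
  | .neg φ => .neg (tr φ)
  | .conj φ => .conj fun m => tr (φ m)
  | .ex i φ => .ex i (fand (.rel (sV L') ![i]) (tr φ))

section sat

variable {N : Type} (S : (LP L').Structure N)

theorem sat_V (i : Fin 3) (v : Fin 3 → N) :
    (FV.rel (sV L') ![i] : FV (LP L') 3).Sat S v ↔ V S (v i) := by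
  show S.RelMap (sV L') _ ↔ S.RelMap (sV L') _
  rw [one_eq (fun k : Fin 1 => v ((![i] : Fin 1 → Fin 3) k))]
  rfl

theorem sat_P (P : L'.Relations 1) (i : Fin 3) (v : Fin 3 → N) :
    (FV.rel (sP P) ![i] : FV (LP L') 3).Sat S v ↔ Pd S P (v i) := by
  show S.RelMap (sP P) _ ↔ S.RelMap (sP P) _
  rw [one_eq (fun k : Fin 1 => v ((![i] : Fin 1 → Fin 3) k))]
  rfl

theorem sat_R (R : L'.Relations 2) (i : Fin 3) (v : Fin 3 → N) :
    (FV.rel (sR R) ![i] : FV (LP L') 3).Sat S v ↔ Rd S R (v i) := by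
  show S.RelMap (sR R) _ ↔ S.RelMap (sR R) _
  rw [one_eq (fun k : Fin 1 => v ((![i] : Fin 1 → Fin 3) k))]
  rfl

theorem sat_E (i j : Fin 3) (v : Fin 3 → N) :
    (FV.rel (sE L') ![i, j] : FV (LP L') 3).Sat S v ↔ E S (v i) (v j) := by
  show S.RelMap (sE L') _ ↔ S.RelMap (sE L') _
  rw [two_eq (fun k : Fin 2 => v ((![i, j] : Fin 2 → Fin 3) k))]
  rfl

variable [∀ n, IsEmpty (L'.Functions n)]

theorem sat_trel {n : ℕ} (R : L'.Relations n) (w : Fin n → Fin 3) (v : Fin 3 → {x // V S x}) :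
    (trel R w).Sat S (fun i => (v i).1) ↔ (PSt S).RelMap R fun i => v (w i) := by
  match n, R, w with
  | 0, R, w => exact ⟨fun h => (h rfl).elim, fun h => h.elim⟩
  | 1, P, w => exact sat_P S P (w 0) _
  | 2, R, w =>
    obtain ⟨h0, h1⟩ := third_ne (w 0) (w 1)
    show (∃ p, (fand _ (fand _ _)).Sat S (Function.update (fun i => (v i).1) _ p)) ↔
      ∃ p, E S p (v (w 0)).1 ∧ E S (v (w 1)).1 p ∧ Rd S R p
    refine exists_congr fun p => ?_
    rw [sat_fand, sat_fand, sat_E, sat_E, sat_R, Function.update_self, Function.update_of_ne h0,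
      Function.update_of_ne h1]
  | (n + 3), R, w => exact ⟨fun h => (h rfl).elim, fun h => h.elim⟩

theorem sat_tr (φ : FV L' 3) : ∀ v : Fin 3 → {x // V S x},
    (tr φ).Sat S (fun i => (v i).1) ↔ φ.Sat (PSt S) v := by
  induction φ with
  | eq i j =>
    intro v
    exact Subtype.ext_iff.symm
  | rel R w =>
    intro v
    exact sat_trel S R w v
  | neg φ ih =>
    intro v
    exact not_congr (ih v)
  | conj φ ih =>
    intro v
    exact forall_congr' fun m => ih m v
  | ex i φ ih =>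
    intro v
    show (∃ a, (fand _ (tr φ)).Sat S (Function.update (fun i => (v i).1) i a)) ↔ _
    constructor
    · rintro ⟨a, ha⟩
      rw [sat_fand, sat_V, Function.update_self] at ha
      refine ⟨⟨a, ha.1⟩, (ih _).1 ?_⟩
      rw [← upd_comp (fun x : {x // V S x} => x.1) v i ⟨a, ha.1⟩]
      exact ha.2
    · rintro ⟨a, ha⟩
      refine ⟨a.1, ?_⟩
      rw [sat_fand, sat_V, Function.update_self]
      refine ⟨a.2, ?_⟩
      rw [upd_comp (fun x : {x // V S x} => x.1) v i a]
      exact (ih _).2 ha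

end sat

/-! ### Definability -/

/-- the class of the structures of pairs of the models of `φ` -/
def KK (φ : FV L' 3) {N : Type} (S : (LP L').Structure N) : Prop :=
  Gd S ∧ ∀ v : Fin 3 → N, (∀ i, V S (v i)) → (tr φ).Sat S v

/-- definition by a formula with three variables -/
theorem d3_of (Φ : FV (LP L') 3) {Q : (LP L').Structure ℕ → Prop}
    (h : ∀ S : (LP L').Structure ℕ, (∀ v, Φ.Sat S v) ↔ Q S) : D3 Q := ⟨Φ, h⟩

theorem all3 {N : Type} {Q : N → N → N → Prop} :
    (∀ v : Fin 3 → N, Q (v 0) (v 1) (v 2)) ↔ ∀ x y z, Q x y z :=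
  ⟨fun h x y z => h ![x, y, z], fun h v => h _ _ _⟩

theorem u2 {N : Type} (v : Fin 3 → N) (a : N) :
    Function.update v 2 a 0 = v 0 ∧ Function.update v 2 a 1 = v 1 ∧ Function.update v 2 a 2 = a :=
  ⟨Function.update_of_ne (by decide) _ _, Function.update_of_ne (by decide) _ _,
    Function.update_self _ _ _⟩

theorem u1 {N : Type} (v : Fin 3 → N) (a : N) :
    Function.update v 1 a 0 = v 0 ∧ Function.update v 1 a 1 = a ∧ Function.update v 1 a 2 = v 2 :=
  ⟨Function.update_of_ne (by decide) _ _, Function.update_self _ _ _,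
    Function.update_of_ne (by decide) _ _⟩

theorem sat_ex {L : FirstOrder.Language.{0, 0}} {N : Type} {S : L.Structure N} (i : Fin 3)
    (φ : FV L 3) (v : Fin 3 → N) :
    (FV.ex i φ).Sat S v ↔ ∃ a, φ.Sat S (Function.update v i a) := Iff.rfl

theorem sat_neg {L : FirstOrder.Language.{0, 0}} {N : Type} {S : L.Structure N}
    (φ : FV L 3) (v : Fin 3 → N) : (FV.neg φ).Sat S v ↔ ¬ φ.Sat S v := Iff.rfl

theorem sat_eq {L : FirstOrder.Language.{0, 0}} {N : Type} {S : L.Structure N}
    (i j : Fin 3) (v : Fin 3 → N) : (FV.eq i j : FV L 3).Sat S v ↔ v i = v j := Iff.rfl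

/-- abbreviations -/
def fV (L' : FirstOrder.Language.{0, 0}) (i : Fin 3) : FV (LP L') 3 := .rel (sV L') ![i]
def fE (L' : FirstOrder.Language.{0, 0}) (i j : Fin 3) : FV (LP L') 3 := .rel (sE L') ![i, j]

theorem sat_fV {N : Type} (S : (LP L').Structure N) (i : Fin 3) (v : Fin 3 → N) :
    (fV L' i).Sat S v ↔ V S (v i) := sat_V S i v
theorem sat_fE {N : Type} (S : (LP L').Structure N) (i j : Fin 3) (v : Fin 3 → N) :
    (fE L' i j).Sat S v ↔ E S (v i) (v j) := sat_E S i j v

theorem d3_gd (hL : ∀ n, Countable (L'.Relations n)) :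
    D3 fun S : (LP L').Structure ℕ => Gd S := by
  have h1' := hL 1
  have h2' := hL 2
  have e1 : D3 fun S : (LP L').Structure ℕ =>
      ∀ x y, E S x y → ((V S x → ¬ V S y) ∧ (¬ V S y → V S x)) := by
    refine d3_of (fimp (fE L' 0 1) (fand (fimp (fV L' 0) (.neg (fV L' 1)))
      (fimp (.neg (fV L' 1)) (fV L' 0)))) fun S => ?_
    simp only [sat_fimp, sat_fand, sat_neg, sat_fV, sat_fE]
    exact ⟨fun h x y => h ![x, y, x], fun h v => h _ _⟩
  have a1 : D3 fun S : (LP L').Structure ℕ => ∀ p, ¬ V S p → ∃ x, E S p x := by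
    refine d3_of (fimp (.neg (fV L' 0)) (.ex 1 (fE L' 0 1))) fun S => ?_
    simp only [sat_fimp, sat_neg, sat_ex, sat_fV, sat_fE, (u1 _ _).1, (u1 _ _).2.1]
    exact ⟨fun h x => h ![x, x, x], fun h v => h _⟩
  have a2 : D3 fun S : (LP L').Structure ℕ =>
      ∀ p x y, ¬ V S p → E S p x → E S p y → x = y := by
    refine d3_of (fimp (.neg (fV L' 0)) (fimp (fE L' 0 1) (fimp (fE L' 0 2) (.eq 1 2))))
      fun S => ?_
    simp only [sat_fimp, sat_neg, sat_eq, sat_fV, sat_fE]
    exact ⟨fun h p x y => h ![p, x, y], fun h v => h _ _ _⟩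
  have b1 : D3 fun S : (LP L').Structure ℕ => ∀ p, ¬ V S p → ∃ x, E S x p := by
    refine d3_of (fimp (.neg (fV L' 0)) (.ex 1 (fE L' 1 0))) fun S => ?_
    simp only [sat_fimp, sat_neg, sat_ex, sat_fV, sat_fE, (u1 _ _).1, (u1 _ _).2.1]
    exact ⟨fun h x => h ![x, x, x], fun h v => h _⟩
  have b2 : D3 fun S : (LP L').Structure ℕ =>
      ∀ p x y, ¬ V S p → E S x p → E S y p → x = y := by
    refine d3_of (fimp (.neg (fV L' 0)) (fimp (fE L' 1 0) (fimp (fE L' 2 0) (.eq 1 2))))
      fun S => ?_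
    simp only [sat_fimp, sat_neg, sat_eq, sat_fV, sat_fE]
    exact ⟨fun h p x y => h ![p, x, y], fun h v => h _ _ _⟩
  have c : D3 fun S : (LP L').Structure ℕ =>
      ∀ x y, V S x → V S y → ∃ p, E S p x ∧ E S y p := by
    refine d3_of (fimp (fV L' 0) (fimp (fV L' 1) (.ex 2 (fand (fE L' 2 0) (fE L' 1 2)))))
      fun S => ?_
    simp only [sat_fimp, sat_fand, sat_ex, sat_fV, sat_fE, (u2 _ _).1, (u2 _ _).2.1,
      (u2 _ _).2.2]
    exact ⟨fun h x y => h ![x, y, x], fun h v => h _ _⟩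
  have d : D3 fun S : (LP L').Structure ℕ => ∀ p q, ¬ V S p → ¬ V S q →
      (∃ z, E S p z ∧ E S q z) → (∃ z, E S z p ∧ E S z q) → p = q := by
    refine d3_of (fimp (.neg (fV L' 0)) (fimp (.neg (fV L' 1))
      (fimp (.ex 2 (fand (fE L' 0 2) (fE L' 1 2)))
        (fimp (.ex 2 (fand (fE L' 2 0) (fE L' 2 1))) (.eq 0 1))))) fun S => ?_
    simp only [sat_fimp, sat_fand, sat_neg, sat_eq, sat_ex, sat_fV, sat_fE, (u2 _ _).1,
      (u2 _ _).2.1, (u2 _ _).2.2]
    exact ⟨fun h x y => h ![x, y, x], fun h v => h _ _⟩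
  have u : D3 fun S : (LP L').Structure ℕ => ∀ P, ∀ x, Pd S P x → V S x := by
    refine D3.all fun P => d3_of (fimp (.rel (sP P) ![0]) (fV L' 0)) fun S => ?_
    simp only [sat_fimp, sat_fV, sat_P]
    exact ⟨fun h x => h ![x, x, x], fun h v => h _⟩
  have r : D3 fun S : (LP L').Structure ℕ => ∀ R, ∀ x, Rd S R x → ¬ V S x := by
    refine D3.all fun R => d3_of (fimp (.rel (sR R) ![0]) (.neg (fV L' 0))) fun S => ?_
    simp only [sat_fimp, sat_neg, sat_fV, sat_R]
    exact ⟨fun h x => h ![x, x, x], fun h v => h _⟩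
  refine (e1.and (a1.and (a2.and (b1.and (b2.and (c.and (d.and (u.and r)))))))).congr fun S => ?_
  constructor
  · rintro ⟨h1, h2, h3, h4, h5, h6, h7, h8, h9⟩
    exact ⟨h1, h2, h3, h4, h5, h6, h7, h8, h9⟩
  · intro h
    exact ⟨h.e1, h.a1, h.a2, h.b1, h.b2, h.c, h.d, h.u, h.r⟩

theorem d3_KK (hL : ∀ n, Countable (L'.Relations n)) (φ : FV L' 3) :
    D3 fun S : (LP L').Structure ℕ => KK φ S := by
  refine (d3_gd hL).and (d3_of (fimp (fand (fV L' 0) (fand (fV L' 1) (fV L' 2))) (tr φ))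
    fun S => ?_)
  simp only [sat_fimp, sat_fand, sat_fV]
  constructor
  · intro h v hv
    exact h v ⟨hv 0, hv 1, hv 2⟩
  · rintro h v ⟨h0, h1, h2⟩
    refine h v fun i => ?_
    match i with
    | 0 => exact h0
    | 1 => exact h1
    | 2 => exact h2

/-! ### Transfer -/

section transfer

variable [∀ n, IsEmpty (L'.Functions n)]

theorem KK_iff (φ : FV L' 3) {N : Type} (S : (LP L').Structure N) :
    KK φ S ↔ Gd S ∧ ∀ v : Fin 3 → {x // V S x}, φ.Sat (PSt S) v := by
  refine and_congr_right fun _ => ?_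
  constructor
  · intro h v
    exact (sat_tr S φ v).1 (h _ fun i => (v i).2)
  · intro h v hv
    exact (sat_tr S φ fun i => ⟨v i, hv i⟩).2 (h _)

theorem all_iso {L : FirstOrder.Language.{0, 0}} {M N : Type} {S : L.Structure M}
    {S' : L.Structure N} (h : Iso S S') {k : ℕ} (φ : FV L k) (hS : ∀ v, φ.Sat S v) :
    ∀ v, φ.Sat S' v := by
  obtain ⟨e, he⟩ := h
  intro v
  have h1 := (sat_inv he φ (fun j => e.symm (v j))).2 (hS _)
  have h2 : (fun j => e (e.symm (v j))) = v := by
    funext j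
    exact e.apply_symm_apply _
  rwa [h2] at h1

theorem KK_iso (φ : FV L' 3) {N N' : Type} {S : (LP L').Structure N} {S' : (LP L').Structure N'}
    (h : Iso S S') (hS : KK φ S) : KK φ S' := by
  rw [KK_iff] at hS ⊢
  exact ⟨gd_iso h hS.1, all_iso (pst_iso h) φ hS.2⟩

variable (hA : ∀ n, n ≠ 1 → n ≠ 2 → IsEmpty (L'.Relations n))

include hA

theorem KK_std (φ : FV L' 3) {M : Type} (S : L'.Structure M) (h : ∀ v, φ.Sat S v) :
    KK φ (Std S) := by
  rw [KK_iff]
  exact ⟨gd_std S, all_iso (pst_std S hA).symm φ h⟩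

theorem std_inj {M M' : Type} {T : L'.Structure M} {T' : L'.Structure M'}
    (h : Iso (Std T) (Std T')) : Iso T T' :=
  (pst_std T hA).symm.trans ((pst_iso h).trans (pst_std T' hA))

omit hA in
/-- copy on `ℕ` -/
theorem copy_nat {M : Type} [Infinite M] [Countable M] {L : FirstOrder.Language.{0, 0}}
    [∀ n, IsEmpty (L.Functions n)] (S : L.Structure M) : ∃ S' : L.Structure ℕ, Iso S S' := by
  obtain ⟨u⟩ := nonempty_equiv_of_countable (α := M) (β := ℕ)
  refine ⟨{ funMap := fun f _ => isEmptyElim f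
            RelMap := fun {m} R v => S.RelMap R (u.symm ∘ v) }, u, fun n R v => ?_⟩
  show _ ↔ S.RelMap R (u.symm ∘ (u ∘ v))
  have h1 : u.symm ∘ (u ∘ v) = v := by
    funext k
    simp
  rw [h1]

theorem ctbl_transfer (φ : FV L' 3) (h : CtblK {S : (LP L').Structure ℕ | KK φ S}) :
    CtblK (ModV φ) := by
  classical
  obtain ⟨G, hG⟩ := h
  let dflt : L'.Structure ℕ := { funMap := fun f _ => isEmptyElim f, RelMap := fun _ _ => False }
  let gg : ℕ → L'.Structure ℕ := fun n =>
    if h : ∃ S : L'.Structure ℕ, Iso (Std S) (G n) then h.choose else dflt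
  refine ⟨gg, fun S hS => ?_⟩
  obtain ⟨S', hS'⟩ := copy_nat (Std S)
  obtain ⟨n, hn⟩ := hG S' (KK_iso φ hS' (KK_std hA φ S hS))
  have h2 : ∃ S : L'.Structure ℕ, Iso (Std S) (G n) := ⟨S, hS'.trans hn⟩
  refine ⟨n, ?_⟩
  have hgg : gg n = h2.choose := dif_pos h2
  rw [hgg]
  exact std_inj hA ((hS'.trans hn).trans h2.choose_spec.symm)

omit hA in
theorem inf_V {S : (LP L').Structure ℕ} (h : Gd S) : {x | V S x}.Infinite := by
  intro hf
  have h1 : Finite {x // V S x} := hf
  have h2 : Finite ({x // V S x} ⊕ {x // V S x} × {x // V S x}) := inferInstance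
  exact not_finite_iff_infinite.2 inferInstance (Finite.of_injective _ (toP_bij h).1 : Finite ℕ)

/-- the increasing enumeration of `V` -/
noncomputable def en {S : (LP L').Structure ℕ} (h : Gd S) : ℕ ≃ {x // V S x} := by
  classical
  refine Equiv.ofBijective (fun n => ⟨Nat.nth (· ∈ {x | V S x}) n,
    Nat.nth_mem_of_infinite (inf_V h) n⟩) ⟨?_, ?_⟩
  · intro a b hab
    exact Nat.nth_injective (inf_V h) (Subtype.ext_iff.mp hab)
  · rintro ⟨a, ha⟩
    exact ⟨Nat.count (· ∈ {x | V S x}) a, Subtype.ext (Nat.nth_count (p := (· ∈ {x | V S x})) ha)⟩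

/-- the decoded structure on `ℕ` -/
@[instance_reducible]
noncomputable def hh {S : (LP L').Structure ℕ} (h : Gd S) : L'.Structure ℕ where
  funMap := fun f _ => isEmptyElim f
  RelMap := fun R w => (PSt S).RelMap R fun i => en h (w i)

omit hA in
theorem hh_iso {S : (LP L').Structure ℕ} (h : Gd S) : Iso (PSt S) (hh h) := by
  refine ⟨(en h).symm, fun n R v => ?_⟩
  show _ ↔ (PSt S).RelMap R fun i => en h ((en h).symm (v i))
  have h1 : (fun i => en h ((en h).symm (v i))) = v := by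
    funext i
    exact (en h).apply_symm_apply _
  rw [h1]

section top

variable {f : (ℕ → Bool) → (LP L').Structure ℕ} (hG : ∀ x, Gd (f x))
  (hcl : ∀ (n : ℕ) (R : (LP L').Relations n) (a : Fin n → ℕ), IsClopen {x | (f x).RelMap R a})

omit hA
include hcl

theorem open_en (b c : ℕ) : IsOpen {x | (en (hG x) b).1 = c} := by
  have h1 := Pool.Agent.Helper5.Multi.isOpen_nth (A := fun x => {z | V (f x) z})
    (fun p => hcl 1 (sV L') ![p]) (fun x => inf_V (hG x)) b c
  exact h1

theorem open_one (Q : (ℕ → Bool) → ℕ → Prop) (hQ : ∀ c, IsOpen {x | Q x c}) (b : ℕ) :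
    IsOpen {x | Q x (en (hG x) b).1} := by
  have h1 : {x | Q x (en (hG x) b).1} = ⋃ c : ℕ, {x | (en (hG x) b).1 = c} ∩ {x | Q x c} := by
    ext x
    constructor
    · intro h
      exact mem_iUnion.2 ⟨_, rfl, h⟩
    · intro h
      obtain ⟨c, h2, h3⟩ := mem_iUnion.1 h
      rw [mem_ofPred_eq] at h2 h3 ⊢
      rw [h2]
      exact h3
  rw [h1]
  exact isOpen_iUnion fun c => (open_en hG hcl b c).inter (hQ c)

theorem clopen_hh (hA : ∀ n, n ≠ 1 → n ≠ 2 → IsEmpty (L'.Relations n)) {n : ℕ}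
    (R : L'.Relations n) (a : Fin n → ℕ) : IsClopen {x | (hh (hG x)).RelMap R a} := by
  match n, R, a with
  | 0, R, a => exact (hA 0 (by omega) (by omega)).elim R
  | 1, P, a =>
    have h1 : ∀ c, IsClopen {x | Pd (f x) P c} := fun c => hcl 1 (sP P) ![c]
    constructor
    · rw [← isOpen_compl_iff]
      exact open_one hG hcl (fun x c => ¬ Pd (f x) P c) (fun c => (h1 c).compl.isOpen) (a 0)
    · exact open_one hG hcl (fun x c => Pd (f x) P c) (fun c => (h1 c).isOpen) (a 0)
  | 2, R, a =>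
    have h1 : ∀ c, IsClopen {x | Rd (f x) R c} := fun c => hcl 1 (sR R) ![c]
    have h2 : ∀ c d, IsClopen {x | E (f x) c d} := fun c d => hcl 2 (sE L') ![c, d]
    have h3 : ∀ p, IsOpen {x | E (f x) p (en (hG x) (a 0)).1} := fun p =>
      open_one hG hcl (fun x c => E (f x) p c) (fun c => (h2 p c).isOpen) (a 0)
    have h4 : ∀ p, IsOpen {x | E (f x) (en (hG x) (a 1)).1 p} := fun p =>
      open_one hG hcl (fun x c => E (f x) c p) (fun c => (h2 c p).isOpen) (a 1)
    have e1 : {x | (hh (hG x)).RelMap R a} = ⋃ p : ℕ, {x | E (f x) p (en (hG x) (a 0)).1} ∩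
        ({x | E (f x) (en (hG x) (a 1)).1 p} ∩ {x | Rd (f x) R p}) := by
      ext x
      constructor
      · rintro ⟨p, h5, h6, h7⟩
        exact mem_iUnion.2 ⟨p, h5, h6, h7⟩
      · intro h
        obtain ⟨p, h5, h6, h7⟩ := mem_iUnion.1 h
        exact ⟨p, h5, h6, h7⟩
    have e2 : {x | (hh (hG x)).RelMap R a}ᶜ = ⋃ p : ℕ, {x | E (f x) p (en (hG x) (a 0)).1} ∩
        ({x | E (f x) (en (hG x) (a 1)).1 p} ∩ {x | Rd (f x) R p}ᶜ) := by
      ext x
      constructor
      · intro h
        obtain ⟨p, h5, h6⟩ := (hG x).c _ _ (en (hG x) (a 0)).2 (en (hG x) (a 1)).2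
        exact mem_iUnion.2 ⟨p, h5, h6, fun h7 => h ⟨p, h5, h6, h7⟩⟩
      · intro h
        obtain ⟨p, h5, h6, h7⟩ := mem_iUnion.1 h
        rintro ⟨q, h8, h9, h10⟩
        have hp : ¬ V (f x) p := ((hG x).e1 _ _ h6).1 (en (hG x) (a 1)).2
        have hq : ¬ V (f x) q := ((hG x).e1 _ _ h9).1 (en (hG x) (a 1)).2
        have h11 : p = q := (hG x).d p q hp hq ⟨_, h5, h8⟩ ⟨_, h6, h9⟩
        rw [← h11] at h10
        exact h7 h10
    constructor
    · rw [← isOpen_compl_iff, e2]
      exact isOpen_iUnion fun p => (h3 p).inter ((h4 p).inter (h1 p).compl.isOpen)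
    · rw [e1]
      exact isOpen_iUnion fun p => (h3 p).inter ((h4 p).inter (h1 p).isOpen)
  | (n + 3), R, a => exact (hA (n + 3) (by omega) (by omega)).elim R

end top

theorem perf_transfer (φ : FV L' 3) (h : PerfK {S : (LP L').Structure ℕ | KK φ S}) :
    PerfK (ModV φ) := by
  obtain ⟨f, hf, hinj, hcl⟩ := h
  have hG : ∀ x, Gd (f x) := fun x => (hf x).1
  refine ⟨fun x => hh (hG x), fun x => ?_, fun x y hxy => ?_, fun n R a => clopen_hh hG hcl hA R a⟩
  · exact all_iso (hh_iso (hG x)) φ ((KK_iff φ (f x)).1 (hf x)).2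
  · refine hinj x y ?_
    have h1 : Iso (PSt (f x)) (PSt (f y)) := (hh_iso (hG x)).trans (hxy.trans (hh_iso (hG y)).symm)
    exact (iso_std (hG x)).trans ((std_iso h1).trans (iso_std (hG y)).symm)

end transfer

/-- Vaught's conjecture for infinitary logic with three variables and one binary symbol implies
it for infinitary logic with three variables and any binary symbols. -/
theorem three (hL : ∀ n, Countable (L'.Relations n)) [∀ n, IsEmpty (L'.Functions n)]
    (hA : ∀ n, n ≠ 1 → n ≠ 2 → IsEmpty (L'.Relations n))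
    (H : ∀ φ : FV (LP L') 3, CtblK (ModV φ) ∨ PerfK (ModV φ)) (φ : FV L' 3) :
    CtblK (ModV φ) ∨ PerfK (ModV φ) := by
  obtain ⟨Φ, hΦ⟩ := d3_KK hL φ
  have h1 : ModV Φ = {S : (LP L').Structure ℕ | KK φ S} := by
    ext S
    exact hΦ S
  have h2 := H Φ
  rw [h1] at h2
  rcases h2 with h2 | h2
  · exact Or.inl (ctbl_transfer hA φ h2)
  · exact Or.inr (perf_transfer hA φ h2)

end Pool.Agent.CTQ.SH

namespace Pool.Agent.CTQ

open FirstOrder Set Pool.Agent.Helper6.Str Pool.Agent.Helper5.DU VPF VPF.CC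
open FirstOrder.Language

/-- [SHP] If Vaught's conjecture holds for infinitary logic with three variables (no counting) in
the languages with unary symbols and at most one binary symbol, then it holds for infinitary logic
in every countable relational language. -/
theorem thm_SHP
    (H : ∀ L' : FirstOrder.Language.{0, 0}, (∀ n, Countable (L'.Relations n)) →
      (∀ n, IsEmpty (L'.Functions n)) → (∀ n, n ≠ 1 → n ≠ 2 → IsEmpty (L'.Relations n)) →
      Subsingleton (L'.Relations 2) → ∀ φ : FV L' 3, CtblK (ModV φ) ∨ PerfK (ModV φ)) :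
    ∀ (L : FirstOrder.Language.{0, 0}) [∀ n, IsEmpty (L.Functions n)]
      [∀ n, Countable (L.Relations n)] (T : L.Theory) (φ : FmI L 0),
      CtblK {S : L.Structure ℕ | Pool.Agent.Helper6.VC.IsMod T φ S} ∨
        PerfK {S : L.Structure ℕ | Pool.Agent.Helper6.VC.IsMod T φ S} := by
  refine thm_CI fun L' hL hF hA φ => ?_
  have := hF
  exact SH.three hL hA (H (SH.LP L') (SH.countable_rel hL) (fun n => inferInstance)
    (fun n h1 h2 => SH.isEmpty_rel h1 h2) SH.subsingleton_two) φ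

end Pool.Agent.CTQ
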