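import Pool.Agent.CTQ.Defs

/-!
# CTQ, statements A: Lemma Q (language free)

Every module proves `thm_XXX : St_XXX` in `Pool/Agent/CTQ/XXX.lean` (imports: this file,
`Pool/Agent/CTQ/BAS.lean` and Mathlib files; statements used are taken as hypotheses, e.g.
`theorem thm_TRD (hH : St_HAL) : St_TRD`). Private lemma names start with the module name.
Tools: `Pool/Agent/CTQ/BAS.lean` (`CIso`, `IsC.of_iso`, `mem_KC`, `perfKC`, `mem_II`,
`measurableSet_le_encard`, `measurableSet_encard_lt`, `measurableSet_encard_eq`),
`Pool/Agent/VB/A.lean` (`exists_equiv_of_fibres`, `nonempty_equiv_of_encard`).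
-/

set_option autoImplicit false
set_option linter.unusedVariables false

namespace CTQ

open FirstOrder Set Pool.Agent.Helper6.Str Pool.Agent.Helper5.Multi Pool.Agent.Helper79.VC

/-- [HAL] (2.5 h; Mathlib and `exists_equiv_of_fibres` only) Recolouring three columns.

`t i z` is the entry of the row `z` in the column `i`; all columns contain every entry equally
often. Permuting the entries of every row by `g z` can keep this and give `x1`, `x2` different
permutations.

Proof. (0) Take bijections `β i : Z ≃ Z` with `t i = t 0 ∘ β i` (`exists_equiv_of_fibres`), `β 0`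
the identity. The three elements `β i x1` are different, and so are the `β i x2`. It is enough to
find `g` with `g x1 ≠ g x2` such that `z ↦ β (g z i) z` is bijective for `i = 0, 1, 2`: then
`{z | t (g z i) z = τ} = {z | t 0 (β (g z i) z) = τ}` has as many elements as `{z | t 0 z = τ}`.
(1) Claim: for some colour `i` there is a bijection `f : Z → Z` with `f z ∈ {β 0 z, β 1 z, β 2 z}`
for all `z`, `f x1 = β i x1` and `f x2 ≠ β i x2`. For a colour `i` let `R i z b` say:
`∃ j, b = β j z ∧ (z = x1 → j = i) ∧ (z = x2 → j ≠ i)` (the `j`-edges at `x1`, `j ≠ i`, and the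
`i`-edge at `x2` are removed). A bijection `f` with `R i z (f z)` is what we want (for `z = x2`:
the three `β j x2` are different). By Hall's theorem on both sides
(`Finset.all_card_le_biUnion_card_iff_exists_injective` with the finite sets of neighbours; for the
other side use `(β j).symm`) and `Function.Embedding.schroeder_bernstein_of_rel` it exists unless
there is a finite set `A` of rows with `|N(A)| < |A|` or a finite set `B` of columns with
`|N'(B)| < |B|`. Counting edges (`3 |A|` edges `(z, j)`, `z ∈ A`; every `b` is on exactly three
edges `((β j).symm b, j)`): in the first case let `N = N(A)`; the edges at `A` which are not removed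
end in `N`; there are at least `3 |A| - 3` of them and at most `3 |N| ≤ 3 |A| - 3` edges end in `N`.
So equality holds everywhere: `|N| = |A| - 1`, `x1, x2 ∈ A`, all edges ending in `N` come from `A`
and are not removed, and the removed edges do not end in `N`. Put `A_i := A \ {x1}`, `B_i := N`. In
the second case let `M = N'(B)`: of the `3 |B|` edges ending in `B` at most three are removed, the
others come from `M`, at most `3 |M| ≤ 3 |B| - 3`. So equality: `|M| = |B| - 1`, all three removed
edges end in `B`, all edges at `M` end in `B` and are not removed, so `x1, x2 ∉ M`, and the edge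
`(x1, i)` does not end in `B` (it would be an edge which is not removed, so `x1 ∈ M`). Put
`A_i := M ∪ {x1}`, `B_i := B`. In both cases `|A_i| = |B_i|` and, for `(p, q) = (x1, x2)` in the
first and `(p, q) = (x2, x1)` in the second case:
`(*)` for all `z`, `j`: `(z ∈ A_i ∧ (z, j) ≠ (q, i))  ↔ (β j z ∈ B_i ∧ (z, j) ≠ (p, i))`, `q ∈ A_i`,
`p ∉ A_i`, `β i p ∈ B_i`, `β i q ∉ B_i`.
If the claim fails for all three colours, then two colours `i ≠ j` have the same kind (the same
`(p, q)`). Let `A = A_i ∩ A_j`, `B = B_i ∩ B_j`. By `(*)` an edge `(z, k)` ends in `B` iff `z ∈ A`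
and `(z, k) ∉ {(q, i), (q, j)}` (the edges `(p, i)`, `(p, j)` do not end in `B`: `(p, i)` ends in
`B_j` only if `p ∈ A_j`), and `q ∈ A`; so `3 |B| = 3 |A| - 2`, impossible modulo `3`.
(2) Let `f` be as in the claim. Choose for every `z` a colour `c z` with `f z = β (c z) z`,
`c x1 = i`, `c x2 ≠ i`. The edges `(z, j)`, `j ≠ c z`, form a graph where every row and every column
(the column `b` is on three edges, one of them belongs to `f`) is on exactly two edges. Again by Hall
(a finite set of `k` rows is on `2 k` edges, every column on at most two; the same for columns) and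
`schroeder_bernstein_of_rel` there is a bijection `f'` with `f' z = β (c' z) z`, `c' z ≠ c z`. (The
relation is `∃ j ≠ c z, b = β j z`.) The remaining edges `(z, c'' z)`, `{c z, c' z, c'' z}` = all
three colours, form a bijection, too: every column is on exactly three edges, one from `f`, one from
`f'`, so one more. Let `g z` be the permutation `0 ↦ c z`, `1 ↦ c' z`, `2 ↦ c'' z`. Then
`g x1 0 = i ≠ g x2 0`. -/
def St_HAL : Prop := ∀ (Z T : Type) [Countable Z] (t : Fin 3 → Z → T) (x1 x2 : Z),
  (∀ i j τ, {z | t i z = τ}.encard = {z | t j z = τ}.encard) → x1 ≠ x2 →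
  Function.Injective (fun i => t i x1) → Function.Injective (fun i => t i x2) →
  ∃ g : Z → Equiv.Perm (Fin 3), g x1 ≠ g x2 ∧
    ∀ i j τ, {z | t (g z i) z = τ}.encard = {z | t j z = τ}.encard

/-- [TRD] (2 h; uses `St_HAL`) The trade on three columns.

Proof. Let `k = D.pi (s.lam x1)`, `Z = {z // D.pi (s.lam z) = k ∧ z ∉ range y}`.
First case `k ≠ D.pi n`. Let `t i z = s.tp z (y i)` (`z : Z`). Since no `y j` has coarse label `k`,
`IsC.cnt (y i)` and `IsC.sym` give `{z : Z | t i z = ρ}.encard = D.D n (D.inv ρ) k` for all `i`.
`St_HAL` gives `g` on `Z`; put `g v = 1` for the other `v`. Define `s'`: `s'.lam = s.lam`,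
`s'.tp v (y i) = s.tp v (y (g v i))` and `s'.tp (y i) v = D.inv (s'.tp v (y i))` for
`v ∉ range y`, and `s'.tp = s.tp` on the other pairs. `IsC D s'`: `sym`, `cls` clear. `cnt` of
`v ∉ range y`: the row is composed with a permutation of the `y i`, which have the same label (use
`encard_equiv` with the permutation of `V` which is `y i ↦ y (g v i)` and the identity outside
`range y`). `cnt` of `y i` at `(ρ, q)`: for `q ≠ k` nothing changes; for `q = k` the number is
`{z : Z | t (g z i) z = D.inv ρ}.encard`, which did not change.
Second case `k = D.pi n`. Now the `y j` have coarse label `k`, too. Use the row set `Z ⊕ Fin 3` and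
the entries `Option P`; the extra row `e : Fin 3` stands for the pair `{y a, y b}`,
`{a, b, e} = {0, 1, 2}`, with the entry `none` in the column `e`, `some (s.tp (y b) (y a))` in the
column `a` and `some (s.tp (y a) (y b))` in the column `b` (in the column `i` stand the types from
the other point to `y i`). Then the column `i` contains `none` once and `some ρ` exactly
`D.D n (D.inv ρ) k` times. `St_HAL` gives `g`; in the new columns `none` stands exactly once in each
column, so there is a permutation `h` of `Fin 3` with: the `none` of the extra row `e` is in the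
column `h e`, i.e. `g e (h e) = e`. Replace `g z` by `g z * h` for all rows (then
`g x1 ≠ g x2` still holds and the new columns still have the same numbers): `g e e = e`, so `g e`
is the identity or exchanges the other two columns. Define `s'` as before for `v ∉ range y`, and for
the pair `a, b` with third index `e`: `s'.tp (y b) (y a) = s.tp (y b) (y a)` if `g e = 1`, and
`= s.tp (y a) (y b)` otherwise (this is the new entry of the column `a`); the new entry of the column
`b` is then the inverse, as it should be. `cnt` for `y i`, coarse label `k`: the number of `z : Z`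
and of `b ≠ i` with new entry `D.inv ρ` in column `i`, which is the number in the new column `i`. -/
def St_TRD : Prop := ∀ (P Q R V : Type) [Countable V] (D : CData P Q R) (s : CStr P R V)
  (y : Fin 3 → V) (n : R) (x1 x2 : V), IsC D s → Function.Injective y → (∀ i, s.lam (y i) = n) →
  x1 ≠ x2 → (∀ i, y i ≠ x1) → (∀ i, y i ≠ x2) → D.pi (s.lam x1) = D.pi (s.lam x2) →
  Function.Injective (fun i => s.tp x1 (y i)) → Function.Injective (fun i => s.tp x2 (y i)) →
  ∃ (s' : CStr P R V) (g : V → Equiv.Perm (Fin 3)), IsC D s' ∧ s'.lam = s.lam ∧ g x1 ≠ g x2 ∧
    (∀ v, v ∉ range y → ∀ i, s'.tp v (y i) = s.tp v (y (g v i))) ∧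
    (∀ v w, v ∉ range y → w ∉ range y → s'.tp v w = s.tp v w)

/-- [SEQ] (2 h; uses `St_TRD`) Infinitely many independent trades.

Proof. For a finite 0-1-word `σ` (a `List Bool`, newest letter in front, or a function on
`Fin j → Bool`) define `s_σ` with `IsC D s_σ`, `s_σ.lam = s.lam`: `s_∅ = s`, `s_{σ0} = s_σ` and
`s_{σ1}` the structure of `St_TRD` for `s_σ` and the triple `y j`, `j` the length of `σ`. The
hypotheses of `St_TRD` hold for `s_σ`: the values at `(x1, y k i)`, `(x2, y k i)`, `k ≥ j`, are still
those of `s` (`x1`, `x2`, `y k i` are not in the earlier triples). For `z : ℕ → Bool` let `N z` be the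
limit: `(N z).tp v w = s_{z|j}.tp v w` for all large `j` (it does not change for `j` greater than the
indices of the triples which contain `v` or `w`: in step `j` only pairs with a member in the triple
`y j` change). `IsC D (N z)`: `sym`, `cls` clear; `cnt` for `v`: take `j0` greater than the index of
the triple which contains `v` (if any); for `j ≥ j0` the row of `v` in `s_{z|(j+1)}` is the row in
`s_{z|j}` composed with a permutation of the triple `y j` (or not changed), so the row of `v` in
`N z` is the row of `v` in `s_{z|j0}` composed with a permutation of `ℕ` which only permutes the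
members of the triples `y j`, `j ≥ j0` and keeps the labels; use `encard_equiv`. (If a member of the
triple is `v`: it is not, for `j ≥ j0`.)
Decoding (`perfKC`, `k = 2`, parameters `x1`, `x2`): let `a j i = s.tp x1 (y j i)`,
`b j i = s.tp x2 (y j i)`, `c j i = {v | v ≠ x1 ∧ v ≠ x2 ∧ s.lam v = n ∧ s.tp x1 v = a j i ∧
s.tp x2 v = b j i}.encard`, which is finite by the last hypothesis (and `IsC.cnt x1`), and
`Ev j s' v := ∃ i, {w | w ≠ v 0 ∧ w ≠ v 1 ∧ s'.lam w = n ∧ s'.tp (v 0) w = a j i ∧
s'.tp (v 1) w = b j i}.encard < c j i`.
If `z j = false` then in `N z` all three numbers are `c j i`: a point `w` outside the triples has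
the same types to `x1`, `x2` as in `s`; in a triple `y k`, `k ≠ j`, the value `a j i` does not occur
in the row of `x1` in `N z` (this row is a permutation of the values of `s`, and these are different
for different `(k, i)`); the triple `y j` is unchanged. If `z j = true`, then in the triple `y j` the
pairs of values are `(a j (g1 i), b j (g2 i))` with two different permutations `g1`, `g2`, so there
is `i'` such that `(a j i', b j i')` does not occur in it (take `i` with `g1 i ≠ g2 i` and
`i' = g1 i`: `a j i'` occurs only at `i`, with `b j (g2 i) ≠ b j i'`), and the number for `i'` is one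
smaller than `c j i'` (injection which misses `y j i'`; finite). `hmeas`: `measurableSet_encard_lt`;
`hlam`, `htp`: `(N z).tp v w` depends only on finitely many values of `z` (it is `s_{z|j}.tp v w` for
a fixed `j`), so the set is clopen. -/
def St_SEQ : Prop := ∀ (P Q R : Type) [Countable P] [Countable R] (D : CData P Q R)
  (s : CStr P R ℕ) (n : R) (x1 x2 : ℕ) (y : ℕ → Fin 3 → ℕ), IsC D s → x1 ≠ x2 →
  D.pi (s.lam x1) = D.pi (s.lam x2) →
  Function.Injective (fun p : ℕ × Fin 3 => y p.1 p.2) → (∀ k i, s.lam (y k i) = n) →
  (∀ k i, y k i ≠ x1) → (∀ k i, y k i ≠ x2) →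
  Function.Injective (fun p : ℕ × Fin 3 => s.tp x1 (y p.1 p.2)) →
  (∀ k, Function.Injective fun i => s.tp x2 (y k i)) →
  (∀ k i, D.D (s.lam x1) (s.tp x1 (y k i)) (D.pi n) ≠ ⊤) → PerfK (KC D)

/-- [TOG] (2 h; no other module) Toggling.

Proof. `D.D m (θ i) (D.pi n) = ⊤` for all `i`: by `h` the row of `z i` has the entry `θ i` at almost
all `y j` (`IsC.cnt (z i)`). Let `a = z 0`, `b = z 1`, `α k = θ (2k + 2)`, `β k = θ (2k + 3)`, `θ 0`,
`θ 1` the entries of `a`, `b`. Choose injective sequences in the set of all `j`, with pairwise
disjoint ranges: `A k l`, `B k l` (`k, l : ℕ`), `c k` (`k : ℕ`), `d l` (`l : ℕ`), such that at the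
points `y (A k l)` and `y (c k)` the rows `a`, `b`, `z (2k + 2)` have the entries `θ 0`, `θ 1`,
`α k`, at `y (B k l)`, `y (c k)` the rows `a`, `b`, `z (2k + 3)` have the entries `θ 0`, `θ 1`,
`β k`, and at `y (d l)` the rows `a`, `b` have the entries `θ 0`, `θ 1`. (Let `f (k, l)`,
`g (k, l)`, ... be defined from an injection of the disjoint union of the index sets into `ℕ`, whose
value at `i` is at least a bound `J i`: e.g. `φ i = Nat.pair i (J i)` for a countable index set
coded by `i : ℕ`; `Nat.pair i b ≥ b`.) For `x : ℕ → Bool` and `v` with label `n`, `v ≠ a`, `v ≠ b`,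
let `σ x v` be the permutation of `ℕ`:
* `swap a (z (2k + 2))` if `v = y (A k l)`; `swap b (z (2k + 3))` if `v = y (B k l)`;
* `swap a (z (2k + 2)) * swap b (z (2k + 3))` if `v = y (c k)` and `x k = true`, the identity if
  `x k = false`;
* the identity if `v = y (d l)`;
* for all other `v` with label `n`, `v ≠ a, b`: `swap a b` if there is `k` with
  `s.tp a v = α k ∧ s.tp b v = β k`, and the identity otherwise.
For the other `v` it is the identity. `N x`: `lam = s.lam`, and for `w ≠ v`: if `σ x v w ≠ w` then
`tp w v = s.tp (σ x v w) v`, `tp v w = s.tp v (σ x v w)` (the column `v` is permuted by `σ x v`); the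
other entries are those of `s`. This is consistent: if `σ x v w ≠ w` and `σ x w v ≠ v`, then both
`v`, `w` have label `n`, both are in `{a, b} ∪ {z i}` (the moved points), and then `v`, `w` as
columns are not in the range of `y` (`z i ≠ y j`), so both permutations are `swap a b`,
contradiction to `v ≠ a, b`. `IsC D (N x)`: `sym`, `cls` clear. `cnt` of `v` as a column: the
permutation `σ x v` moves only points with label `m` (and not `v`), so all numbers are kept
(`encard_equiv`). For a point `w` in `{z i}` (`= a`, `b`, or another `z i`) the row changes at the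
columns `v` with `σ x v w ≠ w`, all with label `n` (if `w` is a column as well, i.e. `m = n` and `w`
is one of the `v` with `σ x w = swap a b`, combine: the row of `w` changes at `a`, `b` by exchanging
them, and at `v = y (A k l)` etc.; do the row and the column changes one after the other); only
entries in the set `{θ i}` are replaced by entries of this set, so the numbers for
`D.D m ρ q ≠ ⊤` do not change (for these no entry with `ρ`, coarse label `q` is removed or added:
for `q = D.pi n`, `ρ = θ i` the number is `⊤`). The numbers which were infinite are still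
infinite: for `(ρ, q) ≠ (θ i, D.pi n)` nothing changes; for `(θ i, D.pi n)`:
row `a`: `θ 0` stands at `y (d l)`; `α k = θ (2k + 2)` stands at all `y (A k l)`; `β k` or other
`θ i`, here `i = 1` or `i = 2k + 3`: the row `a` has infinitely many entries `θ i` in `s`; entries are
lost only at the `y (A k l)`, `y (c k)`, where the entry was `θ 0`, or by `swap a b` at a point with
entry `α k` in the row `a`; so no entry `θ 1`, `β k` is lost. Row `b`: the same with `θ 1` at
`y (d l)`, `β k` at `y (B k l)`. Row `z (2k + 2)`: it changes only at `y (A k l)`, `y (c k)`, where the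
entry was `α k` (`s.tp (z (2k+2)) v = α k`), and it still has the entry `α k` at `y (d l)` for large
`l`. The same for `z (2k + 3)`.
Decoding (`perfKC`, parameters `a`, `b`): `x k = true` iff there is `v ≠ a, b` with label `n`,
`tp a v = α k` and `tp b v = β k`. In `N x` this is so for `v = y (c k)` if `x k = true`. In all
other cases it is not: at `y (A k' l)` the row `b` has the entry `θ 1 ≠ β k`; at `y (B k' l)` the
row `a` has `θ 0`; at `y (d l)`, and at `y (c k')` if `x k' = false`, the entries are `θ 0`, `θ 1`; at
`y (c k')`, `k' ≠ k`, `x k' = true`, they are `α k'`, `β k'`; at the other points `v` with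
`(s.tp a v, s.tp b v) = (α k', β k')` they are now `(β k', α k')`, and at the remaining ones the pair
is not of this form. `θ` is injective. -/
def St_TOG : Prop := ∀ (P Q R : Type) [Countable P] [Countable R] (D : CData P Q R)
  (s : CStr P R ℕ) (m n : R) (z y : ℕ → ℕ) (θ : ℕ → P), IsC D s → Function.Injective z →
  Function.Injective y → (∀ i j, z i ≠ y j) → (∀ i, s.lam (z i) = m) →
  (∀ j, s.lam (y j) = n) → Function.Injective θ →
  (∀ i, ∃ J, ∀ j, J ≤ j → s.tp (z i) (y j) = θ i) → PerfK (KC D)

/-- [LMQ] (1.5 h; uses `St_SEQ`, `St_TOG`) Lemma Q: an infinite out-degree between infinite label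
classes without a type infinite from both sides gives perfectly many structures.

Proof. Let `Y0` be the infinite set of the `y` with label `n` and `Arr D s x y`. (1) For every `ρ`
the set `{y ∈ Y0 | s.tp x y = ρ}` is finite (`Arr`, `IsC.cnt x`), so there is an injective sequence
in `Y0` on which `s.tp x` is injective (infinitely many values; choose one point for every value).
(2) For every infinite set `Y` and every `w` there is an infinite `Y' ⊆ Y` on which `s.tp w` is
injective or constant. By diagonalisation over all `w : ℕ` there is an injective sequence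
`y : ℕ → ℕ` in the set of (1), not containing `x`, such that for every `w` the function
`j ↦ s.tp w (y j)` is eventually injective (injective on `{j | J ≤ j}`) or eventually constant
(recursively infinite sets `Y_0 ⊇ Y_1 ⊇ ...`, `y j ∈ Y_j`, `y j > y (j-1)`).
(3) Case A: there is `w ≠ x` with label `m` such that `j ↦ s.tp w (y j)` is injective on
`{j | J ≤ j}`. Apply `St_SEQ` to `x1 = x`, `x2 = w` and the triples
`y (J' + 3 k + i)`, `J' ≥ J` so large that `w` does not occur. (Last hypothesis: `Arr D s x (y j)`.)
(4) Case B: for all `w ≠ x` with label `m` there are `θ w` and `J w` with `s.tp w (y j) = θ w` for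
`j ≥ J w`. Then `D.D m (θ w) (D.pi n) = ⊤` (`IsC.cnt w`), and since `II D m n = ∅`,
`D.D n (D.inv (θ w)) (D.pi m) = d ≠ ⊤`. For every `ρ` only finitely many `w ≠ x` with label `m` have
`θ w = ρ`: if `w_1, ..., w_r` are such, take `j` larger than all `J w_i` and such that `y j ≠ w_i`;
then `s.tp (y j) w_i = D.inv ρ`, so `r ≤ d` by `IsC.cnt (y j)`. The class of `m` is infinite, so
there is an injective sequence `z` of points `w ≠ x` with label `m` and `θ (z i)` pairwise different.
Finally make `z` and `y` disjoint: if infinitely many `y j` are not of the form `z (2i)`, use these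
and `z (2i)`, `i : ℕ`; otherwise infinitely many `y j` are of the form `z (2i)`, so not of the form
`z (2i + 1)`; use these and `z (2i + 1)` (a subsequence of `y` enumerated increasingly, e.g. by
`Nat.nth`, keeps the property of being eventually constant). Apply `St_TOG`. -/
def St_LMQ : Prop := ∀ (P Q R : Type) [Countable P] [Countable R] (D : CData P Q R)
  (s : CStr P R ℕ) (m n : R) (x : ℕ), IsC D s → D.u m = ⊤ → D.u n = ⊤ → II D m n = ∅ →
  s.lam x = m → {y | s.lam y = n ∧ Arr D s x y}.Infinite → PerfK (KC D)

end CTQ
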