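import Pool.Agent.CTQ.DefsB
import Pool.Agent.CTQ.StA

/-!
# CTQ, statements B: the combinatorial theorem

Rules as in `StA.lean`. Additional tools: `Pool/Agent/CTQ/DefsB.lean` (`asmC_posMap`),
`Pool/Agent/VB/A.lean` (`Frame`, `Frame.dichotomy`, `posMap`, `posMap_injective`),
`Pool/Agent/VB/B.lean` (`ctbl_of_props`).
-/

set_option autoImplicit false
set_option linter.unusedVariables false

namespace CTQ

open FirstOrder Set Pool.Agent.Helper6.Str Pool.Agent.Helper5.Multi Pool.Agent.Helper79.VC

/-- [FIN] (1 h; no other module) The definable sets are finite, and the labels outside are free.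

Proof. First part, `G1 D s b l`: induction on the list `l`. `b = inl m`: `IsC.cls`, the set is finite
if `D.u m ≠ ⊤` (and empty otherwise). `b = inr (m, n, r)`: we may assume `D.u m = D.u n = ⊤` and
`II D m n = ∅`; then `II D n m = ∅`, too (`II_symm`). The class of `n` is infinite; take a finite set
`Y` of `r + 1` points with label `n`. Let `x ∉ Y` be in the set. Since exactly `r` points `y` with
label `n` have `Arr D s x y`, some `y ∈ Y` has `¬ Arr D s x y`, and then `Arr D s y x` by `mem_II`
(`II D m n = ∅`). So the set is contained in `Y ∪ ⋃_{y ∈ Y} {x | s.lam x = m ∧ Arr D s y x}`, which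
is finite by `NQ D s` for the pair `(n, m)`. Step: the set is contained in the union over the finite
set of `y` of the sets `{z | z ≠ y ∧ s.tp y z = ρ ∧ D.pi (s.lam z) = D.pi n}`, finite by
`IsC.cnt y` if `s.lam y = m` and `D.D m ρ (D.pi n) ≠ ⊤`; otherwise empty.
Second part: `x ∉ Fp D s`. If `D.u (s.lam x) ≠ ⊤`, then `x ∈ G D s (inl (s.lam x), [])`. If
`D.u n = ⊤` and `II D (s.lam x) n = ∅`, then by `NQ` the set `{y | s.lam y = n ∧ Arr D s x y}` is
finite, so its `encard` is some `r : ℕ` and `x ∈ G D s (inr (s.lam x, n, r), [])`. -/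
def St_FIN : Prop := ∀ (P Q R V : Type) (D : CData P Q R) (s : CStr P R V), IsC D s → NQ D s →
  (∀ w, (G D s w).Finite) ∧ ∀ x, x ∉ Fp D s → Fr D (s.lam x)

/-- [FIR] (0.7 h; no other module) The definable sets in a closed part.

Proof. First `Arr D s' (f x) (f y) ↔ Arr D s x y`. Claim: `G1 D s' b l = f '' G1 D s b l` by
induction on `l`. A point `y' ∉ range f` is in no basic set: `inl m`: `D.u m = ⊤` for its label;
`inr (m, n, r)`: `II D m n ≠ ∅` if `D.u n = ⊤` (`Fr`). For `f x`: `inl m`: clear; `inr (m, n, r)`: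
`{y' | s'.lam y' = n ∧ Arr D s' (f x) y'} = f '' {y | s.lam y = n ∧ Arr D s x y}` by the first
hypothesis on `Arr`, and `encard` is kept by injective maps. Step: if `y' = f y` is in the set of the
shorter list and `z' ≠ y'` with `s'.tp y' z' = ρ`, `s'.lam z' = n`, `s'.lam y' = m`,
`D.D m ρ (D.pi n) ≠ ⊤`, then `Arr D s' (f y) z'`, so `z' = f z`. The statement on `Fp` follows. -/
def St_FIR : Prop := ∀ (P Q R V V' : Type) (D : CData P Q R) (s : CStr P R V) (s' : CStr P R V')
  (f : V → V'), Function.Injective f → (∀ x, s'.lam (f x) = s.lam x) →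
  (∀ x y, x ≠ y → s'.tp (f x) (f y) = s.tp x y) →
  (∀ x y', Arr D s' (f x) y' → y' ∈ range f) → (∀ y', y' ∉ range f → Fr D (s'.lam y')) →
  (∀ w, G D s' w = f '' G D s w) ∧ Fp D s' = f '' Fp D s

/-- [CLN] (2.5 h; uses `St_FIN`) Clones.

Proof. Let `m = s.lam x`. By `St_FIN` every `v ∉ Fp D s` has `Fr D (s.lam v)`, so
`II D (s.lam v) (s.lam v') ≠ ∅` for all `v, v' ∉ Fp D s`; choose `T : R → R → P` with
`T k l ∈ II D k l` whenever this set is not empty. Let `β := Fp D s ⊕ ({v // v ∉ Fp D s} × ℕ)` and
for `z : ℕ → Bool` let `N z` be the structure on `β` with the labels of `s`; the types between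
points of `Fp D s`, between `Fp D s` and `(v, i)` and between `(v, i)`, `(v', i)` are those of `s`;
for `i < j` the type of the pair `(v, i)`, `(v', j)` is `C z (v, i) (v', j)` and that of the pair
`(v', j)`, `(v, i)` is the inverse of it, where `C z (v, i) (v', j) ∈ II D (s.lam v) (s.lam v')`.
(1) `IsC D (N z)`: `sym` clear. For a point `p` of `β` let `i` be its copy (`i = 0` if
`p ∈ Fp D s`), and `ι_i : ℕ → β` the map `a ↦ inl a` for `a ∈ Fp D s`, `v ↦ inr (v, i)` otherwise;
it is injective and preserves the labels and the types of the pairs with `p` in the range. So the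
numbers in `N z` are at least those in `s`; and if `D.D (s.lam p) ρ q ≠ ⊤` no other point counts: for
`p = inl a` and `(v, j)` we have `¬ Arr D s a v` (`Fp_closed`), so `D.D (s.lam a) (s.tp a v)
(D.pi (s.lam v)) = ⊤`; for `p = (v, i)` and `(v', j)`, `j ≠ i`, the type is in
`II D (s.lam v) (s.lam v')`. `cls`: labels with `D.u ≠ ⊤` occur only in `Fp D s`.
(2) The colours. Let `σ := if D.inv ρ' = ρ then ρ' else ρ`; then `D.inv σ ≠ ρ'` and
`σ ∈ II D m m`. Put `C z (v, i) (v', j) = T (s.lam v) (s.lam v')` unless `s.lam v = s.lam v' = m`,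
and in this case (`i < j`):
* `v = x`, `i = 0`: `ρ` if `v' = x` and `3 ≤ j`, and `ρ'` otherwise;
* `v = v' = x`, `i = 1`, `3 ≤ j`: `ρ'` if `j` is even and `ρ` if `j` is odd;
* `v = v' = x`, `i = 2`, `3 ≤ j`: `ρ'` if `j` is odd and `ρ` if `j` is even;
* `v = v' = x`, `i = 2k + 3`, `j = 2l + 4` (so `k ≤ l`): `ρ'` if `z k = true` and `l ≤ 2k`, and `ρ`
  otherwise;
* `σ` in all other cases.
(3) Decoding (`perfKC`, parameters `p i = inr (x, i)`, `i = 0, 1, 2`). For a structure and parameters
let `Y = {y | y ≠ p 0, p 1, p 2, lam y = m, tp (p 0) y = ρ, tp (p 1) y = ρ'}`,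
`X = {y | y ≠ p 0, p 1, p 2, lam y = m, tp (p 0) y = ρ, tp (p 2) y = ρ'}` and
`Ev k := ∃ a ∈ X, {y ∈ Y | tp a y = ρ'}.encard = k + 1`. In `N z`: points `a ∈ Fp D s` have the same
type with `p 0`, `p 1`, `p 2`, so they are not in `X`, `Y`; for `(v, 0)`, `v ≠ x`: its types from
`p 1`, `p 2` are `D.inv σ ≠ ρ'`; for `(v, j)`, `v ≠ x`, `j ≥ 1`: the type from `p 0` is `ρ'`; so
`Y = {(x, j) | j ≥ 4 even}` and `X = {(x, j) | j ≥ 3 odd}`. For `a = (x, 2k + 3)` and
`y = (x, 2l + 4)` the type is `ρ'` iff `z k = true` and `k ≤ l ≤ 2k` (for `l < k` it is `D.inv σ`).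
So the number is `k + 1` if `z k = true` and `0` otherwise. -/
def St_CLN : Prop := ∀ (P Q R : Type) [Countable P] [Countable R] (D : CData P Q R)
  (s : CStr P R ℕ) (x : ℕ) (ρ ρ' : P), NQ D s → IsC D s → x ∉ Fp D s →
  ρ ∈ II D (s.lam x) (s.lam x) → ρ' ∈ II D (s.lam x) (s.lam x) → ρ ≠ ρ' → PerfK (KC D)

/-- [TAU] (0.5 h; uses `St_CLN`) Default types.

Proof. Let `Oc D m`. Then `II D m m` is not empty (`Fr`), and has only one element `ρ`: otherwise
`St_CLN` for the structure in `Oc` (its hypothesis `NQ` from `NoQ`) gives `PerfK (KC D)`. Since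
`D.inv ρ ∈ II D m m` (`II_symm`), `D.inv ρ = ρ`. For `m ≠ n` with `Oc D m`, `Oc D n` the set
`II D m n` is not empty; let `c m n` be an element of it and `ν : R → ℕ` injective. Put
`τ m n = c m n` if `ν m ≤ ν n` and `τ m n = D.inv (c n m)` otherwise, where `c m n` is any element
of `P` (`s₀.tp 0 0`) if `II D m n = ∅`. -/
def St_TAU : Prop := ∀ (P Q R : Type) [Countable P] [Countable R] (D : CData P Q R)
  (s₀ : CStr P R ℕ), NoQ D → ¬ PerfK (KC D) → ∃ τ, IsTau D τ

/-- [MEC] (1.5 h; no other module) Measurability and invariance.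

Proof. (1), (2): by definition; the conditions in `ofL` are unique existence; for `s.toL` the label
`m` of `x` is the only one with `RelMap m (fun _ => x)`, and for `x ≠ y` the same with `s.tp x y`.
(3): `(ofL ..).lam x = m` iff (`∃! m', RelMap m' (fun _ => x)` and `RelMap m (fun _ => x)`) or (not
`∃!` and `m = r0`), `∃! m', A m'` iff `∃ m', A m' ∧ ∀ m'', A m'' → m'' = m'` (`R` countable);
`measurableSet_relMap`. The same for `tp`. (4): induction on the list; `Arr` at `(x, y)` is the union
over `(m, ρ, n)` with `D.D m ρ (D.pi n) ≠ ⊤` of `lam x = m ∧ tp x y = ρ ∧ lam y = n` if `y ≠ x`;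
`measurableSet_encard_eq`. (5): `outC`: `measurableSet_le_encard`. (6): `toStr c ∈ KC D` iff
`toStr c = (ofL r0 p0 (toStr c)).toL` and `IsC D (ofL r0 p0 (toStr c))` (by (1): if
`toStr c = s.toL`, then `ofL r0 p0 s.toL` agrees with `s` on labels and on pairs of different points,
`IsC.of_iso` with the identity); the first condition is `∀ m x, RelMap m (fun _ => x) ↔ lam x = m`
and `∀ ρ x y, RelMap ρ ![x, y] ↔ x ≠ y ∧ tp x y = ρ`. -/
def St_MEC : Prop := ∀ (P Q R : Type) [Countable P] [Countable Q] [Countable R] (D : CData P Q R)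
  (r0 : R) (p0 : P),
  (∀ s : CStr P R ℕ, CIso s (ofL r0 p0 s.toL) (Equiv.refl ℕ)) ∧
  (∀ (S S' : (LC P R).Structure ℕ) (e : ℕ ≃ ℕ), RelIso S S' e →
    CIso (ofL r0 p0 S) (ofL r0 p0 S') e) ∧
  (∀ x m, MeasurableSet {c : Code (LC P R) | (ofL r0 p0 (toStr c)).lam x = m}) ∧
  (∀ x y ρ, MeasurableSet {c : Code (LC P R) | (ofL r0 p0 (toStr c)).tp x y = ρ}) ∧
  (∀ w x, MeasurableSet {c : Code (LC P R) | x ∈ G D (ofL r0 p0 (toStr c)) w}) ∧
  (∀ m (n : ℕ), MeasurableSet {c : Code (LC P R) |
    (n : ℕ∞) ≤ outC D (ofL r0 p0 (toStr c)) m}) ∧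
  MeasurableSet {c : Code (LC P R) | toStr c ∈ KC D}

/-- [KON] (1.5 h; no other module) Koenig's lemma.

Proof. For `k : ℕ` let `A k = {x // ∃ i < k, x ∈ G D s (w i)}`, `A' k` the same for `s'`; finite. Let
`I k` be the set of the bijections `A k ≃ A' k` as in `Apx`; finite and not empty. For `e ∈ I (k+1)`
the restriction to `A k` is in `I k`: `x ∈ A k` iff `∃ i < k, x ∈ G D s (w i)`, and `e` preserves
these memberships. So the `I k` form an inverse system of finite nonempty sets (contravariant
functor on `ℕ`); `nonempty_sections_of_finite_inverse_system` (or a recursion with `Finite`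
pigeonhole, or `exists_seq_covby...`-type lemmas, as convenient) gives compatible `e k ∈ I k`. Their
union is the bijection `Fp D s ≃ Fp D s'` (`w` is surjective). -/
def St_KON : Prop := ∀ (P Q R V V' : Type) (D : CData P Q R) (s : CStr P R V) (s' : CStr P R V')
  (w : ℕ → Wd P R), Function.Surjective w → (∀ v, (G D s v).Finite) → (∀ v, (G D s' v).Finite) →
  (∀ k, Apx D s s' w k) →
  ∃ e : Fp D s ≃ Fp D s', CIso (s.restr (Fp D s)) (s'.restr (Fp D s')) e

/-- [KOC] (1.5 h; uses `St_MEC`, `St_KON`, `St_FIN`) Countably many algebraic parts.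

Proof. `Wd P R` is countable (`inferInstance`) and not empty; let `w : ℕ → Wd P R` be surjective
(`exists_surjective_nat`). `r0 := s₀.lam 0`, `p0 := s₀.tp 0 0`. Apply `ctbl_of_props` with `n = 0` and
the properties of `s = ofL r0 p0 S`, indexed by
`((k : ℕ) × (N : ℕ) × (Fin N → R) × (Fin N → Fin N → P) × (Fin N → Fin k → Bool)) ⊕ (R × ℕ)`: for
`(k, N, l, t, g)`: there is an injective `v : Fin N → ℕ` with
`∀ x, (∃ i < k, x ∈ G D s (w i)) ↔ ∃ a, v a = x`, `s.lam (v a) = l a`, `s.tp (v a) (v b) = t a b`
for `a ≠ b`, and `v a ∈ G D s (w i) ↔ g a i = true`; for `(m, n)`: `(n : ℕ∞) ≤ outC D s m`. They are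
measurable and invariant (`St_MEC`; invariance of `G`: an isomorphism `e` with `CIso s s' e` gives
`x ∈ G D s w ↔ e x ∈ G D s' w`, by induction on the list, or as a hypothesis `St_FIR` with `f = e`,
whose range is everything). The result `ρ : ℕ → ...` is a sequence of structures; those in `KC D`
are of the form `(σ k).toL`, `IsC D (σ k)`; replace the others by `s₀` (`IsC D s₀`). If `s` satisfies
`IsC D s`, there is `k` such that `s.toL` and `(σ k).toL` have the same properties, and
`ofL r0 p0 s.toL` is isomorphic to `s` by the identity, so `s` and `σ k` have the same properties.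
For all `k'`: the finite set `{x | ∃ i < k', x ∈ G D (σ k) (w i)}` (`St_FIN`) has an enumeration
`v : Fin N → ℕ`; its data `(k', N, l, t, g)` are a property of `σ k`, hence of `s`, and the two
enumerations give `Apx D (σ k) s w k'`. `St_KON`. Finally `outC` is equal, since
`n ≤ outC` is equivalent for all `n : ℕ` (`ENat.eq_of_forall_natCast_le_iff`). -/
def St_KOC : Prop := ∀ (P Q R : Type) [Countable P] [Countable Q] [Countable R] (D : CData P Q R)
  (s₀ : CStr P R ℕ), IsC D s₀ → NoQ D → ¬ PerfK (KC D) →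
  ∃ σ : ℕ → CStr P R ℕ, (∀ k, IsC D (σ k)) ∧ ∀ s : CStr P R ℕ, IsC D s → ∃ k,
    (∃ e : Fp D (σ k) ≃ Fp D s, CIso ((σ k).restr (Fp D (σ k))) (s.restr (Fp D s)) e) ∧
    outC D (σ k) = outC D s

/-- [FRB] (1.5 h; no other module) Adding pieces.

Proof. Let `f = posMap j hj`; it is injective (`posMap_injective`) and preserves labels and types
(`asmC_posMap`). Since the pieces have free labels (`Piece.free`: `Oc D`, so `D.u = ⊤`) and `τ` is a
symmetric choice on such labels, we get for `asmC p'`:
`sym`: between points `inl f` from `IsC.sym` for `asmC p`; `inl f` and a point of a piece by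
definition (`D.inv_inv`); in a piece: `Piece.sym`; in different pieces: `IsTau`.
`cls m`: if `D.u m = ⊤`: at least as many as in `asmC p` by `f`. Otherwise no point of a piece has
label `m`, neither in `asmC p` nor in `asmC p'`, and the numbers are equal.
`cnt a ρ q`. (i) `a = inl g`. If `D.D (sF.lam g) ρ q = ⊤`: at least as many as in `asmC p`. If it is
`≠ ⊤`, no point of a piece counts, in `asmC p` and in `asmC p'` (`Piece.finF`), and the numbers are
equal. (ii) `a = (i, x)` a point of a piece and `D.D ((p' i).lam x) ρ q ≠ ⊤`: a point of another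
piece does not count, since its type is `τ ((p' i).lam x) n ∈ II D _ n` (`n` its label), so
`D.D _ (τ _ n) (D.pi n) = ⊤`. The points `inl g` and those of the piece itself are counted in
`Piece.finC`. (iii) `a = (j i, x)` in an old piece, `D.D = ⊤`: at least as many as in `asmC p`.
(iv) `a = (i', x)`, `i' ∉ range j`, `D.D = ⊤`: use `Piece.infC`. In the first case there are
infinitely many among the `inl g` and the points of the piece. In the second case: for every `n` the
number `o n` is at most the number of the points with label `n` in the pieces of `p` (`MdC p`), so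
there is an injection of `{k : ℕ | k < o n}` into these points; this gives an injective map from the
infinite set of the `(n, k)` to the points `(j i, y)` with label `n`, `D.pi n = q`,
`τ ((p' i').lam x) n = ρ`; all of them count, because they are in a different piece.
`Infinite` and the last condition of `MdC` by `f`. -/
def St_FRB : Prop := ∀ (P Q R Ft : Type) (D : CData P Q R) (τ : R → R → P) (sF : CStr P R Ft)
  (o : R → ℕ∞), IsTau D τ → ∀ (I I' : Type) (p : I → Piece D τ sF o)
  (p' : I' → Piece D τ sF o) (j : I → I'), Function.Injective j → (∀ i, p' (j i) = p i) →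
  MdC p → MdC p'

/-- [FRC] (1.5 h; uses `St_FIR`) Isomorphisms respect the pieces.

Proof. (1) `Fp D (asmC p) = range Sum.inl`: `St_FIR` for `f = Sum.inl`: a point `(i, x)` of a piece
is not an arrow target of `inl g`, because `D.D (sF.lam g) (D.inv (fr x g)) (D.pi (lam x)) = ⊤`
(`Piece.finF`), and its label is free. (2) By `St_FIR` for `e` (or directly by induction on words)
`e '' Fp D (asmC p) = Fp D (asmC p')`; so there is a bijection `α : Ft ≃ Ft` with
`e (inl g) = inl (α g)`, and `e` maps points of pieces to points of pieces. (3) If `a`, `b` are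
different points of the piece `i` with `(p i).tp a b ≠ τ (lam a) (lam b)`, then `e (i, a)`, `e (i, b)`
are in the same piece, since otherwise their type would be `τ (lam a) (lam b)`. With `Piece.conn`
(induction on `Relation.ReflTransGen`) all points of the piece `i` go to one piece `t i`
(`Piece.ne`). The same for `e.symm`, so `t : I ≃ I'` and `e` restricts to bijections
`e_i : (p i).el ≃ (p' (t i)).el`, which preserve `lam`, `tp` (different points) and satisfy
`(p' (t i)).fr (e_i a) (α g) = (p i).fr a g`. (4) If `h` is an isomorphism `PIso (p i) (p j)`, then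
`e_j ∘ h ∘ e_i⁻¹` is an isomorphism `PIso (p' (t i)) (p' (t j))` (for `fr`: write the point of `Ft`
as `α g`), and conversely. -/
def St_FRC : Prop := ∀ (P Q R Ft : Type) (D : CData P Q R) (τ : R → R → P) (sF : CStr P R Ft)
  (o : R → ℕ∞), IsTau D τ → Fp D sF = univ → ∀ (I I' : Type) (p : I → Piece D τ sF o)
  (p' : I' → Piece D τ sF o), MdC p → MdC p' → (∃ e, CIso (asmC p) (asmC p') e) →
  ∃ t : I ≃ I', ∀ i j, PIso (p i) (p j) ↔ PIso (p' (t i)) (p' (t j))

/-- [FRD] (0.7 h; no other module) Isomorphic pieces.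

Proof. Choose `e_i` for `PIso (p i) (p' (t i))`. The map `inl g ↦ inl g`,
`(i, x) ↦ (t i, e_i x)` is a bijection (inverse: `(i', y) ↦ (t⁻¹ i', e⁻¹ y)`; or
`Equiv.ofBijective`), preserves labels, and types of different points: within a piece by `PIso`, in
different pieces `i ≠ i'` one has `t i ≠ t i'` and the type is `τ` of the labels. `MdC p'`:
`IsC.of_iso`, `Infinite.of_injective`, `encard_equiv`. -/
def St_FRD : Prop := ∀ (P Q R Ft : Type) (D : CData P Q R) (τ : R → R → P) (sF : CStr P R Ft)
  (o : R → ℕ∞) (I I' : Type) (p : I → Piece D τ sF o) (p' : I' → Piece D τ sF o) (t : I ≃ I'),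
  (∀ i, PIso (p i) (p' (t i))) → MdC p → (∃ e, CIso (asmC p) (asmC p') e) ∧ MdC p'

/-- [FRM] (0.7 h; uses `St_FRB`, `St_FRC`, `St_FRD`) The frame.

Proof. `Frame.dichotomy` for the frame with `Piece := Piece D τ sF o`, `r := PIso` (an equivalence
relation), `F := Ft`, `el := Piece.el`, `asm p := (asmC p).toL`, `Md := MdC`. `md_congr`, `congr`:
`St_FRD`; `inf`: `MdC`; `emb`: `asmC_posMap` and injectivity of `posMap` (for `RelMap` of arity 2);
`mem`, `rep`: by definition of `KF`; `mono`: `St_FRB`; `dec`: `St_FRC` with `iso_toL_iff`. -/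
def St_FRM : Prop := ∀ (P Q R Ft : Type) [Countable P] [Countable R] [Countable Ft]
  (D : CData P Q R) (τ : R → R → P) (sF : CStr P R Ft) (o : R → ℕ∞), IsTau D τ →
  Fp D sF = univ → CtblK (KF D τ sF o) ∨ PerfK (KF D τ sF o)

/-- [DCM] (2 h; uses `St_FIN`) The decomposition into pieces.

Proof. Write `F = Fp D s`. Every `x ∉ F` has `Oc D (s.lam x)` (`St_FIN`, with the structure `s`
itself). For `x, y ∉ F` let `Adj x y := x ≠ y ∧ s.tp x y ≠ τ (s.lam x) (s.lam y)`; it is symmetric
(`IsTau`, `IsC.sym`). Let `~` be the equivalence relation on `{x // x ∉ F}` generated by it and `I`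
the set of classes (countable). The piece `i`: `el = {x | x ∉ F, x in the class i}`, `lam = s.lam`,
`tp = s.tp`, `fr x f = s.tp x (e f)`. Conditions: `ne`, `free`, `sym`, `conn` clear. `finF`:
`D.inv (s.tp x (e f)) = s.tp (e f) x`, the label of `e f` is that of `f`, and `¬ Arr D s (e f) x`
(`Fp_closed`). `finC`: the points `y ≠ x` with `s.tp x y = ρ` and coarse label `q` are in `F`
(counted by `f`, `y = e f`) or in the class of `x`, or in another class, and then
`ρ = τ (s.lam x) (s.lam y) ∈ II`, so `D.D (s.lam x) ρ q = ⊤`. `infC`: if the first sum is `≠ ⊤`, then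
infinitely many such `y` are in other classes, and `τ (s.lam x) (s.lam y) = ρ` for them. For every
label `n` the number of points `y ∉ F` with label `n` is `outC D s n = outC D s₀ n`; so there is an
injection `h_n` of these points into `{k : ℕ | k < outC D s₀ n}` (`encard_lt_nat`,
`nonempty_equiv_of_encard`) and `y ↦ (s.lam y, h y)` maps the infinite set of these `y` injectively to
the set in `infC`.
The bijection `Pos ≃ ℕ`, `inl f ↦ e f`, `(i, x) ↦ x`, is an isomorphism of `asmC p` with `s` (in
different classes: `s.tp x y = τ ..`). `MdC p`: `IsC.of_iso`, `Infinite.of_injective`, and the number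
of points with label `m` in the pieces is `outC D s m`. -/
def St_DCM : Prop := ∀ (P Q R : Type) (D : CData P Q R) (τ : R → R → P), NoQ D → IsTau D τ →
  ∀ (s s₀ : CStr P R ℕ), IsC D s → IsC D s₀ → ∀ e : Fp D s₀ ≃ Fp D s,
  CIso (s₀.restr (Fp D s₀)) (s.restr (Fp D s)) e → outC D s₀ = outC D s →
  s.toL ∈ KF D τ (s₀.restr (Fp D s₀)) (outC D s₀)

/-- [COR] (0.7 h; uses `St_LMQ`, `St_FIN`, `St_FIR`, `St_TAU`, `St_KOC`, `St_FRM`, `St_DCM`) The
combinatorial theorem.

Proof. Assume `¬ PerfK (KC D)`. If `KC D` is empty, `CtblK` is trivial; let `IsC D s₀`. `NoQ D`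
holds, since otherwise `St_LMQ` gives `PerfK (KC D)`. `St_TAU` gives `τ`, `St_KOC` the sequence `σ`.
For `k : ℕ` let `K k := KF D τ ((σ k).restr (Fp D (σ k))) (outC D (σ k))`. `K k ⊆ KC D`
(`mem_KC`). `Fp D ((σ k).restr _) = univ` by `St_FIR` with `f = Subtype.val` (`Fp_closed`,
`St_FIN`): `Fp D (σ k) = Subtype.val '' Fp D ((σ k).restr _)`. So `St_FRM` gives `CtblK (K k)` or
`PerfK (K k)`; the latter would give `PerfK (KC D)`. By `St_DCM` every member of `KC D` is in some
`K k`; a countable union of classes with `CtblK` has `CtblK` (`Nat.unpair`). -/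
def St_COR : Prop := ∀ (P Q R : Type) [Countable P] [Countable Q] [Countable R]
  (D : CData P Q R), CtblK (KC D) ∨ PerfK (KC D)

end CTQ
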