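import Pool.Agent.CTQ.DefsC
import Pool.Agent.CTQ.StB

/-!
# CTQ, statements C: logic

Rules as in `StA.lean`. The corresponding modules for the logic without counting are
`Pool/Agent/VPF/{SUB,MEA,INV,TRU,AR3}.lean` (copy and adapt).
-/

set_option autoImplicit false
set_option linter.unusedVariables false

namespace CTQ

open FirstOrder Set Pool.Agent.Helper6.Str Pool.Agent.Helper5.Multi Pool.Agent.Helper79.VC
open VPF (Atm atm)

/-- [SBC] (0.3 h; no other module; copy `VPF/SUB.lean`) Every formula is in a countable set closed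
under subformulas.

Proof. Induction on `φ`; see `VPF/SUB.lean`. -/
def St_SBC : Prop := ∀ (L : FirstOrder.Language.{0, 0}) (k : ℕ) (φ : FC L k),
  ∃ F : ℕ → FC L k, ClsC F ∧ F 0 = φ

/-- [MSC] (0.5 h; no other module; copy `VPF/MEA.lean`) Truth is a Borel property.

Proof. Induction on `φ`; see `VPF/MEA.lean`; for `ge n i φ` use `measurableSet_le_encard`. -/
def St_MSC : Prop := ∀ (L : FirstOrder.Language.{0, 0}) [∀ n, IsEmpty (L.Functions n)]
  [∀ n, Countable (L.Relations n)],
  (∀ (k : ℕ) (φ : FC L k) (v : Fin k → ℕ), MeasurableSet {c : Code L | φ.Sat (toStr c) v}) ∧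
  (∀ (F : ℕ → FC L 2) (x : ℕ) i, MeasurableSet {c : Code L | tyc (toStr c) F x i}) ∧
  (∀ (x y : ℕ) a, MeasurableSet {c : Code L | atm (toStr c) x y a}) ∧
  (∀ (k : ℕ) (φ : FC L k), MeasurableSet {c : Code L | toStr c ∈ ModC φ})

/-- [IVC] (0.4 h; no other module; copy `VPF/INV.lean`) Isomorphisms preserve truth.

Proof. Induction on `φ`; for `ge n i φ` use `encard_equiv e`. -/
def St_IVC : Prop := ∀ (L : FirstOrder.Language.{0, 0}) (M N : Type)
  (S : L.Structure M) (S' : L.Structure N) (e : M ≃ N), RelIso S S' e →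
  (∀ (k : ℕ) (φ : FC L k) (v : Fin k → M), φ.Sat S' (e ∘ v) ↔ φ.Sat S v) ∧
  (∀ (F : ℕ → FC L 2) x, tyc S' F (e x) = tyc S F x) ∧
  (∀ x y, pt S' (e x) (e y) = pt S x y)

/-- [TRC] (1 h; no other module; compare `VPF/TRU.lean`) The truth lemma with counting.

Proof. Claim: for every `m`, all `v : Fin 2 → M`, `v' : Fin 2 → N` with
`tyc S F (v i) = tyc S F (π (v' i))` (`i = 0, 1`), `v 0 = v 1 ↔ v' 0 = v' 1` and
`∀ a, atm S (v 0) (v 1) a ↔ atm S' (v' 0) (v' 1) a`: `(F m).Sat S v ↔ (F m).Sat S' v'`. Prove by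
induction on the formula `ψ`: for all `m` with `F m = ψ` the claim. `eq`, `rel`, `neg`, `conj` as in
`VPF/TRU.lean`. `ge n 1 ψ`, `ψ = F m'`: the truth at `v` does not depend on `v 1`, so it is
`tyc S F (v 0) (inl m) = tyc S F (π (v' 0)) (inl m)`, i.e. `n ≤ {a | ψ.Sat S ![π (v' 0), a]}.encard`.
Take the bijection `b` of `MatC` for `x' = v' 0`. The induction hypothesis for `(π x', b a')` and
`(x', a')` gives `ψ.Sat S ![π x', b a'] ↔ ψ.Sat S' ![x', a']` (`π x' = b a' ↔ b x' = b a' ↔ x' = a'`),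
so the two sets have the same `encard` (`encard_equiv`). `ge n 0 ψ`: the same with the coordinates
exchanged (exchange of the variables in atomic formulas as in `VPF/TRU.lean`). The first statement:
`inl m`: the claim for `v = (π x', π x')`, `v' = (x', x')`; `inr a`: `MatC` with `y' = x'`. The
second one: for `v'` let `b` belong to `v' 0` and `v = (π (v' 0), b (v' 1))`. -/
def St_TRC : Prop := ∀ (L : FirstOrder.Language.{0, 0}) (F : ℕ → FC L 2) (M N : Type)
  (S : L.Structure M) (S' : L.Structure N) (π : N → M), ClsC F → MatC S S' F π →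
  (∀ x', tyc S' F x' = tyc S F (π x')) ∧
  (∀ m, (∀ v : Fin 2 → M, (F m).Sat S v) → ∀ v' : Fin 2 → N, (F m).Sat S' v')

/-- [ARC] (0.6 h; no other module; copy `VPF/AR3.lean`) A symbol of arity at least three.

Proof. As `VPF/AR3.lean`: structures which agree on all tuples with at most two different values
satisfy the same formulas of `FC L 2` (induction; `ge`: the two sets are equal). -/
def St_ARC : Prop := ∀ (L : FirstOrder.Language.{0, 0}) [∀ n, IsEmpty (L.Functions n)]
  [∀ n, Countable (L.Relations n)] (φ : FC L 2) (n : ℕ) (R0 : L.Relations n), 3 ≤ n →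
  (ModC φ).Nonempty → PerfK (ModC φ)

/-- [LBL] (1.5 h; uses `St_MSC`, `St_IVC`) Countably many labels.

Proof. `K := ModC (F 0)` is measurable (`St_MSC`). Four applications of `ctbl_of_props`:
(1) `n = 2`, properties `atm S (v 0) (v 1) a`, `a : Atm L`: a sequence `ρ` such that every element of
`PTy K` is `pt (ρ m).1 ((ρ m).2 0) ((ρ m).2 1)` for some `m`, so `PTy K` is countable (an injection
into `ℕ`). (2) `n = 1`, properties `tyc S F (v 0) i`: `QTy K F` is countable. (3) `n = 1`, properties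
of (2) and `(k : ℕ∞) ≤ cntT K F S (v 0) ρ q` for `k : ℕ`, `ρ : PTy K`, `q : QTy K F` (countable index
set by (1), (2); measurable by `measurableSet_le_encard`; two values in `ℕ∞` with the same lower
bounds in `ℕ` are equal, `ENat.eq_of_forall_natCast_le_iff`): `RTy K F` is countable. (4) `n = 0`,
properties `(k : ℕ∞) ≤ (dat K F S).u r` for `k : ℕ`, `r : RTy K F`; `tyc S F x = r.1.1.1` and
`cntT K F S x = r.1.2` are measurable as countable intersections. This gives `σ`. Invariance:
`St_IVC` (`cntT K F S' (e x) = cntT K F S x` by `encard_equiv`). -/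
def St_LBL : Prop := ∀ (L : FirstOrder.Language.{0, 0}) [∀ n, IsEmpty (L.Functions n)]
  [∀ n, Countable (L.Relations n)] (F : ℕ → FC L 2), ¬ PerfK (ModC (F 0)) →
  Countable (PTy (ModC (F 0))) ∧ Countable (QTy (ModC (F 0)) F) ∧
  Countable (RTy (ModC (F 0)) F) ∧ ∃ σ : ℕ → L.Structure ℕ, ∀ S ∈ ModC (F 0), ∃ k,
    σ k ∈ ModC (F 0) ∧ (dat (ModC (F 0)) F (σ k)).u = (dat (ModC (F 0)) F S).u

/-- [TRF] (1.5 h; uses `St_TRC`) The transfer.

Proof. Write `K = ModC (F 0)`, `D = dat K F S₀`. (1) For every `x'` there is a point `π x'` of `S₀`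
with `tyc S₀ F (π x') = (t.lam x').1.1.1` and `cntT K F S₀ (π x') = (t.lam x').1.2`: the class of the
label `t.lam x'` is not empty, so `D.u (t.lam x') ≠ 0` (`IsC.cls`). (2) For every `x'` there is a
bijection `b : ℕ ≃ ℕ` with `b x' = π x'`, and `pt S₀ (π x') (b y') = (t.tp x' y').1`,
`tyc S₀ F (b y') = (t.lam y').1.1.1` for `y' ≠ x'`: by `IsC.cnt` and the definition of `cntT` the maps
`y' ↦ (t.tp x' y', (t.lam y').1.1)` on `{y' // y' ≠ x'}` and `y ↦ (pt S₀ (π x') y, tyc S₀ F y)` on
`{y // y ≠ π x'}` (with values in `PTy K × QTy K F`) have equal fibres: `exists_equiv_of_fibres`;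
extend it by `x' ↦ π x'`. (3) For `x' ≠ y'`: `pt (psi t) x' y' = (t.tp x' y').1`, and
`atm (psi t) x' x' a ↔ (t.lam x').1.1.1 (inr a)`: let `x = π x'`, `y = b y'`; so
`(t.tp x' y').1 = pt S₀ x y`, `(t.lam x').1.1.1 = tyc S₀ F x`, `(t.lam y').1.1.1 = tyc S₀ F y`. For
`a = ⟨n, R, w⟩`: `n = 0`: both sides are the truth of `R` in `S₀`; `n = 1`: both sides are
`S₀.RelMap R` at `x` or `y` (according to `w 0`); `n = 2`: `w = (0, 1)` by definition; `w = (1, 0)`:
`(t.tp y' x').1 = swT (t.tp x' y').1` by `IsC.sym`; `w` constant: labels; `n ≥ 3`: no symbols.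
(4) So `MatC S₀ (psi t) F π`, and `St_TRC` gives `tyc (psi t) F x' = tyc S₀ F (π x') =
(t.lam x').1.1.1` and `psi t ∈ K`. (5) `cntT K F (psi t) x' ρ q = {y' | y' ≠ x' ∧ t.tp x' y' = ρ ∧
(t.lam y').1.1 = q}.encard = (t.lam x').1.2 ρ q` by `IsC.cnt`. -/
def St_TRF : Prop := ∀ (L : FirstOrder.Language.{0, 0}) [∀ n, IsEmpty (L.Functions n)]
  (F : ℕ → FC L 2), (∀ n, 3 ≤ n → IsEmpty (L.Relations n)) → ClsC F →
  ∀ S₀ ∈ ModC (F 0), ∀ t : CStr (PTy (ModC (F 0))) (RTy (ModC (F 0)) F) ℕ,
  IsC (dat (ModC (F 0)) F S₀) t →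
  psi t ∈ ModC (F 0) ∧ (∀ x y, x ≠ y → pt (psi t) x y = (t.tp x y).1) ∧
  (∀ x, tyc (psi t) F x = (t.lam x).1.1.1) ∧
  (∀ x, cntT (ModC (F 0)) F (psi t) x = (t.lam x).1.2)

/-- [RED] (1.5 h; uses `St_COR`, `St_LBL`, `St_TRF`, `St_IVC`) The reduction.

Proof. Let `K = ModC (F 0)` and `¬ PerfK K`; `σ` from `St_LBL`. For every `k` with `σ k ∈ K` let
`D = dat K F (σ k)`; `St_COR` gives `CtblK (KC D)` or `PerfK (KC D)`. (a) `PerfK (KC D)` is
impossible: let `f` be the map; `f z = (t z).toL` with `IsC D (t z)`; then `g z := psi (t z)` is in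
`K` (`St_TRF`), and `RelIso (psi (t z)) (psi (t z')) e` implies `CIso (t z) (t z') e` (the label of
`x` in `t z` is the pair of `tyc` and `cntT` of `psi (t z)` at `x`, `(t z).tp x y` is `pt (psi (t z))
x y`, and these are invariant: `St_IVC`, `encard_equiv`), hence `RelIso (f z) (f z') e`
(`relIso_iff`) and `z = z'`. The relations of `g z` are clopen in `z`: by the definition of `psiRel`
they are of the form `(t z).lam x ∈ A` or `(t z).tp x y ∈ A`, `x ≠ y`, with a fixed set `A`; the set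
`{z | (t z).lam x = m}` is clopen (`RelMap m (fun _ => x)`), so `{z | (t z).lam x ∈ A}` is open as a
union of such sets, and so is its complement; the same for `tp`. This contradicts `¬ PerfK K`.
(b) So `CtblK (KC D)` for all these `k`, with sequences `g_k`. Let `S ∈ K` and `k` be such that
`(dat K F (σ k)).u = (dat K F S).u` (`St_LBL`). Then `IsC D (cs F hS)`: `sym`: `swT_pt`; `cls`: the
definition of `u`; `cnt`: the definition of `cntT`. Let `(cs F hS).toL ≅ g_k l`; then
`g_k l ∈ KC D` (`mem_KC`), `g_k l = t.toL`, and `CIso (cs F hS) t e`. `psi (cs F hS)` is `S` up to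
`RelIso` with the identity (arity 0, 1, 2 by definition of `tyc`, `pt`; no other symbols), and
`CIso (cs F hS) t e` implies `RelIso (psi (cs F hS)) (psi t) e` (arity 1, 2: by definition; arity 0:
the value of a symbol of arity 0 is read off from the label of `0` in both structures, and
`(t.lam 0).1.1.1 (inr ⟨0, R, _⟩)` is by `St_TRF` the truth of `R` in `psi t`, at any point in place of
`0`). So `S ≅ psi t`, where `t` depends only on `(k, l)`. -/
def St_RED : Prop := ∀ (L : FirstOrder.Language.{0, 0}) [∀ n, IsEmpty (L.Functions n)]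
  [∀ n, Countable (L.Relations n)] (F : ℕ → FC L 2), (∀ n, 3 ≤ n → IsEmpty (L.Relations n)) →
  ClsC F → CtblK (ModC (F 0)) ∨ PerfK (ModC (F 0))

/-- [TWO] (0.3 h; uses `St_SBC`, `St_ARC`, `St_RED`) Vaught's conjecture for infinitary logic with
two variables and counting quantifiers.

Proof. If `ModC φ` is empty: `CtblK`. If there is a symbol of arity at least three: `St_ARC`.
Otherwise `St_SBC` and `St_RED`. For `k < 2` variables: rename the variables by an injection
`ι : Fin k → Fin 2` (`FC.map`): `(φ.map ι).Sat S v ↔ φ.Sat S (v ∘ ι)` by induction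
(`Function.update v (ι i) a ∘ ι = Function.update (v ∘ ι) i a`), so `ModC (φ.map ι) = ModC φ`
(every `v : Fin k → ℕ` is of the form `v' ∘ ι`). -/
def St_TWO : Prop := ∀ (L : FirstOrder.Language.{0, 0}) [∀ n, IsEmpty (L.Functions n)]
  [∀ n, Countable (L.Relations n)] (k : ℕ) (φ : FC L k), k ≤ 2 → CtblK (ModC φ) ∨ PerfK (ModC φ)

/-- [THR] (0.7 h; no other module; uses `Pool.Agent.CTQ.thm_SHP` (helper97), `VPF.thm_C`) Three
variables.

Proof. By `VPF.thm_C` with `D := fun _ => True` it is enough to show `CtblK (ModF T')` or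
`PerfK (ModF T')` for all theories in relational languages with countably many symbols, all of them
unary or binary; this is `thm_SHP` for `T'` and a true sentence `φ` (then `IsMod T' φ S` iff `S` is a
model of `T'`), if its hypothesis holds: given `φ : FV L' 3`, let `φ' = mapV ι φ : FV L' k` for the
inclusion `ι : Fin 3 → Fin k`; `(mapV ι φ).Sat S v ↔ φ.Sat S (v ∘ ι)` by induction, so
`ModV (mapV ι φ) = ModV φ`. -/
def St_THR : Prop := ∀ k : ℕ, 3 ≤ k →
  (∀ L' : FirstOrder.Language.{0, 0}, (∀ n, Countable (L'.Relations n)) →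
    (∀ n, IsEmpty (L'.Functions n)) → (∀ n, n ≠ 1 → n ≠ 2 → IsEmpty (L'.Relations n)) →
    Subsingleton (L'.Relations 2) → ∀ φ : VPF.FV L' k, CtblK (VPF.ModV φ) ∨ PerfK (VPF.ModV φ)) →
  ∀ (L : FirstOrder.Language.{0, 0}), Countable L.Symbols → ∀ (T : L.Theory),
      (∃ g : ℕ → L.Structure ℕ, ∀ S : L.Structure ℕ,
          @FirstOrder.Language.Theory.Model L ℕ S T →
            ∃ n : ℕ, Nonempty (@FirstOrder.Language.Equiv L ℕ ℕ S (g n))) ∨
      (∃ f : (ℕ → Bool) → L.Structure ℕ,
          (∀ x : ℕ → Bool, @FirstOrder.Language.Theory.Model L ℕ (f x) T) ∧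
          (∀ x y : ℕ → Bool,
              Nonempty (@FirstOrder.Language.Equiv L ℕ ℕ (f x) (f y)) → x = y) ∧
          (∀ (n : ℕ) (R : L.Relations n) (a : Fin n → ℕ),
              IsClopen {x : ℕ → Bool | @FirstOrder.Language.Structure.RelMap L ℕ (f x) n R a}) ∧
          (∀ (n : ℕ) (F : L.Functions n) (a : Fin n → ℕ) (b : ℕ),
              IsOpen {x : ℕ → Bool |
                @FirstOrder.Language.Structure.funMap L ℕ (f x) n F a = b}))

end CTQ
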