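import Pool.Agent.CTQ.FG
import Pool.Agent.CTQ.SHJ

/-!
# Three variables, guards, and unguarded quantifiers over two variables: definability (helper97)
-/

set_option autoImplicit false
set_option linter.unusedSectionVars false
set_option linter.unusedVariables false

namespace CTQ.TG

open FirstOrder Set Pool.Agent.Helper6.Str

section dfn

variable {L : FirstOrder.Language.{0, 0}} {V : Type} [DecidableEq V]

/-- `Q` is defined by a formula in which every quantified subformula is guarded or has at most two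
variables, with free variables in `X`. -/
def D (X : Set V) (Q : ∀ N : Type, L.Structure N → (V → N) → Prop) : Prop :=
  ∃ φ : FG L V, φ.Gd 2 ∧ φ.fv ⊆ X ∧
    ∀ (N : Type) (S : L.Structure N) (v : V → N), φ.Sat S v ↔ Q N S v

variable {X Y : Set V} {Q Q' : ∀ N : Type, L.Structure N → (V → N) → Prop}

theorem D.mono (h : D X Q) (hX : X ⊆ Y) : D Y Q := by
  obtain ⟨φ, h1, h2, h3⟩ := h
  exact ⟨φ, h1, h2.trans hX, h3⟩

theorem D.congr (h : D X Q) (h' : ∀ N S v, Q N S v ↔ Q' N S v) : D X Q' := by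
  obtain ⟨φ, h1, h2, h3⟩ := h
  exact ⟨φ, h1, h2, fun N S v => (h3 N S v).trans (h' N S v)⟩

theorem D.eq {i j : V} (hi : i ∈ X) (hj : j ∈ X) :
    D (L := L) X fun N S v => v i = v j :=
  ⟨.eq i j, trivial, by rintro x (rfl | rfl); exacts [hi, hj], fun N S v => Iff.rfl⟩

theorem D.rel {n : ℕ} (R : L.Relations n) (w : Fin n → V) (hw : ∀ i, w i ∈ X) :
    D X fun N S v => S.RelMap R fun i => v (w i) :=
  ⟨.rel R w, trivial, by rintro x ⟨i, rfl⟩; exact hw i, fun N S v => Iff.rfl⟩

theorem D.neg (h : D X Q) : D X fun N S v => ¬ Q N S v := by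
  obtain ⟨φ, h1, h2, h3⟩ := h
  exact ⟨.neg φ, h1, h2, fun N S v => not_congr (h3 N S v)⟩

theorem D.tr [Nonempty V] : D (L := L) X fun N S v => True := by
  obtain ⟨a⟩ := ‹Nonempty V›
  refine ⟨.ge 0 {a} (.eq a a), ⟨trivial, Or.inl ?_⟩, ?_, fun N S v => ?_⟩
  · have h : (FG.eq a a : FG L V).fv ∪ (({a} : Finset V) : Set V) = {a} := by
      ext x
      simp [FG.fv]
    rw [h, encard_singleton]
    exact one_le_two
  · intro x hx
    simp [FG.fv] at hx
  · simp [FG.sat_ge]

theorem D.all [Nonempty V] {ι : Type} [Countable ι]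
    {Q : ι → ∀ N : Type, L.Structure N → (V → N) → Prop} (h : ∀ i, D X (Q i)) :
    D X fun N S v => ∀ i, Q i N S v := by
  rcases isEmpty_or_nonempty ι with h0 | h0
  · exact D.tr.congr fun N S v => ⟨fun _ i => isEmptyElim i, fun _ => trivial⟩
  · obtain ⟨e, he⟩ := exists_surjective_nat ι
    choose φ h1 h2 h3 using h
    refine ⟨.conj fun n => φ (e n), fun n => h1 _, ?_, fun N S v => ?_⟩
    · rintro x ⟨_, ⟨n, rfl⟩, hx⟩
      exact h2 (e n) hx
    · constructor
      · intro h i
        obtain ⟨n, rfl⟩ := he i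
        exact (h3 _ N S v).1 (h n)
      · intro h n
        exact (h3 _ N S v).2 (h _)

theorem D.and (h : D X Q) (h' : D X Q') : D X fun N S v => Q N S v ∧ Q' N S v := by
  obtain ⟨φ, h1, h2, h3⟩ := h
  obtain ⟨φ', h1', h2', h3'⟩ := h'
  refine ⟨.conj fun n => if n = 0 then φ else φ', fun n => ?_, ?_, fun N S v => ?_⟩
  · show FG.Gd 2 (if n = 0 then φ else φ')
    split_ifs
    · exact h1
    · exact h1'
  · rintro x ⟨_, ⟨n, rfl⟩, hx⟩
    by_cases hn : n = 0
    · simp only [hn, if_true] at hx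
      exact h2 hx
    · simp only [hn, if_false] at hx
      exact h2' hx
  · constructor
    · intro h
      exact ⟨(h3 N S v).1 (h 0), (h3' N S v).1 (h 1)⟩
    · rintro ⟨h, h'⟩ n
      show (if n = 0 then φ else φ').Sat S v
      split_ifs
      · exact (h3 N S v).2 h
      · exact (h3' N S v).2 h'

theorem D.imp (h : D X Q) (h' : D X Q') : D X fun N S v => Q N S v → Q' N S v :=
  (h.and h'.neg).neg.congr fun N S v => by
    by_cases h1 : Q N S v <;> by_cases h2 : Q' N S v <;> simp [h1, h2]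

theorem one_le_iff {M : Type} (A : Set M) : ((1 : ℕ) : ℕ∞) ≤ A.encard ↔ ∃ a, a ∈ A := by
  rw [Nat.cast_one, Set.one_le_encard_iff_nonempty]
  exact Iff.rfl

theorem two_le_iff {M : Type} (A : Set M) :
    ((2 : ℕ) : ℕ∞) ≤ A.encard ↔ ∃ a b, a ∈ A ∧ b ∈ A ∧ a ≠ b := by
  have h : ((2 : ℕ) : ℕ∞) ≤ A.encard ↔ 1 < A.encard := by
    rw [← ENat.add_one_le_iff (by simp)]
    rfl
  rw [h, one_lt_encard_iff]

theorem enc {φ : FG L V} {c : V} (h : φ.fv ⊆ X) (hX : (insert c X).encard ≤ 2) :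
    (φ.fv ∪ (({c} : Finset V) : Set V)).encard ≤ 2 := by
  refine (encard_le_encard ?_).trans hX
  rw [Finset.coe_singleton]
  rintro x (hx | hx)
  · exact Or.inr (h hx)
  · exact Or.inl hx

theorem D.ex (c : V) (h : D X Q) (hX : (insert c X).encard ≤ 2) (hY : X \ {c} ⊆ Y) :
    D Y fun N S v => ∃ x, Q N S (Function.update v c x) := by
  obtain ⟨φ, h1, h2, h3⟩ := h
  refine ⟨.ge 1 {c} φ, ⟨h1, Or.inl (enc h2 hX)⟩, ?_, fun N S v => ?_⟩
  · refine Set.Subset.trans ?_ hY
    show φ.fv \ (({c} : Finset V) : Set V) ⊆ _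
    rw [Finset.coe_singleton]
    exact sdiff_subset_sdiff_left h2
  · rw [FG.sat_ge_one, one_le_iff]
    exact exists_congr fun x => h3 N S _

theorem D.uni (c : V) (h : D X Q) (hX : (insert c X).encard ≤ 2) (hY : X \ {c} ⊆ Y) :
    D Y fun N S v => ∀ x y, Q N S (Function.update v c x) → Q N S (Function.update v c y) →
      x = y := by
  obtain ⟨φ, h1, h2, h3⟩ := h
  refine ⟨.neg (.ge 2 {c} φ), ⟨h1, Or.inl (enc h2 hX)⟩, ?_, fun N S v => ?_⟩
  · refine Set.Subset.trans ?_ hY
    show φ.fv \ (({c} : Finset V) : Set V) ⊆ _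
    rw [Finset.coe_singleton]
    exact sdiff_subset_sdiff_left h2
  · rw [FG.sat_neg, FG.sat_ge_one, two_le_iff]
    constructor
    · intro h x y hx hy
      by_contra hxy
      exact h ⟨x, y, (h3 N S _).2 hx, (h3 N S _).2 hy, hxy⟩
    · rintro h ⟨x, y, hx, hy, hxy⟩
      exact hxy (h x y ((h3 N S _).1 hx) ((h3 N S _).1 hy))

theorem D.fa (c : V) (h : D X Q) (hX : (insert c X).encard ≤ 2) (hY : X \ {c} ⊆ Y) :
    D Y fun N S v => ∀ x, Q N S (Function.update v c x) :=
  (h.neg.ex c hX hY).neg.congr fun N S v => by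
    push Not
    rfl

/-- quantifiers guarded by an atom -/
theorem D.exg {n : ℕ} (R : L.Relations n) (w : Fin n → V) (c : V) (h : D X Q)
    (hX : X ⊆ range w) (hc : c ∈ range w) (hY : range w \ {c} ⊆ Y) :
    D Y fun N S v => ∃ x, S.RelMap R (fun i => Function.update v c x (w i)) ∧
      Q N S (Function.update v c x) := by
  obtain ⟨φ, h1, h2, h3⟩ := h
  let f : ℕ → FG L V := fun n => if n = 0 then .rel R w else φ
  have hf0 : f 0 = .rel R w := rfl
  have hf1 : ∀ n, n ≠ 0 → f n = φ := fun n hn => if_neg hn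
  have hfv : (FG.conj f).fv ⊆ range w := by
    rintro x ⟨_, ⟨n, rfl⟩, hx⟩
    by_cases hn : n = 0
    · simp only [hn, hf0] at hx
      exact hx
    · simp only [hf1 n hn] at hx
      exact hX (h2 hx)
  refine ⟨.ge 1 {c} (.conj f), ⟨fun n => ?_, Or.inr ⟨f, 0, n, R, w, rfl, hf0, ?_⟩⟩, ?_,
    fun N S v => ?_⟩
  · show FG.Gd 2 (f n)
    by_cases hn : n = 0
    · rw [hn, hf0]
      trivial
    · rw [hf1 n hn]
      exact h1
  · rw [Finset.coe_singleton]
    rintro x (hx | hx)
    · exact hfv hx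
    · rw [mem_singleton_iff] at hx
      rw [hx]
      exact hc
  · refine Set.Subset.trans ?_ hY
    show (FG.conj f).fv \ (({c} : Finset V) : Set V) ⊆ _
    rw [Finset.coe_singleton]
    exact sdiff_subset_sdiff_left hfv
  · rw [FG.sat_ge_one, one_le_iff]
    refine exists_congr fun x => ?_
    show (∀ m, (f m).Sat S (Function.update v c x)) ↔ _
    constructor
    · intro h
      have h0 := h 0
      have h1' := h 1
      rw [hf0] at h0
      rw [hf1 1 one_ne_zero] at h1'
      exact ⟨h0, (h3 N S _).1 h1'⟩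
    · rintro ⟨h, h'⟩ m
      by_cases hm : m = 0
      · rw [hm, hf0]
        exact h
      · rw [hf1 m hm]
        exact (h3 N S _).2 h'

theorem D.fag {n : ℕ} (R : L.Relations n) (w : Fin n → V) (c : V) (h : D X Q)
    (hX : X ⊆ range w) (hc : c ∈ range w) (hY : range w \ {c} ⊆ Y) :
    D Y fun N S v => ∀ x, S.RelMap R (fun i => Function.update v c x (w i)) →
      Q N S (Function.update v c x) :=
  (h.neg.exg R w c hX hc hY).neg.congr fun N S v => by
    push Not
    rfl

end dfn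

end CTQ.TG
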