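import Pool.Agent.CTQ.TGA

/-!
# The structures of triples (helper97)

A structure `M` with binary relations is coded on `M ⊕ (Fin 3 → M)`: the coordinates `P i`, the
guards `T i` (two triples and a coordinate of the first one) and `G i` (a triple, a point and the
triple with the `i`-th coordinate changed), one unary symbol for every binary relation.
-/

set_option autoImplicit false
set_option linter.unusedSectionVars false
set_option linter.unusedVariables false

namespace CTQ.TG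

open FirstOrder Set Pool.Agent.Helper6.Str

/-- relation symbols -/
def RelT (L' : FirstOrder.Language.{0, 0}) : ℕ → Type
  | 1 => Option (L'.Relations 2)
  | 2 => Fin 3
  | 3 => Fin 3 ⊕ Fin 3
  | _ => Empty

/-- the language of the structures of triples -/
def LT (L' : FirstOrder.Language.{0, 0}) : FirstOrder.Language.{0, 0} :=
  ⟨fun _ => Empty, RelT L'⟩

variable {L' : FirstOrder.Language.{0, 0}}

instance (n : ℕ) : IsEmpty ((LT L').Functions n) := inferInstanceAs (IsEmpty Empty)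

theorem isEmpty_rel {n : ℕ} (h1 : n ≠ 1) (h2 : n ≠ 2) (h3 : n ≠ 3) :
    IsEmpty ((LT L').Relations n) := by
  match n, h1, h2, h3 with
  | 0, _, _, _ => exact inferInstanceAs (IsEmpty Empty)
  | 1, h, _, _ => exact absurd rfl h
  | 2, _, h, _ => exact absurd rfl h
  | 3, _, _, h => exact absurd rfl h
  | (n + 4), _, _, _ => exact inferInstanceAs (IsEmpty Empty)

def sV (L' : FirstOrder.Language.{0, 0}) : (LT L').Relations 1 := (none : RelT L' 1)
def sR (R : L'.Relations 2) : (LT L').Relations 1 := (some R : RelT L' 1)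
def sP (L' : FirstOrder.Language.{0, 0}) (i : Fin 3) : (LT L').Relations 2 := (i : RelT L' 2)
def sT (L' : FirstOrder.Language.{0, 0}) (i : Fin 3) : (LT L').Relations 3 :=
  (Sum.inl i : RelT L' 3)
def sG (L' : FirstOrder.Language.{0, 0}) (i : Fin 3) : (LT L').Relations 3 :=
  (Sum.inr i : RelT L' 3)

section sem

variable {N : Type} (S : (LT L').Structure N)

def V (x : N) : Prop := S.RelMap (sV L') ![x]
def Rd (R : L'.Relations 2) (x : N) : Prop := S.RelMap (sR R) ![x]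
def P (i : Fin 3) (z y : N) : Prop := S.RelMap (sP L' i) ![z, y]
def T (i : Fin 3) (z z' y : N) : Prop := S.RelMap (sT L' i) ![z, z', y]
def G (i : Fin 3) (z x z' : N) : Prop := S.RelMap (sG L' i) ![z, x, z']

/-- the `i`-th coordinate of `z` is the `k`-th coordinate of `z'` -/
def Q (i k : Fin 3) (z z' : N) : Prop := ∃ y, T S i z z' y ∧ P S k z' y

/-- the structures of triples -/
structure Gd : Prop where
  p1 : ∀ i z y, P S i z y → ¬ V S z ∧ V S y
  p2 : ∀ i z, ¬ V S z → ∃ y, P S i z y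
  p3 : ∀ i z y y', P S i z y → P S i z y' → y = y'
  t1 : ∀ i z z' y, T S i z z' y → ¬ V S z' ∧ P S i z y
  t2 : ∀ i z z', ¬ V S z → ¬ V S z' → ∃ y, T S i z z' y
  g1 : ∀ i z x z', G S i z x z' → ¬ V S z ∧ ¬ V S z' ∧ P S i z' x ∧ ∀ j, j ≠ i → Q S j j z z'
  g2 : ∀ i z x, ¬ V S z → V S x → ∃ z', G S i z x z'
  u : ∀ z z', ¬ V S z → ¬ V S z' → (∀ j, Q S j j z z') → z = z'
  r1 : ∀ R z, Rd S R z → ¬ V S z
  r2 : ∀ R z z', Q S 0 0 z z' → Q S 1 1 z z' → Rd S R z → Rd S R z'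
  c : ∃ z, ¬ V S z

end sem

theorem one_eq {X : Type} (w : Fin 1 → X) : w = ![w 0] := by
  funext i
  match i with
  | 0 => rfl

theorem two_eq {X : Type} (w : Fin 2 → X) : w = ![w 0, w 1] := by
  funext i
  match i with
  | 0 => rfl
  | 1 => rfl

theorem three_eq {X : Type} (w : Fin 3 → X) : w = ![w 0, w 1, w 2] := by
  funext i
  match i with
  | 0 => rfl
  | 1 => rfl
  | 2 => rfl

/-! ### Standard structures -/

section dec

variable [∀ n, IsEmpty (L'.Functions n)] {N : Type}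

/-- the decoded relations -/
def rl (S : (LT L').Structure N) : ∀ {n : ℕ}, L'.Relations n → (Fin n → N) → Prop
  | 2, R, w => ∃ z, P S 0 z (w 0) ∧ P S 1 z (w 1) ∧ Rd S R z
  | 0, _, _ => False
  | 1, _, _ => False
  | (_ + 3), _, _ => False

/-- the decoded structure -/
@[instance_reducible]
def PSt (S : (LT L').Structure N) : L'.Structure {x // V S x} where
  funMap := fun f _ => isEmptyElim f
  RelMap := fun R w => rl S R fun i => (w i).1

/-- the structure of triples -/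
@[instance_reducible]
def Std {M : Type} (S : L'.Structure M) : (LT L').Structure (M ⊕ (Fin 3 → M)) where
  funMap := fun f _ => isEmptyElim f
  RelMap := fun {n} R w => match n, R, w with
    | 1, (none : RelT L' 1), w => ∃ x, w 0 = Sum.inl x
    | 1, (some R : RelT L' 1), w => ∃ z, w 0 = Sum.inr z ∧ S.RelMap R ![z 0, z 1]
    | 2, (i : RelT L' 2), w => ∃ z, w 0 = Sum.inr z ∧ w 1 = Sum.inl (z i)
    | 3, (Sum.inl i : RelT L' 3), w => ∃ z z', w 0 = Sum.inr z ∧ w 1 = Sum.inr z' ∧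
        w 2 = Sum.inl (z i)
    | 3, (Sum.inr i : RelT L' 3), w => ∃ z x, w 0 = Sum.inr z ∧ w 1 = Sum.inl x ∧
        w 2 = Sum.inr (Function.update z i x)
    | 0, _, _ => False
    | (_ + 4), _, _ => False

variable {M : Type} (S : L'.Structure M)

omit [∀ n, IsEmpty (L'.Functions n)] in
theorem std_V (w : M ⊕ (Fin 3 → M)) : V (Std S) w ↔ ∃ x, w = Sum.inl x := Iff.rfl

omit [∀ n, IsEmpty (L'.Functions n)] in
theorem std_R (R : L'.Relations 2) (w : M ⊕ (Fin 3 → M)) :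
    Rd (Std S) R w ↔ ∃ z, w = Sum.inr z ∧ S.RelMap R ![z 0, z 1] := Iff.rfl

omit [∀ n, IsEmpty (L'.Functions n)] in
theorem std_P (i : Fin 3) (w w' : M ⊕ (Fin 3 → M)) :
    P (Std S) i w w' ↔ ∃ z, w = Sum.inr z ∧ w' = Sum.inl (z i) := Iff.rfl

omit [∀ n, IsEmpty (L'.Functions n)] in
theorem std_T (i : Fin 3) (w w' w'' : M ⊕ (Fin 3 → M)) :
    T (Std S) i w w' w'' ↔ ∃ z z', w = Sum.inr z ∧ w' = Sum.inr z' ∧ w'' = Sum.inl (z i) :=
  Iff.rfl

omit [∀ n, IsEmpty (L'.Functions n)] in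
theorem std_G (i : Fin 3) (w w' w'' : M ⊕ (Fin 3 → M)) :
    G (Std S) i w w' w'' ↔ ∃ z x, w = Sum.inr z ∧ w' = Sum.inl x ∧
      w'' = Sum.inr (Function.update z i x) := Iff.rfl

omit [∀ n, IsEmpty (L'.Functions n)] in
theorem std_Vr (z : Fin 3 → M) : ¬ V (Std S) (Sum.inr z) := by
  rw [std_V]
  rintro ⟨x, hx⟩
  simp at hx

omit [∀ n, IsEmpty (L'.Functions n)] in
theorem of_notV {w : M ⊕ (Fin 3 → M)} (h : ¬ V (Std S) w) : ∃ z, w = Sum.inr z := by
  rcases w with x | z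
  · exact absurd ⟨x, rfl⟩ h
  · exact ⟨z, rfl⟩

omit [∀ n, IsEmpty (L'.Functions n)] in
theorem std_Pr (i : Fin 3) (z : Fin 3 → M) (x : M) :
    P (Std S) i (Sum.inr z) (Sum.inl x) ↔ x = z i := by
  rw [std_P]
  constructor
  · rintro ⟨z', h1, h2⟩
    rw [Sum.inr_injective h1, ← Sum.inl_injective h2]
  · rintro rfl
    exact ⟨z, rfl, rfl⟩

omit [∀ n, IsEmpty (L'.Functions n)] in
theorem std_Q (i k : Fin 3) (z z' : Fin 3 → M) :
    Q (Std S) i k (Sum.inr z) (Sum.inr z') ↔ z i = z' k := by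
  constructor
  · rintro ⟨y, ⟨a, a', h1, h2, h3⟩, ⟨b, h4, h5⟩⟩
    rw [Sum.inr_injective h1, Sum.inr_injective h4]
    exact Sum.inl_injective (h3.symm.trans h5)
  · intro h
    exact ⟨Sum.inl (z i), ⟨z, z', rfl, rfl, rfl⟩, ⟨z', rfl, congrArg Sum.inl h⟩⟩

omit [∀ n, IsEmpty (L'.Functions n)] in
theorem of_Q {i k : Fin 3} {w w' : M ⊕ (Fin 3 → M)} (h : Q (Std S) i k w w') :
    ∃ z z', w = Sum.inr z ∧ w' = Sum.inr z' := by
  obtain ⟨y, ⟨a, a', h1, h2, h3⟩, _⟩ := h
  exact ⟨a, a', h1, h2⟩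

theorem gd_std [Nonempty M] : Gd (Std S) where
  p1 := by
    rintro i w w' ⟨z, rfl, rfl⟩
    exact ⟨std_Vr S z, _, rfl⟩
  p2 := by
    intro i w hw
    obtain ⟨z, rfl⟩ := of_notV S hw
    exact ⟨Sum.inl (z i), z, rfl, rfl⟩
  p3 := by
    rintro i w y y' ⟨z, rfl, rfl⟩ ⟨z', h1, rfl⟩
    rw [Sum.inr_injective h1]
  t1 := by
    rintro i w w' w'' ⟨z, z', rfl, rfl, rfl⟩
    exact ⟨std_Vr S z', z, rfl, rfl⟩
  t2 := by
    intro i w w' hw hw'
    obtain ⟨z, rfl⟩ := of_notV S hw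
    obtain ⟨z', rfl⟩ := of_notV S hw'
    exact ⟨Sum.inl (z i), z, z', rfl, rfl, rfl⟩
  g1 := by
    rintro i w w' w'' ⟨z, x, rfl, rfl, rfl⟩
    refine ⟨std_Vr S z, std_Vr S _, (std_Pr S i _ x).2 (Function.update_self i x z).symm,
      fun j hj => ?_⟩
    rw [std_Q, Function.update_of_ne hj]
  g2 := by
    rintro i w w' hw ⟨x, rfl⟩
    obtain ⟨z, rfl⟩ := of_notV S hw
    exact ⟨_, z, x, rfl, rfl, rfl⟩
  u := by
    intro w w' hw hw' h
    obtain ⟨z, rfl⟩ := of_notV S hw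
    obtain ⟨z', rfl⟩ := of_notV S hw'
    congr 1
    funext j
    exact (std_Q S j j z z').1 (h j)
  r1 := by
    rintro R w ⟨z, rfl, _⟩
    exact std_Vr S z
  r2 := by
    rintro R w w' h0 h1 ⟨z, rfl, h2⟩
    obtain ⟨a, z', h3, rfl⟩ := of_Q S h0
    rw [std_Q] at h0 h1
    refine ⟨z', rfl, ?_⟩
    rwa [← h0, ← h1]
  c := by
    obtain ⟨x⟩ := ‹Nonempty M›
    exact ⟨Sum.inr fun _ => x, std_Vr S _⟩

/-- decoding the structure of triples -/
theorem pst_std (hA : ∀ n, n ≠ 2 → IsEmpty (L'.Relations n)) : Iso (PSt (Std S)) S := by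
  let e : {z // V (Std S) z} ≃ M :=
    { toFun := fun z => z.2.choose
      invFun := fun x => ⟨Sum.inl x, x, rfl⟩
      left_inv := fun z => Subtype.ext z.2.choose_spec.symm
      right_inv := fun x => by
        have h : V (Std S) (Sum.inl x) := ⟨x, rfl⟩
        exact (Sum.inl_injective h.choose_spec).symm }
  have he : ∀ z : {z // V (Std S) z}, z.1 = Sum.inl (e z) := fun z => z.2.choose_spec
  refine ⟨e, fun n R w => ?_⟩
  match n, R, w with
  | 0, R, w => exact (hA 0 (by omega)).elim R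
  | 1, R, w => exact (hA 1 (by omega)).elim R
  | 2, R, w =>
    show (∃ p, P (Std S) 0 p (w 0).1 ∧ P (Std S) 1 p (w 1).1 ∧ Rd (Std S) R p) ↔ _
    rw [two_eq (e ∘ w)]
    show _ ↔ S.RelMap R ![e (w 0), e (w 1)]
    rw [he, he]
    constructor
    · rintro ⟨p, ⟨z, rfl, h1⟩, h2, h3⟩
      rw [std_Pr] at h2
      obtain ⟨z', h4, h5⟩ := h3
      rw [Sum.inl_injective h1, h2, Sum.inr_injective h4]
      exact h5
    · intro h
      refine ⟨Sum.inr ![e (w 0), e (w 1), e (w 0)], ?_, ?_, ?_⟩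
      · rw [std_Pr]
        rfl
      · rw [std_Pr]
        rfl
      · exact ⟨_, rfl, h⟩
  | (n + 3), R, w => exact (hA (n + 3) (by omega)).elim R

end dec

/-! ### Every structure of triples is standard -/

section std

variable [∀ n, IsEmpty (L'.Functions n)] {N : Type} {S : (LT L').Structure N}

/-- the coordinates -/
noncomputable def pr (h : Gd S) (z : N) (hz : ¬ V S z) (i : Fin 3) : {x // V S x} :=
  ⟨(h.p2 i z hz).choose, (h.p1 _ _ _ (h.p2 i z hz).choose_spec).2⟩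

theorem pr_spec (h : Gd S) (z : N) (hz : ¬ V S z) (i : Fin 3) : P S i z (pr h z hz i).1 :=
  (h.p2 i z hz).choose_spec

theorem P_iff (h : Gd S) {z : N} (hz : ¬ V S z) {i : Fin 3} {y : N} :
    P S i z y ↔ y = (pr h z hz i).1 :=
  ⟨fun h1 => h.p3 _ _ _ _ h1 (pr_spec h z hz i), fun h1 => h1 ▸ pr_spec h z hz i⟩

theorem P_iff' (h : Gd S) {z : N} (hz : ¬ V S z) {i : Fin 3} {y : {x // V S x}} :
    P S i z y.1 ↔ pr h z hz i = y :=
  (P_iff h hz).trans ⟨fun h1 => Subtype.ext h1.symm, fun h1 => (Subtype.ext_iff.1 h1).symm⟩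

theorem T_iff (h : Gd S) {z z' : N} (hz : ¬ V S z) (hz' : ¬ V S z') {i : Fin 3} {y : N} :
    T S i z z' y ↔ y = (pr h z hz i).1 := by
  constructor
  · intro h1
    exact (P_iff h hz).1 (h.t1 _ _ _ _ h1).2
  · rintro rfl
    obtain ⟨y, hy⟩ := h.t2 i z z' hz hz'
    have h1 : y = (pr h z hz i).1 := (P_iff h hz).1 (h.t1 _ _ _ _ hy).2
    rwa [← h1]

theorem Q_iff (h : Gd S) {z z' : N} (hz : ¬ V S z) (hz' : ¬ V S z') {i k : Fin 3} :
    Q S i k z z' ↔ pr h z hz i = pr h z' hz' k := by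
  constructor
  · rintro ⟨y, h1, h2⟩
    rw [T_iff h hz hz'] at h1
    rw [P_iff h hz'] at h2
    exact Subtype.ext (h1.symm.trans h2)
  · intro h1
    refine ⟨(pr h z hz i).1, (T_iff h hz hz').2 rfl, (P_iff h hz').2 ?_⟩
    rw [h1]

theorem Q_neg (h : Gd S) {z z' : N} {i k : Fin 3} (h1 : Q S i k z z') : ¬ V S z ∧ ¬ V S z' := by
  obtain ⟨y, h2, h3⟩ := h1
  exact ⟨(h.p1 _ _ _ (h.t1 _ _ _ _ h2).2).1, (h.t1 _ _ _ _ h2).1⟩

/-- change a coordinate -/
theorem pr_update (h : Gd S) {z : N} (hz : ¬ V S z) (i : Fin 3) (x : {x // V S x}) :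
    ∃ (z' : N) (hz' : ¬ V S z'), G S i z x.1 z' ∧
      pr h z' hz' = Function.update (pr h z hz) i x := by
  obtain ⟨z', h1⟩ := h.g2 i z x.1 hz x.2
  obtain ⟨_, h2, h3, h4⟩ := h.g1 _ _ _ _ h1
  refine ⟨z', h2, h1, ?_⟩
  funext j
  by_cases hj : j = i
  · subst hj
    rw [Function.update_self]
    exact (P_iff' h h2).1 h3
  · rw [Function.update_of_ne hj]
    exact ((Q_iff h hz h2).1 (h4 j hj)).symm

theorem pr_inj (h : Gd S) {z z' : N} (hz : ¬ V S z) (hz' : ¬ V S z')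
    (h1 : pr h z hz = pr h z' hz') : z = z' :=
  h.u z z' hz hz' fun j => (Q_iff h hz hz').2 (congrFun h1 j)

theorem pr_surj (h : Gd S) (v : Fin 3 → {x // V S x}) :
    ∃ (z : N) (hz : ¬ V S z), pr h z hz = v := by
  obtain ⟨z, hz⟩ := h.c
  obtain ⟨z0, hz0, _, h0⟩ := pr_update h hz 0 (v 0)
  obtain ⟨z1, hz1, _, h1⟩ := pr_update h hz0 1 (v 1)
  obtain ⟨z2, hz2, _, h2⟩ := pr_update h hz1 2 (v 2)
  refine ⟨z2, hz2, ?_⟩
  rw [h2, h1, h0]
  funext i
  match i with
  | 0 => rfl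
  | 1 => rfl
  | 2 => rfl

theorem G_iff (h : Gd S) {z z' : N} (hz : ¬ V S z) (hz' : ¬ V S z') {i : Fin 3}
    {x : {x // V S x}} : G S i z x.1 z' ↔ pr h z' hz' = Function.update (pr h z hz) i x := by
  obtain ⟨z1, hz1, h1, h2⟩ := pr_update h hz i x
  constructor
  · intro h3
    obtain ⟨_, h4, h5, h6⟩ := h.g1 _ _ _ _ h3
    funext j
    by_cases hj : j = i
    · subst hj
      rw [Function.update_self]
      exact (P_iff' h hz').1 h5
    · rw [Function.update_of_ne hj]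
      exact ((Q_iff h hz hz').1 (h6 j hj)).symm
  · intro h3
    have h4 : z' = z1 := pr_inj h hz' hz1 (h3.trans h2.symm)
    rw [h4]
    exact h1

open Classical in
noncomputable def toP (h : Gd S) (x : N) : {x // V S x} ⊕ (Fin 3 → {x // V S x}) :=
  if hx : V S x then Sum.inl ⟨x, hx⟩ else Sum.inr (pr h x hx)

theorem toP_pos (h : Gd S) {x : N} (hx : V S x) : toP h x = Sum.inl ⟨x, hx⟩ := dif_pos hx

theorem toP_neg (h : Gd S) {x : N} (hx : ¬ V S x) : toP h x = Sum.inr (pr h x hx) := dif_neg hx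

theorem toP_bij (h : Gd S) : Function.Bijective (toP h) := by
  constructor
  · intro x y hxy
    by_cases hx : V S x
    · by_cases hy : V S y
      · rw [toP_pos h hx, toP_pos h hy] at hxy
        exact Subtype.ext_iff.1 (Sum.inl_injective hxy)
      · rw [toP_pos h hx, toP_neg h hy] at hxy
        exact absurd hxy (by simp)
    · by_cases hy : V S y
      · rw [toP_neg h hx, toP_pos h hy] at hxy
        exact absurd hxy (by simp)
      · rw [toP_neg h hx, toP_neg h hy] at hxy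
        exact pr_inj h hx hy (Sum.inr_injective hxy)
  · rintro (⟨x, hx⟩ | v)
    · exact ⟨x, toP_pos h hx⟩
    · obtain ⟨z, hz, rfl⟩ := pr_surj h v
      exact ⟨z, toP_neg h hz⟩

/-- a structure of triples is standard -/
theorem iso_std (h : Gd S) : Iso S (Std (PSt S)) := by
  refine ⟨Equiv.ofBijective (toP h) (toP_bij h), fun n R w => ?_⟩
  have hval : ∀ x, Equiv.ofBijective (toP h) (toP_bij h) x = toP h x := fun x => rfl
  match n, R, w with
  | 0, R, w => exact (isEmpty_rel (L' := L') (n := 0) (by omega) (by omega) (by omega)).elim R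
  | 1, (none : RelT L' 1), w =>
    show _ ↔ ∃ x, toP h (w 0) = Sum.inl x
    rw [one_eq w]
    show V S (w 0) ↔ ∃ x, toP h (w 0) = Sum.inl x
    constructor
    · intro h1
      exact ⟨_, toP_pos h h1⟩
    · rintro ⟨x, hx⟩
      by_contra h1
      rw [toP_neg h h1] at hx
      simp at hx
  | 1, (some R : RelT L' 1), w =>
    show _ ↔ ∃ z, toP h (w 0) = Sum.inr z ∧
      ∃ p, P S 0 p (z 0).1 ∧ P S 1 p (z 1).1 ∧ Rd S R p
    rw [one_eq w]
    show Rd S R (w 0) ↔ ∃ z, toP h (w 0) = Sum.inr z ∧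
      ∃ p, P S 0 p (z 0).1 ∧ P S 1 p (z 1).1 ∧ Rd S R p
    constructor
    · intro h1
      have h2 := h.r1 _ _ h1
      exact ⟨_, toP_neg h h2, w 0, pr_spec h _ h2 0, pr_spec h _ h2 1, h1⟩
    · rintro ⟨z, hz, p, h2, h3, h4⟩
      by_cases h1 : V S (w 0)
      · rw [toP_pos h h1] at hz
        simp at hz
      · rw [toP_neg h h1] at hz
        have h5 := Sum.inr_injective hz
        have hp := h.r1 _ _ h4
        rw [P_iff' h hp] at h2 h3
        refine h.r2 R p (w 0) ((Q_iff h hp h1).2 ?_) ((Q_iff h hp h1).2 ?_) h4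
        · rw [h2, h5]
        · rw [h3, h5]
  | 2, (i : RelT L' 2), w =>
    show _ ↔ ∃ z, toP h (w 0) = Sum.inr z ∧ toP h (w 1) = Sum.inl (z i)
    rw [two_eq w]
    show P S i (w 0) (w 1) ↔ ∃ z, toP h (w 0) = Sum.inr z ∧ toP h (w 1) = Sum.inl (z i)
    constructor
    · intro h1
      obtain ⟨h2, h3⟩ := h.p1 _ _ _ h1
      refine ⟨_, toP_neg h h2, ?_⟩
      rw [toP_pos h h3, (P_iff' h h2 (y := ⟨w 1, h3⟩)).1 h1]
    · rintro ⟨z, h1, h2⟩
      by_cases h3 : V S (w 0)
      · rw [toP_pos h h3] at h1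
        simp at h1
      · by_cases h4 : V S (w 1)
        · rw [toP_neg h h3] at h1
          rw [toP_pos h h4] at h2
          have h5 := Sum.inr_injective h1
          have h6 := Sum.inl_injective h2
          refine (P_iff' h h3 (y := ⟨w 1, h4⟩)).2 ?_
          rw [h5, h6]
        · rw [toP_neg h h4] at h2
          simp at h2
  | 3, (Sum.inl i : RelT L' 3), w =>
    show _ ↔ ∃ z z', toP h (w 0) = Sum.inr z ∧ toP h (w 1) = Sum.inr z' ∧
      toP h (w 2) = Sum.inl (z i)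
    rw [three_eq w]
    show T S i (w 0) (w 1) (w 2) ↔ ∃ z z', toP h (w 0) = Sum.inr z ∧ toP h (w 1) = Sum.inr z' ∧
      toP h (w 2) = Sum.inl (z i)
    constructor
    · intro h1
      obtain ⟨h2, h3⟩ := h.t1 _ _ _ _ h1
      obtain ⟨h4, h5⟩ := h.p1 _ _ _ h3
      refine ⟨_, _, toP_neg h h4, toP_neg h h2, ?_⟩
      rw [toP_pos h h5, (P_iff' h h4 (y := ⟨w 2, h5⟩)).1 h3]
    · rintro ⟨z, z', h1, h2, h3⟩
      by_cases h4 : V S (w 0)
      · rw [toP_pos h h4] at h1
        simp at h1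
      · by_cases h5 : V S (w 1)
        · rw [toP_pos h h5] at h2
          simp at h2
        · by_cases h6 : V S (w 2)
          · rw [toP_neg h h4] at h1
            rw [toP_pos h h6] at h3
            have h7 := Sum.inr_injective h1
            have h8 := Sum.inl_injective h3
            refine (T_iff h h4 h5).2 ?_
            rw [h7, ← h8]
          · rw [toP_neg h h6] at h3
            simp at h3
  | 3, (Sum.inr i : RelT L' 3), w =>
    show _ ↔ ∃ z x, toP h (w 0) = Sum.inr z ∧ toP h (w 1) = Sum.inl x ∧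
      toP h (w 2) = Sum.inr (Function.update z i x)
    rw [three_eq w]
    show G S i (w 0) (w 1) (w 2) ↔ ∃ z x, toP h (w 0) = Sum.inr z ∧ toP h (w 1) = Sum.inl x ∧
      toP h (w 2) = Sum.inr (Function.update z i x)
    constructor
    · intro h1
      obtain ⟨h2, h3, h4, _⟩ := h.g1 _ _ _ _ h1
      have h5 := (h.p1 _ _ _ h4).2
      refine ⟨_, ⟨w 1, h5⟩, toP_neg h h2, toP_pos h h5, ?_⟩
      rw [toP_neg h h3, (G_iff h h2 h3 (x := ⟨w 1, h5⟩)).1 h1]
    · rintro ⟨z, x, h1, h2, h3⟩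
      by_cases h4 : V S (w 0)
      · rw [toP_pos h h4] at h1
        simp at h1
      · by_cases h5 : V S (w 1)
        · by_cases h6 : V S (w 2)
          · rw [toP_pos h h6] at h3
            simp at h3
          · rw [toP_neg h h4] at h1
            rw [toP_pos h h5] at h2
            rw [toP_neg h h6] at h3
            have h7 := Sum.inr_injective h1
            have h8 := Sum.inl_injective h2
            have h9 := Sum.inr_injective h3
            refine (G_iff h h4 h6 (x := ⟨w 1, h5⟩)).2 ?_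
            rw [h7, h8, h9]
        · rw [toP_neg h h5] at h2
          simp at h2
  | (n + 4), R, w =>
    exact (isEmpty_rel (L' := L') (n := n + 4) (by omega) (by omega) (by omega)).elim R

/-! ### Isomorphisms -/

variable {N' : Type} {S' : (LT L').Structure N'}

section iso
variable {e : N ≃ N'}

omit [∀ n, IsEmpty (L'.Functions n)] in
theorem relIso_V (he : RelIso S S' e) (x : N) : V S x ↔ V S' (e x) := by
  have h := he 1 (sV L') ![x]
  rwa [one_eq (e ∘ ![x])] at h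

omit [∀ n, IsEmpty (L'.Functions n)] in
theorem relIso_R (he : RelIso S S' e) (R : L'.Relations 2) (x : N) :
    Rd S R x ↔ Rd S' R (e x) := by
  have h := he 1 (sR R) ![x]
  rwa [one_eq (e ∘ ![x])] at h

omit [∀ n, IsEmpty (L'.Functions n)] in
theorem relIso_P (he : RelIso S S' e) (i : Fin 3) (x y : N) :
    P S i x y ↔ P S' i (e x) (e y) := by
  have h := he 2 (sP L' i) ![x, y]
  rwa [two_eq (e ∘ ![x, y])] at h

omit [∀ n, IsEmpty (L'.Functions n)] in
theorem relIso_T (he : RelIso S S' e) (i : Fin 3) (x y z : N) :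
    T S i x y z ↔ T S' i (e x) (e y) (e z) := by
  have h := he 3 (sT L' i) ![x, y, z]
  rwa [three_eq (e ∘ ![x, y, z])] at h

omit [∀ n, IsEmpty (L'.Functions n)] in
theorem relIso_G (he : RelIso S S' e) (i : Fin 3) (x y z : N) :
    G S i x y z ↔ G S' i (e x) (e y) (e z) := by
  have h := he 3 (sG L' i) ![x, y, z]
  rwa [three_eq (e ∘ ![x, y, z])] at h

omit [∀ n, IsEmpty (L'.Functions n)] in
theorem relIso_Q (he : RelIso S S' e) (i k : Fin 3) (x y : N) :
    Q S i k x y ↔ Q S' i k (e x) (e y) := by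
  constructor
  · rintro ⟨z, h1, h2⟩
    exact ⟨e z, (relIso_T he _ _ _ _).1 h1, (relIso_P he _ _ _).1 h2⟩
  · rintro ⟨z, h1, h2⟩
    refine ⟨e.symm z, (relIso_T he _ _ _ _).2 ?_, (relIso_P he _ _ _).2 ?_⟩
    · rwa [e.apply_symm_apply]
    · rwa [e.apply_symm_apply]

end iso

theorem pst_iso (h : Iso S S') : Iso (PSt S) (PSt S') := by
  obtain ⟨e, he⟩ := h
  refine ⟨e.subtypeEquiv fun x => relIso_V he x, fun n R w => ?_⟩
  match n, R, w with
  | 0, R, w => exact Iff.rfl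
  | 1, P, w => exact Iff.rfl
  | 2, R, w =>
    show (∃ p, P S 0 p (w 0).1 ∧ P S 1 p (w 1).1 ∧ Rd S R p) ↔
      ∃ p, P S' 0 p (e (w 0).1) ∧ P S' 1 p (e (w 1).1) ∧ Rd S' R p
    constructor
    · rintro ⟨p, h1, h2, h3⟩
      exact ⟨e p, (relIso_P he _ _ _).1 h1, (relIso_P he _ _ _).1 h2, (relIso_R he _ _).1 h3⟩
    · rintro ⟨p, h1, h2, h3⟩
      refine ⟨e.symm p, (relIso_P he _ _ _).2 ?_, (relIso_P he _ _ _).2 ?_,
        (relIso_R he _ _).2 ?_⟩
      · rwa [e.apply_symm_apply]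
      · rwa [e.apply_symm_apply]
      · rwa [e.apply_symm_apply]
  | (n + 3), R, w => exact Iff.rfl

theorem gd_iso (h : Iso S S') (hS : Gd S) : Gd S' := by
  obtain ⟨e, he⟩ := h.symm
  have hV := relIso_V he
  have hP := relIso_P he
  have hR := relIso_R he
  have hT := relIso_T he
  have hG := relIso_G he
  have hQ := relIso_Q he
  constructor
  · intro i z y h1
    rw [hV, hV]
    exact hS.p1 _ _ _ ((hP _ _ _).1 h1)
  · intro i z hz
    rw [hV] at hz
    obtain ⟨x, hx⟩ := hS.p2 i _ hz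
    refine ⟨e.symm x, (hP _ _ _).2 ?_⟩
    rwa [e.apply_symm_apply]
  · intro i z y y' h1 h2
    exact e.injective (hS.p3 _ _ _ _ ((hP _ _ _).1 h1) ((hP _ _ _).1 h2))
  · intro i z z' y h1
    rw [hV, hP]
    exact hS.t1 _ _ _ _ ((hT _ _ _ _).1 h1)
  · intro i z z' hz hz'
    rw [hV] at hz hz'
    obtain ⟨x, hx⟩ := hS.t2 i _ _ hz hz'
    refine ⟨e.symm x, (hT _ _ _ _).2 ?_⟩
    rwa [e.apply_symm_apply]
  · intro i z x z' h1
    obtain ⟨h2, h3, h4, h5⟩ := hS.g1 _ _ _ _ ((hG _ _ _ _).1 h1)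
    exact ⟨fun h => h2 ((hV _).1 h), fun h => h3 ((hV _).1 h), (hP _ _ _).2 h4,
      fun j hj => (hQ _ _ _ _).2 (h5 j hj)⟩
  · intro i z x hz hx
    rw [hV] at hz hx
    obtain ⟨y, hy⟩ := hS.g2 i _ _ hz hx
    refine ⟨e.symm y, (hG _ _ _ _).2 ?_⟩
    rwa [e.apply_symm_apply]
  · intro z z' hz hz' h1
    rw [hV] at hz hz'
    exact e.injective (hS.u _ _ hz hz' fun j => (hQ _ _ _ _).1 (h1 j))
  · intro R z h1
    rw [hV]
    exact hS.r1 R _ ((hR R z).1 h1)
  · intro R z z' h0 h1 h2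
    exact (hR R z').2 (hS.r2 R _ _ ((hQ _ _ _ _).1 h0) ((hQ _ _ _ _).1 h1) ((hR R z).1 h2))
  · obtain ⟨z, hz⟩ := hS.c
    refine ⟨e.symm z, ?_⟩
    rw [hV, e.apply_symm_apply]
    exact hz

theorem std_iso {M M' : Type} {T : L'.Structure M} {T' : L'.Structure M'} (h : Iso T T') :
    Iso (Std T) (Std T') := by
  obtain ⟨e, he⟩ := h
  have h2 : ∀ R x y, T.RelMap R ![x, y] ↔ T'.RelMap R ![e x, e y] := fun R x y => by
    have h := he 2 R ![x, y]
    rwa [two_eq (e ∘ ![x, y])] at h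
  let f : M ⊕ (Fin 3 → M) ≃ M' ⊕ (Fin 3 → M') :=
    Equiv.sumCongr e (Equiv.arrowCongr (Equiv.refl _) e)
  have fl : ∀ x, f (Sum.inl x) = Sum.inl (e x) := fun x => rfl
  have fr : ∀ z, f (Sum.inr z) = Sum.inr fun i => e (z i) := fun z => rfl
  have kl : ∀ w, (∃ x, w = Sum.inl x) ↔ ∃ x, f w = Sum.inl x := by
    rintro (z | z)
    · exact ⟨fun _ => ⟨_, fl z⟩, fun _ => ⟨z, rfl⟩⟩
    · rw [fr]
      simp
  refine ⟨f, fun n R w => ?_⟩
  match n, R, w with
  | 0, R, w => exact (isEmpty_rel (L' := L') (n := 0) (by omega) (by omega) (by omega)).elim R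
  | 1, (none : RelT L' 1), w => exact kl (w 0)
  | 1, (some R : RelT L' 1), w =>
    show (∃ z, w 0 = Sum.inr z ∧ T.RelMap R ![z 0, z 1]) ↔
      ∃ z, f (w 0) = Sum.inr z ∧ T'.RelMap R ![z 0, z 1]
    constructor
    · rintro ⟨z, hz, h3⟩
      rw [hz, fr]
      exact ⟨_, rfl, (h2 R _ _).1 h3⟩
    · rintro ⟨z, hz, h3⟩
      rcases h4 : w 0 with x | z'
      · rw [h4, fl] at hz
        simp at hz
      · rw [h4, fr] at hz
        rw [← Sum.inr_injective hz] at h3
        exact ⟨z', rfl, (h2 R _ _).2 h3⟩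
  | 2, (i : RelT L' 2), w =>
    show (∃ z, w 0 = Sum.inr z ∧ w 1 = Sum.inl (z i)) ↔
      ∃ z, f (w 0) = Sum.inr z ∧ f (w 1) = Sum.inl (z i)
    constructor
    · rintro ⟨z, h3, h4⟩
      rw [h3, h4, fr, fl]
      exact ⟨_, rfl, rfl⟩
    · rintro ⟨z, h3, h4⟩
      rcases h5 : w 0 with x | z'
      · rw [h5, fl] at h3
        simp at h3
      · rw [h5, fr] at h3
        rw [← Sum.inr_injective h3] at h4
        refine ⟨z', rfl, f.injective ?_⟩
        rw [h4, fl]
  | 3, (Sum.inl i : RelT L' 3), w =>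
    show (∃ z z', w 0 = Sum.inr z ∧ w 1 = Sum.inr z' ∧ w 2 = Sum.inl (z i)) ↔
      ∃ z z', f (w 0) = Sum.inr z ∧ f (w 1) = Sum.inr z' ∧ f (w 2) = Sum.inl (z i)
    constructor
    · rintro ⟨z, z', h3, h4, h5⟩
      rw [h3, h4, h5, fr, fr, fl]
      exact ⟨_, _, rfl, rfl, rfl⟩
    · rintro ⟨z, z', h3, h4, h5⟩
      rcases h6 : w 0 with x | a
      · rw [h6, fl] at h3
        simp at h3
      · rcases h7 : w 1 with x | a'
        · rw [h7, fl] at h4
          simp at h4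
        · rw [h6, fr] at h3
          rw [← Sum.inr_injective h3] at h5
          refine ⟨a, a', rfl, rfl, f.injective ?_⟩
          rw [h5, fl]
  | 3, (Sum.inr i : RelT L' 3), w =>
    show (∃ z x, w 0 = Sum.inr z ∧ w 1 = Sum.inl x ∧ w 2 = Sum.inr (Function.update z i x)) ↔
      ∃ z x, f (w 0) = Sum.inr z ∧ f (w 1) = Sum.inl x ∧
        f (w 2) = Sum.inr (Function.update z i x)
    have h3 : ∀ (z : Fin 3 → M) (x : M), (fun j => e (Function.update z i x j)) =
        Function.update (fun j => e (z j)) i (e x) := by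
      intro z x
      funext j
      by_cases hj : j = i
      · subst hj
        simp
      · simp [Function.update_of_ne hj]
    constructor
    · rintro ⟨z, x, h4, h5, h6⟩
      rw [h4, h5, h6, fr, fr, fl, h3]
      exact ⟨_, _, rfl, rfl, rfl⟩
    · rintro ⟨z, x, h4, h5, h6⟩
      rcases h7 : w 0 with y | a
      · rw [h7, fl] at h4
        simp at h4
      · rcases h8 : w 1 with y | a'
        · rw [h7, fr] at h4
          rw [h8, fl] at h5
          rw [← Sum.inr_injective h4, ← Sum.inl_injective h5, ← h3] at h6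
          refine ⟨a, y, rfl, rfl, f.injective ?_⟩
          rw [h6, fr]
        · rw [h8, fr] at h5
          simp at h5
  | (n + 4), R, w =>
    exact (isEmpty_rel (L' := L') (n := n + 4) (by omega) (by omega) (by omega)).elim R

end std

end CTQ.TG
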