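import Pool.Agent.CTQ.TGB

/-!
# The structures of triples: definability and translation (helper97)
-/

set_option autoImplicit false
set_option linter.unusedSectionVars false
set_option linter.unusedVariables false

namespace CTQ.TG

open FirstOrder Set Pool.Agent.Helper6.Str
open VPF (FV)

/-! ### Small tools -/

section tools

variable {L : FirstOrder.Language.{0, 0}} {W : Type} [DecidableEq W]

theorem enc1 (a : W) : (insert a ({a} : Set W)).encard ≤ 2 := by
  rw [insert_eq_of_mem (mem_singleton a), encard_singleton]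
  exact one_le_two

theorem enc2 (a b : W) : (insert b ({a, b} : Set W)).encard ≤ 2 := by
  rw [insert_eq_of_mem (by simp)]
  refine (encard_insert_le _ _).trans ?_
  rw [encard_singleton]
  rfl

theorem all1 {Q' : ∀ N : Type, L.Structure N → N → Prop} {a : W}
    (h : D ({a} : Set W) fun N S v => Q' N S (v a)) :
    D (∅ : Set W) fun N S v => ∀ x, Q' N S x :=
  (h.fa a (enc1 a) (Y := ∅) (by simp)).congr fun N S v => by simp

theorem ex1 {Q' : ∀ N : Type, L.Structure N → N → Prop} {a : W}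
    (h : D ({a} : Set W) fun N S v => Q' N S (v a)) :
    D (∅ : Set W) fun N S v => ∃ x, Q' N S x :=
  (h.ex a (enc1 a) (Y := ∅) (by simp)).congr fun N S v => by simp

theorem all2 {Q' : ∀ N : Type, L.Structure N → N → N → Prop} {a b : W} (hab : a ≠ b)
    (h : D ({a, b} : Set W) fun N S v => Q' N S (v a) (v b)) :
    D ({a} : Set W) fun N S v => ∀ x, Q' N S (v a) x :=
  (h.fa b (enc2 a b) (Y := {a}) (by rintro x ⟨rfl | hx, h2⟩; exacts [rfl, absurd hx h2])).congr
    fun N S v => by simp [Function.update_of_ne hab]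

theorem ex2 {Q' : ∀ N : Type, L.Structure N → N → N → Prop} {a b : W} (hab : a ≠ b)
    (h : D ({a, b} : Set W) fun N S v => Q' N S (v a) (v b)) :
    D ({a} : Set W) fun N S v => ∃ x, Q' N S (v a) x :=
  (h.ex b (enc2 a b) (Y := {a}) (by rintro x ⟨rfl | hx, h2⟩; exacts [rfl, absurd hx h2])).congr
    fun N S v => by simp [Function.update_of_ne hab]

theorem uni2 {Q' : ∀ N : Type, L.Structure N → N → N → Prop} {a b : W} (hab : a ≠ b)
    (h : D ({a, b} : Set W) fun N S v => Q' N S (v a) (v b)) :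
    D ({a} : Set W) fun N S v => ∀ x y, Q' N S (v a) x → Q' N S (v a) y → x = y :=
  (h.uni b (enc2 a b) (Y := {a}) (by rintro x ⟨rfl | hx, h2⟩; exacts [rfl, absurd hx h2])).congr
    fun N S v => by simp [Function.update_of_ne hab]

theorem all22 {Q' : ∀ N : Type, L.Structure N → N → N → Prop} {a b : W} (hab : a ≠ b)
    (h : D ({a, b} : Set W) fun N S v => Q' N S (v a) (v b)) :
    D (∅ : Set W) fun N S v => ∀ x y, Q' N S x y :=
  all1 (Q' := fun N S x => ∀ y, Q' N S x y) (all2 hab h)

theorem rng (a b c : W) : range ![a, b, c] = {a, b, c} := by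
  ext x
  constructor
  · rintro ⟨i, rfl⟩
    match i with
    | 0 => exact Or.inl rfl
    | 1 => exact Or.inr (Or.inl rfl)
    | 2 => exact Or.inr (Or.inr rfl)
  · rintro (rfl | rfl | rfl)
    · exact ⟨0, rfl⟩
    · exact ⟨1, rfl⟩
    · exact ⟨2, rfl⟩

theorem upd3 {N : Type} {a b c : W} (hac : a ≠ c) (hbc : b ≠ c) (v : W → N) (x : N) :
    (fun i => Function.update v c x (![a, b, c] i)) = ![v a, v b, x] := by
  rw [three_eq (fun i => Function.update v c x (![a, b, c] i))]
  show ![Function.update v c x a, Function.update v c x b, Function.update v c x c] = _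
  rw [Function.update_of_ne hac, Function.update_of_ne hbc, Function.update_self]

/-- quantifiers over the last variable of a guard -/
theorem exg3 {Q' : ∀ N : Type, L.Structure N → N → N → N → Prop} (R : L.Relations 3) {a b c : W}
    (hac : a ≠ c) (hbc : b ≠ c)
    (h : D ({a, b, c} : Set W) fun N S v => Q' N S (v a) (v b) (v c)) :
    D ({a, b} : Set W) fun N S v => ∃ x, S.RelMap R ![v a, v b, x] ∧ Q' N S (v a) (v b) x :=
  (h.exg R ![a, b, c] c (by rw [rng]) ⟨2, rfl⟩ (Y := {a, b}) (by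
    rw [rng]
    rintro x ⟨rfl | rfl | hx, h2⟩
    exacts [Or.inl rfl, Or.inr rfl, absurd hx h2])).congr fun N S v => by
      simp only [upd3 hac hbc, Function.update_of_ne hac, Function.update_of_ne hbc,
        Function.update_self]

theorem fag3 {Q' : ∀ N : Type, L.Structure N → N → N → N → Prop} (R : L.Relations 3) {a b c : W}
    (hac : a ≠ c) (hbc : b ≠ c)
    (h : D ({a, b, c} : Set W) fun N S v => Q' N S (v a) (v b) (v c)) :
    D ({a, b} : Set W) fun N S v => ∀ x, S.RelMap R ![v a, v b, x] → Q' N S (v a) (v b) x :=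
  (h.fag R ![a, b, c] c (by rw [rng]) ⟨2, rfl⟩ (Y := {a, b}) (by
    rw [rng]
    rintro x ⟨rfl | rfl | hx, h2⟩
    exacts [Or.inl rfl, Or.inr rfl, absurd hx h2])).congr fun N S v => by
      simp only [upd3 hac hbc, Function.update_of_ne hac, Function.update_of_ne hbc,
        Function.update_self]

end tools

/-! ### Definability of the class -/

section defn

variable {L' : FirstOrder.Language.{0, 0}} {W : Type} [DecidableEq W] {X : Set W}

theorem dV {x : W} (hx : x ∈ X) : D (L := LT L') X fun N S v => V S (v x) :=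
  (D.rel (sV L') ![x] (fun i => by rw [Subsingleton.elim i 0]; exact hx)).congr fun N S v => by
    rw [one_eq (fun i => v (![x] i))]
    rfl

theorem dR (R : L'.Relations 2) {x : W} (hx : x ∈ X) : D X fun N S v => Rd S R (v x) :=
  (D.rel (sR R) ![x] (fun i => by rw [Subsingleton.elim i 0]; exact hx)).congr fun N S v => by
    rw [one_eq (fun i => v (![x] i))]
    rfl

theorem dP (i : Fin 3) {x y : W} (hx : x ∈ X) (hy : y ∈ X) :
    D (L := LT L') X fun N S v => P S i (v x) (v y) :=
  (D.rel (sP L' i) ![x, y] (fun j => by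
    match j with
    | 0 => exact hx
    | 1 => exact hy)).congr fun N S v => by
    rw [two_eq (fun i => v (![x, y] i))]
    rfl

theorem dQ (i k : Fin 3) {x y z : W} (hxz : x ≠ z) (hyz : y ≠ z) (hx : x ∈ X) (hy : y ∈ X) :
    D (L := LT L') X fun N S v => Q S i k (v x) (v y) :=
  (exg3 (Q' := fun N S p q r => P S k q r) (sT L' i) hxz hyz
    (dP k (by simp) (by simp))).mono (by rintro w (rfl | rfl); exacts [hx, hy])

variable {a b c : W} (hab : a ≠ b) (hac : a ≠ c) (hbc : b ≠ c)
include hab hac hbc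

theorem d_gd (hL : Countable (L'.Relations 2)) :
    D (∅ : Set W) fun (N : Type) (S : (LT L').Structure N) (v : W → N) => Gd S := by
  have hn : Nonempty W := ⟨a⟩
  have ma : a ∈ ({a} : Set W) := rfl
  have ma2 : a ∈ ({a, b} : Set W) := Or.inl rfl
  have mb2 : b ∈ ({a, b} : Set W) := Or.inr rfl
  have ma3 : a ∈ ({a, b, c} : Set W) := Or.inl rfl
  have mb3 : b ∈ ({a, b, c} : Set W) := Or.inr (Or.inl rfl)
  have mc3 : c ∈ ({a, b, c} : Set W) := Or.inr (Or.inr rfl)
  have p1 : ∀ i, D (L := LT L') (∅ : Set W) fun N S v =>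
      ∀ z y, P S i z y → ¬ V S z ∧ V S y := fun i =>
    all22 hab ((dP i ma2 mb2).imp ((dV ma2).neg.and (dV mb2)))
  have p2 : ∀ i, D (L := LT L') (∅ : Set W) fun N S v => ∀ z, ¬ V S z → ∃ y, P S i z y :=
    fun i => all1 (a := a) ((dV ma).neg.imp (ex2 hab (dP i ma2 mb2)))
  have p3 : ∀ i, D (L := LT L') (∅ : Set W) fun N S v =>
      ∀ z y y', P S i z y → P S i z y' → y = y' :=
    fun i => all1 (a := a) (uni2 hab (dP i ma2 mb2))
  have t1 : ∀ i, D (L := LT L') (∅ : Set W) fun N S v =>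
      ∀ z z' y, T S i z z' y → ¬ V S z' ∧ P S i z y := fun i =>
    all22 hab (fag3 (Q' := fun N S z z' y => ¬ V S z' ∧ P S i z y) (sT L' i) hac hbc
      ((dV mb3).neg.and (dP i ma3 mc3)))
  have t2 : ∀ i, D (L := LT L') (∅ : Set W) fun N S v =>
      ∀ z z', ¬ V S z → ¬ V S z' → ∃ y, T S i z z' y := fun i =>
    all22 hab ((dV ma2).neg.imp ((dV mb2).neg.imp
      ((exg3 (Q' := fun N S z z' y => True) (sT L' i) hac hbc D.tr).congr fun N S v => by
        simp only [and_true]; exact Iff.rfl)))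
  have g1 : ∀ i, D (L := LT L') (∅ : Set W) fun N S v =>
      ∀ z x z', G S i z x z' → ¬ V S z ∧ ¬ V S z' ∧ P S i z' x ∧
        ∀ j, j ≠ i → Q S j j z z' := fun i =>
    all22 hab (fag3 (Q' := fun N S z x z' => ¬ V S z ∧ ¬ V S z' ∧ P S i z' x ∧
        ∀ j, j ≠ i → Q S j j z z') (sG L' i) hac hbc
      ((dV ma3).neg.and ((dV mc3).neg.and ((dP i mc3 mb3).and (D.all fun j => by
        by_cases hj : j = i
        · exact D.tr.congr fun N S v => ⟨fun _ h => absurd hj h, fun _ => trivial⟩
        · exact (dQ j j hab hbc.symm ma3 mc3).congr fun N S v =>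
            ⟨fun h _ => h, fun h => h hj⟩)))))
  have g2 : ∀ i, D (L := LT L') (∅ : Set W) fun N S v =>
      ∀ z x, ¬ V S z → V S x → ∃ z', G S i z x z' := fun i =>
    all22 hab ((dV ma2).neg.imp ((dV mb2).imp
      ((exg3 (Q' := fun N S z z' y => True) (sG L' i) hac hbc D.tr).congr fun N S v => by
        simp only [and_true]; exact Iff.rfl)))
  have u : D (L := LT L') (∅ : Set W) fun N S v =>
      ∀ z z', ¬ V S z → ¬ V S z' → (∀ j, Q S j j z z') → z = z' :=
    all22 hab ((dV ma2).neg.imp ((dV mb2).neg.imp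
      ((D.all fun j => dQ j j hac hbc ma2 mb2).imp (D.eq ma2 mb2))))
  have r1 : ∀ R, D (∅ : Set W) fun (N : Type) (S : (LT L').Structure N) (v : W → N) =>
      ∀ z, Rd S R z → ¬ V S z := fun R => all1 (a := a) ((dR R ma).imp (dV ma).neg)
  have r2 : ∀ R, D (∅ : Set W) fun (N : Type) (S : (LT L').Structure N) (v : W → N) =>
      ∀ z z', Q S 0 0 z z' → Q S 1 1 z z' → Rd S R z → Rd S R z' := fun R =>
    all22 hab ((dQ 0 0 hac hbc ma2 mb2).imp ((dQ 1 1 hac hbc ma2 mb2).imp
      ((dR R ma2).imp (dR R mb2))))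
  have c' : D (L := LT L') (∅ : Set W) fun N S v => ∃ z, ¬ V S z := ex1 (a := a) (dV ma).neg
  exact ((D.all p1).and ((D.all p2).and ((D.all p3).and ((D.all t1).and ((D.all t2).and
    ((D.all g1).and ((D.all g2).and (u.and ((D.all r1).and ((D.all r2).and c')))))))))).congr
      fun N S v => ⟨fun ⟨h1, h2, h3, h4, h5, h6, h7, h8, h9, h10, h11⟩ =>
        ⟨h1, h2, h3, h4, h5, h6, h7, h8, h9, h10, h11⟩,
        fun ⟨h1, h2, h3, h4, h5, h6, h7, h8, h9, h10, h11⟩ =>
        ⟨h1, h2, h3, h4, h5, h6, h7, h8, h9, h10, h11⟩⟩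

end defn

/-! ### Translation -/

section trans

variable {L' : FirstOrder.Language.{0, 0}} {N : Type}

/-- translation of the atomic formulas -/
def trR (S : (LT L').Structure N) : ∀ {n : ℕ}, L'.Relations n → (Fin n → Fin 3) → N → Prop
  | 2, R, w, z => ∃ z', Q S (w 0) 0 z z' ∧ Q S (w 1) 1 z z' ∧ Rd S R z'
  | 0, _, _, _ => False
  | 1, _, _, _ => False
  | (_ + 3), _, _, _ => False

/-- translation of the formulas with three variables -/
def trS (S : (LT L').Structure N) : FV L' 3 → N → Prop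
  | .eq i j, z => ∃ y, P S i z y ∧ P S j z y
  | .rel R w, z => trR S R w z
  | .neg φ, z => ¬ trS S φ z
  | .conj φ, z => ∀ m, trS S (φ m) z
  | .ex i φ, z => ∃ z', (∀ j, j ≠ i → Q S j j z z') ∧ trS S φ z'

variable {W : Type} [DecidableEq W]

theorem d_ex {x y c : W} (hxy : x ≠ y) (hxc : x ≠ c) (hyc : y ≠ c) (i : Fin 3) (φ : FV L' 3)
    (h : D ({y} : Set W) fun (N : Type) (S : (LT L').Structure N) (v : W → N) =>
      trS S φ (v y)) :
    D ({x} : Set W) fun (N : Type) (S : (LT L').Structure N) (v : W → N) =>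
      trS S (.ex i φ) (v x) := by
  have hn : Nonempty W := ⟨x⟩
  have mx : x ∈ ({x, y} : Set W) := Or.inl rfl
  have my : y ∈ ({x, y} : Set W) := Or.inr rfl
  exact ex2 (Q' := fun N S z z' => (∀ j, j ≠ i → Q S j j z z') ∧ trS S φ z') hxy
    ((D.all fun j => by
      by_cases hj : j = i
      · exact D.tr.congr fun N S v => ⟨fun _ h => absurd hj h, fun _ => trivial⟩
      · exact (dQ j j hxc hyc mx my).congr fun N S v => ⟨fun h _ => h, fun h => h hj⟩).and
      (h.mono fun z hz => Or.inr hz))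

theorem d_rel {x y c : W} (hxy : x ≠ y) (hxc : x ≠ c) (hyc : y ≠ c) {n : ℕ}
    (R : L'.Relations n) (w : Fin n → Fin 3) :
    D ({x} : Set W) fun (N : Type) (S : (LT L').Structure N) (v : W → N) =>
      trS S (.rel R w) (v x) := by
  have hn : Nonempty W := ⟨x⟩
  have mx : x ∈ ({x, y} : Set W) := Or.inl rfl
  have my : y ∈ ({x, y} : Set W) := Or.inr rfl
  match n, R, w with
  | 0, R, w =>
    exact (D.tr (L := LT L')).neg.congr fun N S v => ⟨fun h => absurd trivial h, fun h => h.elim⟩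
  | 1, R, w =>
    exact (D.tr (L := LT L')).neg.congr fun N S v => ⟨fun h => absurd trivial h, fun h => h.elim⟩
  | 2, R, w =>
    exact ex2 (Q' := fun N S z z' => Q S (w 0) 0 z z' ∧ Q S (w 1) 1 z z' ∧ Rd S R z') hxy
      ((dQ (w 0) 0 hxc hyc mx my).and ((dQ (w 1) 1 hxc hyc mx my).and (dR R my)))
  | (n + 3), R, w =>
    exact (D.tr (L := LT L')).neg.congr fun N S v => ⟨fun h => absurd trivial h, fun h => h.elim⟩

theorem d_eq {x y : W} (hxy : x ≠ y) (i j : Fin 3) :
    D ({x} : Set W) fun (N : Type) (S : (LT L').Structure N) (v : W → N) =>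
      trS S (.eq i j) (v x) := by
  have mx : x ∈ ({x, y} : Set W) := Or.inl rfl
  have my : y ∈ ({x, y} : Set W) := Or.inr rfl
  exact ex2 (Q' := fun N S z u => P S i z u ∧ P S j z u) hxy ((dP i mx my).and (dP j mx my))

theorem d_tr {a b c : W} (hab : a ≠ b) (hac : a ≠ c) (hbc : b ≠ c) (φ : FV L' 3) :
    (D ({a} : Set W) fun (N : Type) (S : (LT L').Structure N) (v : W → N) => trS S φ (v a)) ∧
    D ({b} : Set W) fun (N : Type) (S : (LT L').Structure N) (v : W → N) => trS S φ (v b) := by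
  have hn : Nonempty W := ⟨a⟩
  induction φ with
  | eq i j => exact ⟨d_eq hab i j, d_eq hab.symm i j⟩
  | rel R w => exact ⟨d_rel hab hac hbc R w, d_rel hab.symm hbc hac R w⟩
  | neg φ ih => exact ⟨ih.1.neg, ih.2.neg⟩
  | conj φ ih => exact ⟨D.all fun m => (ih m).1, D.all fun m => (ih m).2⟩
  | ex i φ ih => exact ⟨d_ex hab hac hbc i φ ih.2, d_ex hab.symm hbc hac i φ ih.1⟩

/-- the class of the structures of triples for the models of `φ` -/
def KK (φ : FV L' 3) {N : Type} (S : (LT L').Structure N) : Prop :=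
  Gd S ∧ ∀ z, ¬ V S z → trS S φ z

theorem d_KK (hL : Countable (L'.Relations 2)) {a b c : W} (hab : a ≠ b) (hac : a ≠ c)
    (hbc : b ≠ c) (φ : FV L' 3) :
    D (∅ : Set W) fun (N : Type) (S : (LT L').Structure N) (v : W → N) => KK φ S :=
  (d_gd hab hac hbc hL).and (all1 (a := a)
    ((dV (X := {a}) (mem_singleton a)).neg.imp (d_tr hab hac hbc φ).1))

end trans

end CTQ.TG
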