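import Pool.Agent.CTQ.THS

/-!
# CTQ, module THR: three variables imply the full conjecture
-/

set_option autoImplicit false

namespace CTQ

open FirstOrder Set Pool.Agent.Helper6.Str

/-- Three variables imply the full conjecture. -/
theorem thm_THR : St_THR := by
  intro k hk H L hL T
  refine thm_THS k hk ?_ L hL T
  intro L' h1 h2 h3 φ
  refine H L' (fun n => ?_) h1 (fun n _ h5 => h2 n h5) h3 φ
  by_cases hn : n = 2
  · subst hn
    infer_instance
  · have := h2 n hn
    infer_instance

end CTQ
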