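import Pool.Agent.CTQ.StD
import Pool.Agent.CTQ.SHJ
import Pool.Agent.VPF.CodC

/-!
# CTQ, module THS: three variables and one binary relation symbol imply the full conjecture
-/

set_option autoImplicit false

namespace CTQ

open FirstOrder Set Pool.Agent.Helper6.Str

theorem sat_mapV {L : FirstOrder.Language.{0, 0}} {M : Type} (S : L.Structure M) {k l : ℕ}
    (ι : Fin k → Fin l) (hι : Function.Injective ι) (φ : VPF.FV L k) :
    ∀ v : Fin l → M, (mapV ι φ).Sat S v ↔ φ.Sat S (v ∘ ι) := by
  induction φ with
  | eq i j => intro v; exact Iff.rfl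
  | rel R w => intro v; exact Iff.rfl
  | neg φ ih => intro v; exact not_congr (ih v)
  | conj φ ih => intro v; exact forall_congr' fun m => ih m v
  | ex i φ ih =>
    intro v
    refine exists_congr fun a => ?_
    rw [ih]
    have h : Function.update v (ι i) a ∘ ι = Function.update (v ∘ ι) i a := by
      funext j
      by_cases hj : j = i
      · subst hj; simp
      · simp [Function.update_of_ne hj, Function.update_of_ne (hι.ne hj)]
    rw [h]

theorem modV_mapV {L : FirstOrder.Language.{0, 0}} {k l : ℕ}
    (ι : Fin k → Fin l) (hι : Function.Injective ι) (φ : VPF.FV L k) :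
    VPF.ModV (mapV ι φ) = VPF.ModV φ := by
  ext S
  constructor
  · intro h v
    have h1 := (sat_mapV S ι hι φ (Function.extend ι v (fun _ => 0))).mp (h _)
    rwa [Function.extend_comp hι] at h1
  · intro h v
    exact (sat_mapV S ι hι φ v).mpr (h _)

/-- Three variables, one binary relation symbol: they imply the full conjecture. -/
theorem thm_THS : St_THS := by
  intro k hk H L hL T
  refine VPF.thm_C (fun _ => True) trivial (Or.inl trivial) ?_ L hL T
  intro L' h1 h2 h3 T' _
  have := h1
  have := h2
  have key := Pool.Agent.CTQ.thm_SHJ (fun L'' g1 g2 g3 φ => by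
    have h := H L'' g1 g2 g3 (mapV (Fin.castLE hk) φ)
    rwa [modV_mapV (Fin.castLE hk) (Fin.castLE_injective hk) φ] at h) L' T'
      (.conj fun _ => .neg (.ex (.neg (.eq 0 0))))
  have e : {S : L'.Structure ℕ | Pool.Agent.Helper6.VC.IsMod T'
      (.conj fun _ => .neg (.ex (.neg (.eq 0 0)))) S} = VPF.ModF T' := by
    ext S
    constructor
    · intro h
      exact h.1
    · intro h
      refine ⟨h, ?_⟩
      intro _ h2
      obtain ⟨a, ha⟩ := h2
      exact ha rfl
  rwa [e] at key

end CTQ
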